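import Pool.Agent.KS6_67.Sat.Basic

set_option autoImplicit false

namespace Pool.Agent.KS6_67.Sat

open Finset

/-- Two windows whose span does not wrap around the whole cycle meet in at most
`k - (b-a) d` points. -/
lemma inter_le {n k d : ℕ} (σ : Equiv.Perm (Fin n)) (a t : ℕ) (hn : 0 < n)
    (hspan : t * d + k ≤ n) :
    (win n k d σ a ∩ win n k d σ (a + t)).card ≤ k - t * d := by
  have hsub : win n k d σ a ∩ win n k d σ (a + t) ⊆
      (Finset.range (k - t * d)).image
        (fun j : ℕ => σ.symm ⟨((a + t) * d + j) % n, Nat.mod_lt _ hn⟩) := by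
    intro v hv
    rw [Finset.mem_inter, mem_win, mem_win] at hv
    obtain ⟨⟨j, hj, hj2⟩, ⟨j', hj', hj2'⟩⟩ := hv
    have h1 : (a * d + j) ≡ (a * d + (t * d + j')) [MOD n] := by
      show (a * d + j) % n = (a * d + (t * d + j')) % n
      rw [← hj2, hj2']
      congr 1
      ring
    have h2 : j ≡ t * d + j' [MOD n] := Nat.ModEq.add_left_cancel' _ h1
    have h3 := Nat.ModEq.eq_of_lt_of_lt h2 (by omega) (by omega)
    rw [Finset.mem_image]
    refine ⟨j', by rw [Finset.mem_range]; omega, ?_⟩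
    rw [Equiv.symm_apply_eq]
    apply Fin.ext
    simp only
    rw [hj2']
  refine (Finset.card_le_card hsub).trans (Finset.card_image_le.trans ?_)
  simp

lemma win_add_period {n k d m : ℕ} (hn : n = m * d) (σ : Equiv.Perm (Fin n)) (a : ℕ) :
    win n k d σ (a + m) = win n k d σ a := by
  ext v
  rw [mem_win, mem_win]
  have : ∀ j, ((a + m) * d + j) % n = (a * d + j) % n := by
    intro j
    have : (a + m) * d + j = a * d + j + n := by rw [hn]; ring
    rw [this, Nat.add_mod_right]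
  simp only [this]

lemma card_win_le {n k d : ℕ} (σ : Equiv.Perm (Fin n)) (a : ℕ) (hn : 0 < n) :
    (win n k d σ a).card ≤ k := by
  have hsub : win n k d σ a ⊆
      (Finset.range k).image
        (fun j : ℕ => σ.symm ⟨(a * d + j) % n, Nat.mod_lt _ hn⟩) := by
    intro v hv
    rw [mem_win] at hv
    obtain ⟨j, hj, hj2⟩ := hv
    rw [Finset.mem_image]
    refine ⟨j, by rw [Finset.mem_range]; omega, ?_⟩
    rw [Equiv.symm_apply_eq]
    apply Fin.ext
    simp only
    rw [hj2]
  refine (Finset.card_le_card hsub).trans (Finset.card_image_le.trans ?_)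
  simp

lemma card_win {n k d : ℕ} (σ : Equiv.Perm (Fin n)) (a : ℕ) (hn : k ≤ n) :
    (win n k d σ a).card = k := by
  rcases Nat.eq_zero_or_pos k with hk | hk
  · subst hk
    simp [win]
  have hn0 : 0 < n := by omega
  have heq : win n k d σ a =
      (Finset.range k).image
        (fun j : ℕ => σ.symm ⟨(a * d + j) % n, Nat.mod_lt _ hn0⟩) := by
    ext v
    rw [mem_win, Finset.mem_image]
    constructor
    · rintro ⟨j, hj, hj2⟩
      refine ⟨j, by rw [Finset.mem_range]; omega, ?_⟩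
      rw [Equiv.symm_apply_eq]
      apply Fin.ext
      simp only
      rw [hj2]
    · rintro ⟨j, hj, rfl⟩
      refine ⟨j, by rwa [Finset.mem_range] at hj, ?_⟩
      simp
  rw [heq, Finset.card_image_of_injOn]
  · simp
  · intro x hx y hy hxy
    simp only [Finset.coe_range, Set.mem_Iio] at hx hy
    have h1 := σ.symm.injective hxy
    simp only [Fin.mk.injEq] at h1
    have h3 : x ≡ y [MOD n] := Nat.ModEq.add_left_cancel' _ h1
    exact Nat.ModEq.eq_of_lt_of_lt h3 (by omega) (by omega)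

/-- Counting vertices of `Q` in a window through positions. -/
lemma le_card_win_inter {n k d : ℕ} (σ : Equiv.Perm (Fin n)) (w : ℕ) (Q : Finset (Fin n))
    (A : Finset ℕ) (h1 : ∀ p ∈ A, p < n) (h2 : ∀ p ∈ A, ∃ j, j < k ∧ p = (w * d + j) % n)
    (h3 : ∀ p ∈ A, ∀ v : Fin n, ((σ v : Fin n) : ℕ) = p → v ∈ Q) :
    A.card ≤ (win n k d σ w ∩ Q).card := by
  have hsub : A ⊆ (win n k d σ w ∩ Q).image (fun v => ((σ v : Fin n) : ℕ)) := by
    intro p hp
    obtain ⟨j, hj, hj2⟩ := h2 p hp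
    have hpn := h1 p hp
    rw [Finset.mem_image]
    refine ⟨σ.symm ⟨p, hpn⟩, ?_, by simp⟩
    rw [Finset.mem_inter, mem_win]
    refine ⟨⟨j, hj, by simp [← hj2]⟩, h3 p hp _ (by simp)⟩
  exact (Finset.card_le_card hsub).trans Finset.card_image_le

/-- Extension of demands to a permutation. -/
theorem exists_perm {n : ℕ} {ι : Type*} (P : ι → Finset ℕ) (U : ι → Finset (Fin n))
    (hP : ∀ i j p, p ∈ P i → p ∈ P j → i = j)
    (hU : ∀ i j v, v ∈ U i → v ∈ U j → i = j)
    (hc : ∀ i, (P i).card ≤ (U i).card) :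
    ∃ σ : Equiv.Perm (Fin n), ∀ i v, ((σ v : Fin n) : ℕ) ∈ P i → v ∈ U i := by
  classical
  have hemb : ∀ i, Nonempty ({x // x ∈ P i} ↪ {x // x ∈ U i}) := by
    intro i
    apply Function.Embedding.nonempty_of_card_le
    simpa using hc i
  let g := fun i => (hemb i).some
  let f : Fin n → Fin n := fun p =>
    if h : ∃ i, (p : ℕ) ∈ P i then (g h.choose ⟨(p : ℕ), h.choose_spec⟩ : Fin n) else p
  have hf : ∀ i (p : Fin n) (hp : (p : ℕ) ∈ P i), f p = (g i ⟨(p : ℕ), hp⟩ : Fin n) := by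
    intro i p hp
    have h : ∃ i, (p : ℕ) ∈ P i := ⟨i, hp⟩
    have hi : h.choose = i := hP _ _ _ h.choose_spec hp
    have key : ∀ i' (h' : (p : ℕ) ∈ P i'), i' = i →
        (g i' ⟨(p : ℕ), h'⟩ : Fin n) = (g i ⟨(p : ℕ), hp⟩ : Fin n) := by
      rintro i' h' rfl
      rfl
    simp only [f, dif_pos h]
    exact key _ _ hi
  let s : Finset (Fin n) := Finset.univ.filter (fun p => ∃ i, (p : ℕ) ∈ P i)
  have hinj : Set.InjOn f s := by
    intro p hp q hq hpq
    simp only [s, Finset.coe_filter, Finset.mem_univ, true_and, Set.mem_ofPred_eq] at hp hq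
    obtain ⟨i, hi⟩ := hp
    obtain ⟨j, hj⟩ := hq
    rw [hf i p hi, hf j q hj] at hpq
    have h1 : (g i ⟨(p : ℕ), hi⟩ : Fin n) ∈ U i := (g i ⟨(p : ℕ), hi⟩).2
    have h2 : (g j ⟨(q : ℕ), hj⟩ : Fin n) ∈ U j := (g j ⟨(q : ℕ), hj⟩).2
    have hij : i = j := hU i j _ h1 (hpq ▸ h2)
    subst hij
    have h3 := Subtype.ext hpq
    have h4 := (g i).injective h3
    simp only [Subtype.mk.injEq] at h4
    exact Fin.ext h4
  obtain ⟨τ, hτ⟩ := Finset.exists_equiv_extend_of_card_eq (α := Fin n) (β := Fin n)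
    (t := Finset.univ) (by simp) (s := s) (f := f) (Finset.subset_univ _) hinj
  let τ' : Equiv.Perm (Fin n) := τ.trans (Equiv.subtypeUnivEquiv (fun x => Finset.mem_univ x))
  have hτ' : ∀ p ∈ s, τ' p = f p := by
    intro p hp
    exact hτ p hp
  refine ⟨τ'.symm, ?_⟩
  intro i v hv
  have hvs : τ'.symm v ∈ s := by
    simp only [s, Finset.mem_filter, Finset.mem_univ, true_and]
    exact ⟨i, hv⟩
  have h1 := hτ' _ hvs
  rw [Equiv.apply_symm_apply] at h1
  rw [h1, hf i _ hv]
  exact (g i ⟨_, hv⟩).2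

end Pool.Agent.KS6_67.Sat
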