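import Mathlib

set_option autoImplicit false

namespace Pool.Agent.KS6_67.Sat

/-- Adjacency (one direction) of the flower snark `J_t` on `{0, …, 4t-1}`: the vertex `4 i + x` is
the vertex `x` of block `i`; `x = 3` is the centre of the block, `x = 0, 1, 2` are the track
vertices.  Tracks run straight from block `i` to block `i + 1`, and from block `t - 1` to block `0`
with tracks `1` and `2` interchanged. -/
def fadj0 (t a b : ℕ) : Prop :=
  a < 4 * t ∧ b < 4 * t ∧
    ((a / 4 = b / 4 ∧ a % 4 < 3 ∧ b % 4 = 3) ∨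
     (b / 4 = a / 4 + 1 ∧ a % 4 < 3 ∧ b % 4 = a % 4) ∨
     (a / 4 + 1 = t ∧ b / 4 = 0 ∧ ((a % 4 = 0 ∧ b % 4 = 0) ∨ (a % 4 = 1 ∧ b % 4 = 2) ∨
        (a % 4 = 2 ∧ b % 4 = 1))))

/-- Adjacency of the flower snark. -/
def fadj (t a b : ℕ) : Prop := fadj0 t a b ∨ fadj0 t b a

/-- Cyclic distance at least `3` of the blocks of `a` and `b`. -/
def far (t a b : ℕ) : Prop :=
  (a / 4 + 3 ≤ b / 4 ∨ b / 4 + 3 ≤ a / 4) ∧ (a / 4 + 3 ≤ b / 4 + t) ∧ (b / 4 + 3 ≤ a / 4 + t)

instance (t a b : ℕ) : Decidable (fadj0 t a b) := by unfold fadj0; infer_instance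
instance (t a b : ℕ) : Decidable (fadj t a b) := by unfold fadj; infer_instance
instance (t a b : ℕ) : Decidable (far t a b) := by unfold far; infer_instance

/-- `L` is a Hamiltonian path of `J_t` from `u` to `v` whose second vertex is not `x` and whose
last but one vertex is not `z`. -/
def GoodPath (t u v x z : ℕ) (L : List ℕ) : Prop :=
  L.head? = some u ∧ L.getLast? = some v ∧ L.Nodup ∧ (∀ a, a ∈ L ↔ a < 4 * t) ∧
    L.IsChain (fadj t) ∧ L[1]? ≠ some x ∧ L.reverse[1]? ≠ some z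

end Pool.Agent.KS6_67.Sat
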