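import Pool.Agent.KS6_67.Sat.CoreDef

set_option autoImplicit false

namespace Pool.Agent.KS6_67.Sat

/-- number of the edge `u v` at `u` -/
def port (t u v : ℕ) : ℕ :=
  if u / 4 = v / 4 then (if u % 4 = 3 then v % 4 else 2)
  else if v / 4 = u / 4 + 1 ∨ (u / 4 + 1 = t ∧ v / 4 = 0) then 0 else 1

lemma fadj_symm {t u v : ℕ} (h : fadj t u v) : fadj t v u := h.symm

lemma fadj_ne {t u v : ℕ} (ht : 3 ≤ t) (h : fadj t u v) : u ≠ v := by
  unfold fadj fadj0 at h
  omega

lemma fadj_lt {t u v : ℕ} (h : fadj t u v) : u < 4 * t ∧ v < 4 * t := by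
  unfold fadj fadj0 at h
  omega

lemma port_lt {t u v : ℕ} (h : fadj t u v) : port t u v < 3 := by
  unfold fadj fadj0 at h
  unfold port
  split_ifs <;> omega

lemma port_inj {t u v w : ℕ} (ht : 3 ≤ t) (h : fadj t u v) (h' : fadj t u w)
    (hp : port t u v = port t u w) : v = w := by
  unfold fadj fadj0 at h h'
  unfold port at hp
  split_ifs at hp <;> omega

/-- far blobs are different and not adjacent -/
lemma far_not_adj {t u v : ℕ} (h : far t u v) : ¬ fadj t u v := by
  unfold far at h
  unfold fadj fadj0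
  omega

lemma far_ne {t u v : ℕ} (h : far t u v) : u ≠ v := by
  unfold far at h
  omega

lemma far_symm {t u v : ℕ} (h : far t u v) : far t v u := by
  unfold far at h ⊢
  omega

end Pool.Agent.KS6_67.Sat
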