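import Pool.Agent.KS6_67.Sat.ArrE2
import Pool.Agent.KS6_56.Snark.Core
import Pool.Agent.KS6_56.Snark.NoWalk

set_option autoImplicit false

namespace Pool.Agent.KS6_67.Sat

theorem corePath_holds (t : ℕ) (ht : t % 2 = 1) (h7 : 7 ≤ t) : CorePath t := by
  intro u v hu hv h
  obtain ⟨L, hL⟩ := Pool.Agent.KS6_56.Snark.core_paths ht h7 u v hu hv h 0 0
  exact ⟨L, hL.1, hL.2.1, hL.2.2.1, hL.2.2.2.1, hL.2.2.2.2.1⟩

theorem noWalk_holds (t : ℕ) (ht : t % 2 = 1) (h7 : 7 ≤ t) : NoWalk t := by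
  intro m b h1 h2 h3 h4 h5
  exact Pool.Agent.KS6_56.Snark.no_walk ht (by omega) b h1 h2 h3 h4 h5

/-- the tight case `l = k - 1` -/
theorem goodE (κ : ℕ) (hκ : 2 ≤ κ) : Good (κ + 1) κ :=
  goodE_of κ hκ corePath_holds noWalk_holds

end Pool.Agent.KS6_67.Sat
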