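import Pool.Agent.KS6_67.Sat.RegB2
import Pool.Agent.KS6_67.Sat.RegE
import Pool.Agent.KS6_56.Snark.RegD

set_option autoImplicit false

namespace Pool.Agent.KS6_67.Sat

/-- the core data exist for all `1 ≤ l < k` -/
theorem good_all {k l : ℕ} (h1 : 1 ≤ l) (h2 : l < k) : Good k l := by
  rcases Nat.eq_or_lt_of_le h1 with h3 | h3
  · -- l = 1
    subst h3
    obtain ⟨d, rfl⟩ : ∃ d, k = d + 1 := ⟨k - 1, by omega⟩
    exact Pool.Agent.KS6_56.Snark.goodD d (by omega)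
  · rcases Nat.lt_or_ge (l + 1) k with h4 | h4
    · exact good_mid h3 h4
    · obtain rfl : k = l + 1 := by omega
      exact goodE l h3

/-- sat(n,k,l) = Θ(n^l) -/
theorem sat_theta {k l : ℕ} (h1 : 1 ≤ l) (h2 : l < k) :
    ∃ c C : ℝ, 0 < c ∧ 0 < C ∧ ∃ N : ℕ, ∀ n : ℕ, N ≤ n → (k - l) ∣ n →
      (∃ H : Finset (Finset (Fin n)), Satd n k (k - l) H ∧ (H.card : ℝ) ≤ C * (n : ℝ) ^ l) ∧
      (∀ H : Finset (Finset (Fin n)), Satd n k (k - l) H → c * (n : ℝ) ^ l ≤ (H.card : ℝ)) :=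
  final h1 h2 (good_all h1 h2)

end Pool.Agent.KS6_67.Sat
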