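import Pool.Agent.KS6_67.Sat.Count

set_option autoImplicit false

namespace Pool.Agent.KS6_67.Sat

open Finset

/-- first mandatory offset in the block number `t` (relative) of class number `i` -/
def lo (l i t : ℕ) : ℕ := if t = 0 then (if i = 0 then l else l - 1) else 0

/-- number of mandatory offsets in a middle block `τ` -/
def wmid (d l c α τ : ℕ) : ℕ :=
  max (if (c - τ) % 2 = 0 then max l (d + 1 - l) else d + 1 - l)
    (if τ = 2 then min l (d + 1 - α) else 0)

/-- end of the mandatory offsets -/
def hi (d l α β N c i t : ℕ) : ℕ :=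
  if t = 0 then (if i = 0 then max l (d + 1 - α) else d)
  else if t = c then (if i + 1 = N then 0 else 1)
  else if t + 1 = c then (if i + 1 = N then max l (d + 1 - β) else d)
  else wmid d l c (if i = 0 then α else 1) (t + 1)

lemma wmid_le {d l c α τ : ℕ} (hl : 1 ≤ l) (hld : l ≤ d) : wmid d l c α τ ≤ d := by
  unfold wmid
  split_ifs <;> omega

lemma hi_le {d l α β N c i t : ℕ} (hl : 1 ≤ l) (hld : l ≤ d) (hα : 1 ≤ α) (hβ : 1 ≤ β) :
    hi d l α β N c i t ≤ d := by
  unfold hi
  split_ifs
  · omega
  · omega
  · omega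
  · omega
  · omega
  · omega
  · exact wmid_le hl hld
  · exact wmid_le hl hld

lemma wmid_ge {d l c α τ : ℕ} : d + 1 - l ≤ wmid d l c α τ := by
  unfold wmid
  split_ifs <;> omega

lemma wmid_pair {d l c α τ : ℕ} (hld : l ≤ d) (hτ : τ + 1 ≤ c) :
    d + 1 ≤ wmid d l c α τ + min (wmid d l c α (τ + 1)) l := by
  rcases Nat.mod_two_eq_zero_or_one (c - τ) with h | h
  · have h1 : max l (d + 1 - l) ≤ wmid d l c α τ := by
      unfold wmid
      rw [if_pos h]
      exact le_max_left _ _
    have h2 : d + 1 - l ≤ wmid d l c α (τ + 1) := wmid_ge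
    omega
  · have h1 : d + 1 - l ≤ wmid d l c α τ := wmid_ge
    have h2 : max l (d + 1 - l) ≤ wmid d l c α (τ + 1) := by
      unfold wmid
      rw [if_pos (by omega)]
      exact le_max_left _ _
    omega

lemma wmid_two {d l c α : ℕ} : min l (d + 1 - α) ≤ wmid d l c α 2 := by
  unfold wmid
  split_ifs <;> omega

lemma hi_zero {d l α β N c i : ℕ} :
    hi d l α β N c i 0 = if i = 0 then max l (d + 1 - α) else d := by
  simp [hi]

lemma hi_c {d l α β N c i : ℕ} (hc : 2 ≤ c) :
    hi d l α β N c i c = if i + 1 = N then 0 else 1 := by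
  unfold hi
  rw [if_neg (by omega), if_pos rfl]

lemma hi_last {d l α β N c i t : ℕ} (hc : 2 ≤ c) (ht : t + 1 = c) :
    hi d l α β N c i t = if i + 1 = N then max l (d + 1 - β) else d := by
  unfold hi
  rw [if_neg (by omega), if_neg (by omega), if_pos ht]

lemma hi_mid {d l α β N c i t : ℕ} (h0 : 1 ≤ t) (ht : t + 1 < c) :
    hi d l α β N c i t = wmid d l c (if i = 0 then α else 1) (t + 1) := by
  unfold hi
  rw [if_neg (by omega), if_neg (by omega), if_neg (by omega)]

lemma lo_pos {l i t : ℕ} (h : 1 ≤ t) : lo l i t = 0 := by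
  unfold lo
  rw [if_neg (by omega)]

/-- the generic window inequality -/
lemma win_generic {d l α β N c i t : ℕ} (hl : 2 ≤ l) (hld : l ≤ d)
    (hc : 2 ≤ c) (ht : t < c) (h0 : ¬ (i = 0 ∧ t = 0)) (h1 : ¬ (i + 1 = N ∧ t + 1 = c)) :
    d + 1 ≤ (hi d l α β N c i t - lo l i t) + min (hi d l α β N c i (t + 1)) l := by
  by_cases hA : t = 0
  · subst hA
    have hi0 : ¬ i = 0 := fun h => h0 ⟨h, rfl⟩
    rw [hi_zero, if_neg hi0]
    have hlo : lo l i 0 = l - 1 := by simp [lo, hi0]
    rw [hlo]
    by_cases hc2 : 2 = c
    · rw [zero_add, hi_last hc hc2]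
      split_ifs <;> omega
    · rw [zero_add, hi_mid (le_refl 1) (by omega), if_neg hi0]
      have : min l (d + 1 - 1) ≤ wmid d l c 1 (1 + 1) := wmid_two
      omega
  · rw [lo_pos (by omega)]
    by_cases hB : t + 1 = c
    · have hiN : ¬ i + 1 = N := fun h => h1 ⟨h, hB⟩
      rw [hi_last hc hB, if_neg hiN, hB, hi_c hc, if_neg hiN]
      omega
    · rw [hi_mid (by omega) (by omega)]
      by_cases hC : t + 1 + 1 = c
      · rw [hi_last hc hC]
        have := wmid_ge (d := d) (l := l) (c := c) (α := if i = 0 then α else 1) (τ := t + 1)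
        split_ifs at * <;> omega
      · rw [hi_mid (by omega) (by omega)]
        have := wmid_pair (d := d) (l := l) (c := c) (α := if i = 0 then α else 1) (τ := t + 1)
          hld (by omega)
        omega

lemma win_first {d l α β N c : ℕ} (hl : 2 ≤ l) (hld : l ≤ d) (hαl : α ≤ l)
    (hN : 2 ≤ N) (hc : 2 ≤ c) :
    d + 1 ≤ α + (hi d l α β N c 0 0 - lo l 0 0) + min (hi d l α β N c 0 1) l := by
  rw [hi_zero, if_pos rfl]
  have hlo : lo l 0 0 = l := by simp [lo]
  rw [hlo]
  by_cases hc2 : 1 + 1 = c
  · rw [hi_last hc hc2, if_neg (by omega)]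
    omega
  · rw [hi_mid (le_refl 1) (by omega), if_pos rfl]
    have : min l (d + 1 - α) ≤ wmid d l c α (1 + 1) := wmid_two
    omega

lemma win_last {d l α β N c i t : ℕ} (hl : 2 ≤ l) (hld : l ≤ d)
    (hβl : β ≤ l) (hi1 : i + 1 = N) (hc : 2 ≤ c) (ht : t + 1 = c) :
    d + 1 ≤ β + (hi d l α β N c i t - lo l i t) := by
  rw [hi_last hc ht, if_pos hi1, lo_pos (by omega)]
  omega

/-- total demand of an even class -/
lemma sum_even {d l α β N i μ : ℕ} (hld : l ≤ d)
    (hμ : μ = max (d + 1) (2 * (d + 1 - l))) (j : ℕ) :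
    ∑ t ∈ Finset.range (2 * (j + 1) + 1), (hi d l α β N (2 * (j + 1)) i t - lo l i t) =
      (if i = 0 then max l (d + 1 - α) - l else d - (l - 1)) + j * μ +
        (if i + 1 = N then max l (d + 1 - β) else d) + (if i + 1 = N then 0 else 1) := by
  have h1 : 2 * (j + 1) + 1 = (2 * j + 1) + 1 + 1 := by ring
  rw [h1, Finset.sum_range_succ, Finset.sum_range_succ, Finset.sum_range_succ']
  have h2 : hi d l α β N (2 * (j + 1)) i (2 * j + 1 + 1) - lo l i (2 * j + 1 + 1) =
      if i + 1 = N then 0 else 1 := by
    have : 2 * j + 1 + 1 = 2 * (j + 1) := by ring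
    rw [this, hi_c (by omega), lo_pos (by omega), Nat.sub_zero]
  have h3 : hi d l α β N (2 * (j + 1)) i (2 * j + 1) - lo l i (2 * j + 1) =
      if i + 1 = N then max l (d + 1 - β) else d := by
    rw [hi_last (by omega) (by ring), lo_pos (by omega), Nat.sub_zero]
  have h4 : hi d l α β N (2 * (j + 1)) i 0 - lo l i 0 =
      if i = 0 then max l (d + 1 - α) - l else d - (l - 1) := by
    rw [hi_zero]
    unfold lo
    split_ifs <;> simp_all
  rw [h2, h3, h4]
  have h5 : ∀ j' ≤ j, ∑ t ∈ Finset.range (2 * j'),
      (hi d l α β N (2 * (j + 1)) i (t + 1) - lo l i (t + 1)) = j' * μ := by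
    intro j'
    induction j' with
    | zero => intro _; simp
    | succ j' ih =>
      intro hj'
      have h6 : 2 * (j' + 1) = 2 * j' + 1 + 1 := by ring
      rw [h6, Finset.sum_range_succ, Finset.sum_range_succ, ih (by omega)]
      rw [hi_mid (by omega) (by omega), hi_mid (by omega) (by omega), lo_pos (by omega),
        lo_pos (by omega)]
      have h7 : wmid d l (2 * (j + 1)) (if i = 0 then α else 1) (2 * j' + 1 + 1) =
          max l (d + 1 - l) := by
        unfold wmid
        rw [if_pos (by omega)]
        split_ifs <;> omega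
      have h8 : wmid d l (2 * (j + 1)) (if i = 0 then α else 1) (2 * j' + 1 + 1 + 1) =
          d + 1 - l := by
        unfold wmid
        rw [if_neg (by omega), if_neg (by omega)]
        omega
      rw [h7, h8]
      have h9 : (j' + 1) * μ = j' * μ + μ := by ring
      rw [h9]
      omega
  rw [h5 j le_rfl]
  ring

lemma sum_three {d l α β N i : ℕ} (hN : i + 1 ≠ N) :
    ∑ t ∈ Finset.range (3 + 1), (hi d l α β N 3 i t - lo l i t) =
      (if i = 0 then max l (d + 1 - α) - l else d - (l - 1)) +
        max (d + 1 - l) (min l (d + 1 - (if i = 0 then α else 1))) + d + 1 := by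
  rw [Finset.sum_range_succ, Finset.sum_range_succ, Finset.sum_range_succ, Finset.sum_range_succ,
    Finset.sum_range_zero]
  have h2 : hi d l α β N 3 i 3 - lo l i 3 = 1 := by
    rw [hi_c (by omega), lo_pos (by omega), if_neg hN]
  have h3 : hi d l α β N 3 i 2 - lo l i 2 = d := by
    rw [hi_last (by omega) rfl, lo_pos (by omega), Nat.sub_zero, if_neg hN]
  have h4 : hi d l α β N 3 i 0 - lo l i 0 =
      if i = 0 then max l (d + 1 - α) - l else d - (l - 1) := by
    rw [hi_zero]
    unfold lo
    split_ifs <;> simp_all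
  have h5 : hi d l α β N 3 i 1 - lo l i 1 =
      max (d + 1 - l) (min l (d + 1 - (if i = 0 then α else 1))) := by
    rw [hi_mid le_rfl (by omega), lo_pos le_rfl, Nat.sub_zero]
    unfold wmid
    rw [if_neg (by omega), if_pos rfl]
  rw [h2, h3, h4, h5]
  ring

/-! ### Prefix sums -/

/-- prefix sums of the capacities -/
def pre (c : ℕ → ℕ) (i : ℕ) : ℕ := ∑ j ∈ Finset.range i, c j

lemma pre_succ (c : ℕ → ℕ) (i : ℕ) : pre c (i + 1) = pre c i + c i := by
  unfold pre
  rw [Finset.sum_range_succ]

lemma pre_mono (c : ℕ → ℕ) {i j : ℕ} (h : i ≤ j) : pre c i ≤ pre c j := by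
  unfold pre
  exact Finset.sum_le_sum_of_subset (Finset.range_subset_range.mpr h)

lemma pre_zero (c : ℕ → ℕ) : pre c 0 = 0 := by simp [pre]

lemma exists_class (c : ℕ → ℕ) (N w : ℕ) (h1 : 1 ≤ w) (h2 : w ≤ pre c N) :
    ∃ i < N, pre c i < w ∧ w ≤ pre c (i + 1) := by
  induction N with
  | zero => rw [pre_zero] at h2; omega
  | succ N ih =>
    by_cases h : w ≤ pre c N
    · obtain ⟨i, hi, h3⟩ := ih h
      exact ⟨i, by omega, h3⟩
    · exact ⟨N, by omega, by omega, h2⟩

/-- mandatory positions of class `i` -/
def pat (d l α β N : ℕ) (c : ℕ → ℕ) (i : ℕ) : Finset ℕ :=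
  (Finset.range (c i + 1)).biUnion (fun t =>
    Finset.Ico ((pre c i + 1 + t) * d + lo l i t)
      ((pre c i + 1 + t) * d + hi d l α β N (c i) i t))

lemma mem_pat {d l α β N : ℕ} {c : ℕ → ℕ} {i p : ℕ} :
    p ∈ pat d l α β N c i ↔ ∃ t, t < c i + 1 ∧ (pre c i + 1 + t) * d + lo l i t ≤ p ∧
      p < (pre c i + 1 + t) * d + hi d l α β N (c i) i t := by
  simp [pat]

lemma card_pat_le {d l α β N : ℕ} {c : ℕ → ℕ} {i : ℕ} :
    (pat d l α β N c i).card ≤
      ∑ t ∈ Finset.range (c i + 1), (hi d l α β N (c i) i t - lo l i t) := by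
  unfold pat
  refine Finset.card_biUnion_le.trans (Finset.sum_le_sum ?_)
  intro t _
  rw [Nat.card_Ico]
  omega

lemma pat_lower {d l α β N : ℕ} {c : ℕ → ℕ} {i p : ℕ} (hl : 2 ≤ l) (hld : l ≤ d)
    (hp : p ∈ pat d l α β N c i) : (pre c i + 1) * d + 1 ≤ p ∧ (i = 0 → d + l ≤ p) := by
  rw [mem_pat] at hp
  obtain ⟨t, ht, h1, h2⟩ := hp
  by_cases h0 : t = 0
  · subst h0
    unfold lo at h1
    rw [if_pos rfl] at h1
    rw [add_zero] at h1
    split_ifs at h1 with h3
    · subst h3
      rw [pre_zero] at *
      omega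
    · exact ⟨by omega, fun h => absurd h h3⟩
  · have h3 : (pre c i + 1 + t) * d = (pre c i + 1) * d + t * d := by ring
    have h4 : d ≤ t * d := Nat.le_mul_of_pos_left d (by omega)
    have h6 : d ≤ (pre c i + 1) * d := Nat.le_mul_of_pos_left d (by omega)
    exact ⟨by omega, fun _ => by omega⟩

lemma pat_upper {d l α β N : ℕ} {c : ℕ → ℕ} {i p : ℕ} (hl : 2 ≤ l) (hld : l ≤ d)
    (hα : 1 ≤ α) (hβ : 1 ≤ β) (hc : 2 ≤ c i)
    (hp : p ∈ pat d l α β N c i) :
    p < (pre c (i + 1) + 1) * d + 1 ∧ (i + 1 = N → p < (pre c (i + 1) + 1) * d) := by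
  rw [mem_pat] at hp
  obtain ⟨t, ht, h1, h2⟩ := hp
  have hs : pre c (i + 1) = pre c i + c i := pre_succ c i
  by_cases h0 : t = c i
  · rw [h0, hi_c hc] at h2
    have h3 : pre c i + 1 + c i = pre c (i + 1) + 1 := by omega
    rw [h3] at h2
    rw [h0, h3, lo_pos (by omega)] at h1
    split_ifs at h2 with h4
    · omega
    · exact ⟨h2, fun h => absurd h h4⟩
  · have h3 := hi_le (d := d) (l := l) (α := α) (β := β) (N := N) (c := c i) (i := i) (t := t)
      (by omega) hld hα hβ
    have h4 : (pre c i + 1 + t) * d + d = (pre c i + 1 + t + 1) * d := by ring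
    have h5 : (pre c i + 1 + t + 1) * d ≤ (pre c (i + 1) + 1) * d :=
      Nat.mul_le_mul_right d (by omega)
    exact ⟨by omega, fun _ => by omega⟩

/-- The arrangement theorem. -/
theorem arrA {n k d l m N : ℕ} (hk : k = d + l) (hl : 2 ≤ l) (hld : l ≤ d) (hn : n = m * d)
    (hN : 2 ≤ N) (c : ℕ → ℕ) (hc : ∀ i < N, 2 ≤ c i) (hsum : pre c N + 1 = m)
    (Q : ℕ → Finset (Fin n)) (hQ : ∀ i j, i ≠ j → Disjoint (Q i) (Q j))
    (e : Finset (Fin n)) (he : e.card = k) (α β : ℕ)
    (hα : α = min (e ∩ Q 0).card l) (hβ : β = min (e ∩ Q (N - 1)).card l)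
    (hα1 : 1 ≤ α) (hβ1 : 1 ≤ β)
    (hcard : ∀ i < N, ∑ t ∈ Finset.range (c i + 1),
      (hi d l α β N (c i) i t - lo l i t) ≤ (Q i \ e).card) :
    ∃ σ : Equiv.Perm (Fin n), win n k d σ 0 = e ∧
      ∀ w, 1 ≤ w → w < m → ∃ i < N, d + 1 ≤ (win n k d σ w ∩ Q i).card := by
  classical
  have hd : 2 ≤ d := by omega
  have hm : 5 ≤ m := by
    have h1 : pre c 2 ≤ pre c N := pre_mono c hN
    have h2 : pre c 2 = c 0 + c 1 := by
      rw [show (2 : ℕ) = 1 + 1 from rfl, pre_succ, show (1 : ℕ) = 0 + 1 from rfl, pre_succ,
        pre_zero]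
      ring
    have h3 := hc 0 (by omega)
    have h4 := hc 1 (by omega)
    omega
  have hkn : k + d ≤ n := by
    have : 5 * d ≤ m * d := Nat.mul_le_mul_right d hm
    omega
  have hpatn : ∀ i < N, ∀ p ∈ pat d l α β N c i, k ≤ p ∧ p < n := by
    intro i hi p hp
    have h1 := pat_lower hl hld hp
    have h2 := pat_upper hl hld hα1 hβ1 (hc i hi) hp
    constructor
    · rcases Nat.eq_zero_or_pos i with h0 | h0
      · have := h1.2 h0
        omega
      · have h3 : pre c 1 ≤ pre c i := pre_mono c h0
        have h4 : pre c 1 = c 0 := by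
          rw [show (1 : ℕ) = 0 + 1 from rfl, pre_succ, pre_zero, zero_add]
        have h5 := hc 0 (by omega)
        have h6 : 3 * d ≤ (pre c i + 1) * d := Nat.mul_le_mul_right d (by omega)
        omega
    · by_cases h0 : i + 1 = N
      · have h3 := h2.2 h0
        rw [h0, hsum] at h3
        omega
      · have h3 : pre c (i + 1 + 1) ≤ pre c N := pre_mono c (by omega)
        have h4 : pre c (i + 1 + 1) = pre c (i + 1) + c (i + 1) := pre_succ c (i + 1)
        have h5 := hc (i + 1) (by omega)
        have h6 : (pre c (i + 1) + 1 + 2) * d ≤ m * d := Nat.mul_le_mul_right d (by omega)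
        have h7 : (pre c (i + 1) + 1 + 2) * d = (pre c (i + 1) + 1) * d + 2 * d := by ring
        omega
  set h := (e ∩ Q 0).card with hh
  set h' := (e ∩ Q (N - 1)).card with hh'
  have hdis0 : Disjoint (e ∩ Q 0) (e ∩ Q (N - 1)) :=
    (hQ 0 (N - 1) (by omega)).mono Finset.inter_subset_right Finset.inter_subset_right
  have hsumh : h + h' ≤ k := by
    rw [hh, hh', ← Finset.card_union_of_disjoint hdis0, ← he]
    exact Finset.card_le_card (Finset.union_subset Finset.inter_subset_left
      Finset.inter_subset_left)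
  let P : ℕ ⊕ Fin 3 → Finset ℕ := fun x => match x with
    | Sum.inl i => if i < N then pat d l α β N c i else ∅
    | Sum.inr 0 => Finset.Ico (k - h) k
    | Sum.inr 1 => Finset.range h'
    | Sum.inr 2 => Finset.Ico h' (k - h)
  let U : ℕ ⊕ Fin 3 → Finset (Fin n) := fun x => match x with
    | Sum.inl i => Q i \ e
    | Sum.inr 0 => e ∩ Q 0
    | Sum.inr 1 => e ∩ Q (N - 1)
    | Sum.inr 2 => e \ (e ∩ Q 0 ∪ e ∩ Q (N - 1))
  have hPk : ∀ (x : Fin 3) p, p ∈ P (Sum.inr x) → p < k := by
    intro x p hp
    fin_cases x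
    · simp only [P] at hp
      exact (Finset.mem_Ico.mp hp).2
    · simp only [P] at hp
      have := Finset.mem_range.mp hp
      omega
    · simp only [P] at hp
      have := (Finset.mem_Ico.mp hp).2
      omega
  have hPl : ∀ i p, p ∈ P (Sum.inl i) → i < N ∧ p ∈ pat d l α β N c i := by
    intro i p hp
    simp only [P] at hp
    split_ifs at hp with h1
    · exact ⟨h1, hp⟩
    · simp at hp
  have hUe : ∀ (x : Fin 3) v, v ∈ U (Sum.inr x) → v ∈ e := by
    intro x v hv
    fin_cases x
    · exact (Finset.mem_inter.mp hv).1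
    · exact (Finset.mem_inter.mp hv).1
    · exact (Finset.mem_sdiff.mp hv).1
  obtain ⟨σ, hσ⟩ := exists_perm P U
    (by
      intro x y p hx hy
      rcases x with i | x <;> rcases y with j | y
      · obtain ⟨hi, hpi⟩ := hPl i p hx
        obtain ⟨hj, hpj⟩ := hPl j p hy
        have h1 := pat_lower hl hld hpi
        have h2 := pat_upper hl hld hα1 hβ1 (hc i hi) hpi
        have h3 := pat_lower hl hld hpj
        have h4 := pat_upper hl hld hα1 hβ1 (hc j hj) hpj
        rcases Nat.lt_trichotomy i j with hij | hij | hij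
        · have h5 : pre c (i + 1) ≤ pre c j := pre_mono c hij
          have h6 : (pre c (i + 1) + 1) * d ≤ (pre c j + 1) * d :=
            Nat.mul_le_mul_right d (by omega)
          omega
        · rw [hij]
        · have h5 : pre c (j + 1) ≤ pre c i := pre_mono c hij
          have h6 : (pre c (j + 1) + 1) * d ≤ (pre c i + 1) * d :=
            Nat.mul_le_mul_right d (by omega)
          omega
      · obtain ⟨hi, hpi⟩ := hPl i p hx
        have h1 := (hpatn i hi p hpi).1
        have h2 := hPk y p hy
        omega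
      · obtain ⟨hj, hpj⟩ := hPl j p hy
        have h1 := (hpatn j hj p hpj).1
        have h2 := hPk x p hx
        omega
      · congr 1
        fin_cases x <;> fin_cases y <;> simp only [P, Finset.mem_Ico, Finset.mem_range] at hx hy <;>
          first
          | rfl
          | omega)
    (by
      intro x y v hx hy
      rcases x with i | x <;> rcases y with j | y
      · by_contra hne
        have hij : i ≠ j := fun h => hne (by rw [h])
        exact Finset.disjoint_left.mp (hQ i j hij) (Finset.mem_sdiff.mp hx).1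
          (Finset.mem_sdiff.mp hy).1
      · exact absurd (hUe y v hy) (Finset.mem_sdiff.mp hx).2
      · exact absurd (hUe x v hx) (Finset.mem_sdiff.mp hy).2
      · congr 1
        have hd0 := Finset.disjoint_left.mp hdis0
        fin_cases x <;> fin_cases y <;>
          simp only [U, Finset.mem_sdiff, Finset.mem_union] at hx hy <;>
          first
          | rfl
          | (exfalso; tauto))
    (by
      intro x
      rcases x with i | x
      · simp only [P]
        split_ifs with h1
        · exact card_pat_le.trans (hcard i h1)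
        · simp
      · fin_cases x
        · simp only [P, U, Nat.card_Ico]
          omega
        · simp only [P, U, Finset.card_range]
          omega
        · simp only [P, U, Nat.card_Ico]
          rw [Finset.card_sdiff_of_subset (Finset.union_subset Finset.inter_subset_left
            Finset.inter_subset_left), Finset.card_union_of_disjoint hdis0]
          omega)
  have hn0 : 0 < n := by omega
  refine ⟨σ, ?_, ?_⟩
  · -- the first window is `e`
    have hsub : win n k d σ 0 ⊆ e := by
      intro v hv
      rw [mem_win] at hv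
      obtain ⟨j, hj, hj2⟩ := hv
      rw [zero_mul, zero_add, Nat.mod_eq_of_lt (by omega)] at hj2
      by_cases h1 : j < h'
      · exact hUe 1 v (hσ (Sum.inr 1) v (by simp only [P]; rw [Finset.mem_range, hj2]; exact h1))
      · by_cases h2 : j < k - h
        · exact hUe 2 v (hσ (Sum.inr 2) v (by
            simp only [P]; rw [Finset.mem_Ico, hj2]; omega))
        · exact hUe 0 v (hσ (Sum.inr 0) v (by
            simp only [P]; rw [Finset.mem_Ico, hj2]; omega))
    exact Finset.eq_of_subset_of_card_le hsub (by rw [card_win σ 0 (by omega), he])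
  · intro w hw1 hw2
    obtain ⟨i, hlt, h1, h2⟩ := exists_class c N w hw1 (by omega)
    refine ⟨i, hlt, ?_⟩
    have hci := hc i hlt
    have hs := pre_succ c i
    obtain ⟨t, rfl⟩ : ∃ t, w = pre c i + 1 + t := ⟨w - (pre c i + 1), by omega⟩
    have ht : t < c i := by omega
    -- positions
    let A : Finset ℕ := Finset.Ico ((pre c i + 1 + t) * d + lo l i t)
        ((pre c i + 1 + t) * d + hi d l α β N (c i) i t) ∪
      Finset.Ico ((pre c i + 1 + (t + 1)) * d)
        ((pre c i + 1 + (t + 1)) * d + min (hi d l α β N (c i) i (t + 1)) l)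
    have hhi1 := hi_le (d := d) (l := l) (α := α) (β := β) (N := N) (c := c i) (i := i) (t := t)
      (by omega) hld hα1 hβ1
    have hstep : (pre c i + 1 + (t + 1)) * d = (pre c i + 1 + t) * d + d := by ring
    have hApat : ∀ p ∈ A, p ∈ pat d l α β N c i := by
      intro p hp
      rw [mem_pat]
      rw [Finset.mem_union, Finset.mem_Ico, Finset.mem_Ico] at hp
      rcases hp with hp | hp
      · exact ⟨t, by omega, hp⟩
      · refine ⟨t + 1, by omega, ?_, ?_⟩
        · rw [lo_pos (by omega)]
          omega
        · omega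
    have hAcard : A.card = (hi d l α β N (c i) i t - lo l i t) +
        min (hi d l α β N (c i) i (t + 1)) l := by
      rw [Finset.card_union_of_disjoint, Nat.card_Ico, Nat.card_Ico]
      · omega
      · rw [Finset.disjoint_left]
        intro p hp hp'
        rw [Finset.mem_Ico] at hp hp'
        omega
    have hAwin : ∀ p ∈ A, ∃ j, j < k ∧ p = ((pre c i + 1 + t) * d + j) % n := by
      intro p hp
      have h3 := (hpatn i hlt p (hApat p hp)).2
      rw [Finset.mem_union, Finset.mem_Ico, Finset.mem_Ico] at hp
      refine ⟨p - (pre c i + 1 + t) * d, by omega, ?_⟩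
      have h4 : (pre c i + 1 + t) * d + (p - (pre c i + 1 + t) * d) = p := by omega
      rw [h4, Nat.mod_eq_of_lt h3]
    have hAQ : ∀ p ∈ A, ∀ v : Fin n, ((σ v : Fin n) : ℕ) = p → v ∈ Q i := by
      intro p hp v hv
      have h3 := hσ (Sum.inl i) v (by
        simp only [P]
        rw [if_pos hlt, hv]
        exact hApat p hp)
      exact (Finset.mem_sdiff.mp h3).1
    by_cases hfirst : i = 0 ∧ t = 0
    · obtain ⟨rfl, rfl⟩ := hfirst
      have hB : d + 1 ≤ (A ∪ Finset.Ico (k - α) k).card := by
        rw [Finset.card_union_of_disjoint, hAcard, Nat.card_Ico]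
        · have h3 := win_first (d := d) (l := l) (α := α) (β := β) (N := N) (c := c 0) hl hld
            (by omega) hN hci
          rw [zero_add]
          omega
        · rw [Finset.disjoint_left]
          intro p hp hp'
          have h3 := (hpatn 0 hlt p (hApat p hp)).1
          rw [Finset.mem_Ico] at hp'
          omega
      refine hB.trans (le_card_win_inter σ _ (Q 0) _ ?_ ?_ ?_)
      · intro p hp
        rw [Finset.mem_union, Finset.mem_Ico] at hp
        rcases hp with hp | hp
        · exact (hpatn 0 hlt p (hApat p hp)).2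
        · omega
      · intro p hp
        rw [Finset.mem_union, Finset.mem_Ico] at hp
        rcases hp with hp | hp
        · exact hAwin p hp
        · refine ⟨p - d, by omega, ?_⟩
          rw [pre_zero]
          have h3 : (0 + 1 + 0) * d + (p - d) = p := by omega
          rw [h3, Nat.mod_eq_of_lt (by omega)]
      · intro p hp v hv
        rw [Finset.mem_union, Finset.mem_Ico] at hp
        rcases hp with hp | hp
        · exact hAQ p hp v hv
        · have h3 := hσ (Sum.inr 0) v (by
            simp only [P]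
            rw [Finset.mem_Ico, hv]
            omega)
          exact (Finset.mem_inter.mp h3).2
    · by_cases hlast : i + 1 = N ∧ t + 1 = c i
      · obtain ⟨hiN, htc⟩ := hlast
        have hiN' : N - 1 = i := by omega
        have hB : d + 1 ≤ (A ∪ Finset.range β).card := by
          rw [Finset.card_union_of_disjoint, hAcard, Finset.card_range]
          · have h3 := win_last (d := d) (l := l) (α := α) (β := β) (N := N) (c := c i) (i := i)
              (t := t) hl hld (by omega) hiN hci htc
            omega
          · rw [Finset.disjoint_left]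
            intro p hp hp'
            have h3 := (hpatn i hlt p (hApat p hp)).1
            rw [Finset.mem_range] at hp'
            omega
        refine hB.trans (le_card_win_inter σ _ (Q i) _ ?_ ?_ ?_)
        · intro p hp
          rw [Finset.mem_union, Finset.mem_range] at hp
          rcases hp with hp | hp
          · exact (hpatn i hlt p (hApat p hp)).2
          · omega
        · intro p hp
          rw [Finset.mem_union, Finset.mem_range] at hp
          rcases hp with hp | hp
          · exact hAwin p hp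
          · refine ⟨d + p, by omega, ?_⟩
            have h3 : pre c i + 1 + t + 1 = m := by
              rw [← hiN] at hsum
              omega
            have h4 : (pre c i + 1 + t) * d + (d + p) = p + n := by
              rw [hn, ← h3]
              ring
            rw [h4, Nat.add_mod_right, Nat.mod_eq_of_lt (by omega)]
        · intro p hp v hv
          rw [Finset.mem_union, Finset.mem_range] at hp
          rcases hp with hp | hp
          · exact hAQ p hp v hv
          · have h3 := hσ (Sum.inr 1) v (by
              simp only [P]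
              rw [Finset.mem_range, hv]
              omega)
            have h4 := (Finset.mem_inter.mp h3).2
            rwa [hiN'] at h4
      · have hB : d + 1 ≤ A.card := by
          rw [hAcard]
          exact win_generic hl hld hci ht hfirst hlast
        exact hB.trans (le_card_win_inter σ _ (Q i) A
          (fun p hp => (hpatn i hlt p (hApat p hp)).2) hAwin hAQ)

end Pool.Agent.KS6_67.Sat
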