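import Pool.Agent.KS6_67.Sat.RegA

set_option autoImplicit false

namespace Pool.Agent.KS6_67.Sat

open Finset

/-- Extension of a partial injective assignment of vertices to positions. -/
theorem exists_perm_asg {n : ℕ} (R : ℕ → Fin n → Prop) (hpn : ∀ p v, R p v → p < n)
    (hfun : ∀ p v v', R p v → R p v' → v = v') (hinj : ∀ p p' v, R p v → R p' v → p = p') :
    ∃ σ : Equiv.Perm (Fin n), ∀ p v, R p v → ((σ v : Fin n) : ℕ) = p := by
  classical
  obtain ⟨σ, hσ⟩ := exists_perm (n := n) (ι := ℕ)
    (fun p => if ∃ v, R p v then {p} else ∅)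
    (fun p => if h : ∃ v, R p v then {h.choose} else ∅)
    (by
      intro i j p hi hj
      split_ifs at hi hj <;> simp_all)
    (by
      intro i j v hi hj
      split_ifs at hi hj with h1 h2
      · rw [Finset.mem_singleton] at hi hj
        have h3 := h1.choose_spec
        have h4 := h2.choose_spec
        rw [← hi] at h3
        rw [← hj] at h4
        exact hinj i j v h3 h4
      · simp at hj
      · simp at hi
      · simp at hi)
    (by
      intro i
      split_ifs <;> simp)
  refine ⟨σ, ?_⟩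
  intro p v hv
  have hp := hpn p v hv
  have hex : ∃ v, R p v := ⟨v, hv⟩
  have h1 := hσ p (σ.symm ⟨p, hp⟩) (by
    rw [if_pos hex]
    simp)
  rw [dif_pos hex, Finset.mem_singleton] at h1
  have h2 := hfun p _ _ hex.choose_spec hv
  rw [h2] at h1
  rw [← h1]
  simp

/-- The general arrangement theorem: classes `0, …, M-1` in cyclic order after the edge `e`;
class `i` puts the list `ℓ i` on consecutive positions from `x i` on. -/
theorem arrB {n k d m M : ℕ} (hd : 0 < d) (hn : n = m * d) (hkn : k ≤ n) (c : ℕ → ℕ)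
    (hM : 1 ≤ M) (hsum : pre c M + 1 = m)
    (A : ℕ → Finset (Fin n) → Prop) (hA : ∀ i S T, A i S → S ⊆ T → A i T)
    (e : Finset (Fin n)) (he : e.card = k) (le : List (Fin n)) (hle : le.Nodup)
    (hlen : le.length = k) (hmem : ∀ v ∈ le, v ∈ e)
    (x : ℕ → ℕ) (ℓ : ℕ → List (Fin n))
    (hnod : ∀ i < M, (ℓ i).Nodup) (hne : ∀ i < M, ∀ v ∈ ℓ i, v ∉ e)
    (hdisj : ∀ i < M, ∀ j < M, i ≠ j → ∀ v ∈ ℓ i, v ∉ ℓ j)
    (hx0 : k ≤ x 0) (hxs : ∀ i, i + 1 < M → x i + (ℓ i).length ≤ x (i + 1))
    (hxl : x (M - 1) + (ℓ (M - 1)).length ≤ n)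
    (hwin : ∀ i < M, ∀ t < c i, ∃ S : Finset (Fin n), A i S ∧ ∀ v ∈ S, ∃ p,
      (∃ j, j < k ∧ p = ((pre c i + 1 + t) * d + j) % n) ∧
      ((p < k ∧ le[p]? = some v) ∨ (x i ≤ p ∧ (ℓ i)[p - x i]? = some v))) :
    ∃ σ : Equiv.Perm (Fin n), win n k d σ 0 = e ∧
      ∀ w, 1 ≤ w → w < m → ∃ i < M, A i (win n k d σ w) := by
  classical
  have hn0 : 0 < n := by
    rw [hn]
    exact Nat.mul_pos (by omega) hd
  -- monotonicity of the starts
  have hmono : ∀ j, ∀ i < j, j < M → x i + (ℓ i).length ≤ x j := by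
    intro j
    induction j with
    | zero => intro i hi; omega
    | succ j ih =>
      intro i hi hj
      have h1 := hxs j hj
      rcases Nat.lt_or_ge i j with h2 | h2
      · have h3 := ih i h2 (by omega)
        omega
      · have h3 : i = j := by omega
        rw [h3]
        exact h1
  have hget : ∀ (l : List (Fin n)) (j : ℕ) (v : Fin n), l[j]? = some v → j < l.length ∧ v ∈ l := by
    intro l j v h
    rw [List.getElem?_eq_some_iff] at h
    obtain ⟨h1, h2⟩ := h
    exact ⟨h1, h2 ▸ List.getElem_mem h1⟩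
  have hinjl : ∀ (l : List (Fin n)), l.Nodup → ∀ (j j' : ℕ) (v : Fin n),
      l[j]? = some v → l[j']? = some v → j = j' := by
    intro l hl j j' v h1 h2
    rw [List.getElem?_eq_some_iff] at h1 h2
    obtain ⟨h3, h4⟩ := h1
    obtain ⟨h5, h6⟩ := h2
    exact (List.Nodup.getElem_inj_iff hl).mp (h4.trans h6.symm)
  let R : ℕ → Fin n → Prop := fun p v =>
    (p < k ∧ le[p]? = some v) ∨ (∃ i, i < M ∧ x i ≤ p ∧ (ℓ i)[p - x i]? = some v)
  have hxk : ∀ i < M, k ≤ x i := by
    intro i hi
    rcases Nat.eq_zero_or_pos i with h | h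
    · rw [h]; exact hx0
    · have := hmono i 0 h hi
      omega
  have hxn : ∀ i < M, x i + (ℓ i).length ≤ n := by
    intro i hi
    rcases Nat.lt_or_ge i (M - 1) with h | h
    · have := hmono (M - 1) i h (by omega)
      omega
    · have h2 : i = M - 1 := by omega
      rw [h2]
      exact hxl
  obtain ⟨σ, hσ⟩ := exists_perm_asg R
    (by
      rintro p v (⟨h1, _⟩ | ⟨i, hi, h1, h2⟩)
      · omega
      · have h3 := (hget _ _ _ h2).1
        have h4 := hxn i hi
        omega)
    (by
      rintro p v v' (⟨h1, h2⟩ | ⟨i, hi, h1, h2⟩) (⟨h3, h4⟩ | ⟨j, hj, h3, h4⟩)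
      · rw [h2] at h4
        exact Option.some_injective _ h4
      · have := hxk j hj
        omega
      · have := hxk i hi
        omega
      · have h5 := (hget _ _ _ h2).1
        have h6 := (hget _ _ _ h4).1
        have hij : i = j := by
          rcases Nat.lt_trichotomy i j with h | h | h
          · have := hmono j i h hj
            omega
          · exact h
          · have := hmono i j h hi
            omega
        subst hij
        rw [h2] at h4
        exact Option.some_injective _ h4)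
    (by
      rintro p p' v (⟨h1, h2⟩ | ⟨i, hi, h1, h2⟩) (⟨h3, h4⟩ | ⟨j, hj, h3, h4⟩)
      · exact hinjl le hle p p' v h2 h4
      · exact absurd (hmem v (hget _ _ _ h2).2) (hne j hj v (hget _ _ _ h4).2)
      · exact absurd (hmem v (hget _ _ _ h4).2) (hne i hi v (hget _ _ _ h2).2)
      · by_cases hij : i = j
        · subst hij
          have := hinjl _ (hnod i hi) _ _ _ h2 h4
          omega
        · exact absurd (hget _ _ _ h4).2 (hdisj i hi j hj hij v (hget _ _ _ h2).2))
  refine ⟨σ, ?_, ?_⟩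
  · have hsub : win n k d σ 0 ⊆ e := by
      intro v hv
      rw [mem_win] at hv
      obtain ⟨j, hj, hj2⟩ := hv
      rw [zero_mul, zero_add, Nat.mod_eq_of_lt (by omega)] at hj2
      have hjl : j < le.length := by omega
      have h1 : R j le[j] := Or.inl ⟨hj, by simp [hjl]⟩
      have h2 := hσ j _ h1
      have h3 : v = le[j] := by
        apply σ.injective
        apply Fin.ext
        rw [h2, hj2]
      rw [h3]
      exact hmem _ (List.getElem_mem hjl)
    exact Finset.eq_of_subset_of_card_le hsub (by rw [card_win σ 0 hkn, he])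
  · intro w hw1 hw2
    obtain ⟨i, hi, h1, h2⟩ := exists_class c M w hw1 (by omega)
    have hs := pre_succ c i
    obtain ⟨t, rfl⟩ : ∃ t, w = pre c i + 1 + t := ⟨w - (pre c i + 1), by omega⟩
    refine ⟨i, hi, ?_⟩
    obtain ⟨S, hS, hSv⟩ := hwin i hi t (by omega)
    refine hA i S _ hS ?_
    intro v hv
    obtain ⟨p, ⟨j, hj, hpj⟩, hp⟩ := hSv v hv
    rw [mem_win]
    refine ⟨j, hj, ?_⟩
    rw [← hpj]
    refine hσ p v ?_
    rcases hp with h | h
    · exact Or.inl h
    · exact Or.inr ⟨i, hi, h⟩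

end Pool.Agent.KS6_67.Sat
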