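import Pool.Agent.KS6_67.Sat.ArrB

set_option autoImplicit false

namespace Pool.Agent.KS6_67.Sat

open Finset

/-- placement of an interior class: list `ℓ` of vertices of `Q \ e` at relative position `x0`. -/
def Place {n : ℕ} (k d c lo hi : ℕ) (Q e : Finset (Fin n)) (A : Finset (Fin n) → Prop) (x0 : ℕ)
    (ℓ : List (Fin n)) : Prop :=
  ℓ.Nodup ∧ (∀ v ∈ ℓ, v ∈ Q ∧ v ∉ e) ∧ lo ≤ x0 ∧ x0 + ℓ.length ≤ hi ∧
    ∀ t < c, ∃ S : Finset (Fin n), A S ∧ ∀ v ∈ S, ∃ j, ℓ[j]? = some v ∧ t * d ≤ x0 + j ∧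
      x0 + j < t * d + k

/-- placement of a class adjacent to `e` (right side): `lX` lists `e ∩ Q` (at the end of `e`),
`ℓ` is put from position `k + xs` on. -/
def PlaceAdj {n : ℕ} (k d c L : ℕ) (Q e : Finset (Fin n)) (A : Finset (Fin n) → Prop)
    (lX : List (Fin n)) (xs : ℕ) (ℓ : List (Fin n)) : Prop :=
  lX.Nodup ∧ (∀ v ∈ lX, v ∈ e ∩ Q) ∧ lX.length = (e ∩ Q).card ∧
    ℓ.Nodup ∧ (∀ v ∈ ℓ, v ∈ Q ∧ v ∉ e) ∧ xs + ℓ.length ≤ L ∧
    ∀ t < c, ∃ S : Finset (Fin n), A S ∧ ∀ v ∈ S,
      (∃ j, lX[j]? = some v ∧ (t + 1) * d ≤ k - (e ∩ Q).card + j) ∨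
      (∃ j, ℓ[j]? = some v ∧ xs + j < (t + 1) * d ∧ (t + 1) * d ≤ k + xs + j)

theorem arrB2 {n k d m M : ℕ} (hd : 0 < d) (hn : n = m * d) (hkn : k ≤ n) (c : ℕ → ℕ)
    (hM : 3 ≤ M) (hsum : pre c M + 1 = m)
    (Q : ℕ → Finset (Fin n)) (hQ : ∀ i j, i ≠ j → Disjoint (Q i) (Q j))
    (A : ℕ → Finset (Fin n) → Prop) (hA : ∀ i S T, A i S → S ⊆ T → A i T)
    (e : Finset (Fin n)) (he : e.card = k) (lo hi : ℕ → ℕ) (L0 L1 : ℕ)
    (hint : ∀ i, 1 ≤ i → i + 1 < M → ∃ x0 ℓ, Place k d (c i) (lo i) (hi i) (Q i) e (A i) x0 ℓ)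
    (hfst : ∃ lX xs ℓ, PlaceAdj k d (c 0) L0 (Q 0) e (A 0) lX xs ℓ)
    (hlst : ∃ lX xs ℓ, PlaceAdj k d (c (M - 1)) L1 (Q (M - 1)) e (A (M - 1)) lX xs ℓ)
    (h01 : k + L0 ≤ (c 0 + 1) * d + lo 1)
    (hii : ∀ i, 1 ≤ i → i + 2 < M → hi i ≤ c i * d + lo (i + 1))
    (hil : hi (M - 2) + L1 ≤ (c (M - 2) + c (M - 1)) * d) :
    ∃ σ : Equiv.Perm (Fin n), win n k d σ 0 = e ∧
      ∀ w, 1 ≤ w → w < m → ∃ i < M, A i (win n k d σ w) := by
  classical
  obtain ⟨lX, xs, ℓ0, hX1, hX2, hX3, h01n, h0e, h0L, h0w⟩ := hfst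
  obtain ⟨lY, ys, ℓ1, hY1, hY2, hY3, h1n, h1e, h1L, h1w⟩ := hlst
  have hint' : ∀ i, ∃ p : ℕ × List (Fin n), 1 ≤ i → i + 1 < M →
      Place k d (c i) (lo i) (hi i) (Q i) e (A i) p.1 p.2 := by
    intro i
    by_cases h : 1 ≤ i ∧ i + 1 < M
    · obtain ⟨x0, ℓ, h1⟩ := hint i h.1 h.2
      exact ⟨(x0, ℓ), fun _ _ => h1⟩
    · exact ⟨(0, []), fun h1 h2 => absurd ⟨h1, h2⟩ h⟩
  choose pp hpp using hint'
  obtain ⟨O, hO⟩ : ∃ O : ℕ → ℕ, O = fun i => (pre c i + 1) * d := ⟨_, rfl⟩
  have hOi : ∀ i, O i = (pre c i + 1) * d := fun i => by rw [hO]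
  have hOs : ∀ i, O (i + 1) = O i + c i * d := by
    intro i
    rw [hOi, hOi, pre_succ]
    ring
  have hOM : O M = n := by rw [hOi, hsum, hn]
  -- lists and starts
  obtain ⟨ℓ, hℓ⟩ : ∃ ℓ : ℕ → List (Fin n), ℓ = fun i =>
    if i = 0 then ℓ0 else if i + 1 = M then ℓ1.reverse else (pp i).2 := ⟨_, rfl⟩
  obtain ⟨x, hx⟩ : ∃ x : ℕ → ℕ, x = fun i =>
    if i = 0 then k + xs else if i + 1 = M then n - ys - ℓ1.length else O i + (pp i).1 := ⟨_, rfl⟩
  have hℓ0 : ℓ 0 = ℓ0 := by rw [hℓ]; simp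
  have hx0 : x 0 = k + xs := by rw [hx]; simp
  have hM1 : M - 1 + 1 = M := by omega
  have hℓM : ℓ (M - 1) = ℓ1.reverse := by
    rw [hℓ]; simp only; rw [if_neg (by omega), if_pos hM1]
  have hxM : x (M - 1) = n - ys - ℓ1.length := by
    rw [hx]; simp only; rw [if_neg (by omega), if_pos hM1]
  have hℓi : ∀ i, 1 ≤ i → i + 1 < M → ℓ i = (pp i).2 := by
    intro i h1 h2
    rw [hℓ]; simp only; rw [if_neg (by omega), if_neg (by omega)]
  have hxi : ∀ i, 1 ≤ i → i + 1 < M → x i = O i + (pp i).1 := by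
    intro i h1 h2
    rw [hx]; simp only; rw [if_neg (by omega), if_neg (by omega)]
  have hsplit : ∀ i < M, i = 0 ∨ i = M - 1 ∨ (1 ≤ i ∧ i + 1 < M) := by
    intro i hi
    omega
  have hmemQ : ∀ i < M, ∀ v ∈ ℓ i, v ∈ Q i ∧ v ∉ e := by
    intro i hi v hv
    rcases hsplit i hi with rfl | rfl | ⟨h1, h2⟩
    · rw [hℓ0] at hv; exact h0e v hv
    · rw [hℓM, List.mem_reverse] at hv; exact h1e v hv
    · rw [hℓi i h1 h2] at hv
      exact (hpp i h1 h2).2.1 v hv
  -- the list of `e`
  have hdis0 : Disjoint (e ∩ Q 0) (e ∩ Q (M - 1)) :=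
    (hQ 0 (M - 1) (by omega)).mono Finset.inter_subset_right Finset.inter_subset_right
  obtain ⟨mid, hmid⟩ : ∃ mid : Finset (Fin n), mid = e \ (e ∩ Q 0 ∪ e ∩ Q (M - 1)) := ⟨_, rfl⟩
  have hmidc : mid.card + (e ∩ Q 0).card + (e ∩ Q (M - 1)).card = k := by
    have h1 : e ∩ Q 0 ∪ e ∩ Q (M - 1) ⊆ e :=
      Finset.union_subset Finset.inter_subset_left Finset.inter_subset_left
    have h2 := Finset.card_sdiff_add_card_eq_card h1
    rw [Finset.card_union_of_disjoint hdis0, ← hmid] at h2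
    omega
  obtain ⟨le, hle⟩ : ∃ le : List (Fin n), le = lY.reverse ++ (mid.toList ++ lX) := ⟨_, rfl⟩
  have hlen : le.length = k := by
    rw [hle, List.length_append, List.length_append, List.length_reverse, Finset.length_toList,
      hX3, hY3]
    omega
  have hlenodup : le.Nodup := by
    rw [hle, List.nodup_append, List.nodup_append]
    refine ⟨List.nodup_reverse.mpr hY1, ⟨Finset.nodup_toList _, hX1, ?_⟩, ?_⟩
    · intro a ha b hb hab
      rw [Finset.mem_toList, hmid, Finset.mem_sdiff, Finset.mem_union] at ha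
      rw [← hab] at hb
      exact ha.2 (Or.inl (hX2 a hb))
    · intro a ha b hb hab
      rw [List.mem_reverse] at ha
      rw [← hab, List.mem_append] at hb
      rcases hb with hb | hb
      · rw [Finset.mem_toList, hmid, Finset.mem_sdiff, Finset.mem_union] at hb
        exact hb.2 (Or.inr (hY2 a ha))
      · exact Finset.disjoint_left.mp hdis0 (hX2 a hb) (hY2 a ha)
  have hlee : ∀ v ∈ le, v ∈ e := by
    intro v hv
    rw [hle, List.mem_append, List.mem_append, List.mem_reverse, Finset.mem_toList, hmid,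
      Finset.mem_sdiff] at hv
    rcases hv with hv | hv | hv
    · exact (Finset.mem_inter.mp (hY2 v hv)).1
    · exact hv.1
    · exact (Finset.mem_inter.mp (hX2 v hv)).1
  have hleX : ∀ j v, lX[j]? = some v → le[k - (e ∩ Q 0).card + j]? = some v := by
    intro j v hj
    have hjl : j < lX.length := by
      rw [List.getElem?_eq_some_iff] at hj
      exact hj.1
    rw [hle, List.getElem?_append_right (by rw [List.length_reverse]; omega),
      List.getElem?_append_right (by rw [List.length_reverse, Finset.length_toList]; omega)]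
    rw [List.length_reverse, Finset.length_toList, hY3]
    have : k - (e ∩ Q 0).card + j - (e ∩ Q (M - 1)).card - mid.card = j := by omega
    rw [this]
    exact hj
  have hleY : ∀ j v, lY[j]? = some v → j < (e ∩ Q (M - 1)).card ∧
      le[(e ∩ Q (M - 1)).card - 1 - j]? = some v := by
    intro j v hj
    have hjl : j < lY.length := by
      rw [List.getElem?_eq_some_iff] at hj
      exact hj.1
    refine ⟨by omega, ?_⟩
    rw [hle, List.getElem?_append_left (by rw [List.length_reverse]; omega),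
      List.getElem?_reverse (by omega)]
    have : lY.length - 1 - ((e ∩ Q (M - 1)).card - 1 - j) = j := by omega
    rw [this]
    exact hj
  have hMl : M - 2 + 1 = M - 1 := by omega
  have hOM1 : O (M - 1) + c (M - 1) * d = n := by
    rw [← hOM, ← hOs, hM1]
  have hOM2 : O (M - 2) + c (M - 2) * d = O (M - 1) := by
    rw [← hOs, hMl]
  have hylen : ys + ℓ1.length ≤ n := by
    have h1 : (c (M - 2) + c (M - 1)) * d = c (M - 2) * d + c (M - 1) * d := by ring
    omega
  have hxs : ∀ i, i + 1 < M → x i + (ℓ i).length ≤ x (i + 1) := by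
    intro i hiM
    by_cases h0 : i = 0
    · subst h0
      rw [hx0, hℓ0, hxi 1 (by omega) (by omega)]
      have h1 := (hpp 1 (by omega) (by omega)).2.2.1
      have h2 : O 1 = (c 0 + 1) * d := by
        rw [hOi, show (1 : ℕ) = 0 + 1 from rfl, pre_succ, pre_zero, zero_add]
      omega
    · by_cases h2 : i + 1 + 1 = M
      · have h3 : i + 1 = M - 1 := by omega
        have h4 : i = M - 2 := by omega
        rw [h3, hxM, hxi i (by omega) (by omega), hℓi i (by omega) (by omega)]
        have h5 := (hpp i (by omega) (by omega)).2.2.2.1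
        have h6 : (c (M - 2) + c (M - 1)) * d = c (M - 2) * d + c (M - 1) * d := by ring
        rw [h4] at h5 ⊢
        omega
      · rw [hxi i (by omega) (by omega), hℓi i (by omega) (by omega),
          hxi (i + 1) (by omega) (by omega)]
        have h5 := (hpp i (by omega) (by omega)).2.2.2.1
        have h6 := (hpp (i + 1) (by omega) (by omega)).2.2.1
        have h7 := hii i (by omega) (by omega)
        have h8 := hOs i
        omega
  have hxl : x (M - 1) + (ℓ (M - 1)).length ≤ n := by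
    rw [hxM, hℓM, List.length_reverse]
    omega
  have hxn' : ∀ j i, i + j = M - 1 → x i + (ℓ i).length ≤ n := by
    intro j
    induction j with
    | zero =>
      intro i h
      have : i = M - 1 := by omega
      rw [this]
      exact hxl
    | succ j ih =>
      intro i h
      have h1 := ih (i + 1) (by omega)
      have h2 := hxs i (by omega)
      omega
  have hxn : ∀ i < M, x i + (ℓ i).length ≤ n := fun i h => hxn' (M - 1 - i) i (by omega)
  refine arrB (x := x) (ℓ := ℓ) (le := le) hd hn hkn c (by omega) hsum A hA e he hlenodup hlen hlee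
    ?_ ?_ ?_ ?_ ?_ ?_ ?_
  · intro i hi
    rcases hsplit i hi with rfl | rfl | ⟨h1, h2⟩
    · rw [hℓ0]; exact h01n
    · rw [hℓM]; exact List.nodup_reverse.mpr h1n
    · rw [hℓi i h1 h2]; exact (hpp i h1 h2).1
  · intro i hi v hv
    exact (hmemQ i hi v hv).2
  · intro i hi j hj hij v hv hv'
    exact Finset.disjoint_left.mp (hQ i j hij) (hmemQ i hi v hv).1 (hmemQ j hj v hv').1
  · rw [hx0]; omega
  · exact hxs
  · exact hxl
  · intro i hi t ht
    rcases hsplit i hi with rfl | rfl | ⟨h1, h2⟩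
    · -- first class
      obtain ⟨S, hS, hSv⟩ := h0w t ht
      refine ⟨S, hS, ?_⟩
      intro v hv
      have hw : (pre c 0 + 1 + t) * d = (t + 1) * d := by rw [pre_zero]; ring
      have h1 := (hpp 1 (by omega) (by omega)).2.2
      have h2 : O 1 = (c 0 + 1) * d := by
        rw [hOi, show (1 : ℕ) = 0 + 1 from rfl, pre_succ, pre_zero, zero_add]
      have h3 : (t + 1) * d ≤ c 0 * d := Nat.mul_le_mul_right d (by omega)
      have h4 : (c 0 + 1) * d = c 0 * d + d := by ring
      rcases hSv v hv with ⟨j, hj, hj2⟩ | ⟨j, hj, hj2, hj3⟩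
      · have hjl : j < lX.length := by
          rw [List.getElem?_eq_some_iff] at hj
          exact hj.1
        refine ⟨k - (e ∩ Q 0).card + j, ⟨k - (e ∩ Q 0).card + j - (t + 1) * d, by omega, ?_⟩, ?_⟩
        · rw [hw, Nat.add_sub_cancel' hj2, Nat.mod_eq_of_lt (by omega)]
        · left
          exact ⟨by omega, hleX j v hj⟩
      · have hjl : j < ℓ0.length := by
          rw [List.getElem?_eq_some_iff] at hj
          exact hj.1
        have hlt : k + xs + j < n := by
          have h5 := hxn 0 (by omega)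
          rw [hx0, hℓ0] at h5
          omega
        refine ⟨k + xs + j, ⟨k + xs + j - (t + 1) * d, by omega, ?_⟩, ?_⟩
        · rw [hw, Nat.add_sub_cancel' hj3, Nat.mod_eq_of_lt hlt]
        · right
          rw [hx0, hℓ0]
          refine ⟨by omega, ?_⟩
          rw [Nat.add_sub_cancel_left]
          exact hj
    · -- last class
      obtain ⟨S, hS, hSv⟩ := h1w (c (M - 1) - 1 - t) (by omega)
      refine ⟨S, hS, ?_⟩
      intro v hv
      have ht' : c (M - 1) - 1 - t + 1 = c (M - 1) - t := by omega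
      rw [ht'] at hSv
      have hw : (pre c (M - 1) + 1 + t) * d + (c (M - 1) - t) * d = n := by
        rw [← hOM1, hOi, ← Nat.add_mul]
        have : c (M - 1) * d = (t + (c (M - 1) - t)) * d := by congr 1; omega
        rw [this]
        ring
      rcases hSv v hv with ⟨j, hj, hj2⟩ | ⟨j, hj, hj2, hj3⟩
      · obtain ⟨h3, h4⟩ := hleY j v hj
        refine ⟨(e ∩ Q (M - 1)).card - 1 - j,
          ⟨(c (M - 1) - t) * d + ((e ∩ Q (M - 1)).card - 1 - j), by omega, ?_⟩, ?_⟩
        · rw [← Nat.add_assoc, hw, Nat.add_mod_left, Nat.mod_eq_of_lt (by omega)]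
        · left
          exact ⟨by omega, h4⟩
      · have hjl : j < ℓ1.length := by
          rw [List.getElem?_eq_some_iff] at hj
          exact hj.1
        refine ⟨n - 1 - ys - j,
          ⟨n - 1 - ys - j - (pre c (M - 1) + 1 + t) * d, by omega, ?_⟩, ?_⟩
        · rw [Nat.add_sub_cancel' (by omega), Nat.mod_eq_of_lt (by omega)]
        · right
          rw [hxM, hℓM]
          refine ⟨by omega, ?_⟩
          rw [List.getElem?_reverse (by omega)]
          have : ℓ1.length - 1 - (n - 1 - ys - j - (n - ys - ℓ1.length)) = j := by omega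
          rw [this]
          exact hj
    · -- interior class
      obtain ⟨S, hS, hSv⟩ := (hpp i h1 h2).2.2.2.2 t ht
      refine ⟨S, hS, ?_⟩
      intro v hv
      obtain ⟨j, hj, hj2, hj3⟩ := hSv v hv
      have hw : (pre c i + 1 + t) * d = O i + t * d := by rw [hOi]; ring
      have hjl : j < (pp i).2.length := by
        rw [List.getElem?_eq_some_iff] at hj
        exact hj.1
      have hlt : O i + (pp i).1 + j < n := by
        have h5 := hxn i hi
        rw [hxi i h1 h2, hℓi i h1 h2] at h5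
        omega
      refine ⟨O i + (pp i).1 + j, ⟨(pp i).1 + j - t * d, by omega, ?_⟩, ?_⟩
      · rw [hw]
        have : O i + t * d + ((pp i).1 + j - t * d) = O i + (pp i).1 + j := by omega
        rw [this, Nat.mod_eq_of_lt hlt]
      · right
        rw [hxi i h1 h2, hℓi i h1 h2]
        refine ⟨by omega, ?_⟩
        rw [Nat.add_sub_cancel_left]
        exact hj

end Pool.Agent.KS6_67.Sat
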