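import Pool.Agent.KS6_67.Sat.CountE
import Pool.Agent.KS6_67.Sat.ArrB

set_option autoImplicit false

namespace Pool.Agent.KS6_67.Sat

open Finset

/-- placing lists of vertices on consecutive positions -/
theorem exists_perm_lists {n k M : ℕ} (hM : 1 ≤ M) (le : List (Fin n)) (hle : le.Nodup)
    (hlen : le.length = k) (x : ℕ → ℕ) (ℓ : ℕ → List (Fin n))
    (hnod : ∀ i < M, (ℓ i).Nodup) (hne : ∀ i < M, ∀ v ∈ ℓ i, v ∉ le)
    (hdisj : ∀ i < M, ∀ j < M, i ≠ j → ∀ v ∈ ℓ i, v ∉ ℓ j)
    (hx0 : k ≤ x 0) (hxs : ∀ i, i + 1 < M → x i + (ℓ i).length ≤ x (i + 1))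
    (hxl : x (M - 1) + (ℓ (M - 1)).length ≤ n) :
    ∃ σ : Equiv.Perm (Fin n), (∀ p v, le[p]? = some v → ((σ v : Fin n) : ℕ) = p) ∧
      (∀ i < M, ∀ j v, (ℓ i)[j]? = some v → ((σ v : Fin n) : ℕ) = x i + j) := by
  classical
  -- monotonicity of the starts
  have hmono : ∀ j, ∀ i < j, j < M → x i + (ℓ i).length ≤ x j := by
    intro j
    induction j with
    | zero => intro i hi; omega
    | succ j ih =>
      intro i hi hj
      have h1 := hxs j hj
      rcases Nat.lt_or_ge i j with h2 | h2
      · have h3 := ih i h2 (by omega)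
        omega
      · have h3 : i = j := by omega
        rw [h3]
        exact h1
  have hget : ∀ (l : List (Fin n)) (j : ℕ) (v : Fin n), l[j]? = some v → j < l.length ∧ v ∈ l := by
    intro l j v h
    rw [List.getElem?_eq_some_iff] at h
    obtain ⟨h1, h2⟩ := h
    exact ⟨h1, h2 ▸ List.getElem_mem h1⟩
  have hinjl : ∀ (l : List (Fin n)), l.Nodup → ∀ (j j' : ℕ) (v : Fin n),
      l[j]? = some v → l[j']? = some v → j = j' := by
    intro l hl j j' v h1 h2
    rw [List.getElem?_eq_some_iff] at h1 h2
    obtain ⟨h3, h4⟩ := h1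
    obtain ⟨h5, h6⟩ := h2
    exact (List.Nodup.getElem_inj_iff hl).mp (h4.trans h6.symm)
  let R : ℕ → Fin n → Prop := fun p v =>
    (p < k ∧ le[p]? = some v) ∨ (∃ i, i < M ∧ x i ≤ p ∧ (ℓ i)[p - x i]? = some v)
  have hxk : ∀ i < M, k ≤ x i := by
    intro i hi
    rcases Nat.eq_zero_or_pos i with h | h
    · rw [h]; exact hx0
    · have := hmono i 0 h hi
      omega
  have hxn : ∀ i < M, x i + (ℓ i).length ≤ n := by
    intro i hi
    rcases Nat.lt_or_ge i (M - 1) with h | h
    · have := hmono (M - 1) i h (by omega)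
      omega
    · have h2 : i = M - 1 := by omega
      rw [h2]
      exact hxl
  obtain ⟨σ, hσ⟩ := exists_perm_asg R
    (by
      rintro p v (⟨h1, _⟩ | ⟨i, hi, h1, h2⟩)
      · have h3 := hxk 0 (by omega)
        have h4 := hxn 0 (by omega)
        omega
      · have h3 := (hget _ _ _ h2).1
        have h4 := hxn i hi
        omega)
    (by
      rintro p v v' (⟨h1, h2⟩ | ⟨i, hi, h1, h2⟩) (⟨h3, h4⟩ | ⟨j, hj, h3, h4⟩)
      · rw [h2] at h4
        exact Option.some_injective _ h4
      · have := hxk j hj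
        omega
      · have := hxk i hi
        omega
      · have h5 := (hget _ _ _ h2).1
        have h6 := (hget _ _ _ h4).1
        have hij : i = j := by
          rcases Nat.lt_trichotomy i j with h | h | h
          · have := hmono j i h hj
            omega
          · exact h
          · have := hmono i j h hi
            omega
        subst hij
        rw [h2] at h4
        exact Option.some_injective _ h4)
    (by
      rintro p p' v (⟨h1, h2⟩ | ⟨i, hi, h1, h2⟩) (⟨h3, h4⟩ | ⟨j, hj, h3, h4⟩)
      · exact hinjl le hle p p' v h2 h4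
      · exact absurd (hget _ _ _ h2).2 (hne j hj v (hget _ _ _ h4).2)
      · exact absurd (hget _ _ _ h4).2 (hne i hi v (hget _ _ _ h2).2)
      · by_cases hij : i = j
        · subst hij
          have := hinjl _ (hnod i hi) _ _ _ h2 h4
          omega
        · exact absurd (hget _ _ _ h4).2 (hdisj i hi j hj hij v (hget _ _ _ h2).2))
  refine ⟨σ, ?_, ?_⟩
  · intro p v h
    refine hσ p v (Or.inl ⟨?_, h⟩)
    have := (hget _ _ _ h).1
    omega
  · intro i hi j v h
    refine hσ (x i + j) v (Or.inr ⟨i, hi, by omega, ?_⟩)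
    rw [Nat.add_sub_cancel_left]
    exact h

/-- a list of the elements of `S` starting with `F` and ending with `G` -/
lemma blob_list {n : ℕ} (S F G : Finset (Fin n)) (hF : F ⊆ S) (hG : G ⊆ S) (hFG : Disjoint F G) :
    ∃ ℓ : List (Fin n), ℓ.Nodup ∧ (∀ x, x ∈ ℓ ↔ x ∈ S) ∧ ℓ.length = S.card ∧
      (∀ j, j < F.card → ∃ x ∈ F, ℓ[j]? = some x) ∧
      (∀ j, S.card ≤ j + G.card → j < S.card → ∃ x ∈ G, ℓ[j]? = some x) := by
  classical
  have hGS : G ⊆ S \ F := fun v hv => Finset.mem_sdiff.mpr
    ⟨hG hv, fun h => Finset.disjoint_left.mp hFG h hv⟩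
  have h1 : (S \ F).card + F.card = S.card := by
    have := Finset.card_sdiff_add_card_inter S F
    rwa [Finset.inter_eq_right.mpr hF] at this
  have h2 : ((S \ F) \ G).card + G.card = (S \ F).card := by
    have := Finset.card_sdiff_add_card_inter (S \ F) G
    rwa [Finset.inter_eq_right.mpr hGS] at this
  have hl1 : F.toList.length = F.card := Finset.length_toList _
  have hl2 : ((S \ F) \ G).toList.length = ((S \ F) \ G).card := Finset.length_toList _
  have hl3 : G.toList.length = G.card := Finset.length_toList _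
  refine ⟨F.toList ++ (((S \ F) \ G).toList ++ G.toList), ?_, ?_, ?_, ?_, ?_⟩
  · rw [List.nodup_append, List.nodup_append]
    refine ⟨Finset.nodup_toList _, ⟨Finset.nodup_toList _, Finset.nodup_toList _, ?_⟩, ?_⟩
    · intro a ha b hb
      rw [Finset.mem_toList, Finset.mem_sdiff] at ha
      rw [Finset.mem_toList] at hb
      rintro rfl
      exact ha.2 hb
    · intro a ha b hb
      rw [Finset.mem_toList] at ha
      rw [List.mem_append, Finset.mem_toList, Finset.mem_toList, Finset.mem_sdiff,
        Finset.mem_sdiff] at hb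
      rintro rfl
      rcases hb with hb | hb
      · exact hb.1.2 ha
      · exact Finset.disjoint_left.mp hFG ha hb
  · intro v
    simp only [List.mem_append, Finset.mem_toList, Finset.mem_sdiff]
    constructor
    · rintro (h | h | h)
      · exact hF h
      · exact h.1.1
      · exact hG h
    · intro h
      by_cases h3 : v ∈ F
      · exact Or.inl h3
      · by_cases h4 : v ∈ G
        · exact Or.inr (Or.inr h4)
        · exact Or.inr (Or.inl ⟨⟨h, h3⟩, h4⟩)
  · rw [List.length_append, List.length_append, hl1, hl2, hl3]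
    omega
  · intro j hj
    refine ⟨F.toList[j]'(by omega), Finset.mem_toList.mp (List.getElem_mem _), ?_⟩
    rw [List.getElem?_append_left (by omega)]
    exact List.getElem?_eq_getElem _
  · intro j hj hj2
    refine ⟨G.toList[j - F.card - ((S \ F) \ G).card]'(by omega),
      Finset.mem_toList.mp (List.getElem_mem _), ?_⟩
    rw [List.getElem?_append_right (by omega), hl1, List.getElem?_append_right (by omega), hl2]
    exact List.getElem?_eq_getElem _

section

variable {n K t : ℕ} {e : Finset (Fin n)}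

/-- at most one vertex of `e` in each blob -/
lemma far_inj (hf : ∀ x ∈ e, ∀ y ∈ e, x ≠ y → far t (blob K t x) (blob K t y)) {x y : Fin n}
    (hx : x ∈ e) (hy : y ∈ e) (h : blob K t x = blob K t y) : x = y := by
  by_contra hcon
  exact far_ne (hf x hx y hy hcon) h

lemma exists_doorset (hf : ∀ x ∈ e, ∀ y ∈ e, x ≠ y → far t (blob K t x) (blob K t y))
    (hK : 12 ≤ K) (hKn : 4 * t * K ≤ n) {u w : ℕ} (huw : fadj t u w) :
    ∃ F : Finset (Fin n), F.card = 2 ∧ ∀ x ∈ F, blob K t x = u ∧ x ∉ e ∧ door K t x w := by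
  classical
  have hu := (fadj_lt huw).1
  have hp := port_lt huw
  have hlt : ∀ r, r < K → u * K + r < n := by
    intro r hr
    have h1 : (u + 1) * K ≤ 4 * t * K := Nat.mul_le_mul_right K hu
    have h2 : (u + 1) * K = u * K + K := by ring
    omega
  let f : ℕ → Fin n := fun i => ⟨u * K + (3 * port t u w + min i 2), hlt _ (by omega)⟩
  have hfb : ∀ i, blob K t (f i) = u := fun i => blob_core (by omega) hu
  have hfd : ∀ i, door K t (f i) w := by
    intro i
    have hr : 3 * port t u w + min i 2 < K := by omega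
    have hK0 : 0 < K := by omega
    have h1 : (u * K + (3 * port t u w + min i 2)) / K = u := by
      rw [Nat.mul_comm u K, Nat.mul_add_div hK0, Nat.div_eq_of_lt hr, add_zero]
    have h2 : (u * K + (3 * port t u w + min i 2)) % K = 3 * port t u w + min i 2 := by
      rw [Nat.mul_comm u K, Nat.mul_add_mod, Nat.mod_eq_of_lt hr]
    refine ⟨?_, ?_, ?_, ?_⟩
    · show (u * K + (3 * port t u w + min i 2)) / K < 4 * t
      rw [h1]; exact hu
    · show fadj t ((u * K + (3 * port t u w + min i 2)) / K) w
      rw [h1]; exact huw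
    · show 3 * port t ((u * K + (3 * port t u w + min i 2)) / K) w ≤
        (u * K + (3 * port t u w + min i 2)) % K
      rw [h1, h2]; omega
    · show (u * K + (3 * port t u w + min i 2)) % K <
        3 * port t ((u * K + (3 * port t u w + min i 2)) / K) w + 3
      rw [h1, h2]; omega
  have hinj : ∀ i j, i < 3 → j < 3 → f i = f j → i = j := by
    intro i j hi hj h
    have h1 : u * K + (3 * port t u w + min i 2) = u * K + (3 * port t u w + min j 2) :=
      congrArg (fun x : Fin n => (x : ℕ)) h
    omega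
  have hcard : ((Finset.range 3).image f).card = 3 := by
    rw [Finset.card_image_of_injOn]
    · simp
    · intro i hi j hj h
      rw [Finset.coe_range, Set.mem_Iio] at hi hj
      exact hinj i j hi hj h
  have hce : (((Finset.range 3).image f) ∩ e).card ≤ 1 := by
    rw [Finset.card_le_one]
    intro x hx y hy
    rw [Finset.mem_inter, Finset.mem_image] at hx hy
    obtain ⟨⟨i, _, rfl⟩, hx2⟩ := hx
    obtain ⟨⟨j, _, rfl⟩, hy2⟩ := hy
    exact far_inj hf hx2 hy2 (by rw [hfb, hfb])
  have h3 := Finset.card_sdiff_add_card_inter ((Finset.range 3).image f) e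
  obtain ⟨F, hF1, hF2⟩ := Finset.exists_subset_card_eq
    (show 2 ≤ (((Finset.range 3).image f) \ e).card by omega)
  refine ⟨F, hF2, ?_⟩
  intro x hx
  have h4 := Finset.mem_sdiff.mp (hF1 hx)
  obtain ⟨i, _, rfl⟩ := Finset.mem_image.mp h4.1
  exact ⟨hfb i, h4.2, hfd i⟩

lemma exists_portset (hK : 12 ≤ K) (hKn : 4 * t * K ≤ n) {u : ℕ} (hu : u < 4 * t) :
    ∃ F : Finset (Fin n), F.card ≤ 1 ∧ (∀ x ∈ F, blob K t x = u ∧ x ∉ e ∧ ∀ w, ¬ door K t x w) ∧
      ((∃ x ∈ e, (x : ℕ) = u * K + 9) ∨ (F.card = 1 ∧ ∀ x ∈ F, (x : ℕ) = u * K + 9)) := by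
  classical
  have hlt : u * K + 9 < n := by
    have h1 : (u + 1) * K ≤ 4 * t * K := Nat.mul_le_mul_right K hu
    have h2 : (u + 1) * K = u * K + K := by ring
    omega
  by_cases h : (⟨u * K + 9, hlt⟩ : Fin n) ∈ e
  · exact ⟨∅, by simp, by simp, Or.inl ⟨_, h, rfl⟩⟩
  · refine ⟨{⟨u * K + 9, hlt⟩}, by simp, ?_, Or.inr ⟨by simp, ?_⟩⟩
    · intro x hx
      rw [Finset.mem_singleton] at hx
      subst hx
      exact ⟨blob_core (by omega) hu, h, fun w => not_door_core (by omega) le_rfl⟩
    · intro x hx
      rw [Finset.mem_singleton] at hx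
      subst hx
      rfl

/-- size of a blob without `e` -/
lemma blob_size (hf : ∀ x ∈ e, ∀ y ∈ e, x ≠ y → far t (blob K t x) (blob K t y))
    (hKn : 4 * t * K ≤ n) {u : ℕ} (hu : u < 4 * t) :
    K ≤ ((Finset.univ : Finset (Fin n)).filter
      (fun x : Fin n => blob K t x = u ∧ x ∉ e)).card + 1 := by
  classical
  have hlt : ∀ r, r < K → u * K + r < n := by
    intro r hr
    have h1 : (u + 1) * K ≤ 4 * t * K := Nat.mul_le_mul_right K hu
    have h2 : (u + 1) * K = u * K + K := by ring
    omega
  have h1 : K ≤ ((Finset.univ : Finset (Fin n)).filter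
      (fun x : Fin n => blob K t x = u)).card := by
    have h2 : (Finset.univ : Finset (Fin K)).card ≤ ((Finset.univ : Finset (Fin n)).filter
      (fun x : Fin n => blob K t x = u)).card := by
      refine Finset.card_le_card_of_injOn
        (fun r : Fin K => (⟨u * K + (r : ℕ), hlt r r.2⟩ : Fin n)) ?_ ?_
      · intro r _
        rw [Finset.mem_coe, Finset.mem_filter]
        exact ⟨Finset.mem_univ _, blob_core r.2 hu⟩
      · intro r _ s _ h
        have h3 : u * K + (r : ℕ) = u * K + (s : ℕ) := congrArg (fun x : Fin n => (x : ℕ)) h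
        exact Fin.ext (by omega)
    rwa [Finset.card_univ, Fintype.card_fin] at h2
  have h2 : ((Finset.univ : Finset (Fin n)).filter (fun x : Fin n => blob K t x = u)) ⊆
      ((Finset.univ : Finset (Fin n)).filter (fun x : Fin n => blob K t x = u ∧ x ∉ e)) ∪
      ((Finset.univ : Finset (Fin n)).filter (fun x : Fin n => blob K t x = u ∧ x ∈ e)) := by
    intro x hx
    rw [Finset.mem_filter] at hx
    rw [Finset.mem_union, Finset.mem_filter, Finset.mem_filter]
    by_cases hxe : x ∈ e
    · exact Or.inr ⟨Finset.mem_univ _, hx.2, hxe⟩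
    · exact Or.inl ⟨Finset.mem_univ _, hx.2, hxe⟩
  have h3 : ((Finset.univ : Finset (Fin n)).filter
      (fun x : Fin n => blob K t x = u ∧ x ∈ e)).card ≤ 1 := by
    rw [Finset.card_le_one]
    intro x hx y hy
    rw [Finset.mem_filter] at hx hy
    exact far_inj hf hx.2.2 hy.2.2 (hx.2.1.trans hy.2.1.symm)
  have h4 := (Finset.card_le_card h2).trans (Finset.card_union_le _ _)
  omega

end

end Pool.Agent.KS6_67.Sat
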