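import Pool.Agent.KS6_67.Sat.ArrE

set_option autoImplicit false

namespace Pool.Agent.KS6_67.Sat

open Finset

/-- Hamiltonian paths between far vertices -/
def CorePath (t : ℕ) : Prop :=
  ∀ u v, u < 4 * t → v < 4 * t → far t u v → ∃ L : List ℕ, L.head? = some u ∧
    L.getLast? = some v ∧ L.Nodup ∧ (∀ a, a ∈ L ↔ a < 4 * t) ∧ L.IsChain (fadj t)

/-- the path as a function -/
lemma path_fun {t u v : ℕ} (CP : CorePath t) (hu : u < 4 * t) (hv : v < 4 * t) (h : far t u v) :
    ∃ (M : ℕ) (w : ℕ → ℕ), 2 ≤ M ∧ w 0 = u ∧ w (M - 1) = v ∧ (∀ i < M, w i < 4 * t) ∧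
      (∀ i < M, ∀ j < M, w i = w j → i = j) ∧ (∀ a < 4 * t, ∃ i < M, w i = a) ∧
      (∀ i, i + 1 < M → fadj t (w i) (w (i + 1))) := by
  obtain ⟨L, h1, h2, h3, h4, h5⟩ := CP u v hu hv h
  have hne : L ≠ [] := by
    rintro rfl
    simp at h1
  have hpos : 0 < L.length := List.length_pos_iff.mpr hne
  have hget : ∀ i, i < L.length → L.getD i 0 ∈ L := by
    intro i hi
    rw [List.getD_eq_getElem _ _ hi]
    exact List.getElem_mem hi
  have h0 : L.getD 0 0 = u := by
    rw [List.getD_eq_getElem _ _ hpos]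
    rw [List.head?_eq_getElem?, List.getElem?_eq_getElem hpos] at h1
    exact Option.some_injective _ h1
  have hl : L.getD (L.length - 1) 0 = v := by
    rw [List.getD_eq_getElem _ _ (by omega)]
    rw [List.getLast?_eq_getElem?, List.getElem?_eq_getElem (by omega)] at h2
    exact Option.some_injective _ h2
  refine ⟨L.length, fun i => L.getD i 0, ?_, h0, hl, ?_, ?_, ?_, ?_⟩
  · by_contra hcon
    have h6 : L.length - 1 = 0 := by omega
    rw [h6, h0] at hl
    exact far_ne h hl
  · intro i hi
    exact (h4 _).mp (hget i hi)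
  · intro i hi j hj hij
    show i = j
    have hij' : L.getD i 0 = L.getD j 0 := hij
    rw [List.getD_eq_getElem _ _ hi, List.getD_eq_getElem _ _ hj] at hij'
    exact (List.Nodup.getElem_inj_iff h3).mp hij'
  · intro a ha
    obtain ⟨i, hi, hia⟩ := List.getElem_of_mem ((h4 a).mpr ha)
    refine ⟨i, hi, ?_⟩
    show L.getD i 0 = a
    rw [List.getD_eq_getElem _ _ hi]
    exact hia
  · intro i hi
    show fadj t (L.getD i 0) (L.getD (i + 1) 0)
    rw [List.getD_eq_getElem _ _ (by omega), List.getD_eq_getElem _ _ hi]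
    exact List.isChain_iff_getElem.mp h5 i hi

variable {n K t κ : ℕ} {e : Finset (Fin n)}

/-- specification of the list of one blob -/
structure SpecL (K t κ M : ℕ) (w : ℕ → ℕ) (e : Finset (Fin n)) (j : ℕ) (ℓ : List (Fin n)) :
    Prop where
  nod : ℓ.Nodup
  mem : ∀ x, x ∈ ℓ ↔ blob K t x = w j ∧ x ∉ e
  len : κ + 2 ≤ ℓ.length
  fst : 1 ≤ j → ∀ i : ℕ, i < 2 → ∃ x : Fin n, ℓ[i]? = some x ∧ door K t x (w (j - 1))
  lst : j + 1 < M → ∀ i : ℕ, ℓ.length ≤ i + 2 → i < ℓ.length → ∃ x : Fin n, ℓ[i]? = some x ∧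
    door K t x (w (j + 1))
  pfst : j = 0 → (∃ x ∈ e, (x : ℕ) = w j * K + 9) ∨
    ∃ x : Fin n, ℓ[0]? = some x ∧ (x : ℕ) = w j * K + 9
  plst : j + 1 = M → (∃ x ∈ e, (x : ℕ) = w j * K + 9) ∨
    ∃ x : Fin n, ℓ[ℓ.length - 1]? = some x ∧ (x : ℕ) = w j * K + 9

lemma exists_specL (hκ : 2 ≤ κ) (hK : κ + 13 ≤ K) (hKn : 4 * t * K ≤ n) (h3 : 3 ≤ t)
    (hf : ∀ x ∈ e, ∀ y ∈ e, x ≠ y → far t (blob K t x) (blob K t y))
    {M : ℕ} {w : ℕ → ℕ} (hM : 2 ≤ M) (hwlt : ∀ i < M, w i < 4 * t)
    (hwinj : ∀ i < M, ∀ j < M, w i = w j → i = j)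
    (hwadj : ∀ i, i + 1 < M → fadj t (w i) (w (i + 1))) (j : ℕ) (hj : j < M) :
    ∃ ℓ : List (Fin n), SpecL K t κ M w e j ℓ := by
  classical
  obtain ⟨S, hS⟩ : ∃ S : Finset (Fin n), S = (Finset.univ : Finset (Fin n)).filter
      (fun x : Fin n => blob K t x = w j ∧ x ∉ e) := ⟨_, rfl⟩
  have hSm : ∀ x, x ∈ S ↔ blob K t x = w j ∧ x ∉ e := by
    intro x; rw [hS, Finset.mem_filter]; simp
  have hSc : K ≤ S.card + 1 := by
    rw [hS]; exact blob_size hf hKn (hwlt j hj)
  -- the first part
  obtain ⟨F, hFS, hF1, hF2, hF3⟩ : ∃ F ⊆ S, (1 ≤ j → F.card = 2 ∧ ∀ x ∈ F, door K t x (w (j - 1))) ∧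
      (j = 0 → (∀ x ∈ F, ∀ w', ¬ door K t x w') ∧ ((∃ x ∈ e, (x : ℕ) = w j * K + 9) ∨
        (F.card = 1 ∧ ∀ x ∈ F, (x : ℕ) = w j * K + 9))) ∧ F.card ≤ 2 := by
    rcases Nat.eq_zero_or_pos j with h0 | h0
    · obtain ⟨F, hF1, hF2, hF3⟩ := exists_portset (e := e) (by omega) hKn (hwlt j hj)
      exact ⟨F, fun x hx => (hSm x).mpr ⟨(hF2 x hx).1, (hF2 x hx).2.1⟩, fun h => by omega,
        fun _ => ⟨fun x hx => (hF2 x hx).2.2, hF3⟩, by omega⟩
    · have hadj : fadj t (w j) (w (j - 1)) := by
        have := hwadj (j - 1) (by omega)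
        rw [Nat.sub_add_cancel h0] at this
        exact this.symm
      obtain ⟨F, hF1, hF2⟩ := exists_doorset hf (by omega) hKn hadj
      exact ⟨F, fun x hx => (hSm x).mpr ⟨(hF2 x hx).1, (hF2 x hx).2.1⟩,
        fun _ => ⟨hF1, fun x hx => (hF2 x hx).2.2⟩, fun h => by omega, by omega⟩
  -- the last part
  obtain ⟨G, hGS, hG1, hG2, hG3⟩ : ∃ G ⊆ S,
      (j + 1 < M → G.card = 2 ∧ ∀ x ∈ G, door K t x (w (j + 1))) ∧
      (j + 1 = M → (∀ x ∈ G, ∀ w', ¬ door K t x w') ∧ ((∃ x ∈ e, (x : ℕ) = w j * K + 9) ∨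
        (G.card = 1 ∧ ∀ x ∈ G, (x : ℕ) = w j * K + 9))) ∧ G.card ≤ 2 := by
    rcases Nat.lt_or_ge (j + 1) M with h0 | h0
    · obtain ⟨F, hF1, hF2⟩ := exists_doorset hf (by omega) hKn (hwadj j h0)
      exact ⟨F, fun x hx => (hSm x).mpr ⟨(hF2 x hx).1, (hF2 x hx).2.1⟩,
        fun _ => ⟨hF1, fun x hx => (hF2 x hx).2.2⟩, fun h => by omega, by omega⟩
    · obtain ⟨F, hF1, hF2, hF3⟩ := exists_portset (e := e) (by omega) hKn (hwlt j hj)
      exact ⟨F, fun x hx => (hSm x).mpr ⟨(hF2 x hx).1, (hF2 x hx).2.1⟩, fun h => by omega,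
        fun _ => ⟨fun x hx => (hF2 x hx).2.2, hF3⟩, by omega⟩
  have hFG : Disjoint F G := by
    rw [Finset.disjoint_left]
    intro x hx hx'
    rcases Nat.eq_zero_or_pos j with h0 | h0
    · exact (hF2 h0).1 x hx _ ((hG1 (by omega)).2 x hx')
    · rcases Nat.lt_or_ge (j + 1) M with h4 | h4
      · have h5 := door_dis h3 ((hF1 h0).2 x hx) ((hG1 h4).2 x hx')
        have h6 := hwinj (j - 1) (by omega) (j + 1) h4 h5
        omega
      · exact (hG2 (by omega)).1 x hx' _ ((hF1 h0).2 x hx)
  obtain ⟨ℓ, hℓ1, hℓ2, hℓ3, hℓ4, hℓ5⟩ := blob_list S F G hFS hGS hFG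
  refine ⟨ℓ, hℓ1, ?_, by omega, ?_, ?_, ?_, ?_⟩
  · intro x
    rw [hℓ2, hSm]
  · intro h0 i hi
    obtain ⟨x, hx, hx2⟩ := hℓ4 i (by have := (hF1 h0).1; omega)
    exact ⟨x, hx2, (hF1 h0).2 x hx⟩
  · intro h0 i hi hi2
    obtain ⟨x, hx, hx2⟩ := hℓ5 i (by have := (hG1 h0).1; omega) (by omega)
    exact ⟨x, hx2, (hG1 h0).2 x hx⟩
  · intro h0
    rcases (hF2 h0).2 with h4 | ⟨h4, h5⟩
    · exact Or.inl h4
    · obtain ⟨x, hx, hx2⟩ := hℓ4 0 (by omega)
      exact Or.inr ⟨x, hx2, h5 x hx⟩
  · intro h0
    rcases (hG2 h0).2 with h4 | ⟨h4, h5⟩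
    · exact Or.inl h4
    · obtain ⟨x, hx, hx2⟩ := hℓ5 (ℓ.length - 1) (by omega) (by omega)
      exact Or.inr ⟨x, hx2, h5 x hx⟩

lemma vt_of (σ : Equiv.Perm (Fin n)) (hn : 0 < n) {v : Fin n} {p : ℕ}
    (h : ((σ v : Fin n) : ℕ) = p) : vt σ hn p = v := by
  unfold vt
  rw [Equiv.symm_apply_eq]
  apply Fin.ext
  simp only
  rw [← h, Nat.mod_eq_of_lt (σ v).2]

theorem arrE (hκ : 2 ≤ κ) (h7 : 7 ≤ t) (hK : κ + 13 ≤ K) (hKn : 4 * t * K ≤ n)
    (CP : CorePath t) (e : Finset (Fin n)) (he : e.card = κ + 1)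
    (hf : ∀ x ∈ e, ∀ y ∈ e, x ≠ y → far t (blob K t x) (blob K t y)) :
    Ham n (κ + 1) 1 (insert e (GE K t (κ + 1))) := by
  classical
  have h28 : 28 * K ≤ 4 * t * K := Nat.mul_le_mul_right K (by omega)
  have hn : 0 < n := by omega
  -- a and b
  obtain ⟨a, ha, hamin⟩ := Finset.exists_min_image e (fun x : Fin n => blob K t x)
    (Finset.card_pos.mp (by omega))
  obtain ⟨b, hb, hbmin⟩ := Finset.exists_min_image (e.erase a) (fun x : Fin n => blob K t x)
    (Finset.card_pos.mp (by rw [Finset.card_erase_of_mem ha]; omega))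
  have hba : b ≠ a := Finset.ne_of_mem_erase hb
  have hbe : b ∈ e := Finset.mem_of_mem_erase hb
  have hfab := hf a ha b hbe hba.symm
  -- the path
  obtain ⟨M, w, hM, hw0, hwl, hwlt, hwinj, hwsurj, hwadj⟩ := path_fun CP
    (blob_lt (K := K) (v := (a : ℕ)) (show 1 ≤ t by omega))
    (blob_lt (K := K) (v := (b : ℕ)) (show 1 ≤ t by omega)) hfab
  have hex : ∀ j, ∃ ℓ : List (Fin n), j < M → SpecL K t κ M w e j ℓ := by
    intro j
    by_cases hj : j < M
    · obtain ⟨ℓ, hℓ⟩ := exists_specL hκ hK hKn (by omega) hf hM hwlt hwinj hwadj j hj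
      exact ⟨ℓ, fun _ => hℓ⟩
    · exact ⟨[], fun h => absurd h hj⟩
  choose ℓ hℓ using hex
  -- the list of e
  obtain ⟨le, hle⟩ : ∃ le : List (Fin n), le = b :: (((e.erase a).erase b).toList ++ [a]) :=
    ⟨_, rfl⟩
  have hlem : ∀ v, v ∈ le ↔ v ∈ e := by
    intro v
    rw [hle, List.mem_cons, List.mem_append, Finset.mem_toList, List.mem_singleton,
      Finset.mem_erase, Finset.mem_erase]
    constructor
    · rintro (rfl | ⟨_, _, h⟩ | rfl)
      · exact hbe
      · exact h
      · exact ha
    · intro h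
      by_cases h1 : v = b
      · exact Or.inl h1
      · by_cases h2 : v = a
        · exact Or.inr (Or.inr h2)
        · exact Or.inr (Or.inl ⟨h1, h2, h⟩)
  have hcb : ((e.erase a).erase b).card = κ - 1 := by
    rw [Finset.card_erase_of_mem hb, Finset.card_erase_of_mem ha, he]
    omega
  have hlel : le.length = κ + 1 := by
    rw [hle]
    simp only [List.length_cons, List.length_append, Finset.length_toList, List.length_nil]
    omega
  have hlen : le.Nodup := by
    rw [hle, List.nodup_cons, List.nodup_append]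
    refine ⟨?_, Finset.nodup_toList _, List.nodup_singleton _, ?_⟩
    · rw [List.mem_append, Finset.mem_toList, List.mem_singleton]
      rintro (h | h)
      · exact Finset.ne_of_mem_erase h rfl
      · exact hba h
    · intro x hx y hy
      rw [Finset.mem_toList] at hx
      rw [List.mem_singleton] at hy
      rintro rfl
      rw [hy] at hx
      exact Finset.ne_of_mem_erase (Finset.mem_of_mem_erase hx) rfl
  have hle0 : le[0]? = some b := by rw [hle]; rfl
  have hlek : le[κ]? = some a := by
    rw [hle]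
    obtain ⟨κ', rfl⟩ : ∃ κ', κ = κ' + 1 := ⟨κ - 1, by omega⟩
    rw [List.getElem?_cons_succ, List.getElem?_append_right (by
      rw [Finset.length_toList]; omega), Finset.length_toList, hcb]
    simp
  -- positions
  obtain ⟨s, hs⟩ : ∃ s : ℕ → ℕ, s = fun j => (ℓ j).length := ⟨_, rfl⟩
  have hsj : ∀ j, s j = (ℓ j).length := fun j => by rw [hs]
  obtain ⟨X, hX⟩ : ∃ X : ℕ → ℕ, X = fun j => κ + 1 + pre s j := ⟨_, rfl⟩
  have hX0 : X 0 = κ + 1 := by rw [hX]; simp [pre_zero]
  have hXs : ∀ j, X (j + 1) = X j + s j := by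
    intro j
    rw [hX]
    show κ + 1 + pre s (j + 1) = κ + 1 + pre s j + s j
    rw [pre_succ]
    omega
  have htot : pre s M + (κ + 1) = n := by
    have h1 : (Finset.univ : Finset (Fin n)) \ e =
        (Finset.range M).biUnion (fun j => (ℓ j).toFinset) := by
      ext v
      rw [Finset.mem_sdiff, Finset.mem_biUnion]
      constructor
      · rintro ⟨_, hv⟩
        obtain ⟨j, hj, hjv⟩ := hwsurj (blob K t v) (blob_lt (by omega))
        exact ⟨j, Finset.mem_range.mpr hj, List.mem_toFinset.mpr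
          (((hℓ j hj).mem v).mpr ⟨hjv.symm, hv⟩)⟩
      · rintro ⟨j, hj, hv⟩
        exact ⟨Finset.mem_univ _, (((hℓ j (Finset.mem_range.mp hj)).mem v).mp
          (List.mem_toFinset.mp hv)).2⟩
    have h2 : ((Finset.univ : Finset (Fin n)) \ e).card = pre s M := by
      rw [h1, Finset.card_biUnion]
      · unfold pre
        refine Finset.sum_congr rfl ?_
        intro j hj
        rw [hsj, List.toFinset_card_of_nodup (hℓ j (Finset.mem_range.mp hj)).nod]
      · intro i hi j hj hij
        rw [Finset.coe_range, Set.mem_Iio] at hi hj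
        rw [Function.onFun, Finset.disjoint_left]
        intro v hv hv'
        have h3 := ((hℓ i hi).mem v).mp (List.mem_toFinset.mp hv)
        have h4 := ((hℓ j hj).mem v).mp (List.mem_toFinset.mp hv')
        exact hij (hwinj i hi j hj (h3.1.symm.trans h4.1))
    have h3 := Finset.card_sdiff_add_card_inter (Finset.univ : Finset (Fin n)) e
    rw [Finset.univ_inter, he, Finset.card_univ, Fintype.card_fin, h2] at h3
    exact h3
  have hXM : X M = n := by
    rw [hX]
    show κ + 1 + pre s M = n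
    omega
  obtain ⟨σ, hσ1, hσ2⟩ := exists_perm_lists (k := κ + 1) (M := M) (by omega) le hlen hlel X ℓ
    (fun i hi => (hℓ i hi).nod)
    (fun i hi v hv hv' => (((hℓ i hi).mem v).mp hv).2 ((hlem v).mp hv'))
    (fun i hi j hj hij v hv hv' => hij (hwinj i hi j hj
      ((((hℓ i hi).mem v).mp hv).1.symm.trans (((hℓ j hj).mem v).mp hv').1)))
    (by omega) (fun i _ => by rw [hXs, hsj])
    (by
      have := hXs (M - 1)
      rw [Nat.sub_add_cancel (by omega), hsj] at this
      omega)
  -- facts about positions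
  have hcol : ∀ j < M, ∀ r, X j ≤ r → r < X (j + 1) → blob K t (vt σ hn r) = w j ∧
      vt σ hn r ∉ e := by
    intro j hj r hr hr'
    rw [hXs, hsj] at hr'
    have h1 : (ℓ j)[r - X j]? = some ((ℓ j)[r - X j]'(by omega)) :=
      List.getElem?_eq_getElem _
    have h2 := vt_of σ hn (hσ2 j hj _ _ h1)
    rw [Nat.add_sub_cancel' hr] at h2
    rw [h2]
    exact ((hℓ j hj).mem _).mp (List.getElem_mem _)
  have hecol : ∀ p, p ≤ κ → vt σ hn p ∈ e := by
    intro p hp
    have h1 : le[p]? = some (le[p]'(by omega)) := List.getElem?_eq_getElem _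
    rw [vt_of σ hn (hσ1 p _ h1)]
    exact (hlem _).mp (List.getElem_mem _)
  have hvb : vt σ hn 0 = b := vt_of σ hn (hσ1 0 b hle0)
  have hva : vt σ hn κ = a := vt_of σ hn (hσ1 κ a hlek)
  have hvn : ∀ r, n ≤ r → vt σ hn r = vt σ hn (r - n) := by
    intro r hr
    have h1 := vt_add σ hn (r - n)
    rwa [Nat.sub_add_cancel hr] at h1
  have hslen : ∀ j < M, κ + 2 ≤ s j := fun j hj => by rw [hsj]; exact (hℓ j hj).len
  -- the class of a position
  have hclass : ∀ r, κ + 1 ≤ r → r < n → ∃ j < M, X j ≤ r ∧ r < X (j + 1) := by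
    intro r hr hr'
    obtain ⟨j, hj, h1, h2⟩ := exists_class s M (r - κ) (by omega) (by omega)
    refine ⟨j, hj, ?_, ?_⟩
    · rw [hX]
      show κ + 1 + pre s j ≤ r
      omega
    · rw [hX]
      show r < κ + 1 + pre s (j + 1)
      omega
  have h4 : κ + 2 ≤ s 0 := hslen 0 (by omega)
  have hX1 : X (0 + 1) = X 0 + s 0 := hXs 0
  have hXl := hXs (M - 1)
  rw [Nat.sub_add_cancel (show 1 ≤ M by omega), hXM] at hXl
  have h5 : κ + 2 ≤ s (M - 1) := hslen (M - 1) (by omega)
  refine ⟨σ, ?_⟩
  intro i hi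
  rw [Nat.div_one] at hi
  rcases Nat.eq_zero_or_pos i with hi0 | hi0
  · -- the window e
    have h1 : win n (κ + 1) 1 σ i = e := by
      have hsub : win n (κ + 1) 1 σ i ⊆ e := by
        intro v hv
        rw [mem_win1 σ hn] at hv
        obtain ⟨r, hr1, hr2, rfl⟩ := hv
        exact hecol r (by omega)
      exact Finset.eq_of_subset_of_card_le hsub (by rw [card_win σ i (by omega), he])
    rw [h1]
    exact Finset.mem_insert_self _ _
  refine Finset.mem_insert_of_mem ?_
  rw [mem_GE]
  refine ⟨card_win σ i (by omega), ?_⟩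
  have hmem : ∀ r, i ≤ r → r ≤ i + κ → vt σ hn r ∈ win n (κ + 1) 1 σ i := fun r h1 h2 =>
    (mem_win1 σ hn κ i _).mpr ⟨r, h1, h2, rfl⟩
  rcases Nat.lt_or_ge i κ with hiκ | hiκ
  · -- transversal on the right of e
    right; right
    refine ⟨w 0, ?_, ?_, ?_⟩
    · have hc1 := hcol 0 (by omega) (κ + 1) (by omega) (by omega)
      have hsub : ({vt σ hn κ, vt σ hn (κ + 1)} : Finset (Fin n)) ⊆
          (win n (κ + 1) 1 σ i).filter (fun v : Fin n => blob K t v = w 0) := by
        intro v hv
        rw [Finset.mem_insert, Finset.mem_singleton] at hv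
        rw [Finset.mem_filter]
        rcases hv with rfl | rfl
        · exact ⟨hmem κ (by omega) (by omega), by rw [hva, hw0]⟩
        · exact ⟨hmem (κ + 1) (by omega) (by omega), hc1.1⟩
      have h1 := Finset.card_le_card hsub
      rw [Finset.card_pair (vt_ne σ hn (by omega) (by omega))] at h1
      exact h1
    · rcases (hℓ 0 (by omega)).pfst rfl with ⟨x, hx, hx2⟩ | ⟨x, hx, hx2⟩
      · have hxb : blob K t x = blob K t a := by
          rw [hx2, blob_core (by omega) (hwlt 0 (by omega)), hw0]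
        have hxa : x = a := far_inj hf hx ha hxb
        refine ⟨x, ?_, hx2⟩
        rw [hxa, ← hva]
        exact hmem κ (by omega) (by omega)
      · refine ⟨x, ?_, hx2⟩
        have h1 := vt_of σ hn (hσ2 0 (by omega) _ _ hx)
        rw [← h1, hX0]
        exact hmem _ (by omega) (by omega)
    · intro v hv hvne
      rw [mem_win1 σ hn] at hv
      obtain ⟨r, hr1, hr2, rfl⟩ := hv
      rcases Nat.lt_or_ge κ r with h1 | h1
      · exact absurd (hcol 0 (by omega) r (by omega) (by omega)).1 hvne
      · have hve := hecol r h1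
        have hva' : vt σ hn r ≠ a := by
          intro h
          rw [h, hw0] at hvne
          exact hvne rfl
        rw [hw0]
        have hfar := hf a ha _ hve hva'.symm
        refine ⟨?_, far_not_adj hfar⟩
        have h2 := hamin _ hve
        have h3 := far_ne hfar
        omega
  rcases Nat.lt_or_ge κ i with hiκ' | hiκ'
  · -- windows starting after e
    rcases Nat.lt_or_ge (i + κ) n with hin | hin
    · obtain ⟨j, hj, hj1, hj2⟩ := hclass i (by omega) (by omega)
      rcases Nat.lt_or_ge (i + κ) (X (j + 1)) with hik | hik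
      · left
        refine ⟨w j, ?_⟩
        intro v hv
        rw [mem_win1 σ hn] at hv
        obtain ⟨r, hr1, hr2, rfl⟩ := hv
        exact (hcol j hj r (by omega) (by omega)).1
      · right; left
        have hj1M : j + 1 < M := by
          by_contra hcon
          rw [show j + 1 = M by omega, hXM] at hik
          omega
        have h6 := hslen (j + 1) hj1M
        have h6' := hslen j hj
        have h7' := hXs (j + 1)
        have h8 := hXs j
        have hcL : ∀ r, i ≤ r → r < X (j + 1) → blob K t (vt σ hn r) = w j := fun r h1 h2 =>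
          (hcol j hj r (by omega) h2).1
        have hcR : ∀ r, X (j + 1) ≤ r → r ≤ i + κ → blob K t (vt σ hn r) = w (j + 1) :=
          fun r h1 h2 => (hcol (j + 1) hj1M r h1 (by omega)).1
        have hne : w j ≠ w (j + 1) := fun h => by
          have := hwinj j hj (j + 1) hj1M h
          omega
        refine ⟨w j, w (j + 1), hwadj j hj1M, ?_, ?_, ?_⟩
        · intro v hv
          rw [mem_win1 σ hn] at hv
          obtain ⟨r, hr1, hr2, rfl⟩ := hv
          rcases Nat.lt_or_ge r (X (j + 1)) with h1 | h1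
          · exact Or.inl (hcL r hr1 h1)
          · exact Or.inr (hcR r h1 hr2)
        · intro hcard v hv hvw
          rw [mem_win1 σ hn] at hv
          obtain ⟨r, hr1, hr2, rfl⟩ := hv
          have hrX : r < X (j + 1) := by
            by_contra hcon
            exact hne (hvw.symm.trans (hcR r (by omega) hr2))
          rcases Nat.lt_or_ge (r + 2) (X (j + 1)) with h1 | h1
          · exfalso
            have hsub : ({vt σ hn r, vt σ hn (X (j + 1) - 2), vt σ hn (X (j + 1) - 1)} :
                Finset (Fin n)) ⊆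
                (win n (κ + 1) 1 σ i).filter (fun v : Fin n => blob K t v = w j) := by
              intro v hv
              rw [Finset.mem_insert, Finset.mem_insert, Finset.mem_singleton] at hv
              rw [Finset.mem_filter]
              rcases hv with rfl | rfl | rfl
              · exact ⟨hmem r hr1 hr2, hvw⟩
              · exact ⟨hmem _ (by omega) (by omega), hcL _ (by omega) (by omega)⟩
              · exact ⟨hmem _ (by omega) (by omega), hcL _ (by omega) (by omega)⟩
            have h2 := Finset.card_le_card hsub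
            rw [Finset.card_insert_of_notMem, Finset.card_pair
              (vt_ne σ hn (by omega) (by omega))] at h2
            · omega
            · rw [Finset.mem_insert, Finset.mem_singleton, not_or]
              exact ⟨vt_ne σ hn (by omega) (by omega), vt_ne σ hn (by omega) (by omega)⟩
          · obtain ⟨x, hx, hx2⟩ := (hℓ j hj).lst hj1M (r - X j)
              (by rw [hsj] at h8; omega) (by rw [hsj] at h8; omega)
            have h2 := vt_of σ hn (hσ2 j hj _ _ hx)
            rw [Nat.add_sub_cancel' (by omega)] at h2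
            rw [h2]
            exact hx2
        · intro hcard v hv hvw
          rw [mem_win1 σ hn] at hv
          obtain ⟨r, hr1, hr2, rfl⟩ := hv
          have hrX : X (j + 1) ≤ r := by
            by_contra hcon
            exact hne ((hcL r hr1 (by omega)).symm.trans hvw)
          rcases Nat.lt_or_ge (X (j + 1) + 1) r with h1 | h1
          · exfalso
            have hsub : ({vt σ hn (X (j + 1)), vt σ hn (X (j + 1) + 1), vt σ hn r} :
                Finset (Fin n)) ⊆
                (win n (κ + 1) 1 σ i).filter (fun v : Fin n => blob K t v = w (j + 1)) := by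
              intro v hv
              rw [Finset.mem_insert, Finset.mem_insert, Finset.mem_singleton] at hv
              rw [Finset.mem_filter]
              rcases hv with rfl | rfl | rfl
              · exact ⟨hmem _ (by omega) (by omega), hcR _ (by omega) (by omega)⟩
              · exact ⟨hmem _ (by omega) (by omega), hcR _ (by omega) (by omega)⟩
              · exact ⟨hmem r hr1 hr2, hvw⟩
            have h2 := Finset.card_le_card hsub
            rw [Finset.card_insert_of_notMem, Finset.card_pair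
              (vt_ne σ hn (by omega) (by omega))] at h2
            · omega
            · rw [Finset.mem_insert, Finset.mem_singleton, not_or]
              exact ⟨vt_ne σ hn (by omega) (by omega), vt_ne σ hn (by omega) (by omega)⟩
          · obtain ⟨x, hx, hx2⟩ := (hℓ (j + 1) hj1M).fst (by omega) (r - X (j + 1)) (by omega)
            have h2 := vt_of σ hn (hσ2 (j + 1) hj1M _ _ hx)
            rw [Nat.add_sub_cancel' (by omega)] at h2
            rw [h2]
            rw [Nat.add_sub_cancel] at hx2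
            exact hx2
    · -- the end of the order
      have hcE : ∀ r, i ≤ r → r < n → blob K t (vt σ hn r) = blob K t b := by
        intro r hr hr'
        have := (hcol (M - 1) (by omega) r (by omega) (by
          rw [Nat.sub_add_cancel (by omega), hXM]; exact hr')).1
        rw [this, hwl]
      rcases Nat.lt_or_ge n (i + κ) with hin' | hin'
      · right; right
        refine ⟨blob K t b, ?_, ?_, ?_⟩
        · have hsub : ({vt σ hn (n - 1), vt σ hn n} : Finset (Fin n)) ⊆
              (win n (κ + 1) 1 σ i).filter (fun v : Fin n => blob K t v = blob K t b) := by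
            intro v hv
            rw [Finset.mem_insert, Finset.mem_singleton] at hv
            rw [Finset.mem_filter]
            rcases hv with rfl | rfl
            · exact ⟨hmem _ (by omega) (by omega), hcE _ (by omega) (by omega)⟩
            · refine ⟨hmem _ (by omega) (by omega), ?_⟩
              rw [hvn n le_rfl, Nat.sub_self, hvb]
          have h1 := Finset.card_le_card hsub
          rw [Finset.card_pair (vt_ne σ hn (by omega) (by omega))] at h1
          exact h1
        · rcases (hℓ (M - 1) (by omega)).plst (by omega) with ⟨x, hx, hx2⟩ | ⟨x, hx, hx2⟩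
          · rw [hwl] at hx2
            have hxb : blob K t x = blob K t b := by
              rw [hx2, blob_core (by omega) (blob_lt (by omega))]
            have hxa : x = b := far_inj hf hx hbe hxb
            refine ⟨x, ?_, hx2⟩
            rw [hxa, ← hvb]
            have h1 := hmem n (by omega) (by omega)
            rwa [hvn n le_rfl, Nat.sub_self] at h1
          · rw [hwl] at hx2
            refine ⟨x, ?_, hx2⟩
            have h1 := vt_of σ hn (hσ2 (M - 1) (by omega) _ _ hx)
            rw [hsj] at hXl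
            rw [hsj] at h5
            rw [show X (M - 1) + ((ℓ (M - 1)).length - 1) = n - 1 by omega] at h1
            rw [← h1]
            exact hmem _ (by omega) (by omega)
        · intro v hv hvne
          rw [mem_win1 σ hn] at hv
          obtain ⟨r, hr1, hr2, rfl⟩ := hv
          rcases Nat.lt_or_ge r n with h1 | h1
          · exact absurd (hcE r hr1 h1) hvne
          · rw [hvn r h1] at hvne ⊢
            have hve := hecol (r - n) (by omega)
            have hvb' : vt σ hn (r - n) ≠ b := fun h => hvne (by rw [h])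
            have hva' : vt σ hn (r - n) ≠ a := by
              rw [← hva]
              exact vt_ne σ hn (by omega) (by omega)
            have hfar := hf b hbe _ hve hvb'.symm
            refine ⟨?_, far_not_adj hfar⟩
            have h2 := hbmin _ (Finset.mem_erase.mpr ⟨hva', hve⟩)
            have h3 := far_ne hfar
            omega
      · left
        refine ⟨blob K t b, ?_⟩
        intro v hv
        rw [mem_win1 σ hn] at hv
        obtain ⟨r, hr1, hr2, rfl⟩ := hv
        rcases Nat.lt_or_ge r n with h1 | h1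
        · exact hcE r hr1 h1
        · rw [hvn r h1, show r - n = 0 by omega, hvb]
  · -- i = κ
    left
    refine ⟨w 0, ?_⟩
    intro v hv
    rw [mem_win1 σ hn] at hv
    obtain ⟨r, hr1, hr2, rfl⟩ := hv
    rcases Nat.lt_or_ge κ r with h1 | h1
    · exact (hcol 0 (by omega) r (by omega) (by omega)).1
    · rw [show r = κ by omega, hva, hw0]

/-- `l = k - 1` -/
theorem goodE_of (κ : ℕ) (hκ : 2 ≤ κ) (hCP : ∀ t, t % 2 = 1 → 7 ≤ t → CorePath t)
    (hNW : ∀ t, t % 2 = 1 → 7 ≤ t → NoWalk t) : Good (κ + 1) κ := by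
  obtain ⟨K, hK⟩ : ∃ K, K = κ + 13 := ⟨_, rfl⟩
  refine ⟨44 * K, 36 * K, ?_⟩
  intro n hn _
  have hd : κ + 1 - κ = 1 := by omega
  rw [hd]
  -- the number of blocks
  obtain ⟨t, ht1, ht2, ht3, ht4⟩ : ∃ t, t % 2 = 1 ∧ 7 ≤ t ∧ 4 * t * K ≤ n ∧
      n < 4 * (t + 2) * K := by
    have h1 := Nat.div_add_mod n (8 * K)
    have h2 := Nat.mod_lt n (show 0 < 8 * K by omega)
    obtain ⟨q, hq⟩ : ∃ q, q = n / (8 * K) := ⟨_, rfl⟩
    rw [← hq] at h1
    have hq4 : 4 ≤ q := by
      rw [hq, Nat.le_div_iff_mul_le (by omega)]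
      omega
    have e1 : 8 * K * q = 4 * (2 * q) * K := by ring
    rcases Nat.lt_or_ge (n % (8 * K)) (4 * K) with h3 | h3
    · refine ⟨2 * q - 1, by omega, by omega, ?_, ?_⟩
      · have : 4 * (2 * q - 1) * K ≤ 4 * (2 * q) * K :=
          Nat.mul_le_mul_right K (by omega)
        omega
      · have : 4 * (2 * q - 1 + 2) * K = 4 * (2 * q) * K + 4 * K := by
          rw [show 2 * q - 1 + 2 = 2 * q + 1 by omega]
          ring
        omega
    · refine ⟨2 * q + 1, by omega, by omega, ?_, ?_⟩
      · have : 4 * (2 * q + 1) * K = 4 * (2 * q) * K + 4 * K := by ring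
        omega
      · have : 4 * (2 * q + 1 + 2) * K = 4 * (2 * q) * K + 12 * K := by ring
        omega
  have h28 : 28 * K ≤ 4 * t * K := Nat.mul_le_mul_right K (by omega)
  have hcard := nearSets_card (n := n) (k := κ + 1) (by omega) ht3 ht4 ht2 (by omega)
  rw [Nat.add_sub_cancel] at hcard
  refine ⟨GE K t (κ + 1), nearSets n K t (κ + 1), ?_, ?_, ?_, hcard, ?_⟩
  · intro e he
    exact (mem_GE.mp he).1
  · exact not_hamE hκ ht2 (by omega) (by omega) ht3 (hNW t ht1 ht2)
  · exact (Finset.card_le_card (GE_sub (by omega))).trans hcard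
  · intro e he _ heB
    refine arrE hκ ht2 (by omega) ht3 (hCP t ht1 ht2) e he ?_
    intro x hx y hy hxy
    by_contra hcon
    exact heB (mem_nearSets.mpr ⟨he, x, hx, y, hy, hxy, hcon⟩)

end Pool.Agent.KS6_67.Sat
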