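import Mathlib

set_option autoImplicit false

namespace Pool.Agent.KS6_67.Sat

open Finset

/-- The `i`-th window (k consecutive positions, starting at `i*d`) of the cyclic order `σ`. -/
def win (n k d : ℕ) (σ : Equiv.Perm (Fin n)) (i : ℕ) : Finset (Fin n) :=
  Finset.univ.filter (fun v : Fin n => ∃ j, j < k ∧ ((σ v : Fin n) : ℕ) = (i * d + j) % n)

/-- `H` contains a Hamiltonian cycle whose edges are the windows. -/
def Ham (n k d : ℕ) (H : Finset (Finset (Fin n))) : Prop :=
  ∃ σ : Equiv.Perm (Fin n), ∀ i : ℕ, i < n / d → win n k d σ i ∈ H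

/-- saturated hypergraphs -/
def Satd (n k d : ℕ) (H : Finset (Finset (Fin n))) : Prop :=
  (∀ e ∈ H, e.card = k) ∧ (¬ Ham n k d H) ∧
    (∀ e : Finset (Fin n), e.card = k → e ∉ H → Ham n k d (insert e H))

lemma mem_win {n k d : ℕ} {σ : Equiv.Perm (Fin n)} {i : ℕ} {v : Fin n} :
    v ∈ win n k d σ i ↔ ∃ j, j < k ∧ ((σ v : Fin n) : ℕ) = (i * d + j) % n := by
  simp [win]

lemma Ham.mono {n k d : ℕ} {H H' : Finset (Finset (Fin n))} (h : Ham n k d H) (hs : H ⊆ H') :
    Ham n k d H' := by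
  obtain ⟨σ, hσ⟩ := h
  exact ⟨σ, fun i hi => hs (hσ i hi)⟩

/-- The core data: a sparse non-Hamiltonian `G` such that adding any edge outside a sparse
exceptional family makes it Hamiltonian. -/
def Good (k l : ℕ) : Prop :=
  ∃ C N : ℕ, ∀ n : ℕ, N ≤ n → (k - l) ∣ n →
    ∃ G B : Finset (Finset (Fin n)), (∀ e ∈ G, e.card = k) ∧ ¬ Ham n k (k - l) G ∧
      G.card ≤ C * n ^ l ∧ B.card ≤ C * n ^ l ∧
      ∀ e : Finset (Fin n), e.card = k → e ∉ G → e ∉ B → Ham n k (k - l) (insert e G)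

/-- From the core data to a saturated hypergraph. -/
theorem exists_satd {k l : ℕ} (hg : Good k l) :
    ∃ C N : ℕ, ∀ n : ℕ, N ≤ n → (k - l) ∣ n →
      ∃ H : Finset (Finset (Fin n)), Satd n k (k - l) H ∧ H.card ≤ C * n ^ l := by
  obtain ⟨C, N, hCN⟩ := hg
  refine ⟨2 * C, N, fun n hn hd => ?_⟩
  obtain ⟨G, B, hGu, hGn, hGc, hBc, hGB⟩ := hCN n hn hd
  classical
  let S : Set (Finset (Finset (Fin n))) := {H | (∀ e ∈ H, e.card = k) ∧ ¬ Ham n k (k - l) H}
  have hfin : S.Finite := Set.toFinite _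
  obtain ⟨H, hGH, hHmax⟩ := hfin.exists_le_maximal (a := G) ⟨hGu, hGn⟩
  have hHS : H ∈ S := hHmax.prop
  refine ⟨H, ⟨hHS.1, hHS.2, ?_⟩, ?_⟩
  · intro e he heH
    by_contra hcon
    have hS : insert e H ∈ S := by
      refine ⟨?_, hcon⟩
      intro f hf
      rcases Finset.mem_insert.mp hf with rfl | hf
      · exact he
      · exact hHS.1 f hf
    have hle : H ≤ insert e H := Finset.subset_insert e H
    have := hHmax.le_of_ge hS hle
    exact heH (this (Finset.mem_insert_self e H))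
  · have hsub : H ⊆ G ∪ B := by
      intro e he
      by_contra hcon
      rw [Finset.mem_union, not_or] at hcon
      have h1 := hGB e (hHS.1 e he) hcon.1 hcon.2
      apply hHS.2
      refine h1.mono ?_
      intro f hf
      rcases Finset.mem_insert.mp hf with rfl | hf
      · exact he
      · exact hGH hf
    calc H.card ≤ (G ∪ B).card := Finset.card_le_card hsub
      _ ≤ G.card + B.card := Finset.card_union_le _ _
      _ ≤ C * n ^ l + C * n ^ l := by omega
      _ = 2 * C * n ^ l := by ring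

/-! ### Lower bound -/

lemma exists_pos {n : ℕ} (σ : Equiv.Perm (Fin n)) (hn : 0 < n) (p : ℕ) :
    ∃ v : Fin n, ((σ v : Fin n) : ℕ) = p % n := by
  refine ⟨σ.symm ⟨p % n, Nat.mod_lt _ hn⟩, ?_⟩
  simp

/-- consecutive windows meet in at least `k - d` points. -/
lemma inter_card {n k d : ℕ} (σ : Equiv.Perm (Fin n)) (a : ℕ) (hdk : d ≤ k) (hn : k ≤ n)
    (hk : 0 < k) :
    k - d ≤ (win n k d σ a ∩ win n k d σ (a + 1)).card := by
  have hn0 : 0 < n := lt_of_lt_of_le hk hn
  have : (Finset.image (fun j : ℕ => σ.symm ⟨((a + 1) * d + j) % n, Nat.mod_lt _ hn0⟩)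
      (Finset.range (k - d))) ⊆ win n k d σ a ∩ win n k d σ (a + 1) := by
    intro v hv
    rw [Finset.mem_image] at hv
    obtain ⟨j, hj, rfl⟩ := hv
    rw [Finset.mem_range] at hj
    rw [Finset.mem_inter, mem_win, mem_win]
    refine ⟨⟨d + j, by omega, ?_⟩, ⟨j, by omega, ?_⟩⟩
    · simp only [Equiv.apply_symm_apply]
      congr 1
      ring
    · simp only [Equiv.apply_symm_apply]
  refine le_trans ?_ (Finset.card_le_card this)
  rw [Finset.card_image_of_injOn]
  · simp
  · intro x hx y hy hxy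
    simp only [Finset.coe_range, Set.mem_Iio] at hx hy
    have h1 := σ.symm.injective hxy
    simp only [Fin.mk.injEq] at h1
    have h2 : ((a + 1) * d + x) ≡ ((a + 1) * d + y) [MOD n] := h1
    have h3 : x ≡ y [MOD n] := Nat.ModEq.add_left_cancel' _ h2
    exact Nat.ModEq.eq_of_lt_of_lt h3 (by omega) (by omega)

lemma win_ne {n k d : ℕ} (σ : Equiv.Perm (Fin n)) (a : ℕ) (hd : 0 < d) (hk : 0 < k)
    (hn : d + k ≤ n) :
    win n k d σ a ≠ win n k d σ (a + 1) := by
  have hn0 : 0 < n := by omega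
  intro h
  obtain ⟨v, hv⟩ := exists_pos σ hn0 (a * d)
  have h1 : v ∈ win n k d σ a := mem_win.mpr ⟨0, hk, by simpa using hv⟩
  rw [h, mem_win] at h1
  obtain ⟨j, hj, hj2⟩ := h1
  rw [hv] at hj2
  have h2 : (a * d + 0) ≡ (a * d + (d + j)) [MOD n] := by
    show (a * d + 0) % n = (a * d + (d + j)) % n
    rw [add_zero, hj2]
    congr 1
    ring
  have h3 : 0 ≡ d + j [MOD n] := Nat.ModEq.add_left_cancel' _ h2
  have h4 := Nat.ModEq.eq_of_lt_of_lt h3 (by omega) (by omega)
  omega

/-- In a saturated hypergraph each `k`-set shares at least `l` points with some edge. -/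
lemma cover {n k l : ℕ} (h1 : 1 ≤ l) (h2 : l < k) (hn : (k - l) + k ≤ n)
    {H : Finset (Finset (Fin n))} (hH : Satd n k (k - l) H) (e : Finset (Fin n))
    (he : e.card = k) : ∃ f ∈ H, l ≤ (e ∩ f).card := by
  by_cases heH : e ∈ H
  · exact ⟨e, heH, by rw [Finset.inter_self]; omega⟩
  obtain ⟨σ, hσ⟩ := hH.2.2 e he heH
  have hnot : ¬ ∀ i : ℕ, i < n / (k - l) → win n k (k - l) σ i ∈ H := fun hc => hH.2.1 ⟨σ, hc⟩
  push Not at hnot
  obtain ⟨i, hi, hiH⟩ := hnot
  have hie : win n k (k - l) σ i = e := by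
    rcases Finset.mem_insert.mp (hσ i hi) with h | h
    · exact h
    · exact absurd h hiH
  have hm2 : 2 ≤ n / (k - l) := by
    rw [Nat.le_div_iff_mul_le (by omega)]
    omega
  -- a neighbouring window
  obtain ⟨i', hi', hne, hcard⟩ : ∃ i' < n / (k - l), win n k (k - l) σ i' ≠ win n k (k - l) σ i ∧
      l ≤ (win n k (k - l) σ i ∩ win n k (k - l) σ i').card := by
    have hlk : k - (k - l) = l := by omega
    rcases Nat.eq_zero_or_pos i with h0 | h0
    · refine ⟨1, by omega, ?_, ?_⟩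
      · rw [h0]
        exact (win_ne σ 0 (by omega) (by omega) hn).symm
      · rw [h0]
        have := inter_card (n := n) (k := k) (d := k - l) σ 0 (by omega) (by omega) (by omega)
        rw [hlk] at this
        exact this
    · refine ⟨i - 1, by omega, ?_, ?_⟩
      · have := win_ne (n := n) (k := k) (d := k - l) σ (i - 1) (by omega) (by omega) hn
        rwa [Nat.sub_add_cancel h0] at this
      · have := inter_card (n := n) (k := k) (d := k - l) σ (i - 1) (by omega) (by omega)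
          (by omega)
        rw [hlk, Nat.sub_add_cancel h0, Finset.inter_comm] at this
        exact this
  have hmem : win n k (k - l) σ i' ∈ H := by
    rcases Finset.mem_insert.mp (hσ i' hi') with h | h
    · exact absurd (h.trans hie.symm) hne
    · exact h
  exact ⟨_, hmem, by rw [← hie]; exact hcard⟩

lemma card_near_le {n k l : ℕ} (f : Finset (Fin n)) (hf : f.card = k) :
    ((Finset.univ.powersetCard k).filter (fun e : Finset (Fin n) => l ≤ (e ∩ f).card)).card
      ≤ k.choose l * n ^ (k - l) := by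
  classical
  have hsub : ((Finset.univ.powersetCard k).filter (fun e : Finset (Fin n) => l ≤ (e ∩ f).card))
      ⊆ ((f.powersetCard l) ×ˢ ((Finset.univ : Finset (Fin n)).powersetCard (k - l))).image
        (fun p => p.1 ∪ p.2) := by
    intro e he
    rw [Finset.mem_filter, Finset.mem_powersetCard] at he
    obtain ⟨⟨_, hek⟩, hef⟩ := he
    obtain ⟨A, hA, hAc⟩ := Finset.exists_subset_card_eq hef
    rw [Finset.mem_image]
    refine ⟨(A, e \ A), ?_, ?_⟩
    · rw [Finset.mem_product, Finset.mem_powersetCard, Finset.mem_powersetCard]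
      refine ⟨⟨hA.trans Finset.inter_subset_right, hAc⟩, Finset.subset_univ _, ?_⟩
      rw [Finset.card_sdiff_of_subset (hA.trans Finset.inter_subset_left), hek, hAc]
    · exact Finset.union_sdiff_of_subset (hA.trans Finset.inter_subset_left)
  calc _ ≤ _ := Finset.card_le_card hsub
    _ ≤ _ := Finset.card_image_le
    _ = k.choose l * n.choose (k - l) := by
        rw [Finset.card_product, Finset.card_powersetCard, Finset.card_powersetCard, hf,
          Finset.card_univ, Fintype.card_fin]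
    _ ≤ k.choose l * n ^ (k - l) := Nat.mul_le_mul_left _ (Nat.choose_le_pow n (k - l))

/-- The lower bound, in all cases. -/
theorem lower (k l : ℕ) (h1 : 1 ≤ l) (h2 : l < k) :
    ∃ c : ℝ, 0 < c ∧ ∃ N : ℕ, ∀ n : ℕ, N ≤ n → (k - l) ∣ n →
      ∀ H : Finset (Finset (Fin n)), Satd n k (k - l) H → c * (n : ℝ) ^ l ≤ (H.card : ℝ) := by
  have hck : 0 < (k.choose l : ℝ) := by
    exact_mod_cast Nat.choose_pos h2.le
  have hkk : 0 < ((2 : ℝ) ^ k * k.factorial) := by
    have : (0 : ℝ) < k.factorial := by exact_mod_cast Nat.factorial_pos k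
    positivity
  refine ⟨1 / (((2 : ℝ) ^ k * k.factorial) * (k.choose l : ℝ)), by positivity, 2 * k, ?_⟩
  intro n hn _ H hH
  have hnk : k ≤ n := by omega
  have hn0 : 0 < n := by omega
  have hcov : (Finset.univ : Finset (Fin n)).powersetCard k ⊆
      H.biUnion (fun f => (Finset.univ.powersetCard k).filter
        (fun e : Finset (Fin n) => l ≤ (e ∩ f).card)) := by
    intro e he
    have hek : e.card = k := (Finset.mem_powersetCard.mp he).2
    obtain ⟨f, hf, hef⟩ := cover h1 h2 (by omega) hH e hek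
    rw [Finset.mem_biUnion]
    exact ⟨f, hf, Finset.mem_filter.mpr ⟨he, hef⟩⟩
  have hcard : n.choose k ≤ H.card * (k.choose l * n ^ (k - l)) := by
    have h3 := Finset.card_le_card hcov
    rw [Finset.card_powersetCard, Finset.card_univ, Fintype.card_fin] at h3
    refine h3.trans ?_
    refine Finset.card_biUnion_le_card_mul _ _ _ ?_
    intro f hf
    exact card_near_le f (hH.1 f hf)
  have hch : (n : ℝ) ^ k / (2 ^ k * k.factorial) ≤ (n.choose k : ℝ) := by
    refine le_trans ?_ (Nat.pow_le_choose (α := ℝ) k n)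
    have hfac : (0 : ℝ) < k.factorial := by exact_mod_cast Nat.factorial_pos k
    rw [div_le_div_iff₀ hkk hfac]
    have h4 : (n : ℝ) ≤ 2 * ((n + 1 - k : ℕ) : ℝ) := by
      exact_mod_cast (by omega : n ≤ 2 * (n + 1 - k))
    have h5 : (n : ℝ) ^ k ≤ (2 * ((n + 1 - k : ℕ) : ℝ)) ^ k :=
      pow_le_pow_left₀ (by positivity) h4 k
    calc (n : ℝ) ^ k * (k.factorial : ℝ) ≤ (2 * ((n + 1 - k : ℕ) : ℝ)) ^ k * (k.factorial : ℝ) :=
          mul_le_mul_of_nonneg_right h5 hfac.le
      _ = ((n + 1 - k : ℕ) : ℝ) ^ k * (2 ^ k * (k.factorial : ℝ)) := by rw [mul_pow]; ring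
  have hcast : (n.choose k : ℝ) ≤ H.card * (k.choose l * (n : ℝ) ^ (k - l)) := by
    exact_mod_cast hcard
  have hnpow : (n : ℝ) ^ k = (n : ℝ) ^ l * (n : ℝ) ^ (k - l) := by
    rw [← pow_add]
    congr 1
    omega
  have hnpos : (0 : ℝ) < (n : ℝ) ^ (k - l) := by
    have : (0 : ℝ) < n := by exact_mod_cast hn0
    positivity
  have h6 : (n : ℝ) ^ l * (n : ℝ) ^ (k - l) / (2 ^ k * k.factorial)
      ≤ H.card * (k.choose l * (n : ℝ) ^ (k - l)) := by
    rw [← hnpow]
    exact hch.trans hcast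
  have h7 : (n : ℝ) ^ l / (2 ^ k * k.factorial) ≤ H.card * k.choose l := by
    have h8 : ((n : ℝ) ^ l / (2 ^ k * k.factorial)) * (n : ℝ) ^ (k - l)
        ≤ (H.card * k.choose l) * (n : ℝ) ^ (k - l) := by
      calc ((n : ℝ) ^ l / (2 ^ k * k.factorial)) * (n : ℝ) ^ (k - l)
          = (n : ℝ) ^ l * (n : ℝ) ^ (k - l) / (2 ^ k * k.factorial) := by ring
        _ ≤ _ := h6
        _ = _ := by ring
    exact le_of_mul_le_mul_right h8 hnpos
  rw [div_le_iff₀ hkk] at h7
  rw [div_mul_eq_mul_div, one_mul, div_le_iff₀ (by positivity)]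
  calc (n : ℝ) ^ l ≤ _ := h7
    _ = _ := by ring

/-- Both bounds from the core data. -/
theorem final {k l : ℕ} (h1 : 1 ≤ l) (h2 : l < k) (hg : Good k l) :
    ∃ c C : ℝ, 0 < c ∧ 0 < C ∧ ∃ N : ℕ, ∀ n : ℕ, N ≤ n → (k - l) ∣ n →
      (∃ H : Finset (Finset (Fin n)), Satd n k (k - l) H ∧ (H.card : ℝ) ≤ C * (n : ℝ) ^ l) ∧
      (∀ H : Finset (Finset (Fin n)), Satd n k (k - l) H → c * (n : ℝ) ^ l ≤ (H.card : ℝ)) := by
  obtain ⟨C, N1, hC⟩ := exists_satd hg
  obtain ⟨c, hc, N2, hlow⟩ := lower k l h1 h2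
  refine ⟨c, (C : ℝ) + 1, hc, by positivity, max N1 N2, ?_⟩
  intro n hn hd
  refine ⟨?_, fun H hH => hlow n (le_trans (le_max_right _ _) hn) hd H hH⟩
  obtain ⟨H, hH, hHc⟩ := hC n (le_trans (le_max_left _ _) hn) hd
  refine ⟨H, hH, ?_⟩
  have h3 : (H.card : ℝ) ≤ (C : ℝ) * (n : ℝ) ^ l := by exact_mod_cast hHc
  have h4 : (0 : ℝ) ≤ (n : ℝ) ^ l := by positivity
  nlinarith

end Pool.Agent.KS6_67.Sat
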