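import Pool.Agent.KS6_67.Sat.Tight
import Pool.Agent.KS6_67.Sat.Win

set_option autoImplicit false

namespace Pool.Agent.KS6_67.Sat

open Finset

/-- index of the blob of the vertex `v` -/
def blob (K t v : ℕ) : ℕ := if v / K < 4 * t then v / K else 0

/-- `v` lies in the door of its blob towards `w` -/
def door (K t v w : ℕ) : Prop :=
  v / K < 4 * t ∧ fadj t (v / K) w ∧ 3 * port t (v / K) w ≤ v % K ∧ v % K < 3 * port t (v / K) w + 3

lemma blob_lt {K t v : ℕ} (ht : 1 ≤ t) : blob K t v < 4 * t := by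
  unfold blob
  split_ifs with h
  · exact h
  · omega

lemma door_blob {K t v w : ℕ} (h : door K t v w) : blob K t v = v / K := by
  unfold blob
  rw [if_pos h.1]

lemma door_dis {K t v w w' : ℕ} (ht : 3 ≤ t) (h : door K t v w) (h' : door K t v w') : w = w' := by
  obtain ⟨h1, h2, h3, h4⟩ := h
  obtain ⟨h1', h2', h3', h4'⟩ := h'
  exact port_inj ht h2 h2' (by omega)

lemma door_four {K t u w v1 v2 v3 v4 : ℕ}
    (h1 : door K t v1 w) (h2 : door K t v2 w) (h3 : door K t v3 w) (h4 : door K t v4 w)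
    (b1 : blob K t v1 = u) (b2 : blob K t v2 = u) (b3 : blob K t v3 = u) (b4 : blob K t v4 = u)
    (n12 : v1 ≠ v2) (n13 : v1 ≠ v3) (n14 : v1 ≠ v4) (n23 : v2 ≠ v3) (n24 : v2 ≠ v4)
    (n34 : v3 ≠ v4) : False := by
  rw [door_blob h1] at b1
  rw [door_blob h2] at b2
  rw [door_blob h3] at b3
  rw [door_blob h4] at b4
  obtain ⟨_, _, x1, y1⟩ := h1
  obtain ⟨_, _, x2, y2⟩ := h2
  obtain ⟨_, _, x3, y3⟩ := h3
  obtain ⟨_, _, x4, y4⟩ := h4
  have e1 := Nat.div_add_mod v1 K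
  have e2 := Nat.div_add_mod v2 K
  have e3 := Nat.div_add_mod v3 K
  have e4 := Nat.div_add_mod v4 K
  rw [b1] at e1 x1 y1
  rw [b2] at e2 x2 y2
  rw [b3] at e3 x3 y3
  rw [b4] at e4 x4 y4
  omega

lemma blob_core {K t u r : ℕ} (hr : r < K) (hu : u < 4 * t) : blob K t (u * K + r) = u := by
  have hK : 0 < K := by omega
  have h1 : (u * K + r) / K = u := by
    rw [Nat.mul_comm, Nat.mul_add_div hK, Nat.div_eq_of_lt hr, add_zero]
  unfold blob
  rw [h1, if_pos hu]

lemma not_door_core {K t u r w : ℕ} (hr : r < K) (h9 : 9 ≤ r) : ¬ door K t (u * K + r) w := by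
  rintro ⟨_, h2, h3, h4⟩
  have h1 : (u * K + r) % K = r := by
    rw [Nat.mul_comm, Nat.mul_add_mod, Nat.mod_eq_of_lt hr]
  rw [h1] at h4
  have := port_lt h2
  omega

/-! ### the windows -/

section

variable {n : ℕ}

/-- vertex at position `p` -/
def vt (σ : Equiv.Perm (Fin n)) (hn : 0 < n) (p : ℕ) : Fin n :=
  σ.symm ⟨p % n, Nat.mod_lt _ hn⟩

lemma vt_eq_iff (σ : Equiv.Perm (Fin n)) (hn : 0 < n) (p q : ℕ) :
    vt σ hn p = vt σ hn q ↔ p % n = q % n := by
  unfold vt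
  rw [σ.symm.injective.eq_iff, Fin.mk.injEq]

lemma vt_ne (σ : Equiv.Perm (Fin n)) (hn : 0 < n) {p q : ℕ} (h1 : p < q) (h2 : q < p + n) :
    vt σ hn p ≠ vt σ hn q := by
  intro h
  rw [vt_eq_iff] at h
  have h3 : q - p ≡ 0 [MOD n] := by
    have h4 : p + (q - p) ≡ p + 0 [MOD n] := by
      show (p + (q - p)) % n = (p + 0) % n
      rw [Nat.add_sub_cancel' h1.le, add_zero, h]
    exact Nat.ModEq.add_left_cancel' _ h4
  have h5 := Nat.ModEq.eq_of_lt_of_lt h3 (by omega) (by omega)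
  omega

lemma vt_add (σ : Equiv.Perm (Fin n)) (hn : 0 < n) (p : ℕ) : vt σ hn (p + n) = vt σ hn p := by
  rw [vt_eq_iff, Nat.add_mod_right]

lemma vt_surj (σ : Equiv.Perm (Fin n)) (hn : 0 < n) (v : Fin n) (i : ℕ) :
    ∃ x, i ≤ x ∧ x < i + n ∧ vt σ hn x = v := by
  obtain ⟨y, hy⟩ : ∃ y, y = ((σ v : Fin n) : ℕ) := ⟨_, rfl⟩
  have hyn : y < n := by rw [hy]; exact (σ v).2
  have hv : vt σ hn y = v := by
    unfold vt
    rw [Equiv.symm_apply_eq]
    apply Fin.ext
    simp only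
    rw [Nat.mod_eq_of_lt hyn, hy]
  -- x ≡ y mod n in [i, i+n)
  have hi := Nat.div_add_mod i n
  have him := Nat.mod_lt i hn
  have key : ∀ q, vt σ hn (y + n * q) = v := by
    intro q
    rw [← hv, vt_eq_iff, Nat.add_mul_mod_self_left]
  rcases Nat.lt_or_ge y (i % n) with h | h
  · refine ⟨y + n * (i / n + 1), ?_, ?_, key _⟩
    · rw [Nat.mul_add, Nat.mul_one]; omega
    · rw [Nat.mul_add, Nat.mul_one]; omega
  · exact ⟨y + n * (i / n), by omega, by omega, key _⟩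

lemma mem_win1 (σ : Equiv.Perm (Fin n)) (hn : 0 < n) (κ i : ℕ) (v : Fin n) :
    v ∈ win n (κ + 1) 1 σ i ↔ ∃ r, i ≤ r ∧ r ≤ i + κ ∧ v = vt σ hn r := by
  rw [mem_win]
  constructor
  · rintro ⟨j, hj, hj2⟩
    refine ⟨i + j, by omega, by omega, ?_⟩
    unfold vt
    rw [Equiv.eq_symm_apply]
    apply Fin.ext
    simp only
    rw [hj2, mul_one]
  · rintro ⟨r, hr, hr', rfl⟩
    refine ⟨r - i, by omega, ?_⟩
    unfold vt
    rw [Equiv.apply_symm_apply, mul_one, Nat.add_sub_cancel' hr]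

variable (K t : ℕ)

def GI (W : Finset (Fin n)) : Prop := ∃ u, ∀ v ∈ W, blob K t v = u

def DW (W : Finset (Fin n)) (u w : ℕ) : Prop :=
  (W.filter (fun v : Fin n => blob K t v = u)).card ≤ 2 → ∀ v ∈ W, blob K t v = u → door K t v w

def GC (W : Finset (Fin n)) : Prop :=
  ∃ u w, fadj t u w ∧ (∀ v ∈ W, blob K t v = u ∨ blob K t v = w) ∧ DW K t W u w ∧ DW K t W w u

def GTu (u : ℕ) (W : Finset (Fin n)) : Prop :=
  2 ≤ (W.filter (fun v : Fin n => blob K t v = u)).card ∧ (∃ v ∈ W, (v : ℕ) = u * K + 9) ∧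
    ∀ v ∈ W, blob K t v ≠ u → u < blob K t v ∧ ¬ fadj t u (blob K t v)

open Classical in
noncomputable def GE (k : ℕ) : Finset (Finset (Fin n)) :=
  (Finset.univ.powersetCard k).filter (fun W => GI K t W ∨ GC K t W ∨ ∃ u, GTu K t u W)

variable {K t}

lemma mem_GE {k : ℕ} {W : Finset (Fin n)} :
    W ∈ GE K t k ↔ W.card = k ∧ (GI K t W ∨ GC K t W ∨ ∃ u, GTu K t u W) := by
  classical
  unfold GE
  rw [Finset.mem_filter, Finset.mem_powersetCard]
  constructor
  · rintro ⟨⟨_, h1⟩, h2⟩; exact ⟨h1, h2⟩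
  · rintro ⟨h1, h2⟩; exact ⟨⟨Finset.subset_univ _, h1⟩, h2⟩

/-- two members of the filter -/
lemma two_filter {W : Finset (Fin n)} {u : ℕ} (x : Fin n)
    (h : 2 ≤ (W.filter (fun v : Fin n => blob K t v = u)).card) :
    ∃ v ∈ W, blob K t v = u ∧ v ≠ x := by
  obtain ⟨a, ha, b, hb, hab⟩ := Finset.one_lt_card.mp h
  rw [Finset.mem_filter] at ha hb
  by_cases h1 : a = x
  · refine ⟨b, hb.1, hb.2, ?_⟩
    rintro rfl
    exact hab h1
  · exact ⟨a, ha.1, ha.2, h1⟩

variable {σ : Equiv.Perm (Fin n)} {κ : ℕ}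

/-- shifting a transversal window to the right -/
lemma stepR (hn : 0 < n)
    (hall : ∀ i, win n (κ + 1) 1 σ i ∈ GE K t (κ + 1)) {i u : ℕ}
    (hT : GTu K t u (win n (κ + 1) 1 σ i))
    (hne : ∃ v ∈ win n (κ + 1) 1 σ i, blob K t v ≠ u) :
    (GTu K t u (win n (κ + 1) 1 σ (i + 1)) ∧ ∃ v ∈ win n (κ + 1) 1 σ (i + 1), blob K t v ≠ u) ∨
      (blob K t (vt σ hn i) ≠ u ∧ ∀ r, i < r → r ≤ i + κ → blob K t (vt σ hn r) = u) := by
  -- the second alternative follows if all common vertices are in blob u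
  have hsecond : (∀ r, i < r → r ≤ i + κ → blob K t (vt σ hn r) = u) →
      (blob K t (vt σ hn i) ≠ u ∧ ∀ r, i < r → r ≤ i + κ → blob K t (vt σ hn r) = u) := by
    intro h
    refine ⟨?_, h⟩
    obtain ⟨v, hv, hvu⟩ := hne
    rw [mem_win1 σ hn] at hv
    obtain ⟨r, hr1, hr2, rfl⟩ := hv
    rcases Nat.lt_or_ge i r with h1 | h1
    · exact absurd (h r h1 hr2) hvu
    · rw [show i = r by omega]; exact hvu
  -- a common vertex of blob u
  obtain ⟨r0, hr1, hr2, hr3⟩ : ∃ r0, i < r0 ∧ r0 ≤ i + κ ∧ blob K t (vt σ hn r0) = u := by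
    obtain ⟨v, hv, hvu, hvx⟩ := two_filter (vt σ hn i) hT.1
    rw [mem_win1 σ hn] at hv
    obtain ⟨r, hr1, hr2, rfl⟩ := hv
    refine ⟨r, ?_, hr2, hvu⟩
    rcases Nat.lt_or_ge i r with h1 | h1
    · exact h1
    · exact absurd (by rw [show i = r by omega]) hvx
  have hmemL : ∀ r, i < r → r ≤ i + κ → vt σ hn r ∈ win n (κ + 1) 1 σ i := fun r h1 h2 =>
    (mem_win1 σ hn κ i _).mpr ⟨r, h1.le, h2, rfl⟩
  have hmemR : ∀ r, i < r → r ≤ i + κ → vt σ hn r ∈ win n (κ + 1) 1 σ (i + 1) := fun r h1 h2 =>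
    (mem_win1 σ hn κ (i + 1) _).mpr ⟨r, h1, by omega, rfl⟩
  have hG := hall (i + 1)
  rw [mem_GE] at hG
  rcases hG.2 with ⟨u', hI⟩ | ⟨x, y, hxy, hC, _, _⟩ | ⟨u', hT'⟩
  · right
    apply hsecond
    have h1 := hI _ (hmemR r0 hr1 hr2)
    rw [hr3] at h1
    intro r hr hr'
    rw [hI _ (hmemR r hr hr'), h1]
  · right
    apply hsecond
    intro r hr hr'
    by_contra hcon
    have h1 := (hT.2.2 _ (hmemL r hr hr') hcon).2
    have h2 := hC _ (hmemR r0 hr1 hr2)
    have h3 := hC _ (hmemR r hr hr')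
    rw [hr3] at h2
    rcases h2 with h2 | h2 <;> rcases h3 with h3 | h3
    · exact hcon (h3.trans h2.symm)
    · rw [h2, h3] at h1; exact h1 hxy
    · rw [h2, h3] at h1; exact h1 hxy.symm
    · exact hcon (h3.trans h2.symm)
  · by_cases huu : u' = u
    · subst huu
      by_cases h1 : ∃ v ∈ win n (κ + 1) 1 σ (i + 1), blob K t v ≠ u'
      · exact Or.inl ⟨hT', h1⟩
      · right
        apply hsecond
        intro r hr hr'
        by_contra hcon
        exact h1 ⟨_, hmemR r hr hr', hcon⟩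
    · exfalso
      have h1 := (hT'.2.2 _ (hmemR r0 hr1 hr2) (by rw [hr3]; exact fun h => huu h.symm)).1
      rw [hr3] at h1
      obtain ⟨v, hv, hvu, hvx⟩ := two_filter (vt σ hn (i + 1 + κ)) hT'.1
      rw [mem_win1 σ hn] at hv
      obtain ⟨r, hr1', hr2', rfl⟩ := hv
      have hri : r ≤ i + κ := by
        by_contra hcon
        exact hvx (by rw [show r = i + 1 + κ by omega])
      have h2 := (hT.2.2 _ (hmemL r (by omega) hri) (by rw [hvu]; exact huu)).1
      rw [hvu] at h2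
      omega

/-- shifting a transversal window to the left -/
lemma stepL (hn : 0 < n)
    (hall : ∀ i, win n (κ + 1) 1 σ i ∈ GE K t (κ + 1)) {i u : ℕ}
    (hT : GTu K t u (win n (κ + 1) 1 σ (i + 1)))
    (hne : ∃ v ∈ win n (κ + 1) 1 σ (i + 1), blob K t v ≠ u) :
    (GTu K t u (win n (κ + 1) 1 σ i) ∧ ∃ v ∈ win n (κ + 1) 1 σ i, blob K t v ≠ u) ∨
      (blob K t (vt σ hn (i + 1 + κ)) ≠ u ∧
        ∀ r, i < r → r ≤ i + κ → blob K t (vt σ hn r) = u) := by
  have hsecond : (∀ r, i < r → r ≤ i + κ → blob K t (vt σ hn r) = u) →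
      (blob K t (vt σ hn (i + 1 + κ)) ≠ u ∧
        ∀ r, i < r → r ≤ i + κ → blob K t (vt σ hn r) = u) := by
    intro h
    refine ⟨?_, h⟩
    obtain ⟨v, hv, hvu⟩ := hne
    rw [mem_win1 σ hn] at hv
    obtain ⟨r, hr1, hr2, rfl⟩ := hv
    rcases Nat.lt_or_ge r (i + 1 + κ) with h1 | h1
    · exact absurd (h r (by omega) (by omega)) hvu
    · rw [show i + 1 + κ = r by omega]; exact hvu
  obtain ⟨r0, hr1, hr2, hr3⟩ : ∃ r0, i < r0 ∧ r0 ≤ i + κ ∧ blob K t (vt σ hn r0) = u := by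
    obtain ⟨v, hv, hvu, hvx⟩ := two_filter (vt σ hn (i + 1 + κ)) hT.1
    rw [mem_win1 σ hn] at hv
    obtain ⟨r, hr1, hr2, rfl⟩ := hv
    refine ⟨r, by omega, ?_, hvu⟩
    by_contra hcon
    exact hvx (by rw [show r = i + 1 + κ by omega])
  have hmemL : ∀ r, i < r → r ≤ i + κ → vt σ hn r ∈ win n (κ + 1) 1 σ i := fun r h1 h2 =>
    (mem_win1 σ hn κ i _).mpr ⟨r, h1.le, h2, rfl⟩
  have hmemR : ∀ r, i < r → r ≤ i + κ → vt σ hn r ∈ win n (κ + 1) 1 σ (i + 1) := fun r h1 h2 =>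
    (mem_win1 σ hn κ (i + 1) _).mpr ⟨r, h1, by omega, rfl⟩
  have hG := hall i
  rw [mem_GE] at hG
  rcases hG.2 with ⟨u', hI⟩ | ⟨x, y, hxy, hC, _, _⟩ | ⟨u', hT'⟩
  · right
    apply hsecond
    have h1 := hI _ (hmemL r0 hr1 hr2)
    rw [hr3] at h1
    intro r hr hr'
    rw [hI _ (hmemL r hr hr'), h1]
  · right
    apply hsecond
    intro r hr hr'
    by_contra hcon
    have h1 := (hT.2.2 _ (hmemR r hr hr') hcon).2
    have h2 := hC _ (hmemL r0 hr1 hr2)
    have h3 := hC _ (hmemL r hr hr')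
    rw [hr3] at h2
    rcases h2 with h2 | h2 <;> rcases h3 with h3 | h3
    · exact hcon (h3.trans h2.symm)
    · rw [h2, h3] at h1; exact h1 hxy
    · rw [h2, h3] at h1; exact h1 hxy.symm
    · exact hcon (h3.trans h2.symm)
  · by_cases huu : u' = u
    · subst huu
      by_cases h1 : ∃ v ∈ win n (κ + 1) 1 σ i, blob K t v ≠ u'
      · exact Or.inl ⟨hT', h1⟩
      · right
        apply hsecond
        intro r hr hr'
        by_contra hcon
        exact h1 ⟨_, hmemL r hr hr', hcon⟩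
    · exfalso
      have h1 := (hT'.2.2 _ (hmemL r0 hr1 hr2) (by rw [hr3]; exact fun h => huu h.symm)).1
      rw [hr3] at h1
      obtain ⟨v, hv, hvu, hvx⟩ := two_filter (vt σ hn i) hT'.1
      rw [mem_win1 σ hn] at hv
      obtain ⟨r, hr1', hr2', rfl⟩ := hv
      have hri : i < r := by
        by_contra hcon
        exact hvx (by rw [show r = i by omega])
      have h2 := (hT.2.2 _ (hmemR r hri hr2') (by rw [hvu]; exact huu)).1
      rw [hvu] at h2
      omega

/-- there are no transversal windows -/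
lemma no_trans (hn : 0 < n) (hκ : 2 ≤ κ) (ht : 3 ≤ t) (hK : 10 ≤ K) (hnk : 2 * κ + 6 ≤ n)
    (hall : ∀ i, win n (κ + 1) 1 σ i ∈ GE K t (κ + 1)) (i u : ℕ) (hi : κ + 2 ≤ i)
    (hT : GTu K t u (win n (κ + 1) 1 σ i))
    (hne : ∃ v ∈ win n (κ + 1) 1 σ i, blob K t v ≠ u) : False := by
  -- u is a blob
  have hu : u < 4 * t := by
    obtain ⟨v, hv, hvu, _⟩ := two_filter (vt σ hn i) hT.1
    rw [← hvu]
    exact blob_lt (by omega)
  obtain ⟨φ, hφ, hφ2⟩ := hT.2.1
  have hφu : blob K t φ = u := by rw [hφ2]; exact blob_core (by omega) hu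
  rw [mem_win1 σ hn] at hφ
  obtain ⟨p, hp1, hp2, hp3⟩ := hφ
  have hport : ∀ j, j ≤ p + 1 → p ≤ j + κ + 1 → GTu K t u (win n (κ + 1) 1 σ j) →
      j ≤ p ∧ p ≤ j + κ := by
    intro j h1 h2 h3
    obtain ⟨v, hv, hv2⟩ := h3.2.1
    have hvφ : v = φ := Fin.ext (hv2.trans hφ2.symm)
    rw [mem_win1 σ hn] at hv
    obtain ⟨r, hr1, hr2, hr3⟩ := hv
    rw [hvφ, hp3] at hr3
    have hrp : r = p := by
      rcases Nat.lt_trichotomy r p with h | h | h
      · exact absurd hr3.symm (vt_ne σ hn h (by omega))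
      · exact h
      · exact absurd hr3 (vt_ne σ hn h (by omega))
    omega
  have hcp : blob K t (vt σ hn p) = u := by rw [← hp3]; exact hφu
  -- to the right
  have hR : ∀ m, i + m ≤ p + 1 → (GTu K t u (win n (κ + 1) 1 σ (i + m)) ∧
      ∃ v ∈ win n (κ + 1) 1 σ (i + m), blob K t v ≠ u) ∨
      ∃ b, i ≤ b ∧ b < i + m ∧ blob K t (vt σ hn b) ≠ u ∧
        ∀ r, b < r → r ≤ b + κ → blob K t (vt σ hn r) = u := by
    intro m
    induction m with
    | zero => intro _; left; exact ⟨hT, hne⟩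
    | succ m ih =>
      intro hm
      rcases ih (by omega) with ⟨h1, h2⟩ | ⟨b, hb1, hb2, hb3⟩
      · rcases stepR hn hall h1 h2 with h3 | h3
        · left; exact h3
        · right; exact ⟨i + m, by omega, by omega, h3⟩
      · right; exact ⟨b, hb1, by omega, hb3⟩
  obtain ⟨b, hb1, hb2, hb3, hb4⟩ : ∃ b, i ≤ b ∧ b < p + 1 ∧ blob K t (vt σ hn b) ≠ u ∧
        ∀ r, b < r → r ≤ b + κ → blob K t (vt σ hn r) = u := by
    rcases hR (p + 1 - i) (by omega) with ⟨h1, _⟩ | ⟨b, hb1, hb2, hb3⟩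
    · rw [show i + (p + 1 - i) = p + 1 by omega] at h1
      have := hport (p + 1) le_rfl (by omega) h1
      omega
    · exact ⟨b, hb1, by omega, hb3⟩
  have hbp : b < p := by
    rcases Nat.lt_or_ge b p with h | h
    · exact h
    · exfalso
      rw [show b = p by omega] at hb3
      exact hb3 hcp
  -- to the left
  have hL : ∀ m, m ≤ i → p ≤ i - m + κ + 1 → (GTu K t u (win n (κ + 1) 1 σ (i - m)) ∧
      ∃ v ∈ win n (κ + 1) 1 σ (i - m), blob K t v ≠ u) ∨
      ∃ a, i - m ≤ a ∧ a < i ∧ blob K t (vt σ hn (a + 1 + κ)) ≠ u := by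
    intro m
    induction m with
    | zero => intro _ _; left; exact ⟨hT, hne⟩
    | succ m ih =>
      intro hm hm2
      rcases ih (by omega) (by omega) with ⟨h1, h2⟩ | ⟨a, ha1, ha2, ha3⟩
      · rw [show i - m = (i - (m + 1)) + 1 by omega] at h1 h2
        rcases stepL hn hall h1 h2 with h3 | h3
        · left; exact h3
        · right; exact ⟨i - (m + 1), le_rfl, by omega, h3.1⟩
      · right; exact ⟨a, by omega, ha2, ha3⟩
  obtain ⟨a, ha1, ha2, ha3⟩ : ∃ a, p ≤ a + κ + 1 ∧ a < i ∧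
      blob K t (vt σ hn (a + 1 + κ)) ≠ u := by
    rcases hL (i + κ + 1 - p) (by omega) (by omega) with ⟨h1, _⟩ | ⟨a, ha1, ha2, ha3⟩
    · have := hport _ (by omega) (by omega) h1
      omega
    · exact ⟨a, by omega, ha2, ha3⟩
  exact ha3 (hb4 (a + 1 + κ) (by omega) (by omega))

/-- the tight structure of a Hamiltonian cycle in `GE` -/
theorem not_hamE (hκ : 2 ≤ κ) (h7 : 7 ≤ t) (hK : 12 ≤ K) (hnk : 2 * κ + 6 ≤ n)
    (hKn : 4 * t * K ≤ n) (hNW : NoWalk t) : ¬ Ham n (κ + 1) 1 (GE K t (κ + 1)) := by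
  rintro ⟨σ, hσ⟩
  have hn : 0 < n := by omega
  have hall : ∀ i, win n (κ + 1) 1 σ i ∈ GE K t (κ + 1) := by
    have h1 : ∀ q i, win n (κ + 1) 1 σ (i + n * q) = win n (κ + 1) 1 σ i := by
      intro q
      induction q with
      | zero => intro i; simp
      | succ q ih =>
        intro i
        rw [show i + n * (q + 1) = (i + n * q) + n by ring,
          win_add_period (m := n) (by rw [mul_one]), ih]
    intro i
    have h2 := h1 (i / n) (i % n)
    rw [Nat.mod_add_div] at h2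
    rw [h2]
    refine hσ _ ?_
    rw [Nat.div_one]
    exact Nat.mod_lt _ hn
  have hIC : ∀ i, GI K t (win n (κ + 1) 1 σ i) ∨ GC K t (win n (κ + 1) 1 σ i) := by
    intro i
    have hper : win n (κ + 1) 1 σ (i + n) = win n (κ + 1) 1 σ i :=
      win_add_period (m := n) (by rw [mul_one]) σ i
    have h1 := hall (i + n)
    rw [mem_GE] at h1
    rw [← hper]
    rcases h1.2 with h2 | h2 | ⟨u, h2⟩
    · exact Or.inl h2
    · exact Or.inr h2
    · by_cases hne : ∃ v ∈ win n (κ + 1) 1 σ (i + n), blob K t v ≠ u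
      · exact (no_trans hn hκ (by omega) (by omega) hnk hall (i + n) u (by omega) h2 hne).elim
      · left
        refine ⟨u, fun v hv => ?_⟩
        by_contra hcon
        exact hne ⟨v, hv, hcon⟩
  -- the door condition
  have hD : ∀ i u w, DW K t (win n (κ + 1) 1 σ i) u w →
      Dr κ (fun p => blob K t (vt σ hn p)) (fun p w => door K t (vt σ hn p) w) i u w := by
    intro i u w hDW p q h1 h2 h3 h4 h5 h6
    have hcard : ((win n (κ + 1) 1 σ i).filter (fun v : Fin n => blob K t v = u)).card ≤ 2 := by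
      have hsub : (win n (κ + 1) 1 σ i).filter (fun v : Fin n => blob K t v = u) ⊆
          {vt σ hn p, vt σ hn q} := by
        intro v hv
        rw [Finset.mem_filter, mem_win1 σ hn] at hv
        obtain ⟨⟨r, hr1, hr2, rfl⟩, hr3⟩ := hv
        rw [Finset.mem_insert, Finset.mem_singleton]
        rcases h6 r hr1 hr2 hr3 with h | h
        · left; rw [h]
        · right; rw [h]
      exact (Finset.card_le_card hsub).trans Finset.card_le_two
    have h7 := hDW hcard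
    exact ⟨h7 _ ((mem_win1 σ hn κ i _).mpr ⟨p, h1, by omega, rfl⟩) h4,
      h7 _ ((mem_win1 σ hn κ i _).mpr ⟨q, by omega, h3, rfl⟩) h5⟩
  have T : Tight t κ n (fun p => blob K t (vt σ hn p)) (fun p w => door K t (vt σ hn p) w) := by
    refine ⟨?_, ?_, ?_, ?_, ?_, ?_, ?_⟩
    · intro p
      show blob K t (vt σ hn (p + n)) = blob K t (vt σ hn p)
      rw [vt_add]
    · intro p w
      show door K t (vt σ hn (p + n)) w ↔ door K t (vt σ hn p) w
      rw [vt_add]
    · intro p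
      exact blob_lt (by omega)
    · intro i
      rcases hIC i with ⟨u, h⟩ | ⟨u, w, huw, h1, h2, h3⟩
      · left
        intro r hr hr'
        show blob K t (vt σ hn r) = blob K t (vt σ hn i)
        rw [h _ ((mem_win1 σ hn κ i _).mpr ⟨r, hr, hr', rfl⟩),
          h _ ((mem_win1 σ hn κ i _).mpr ⟨i, le_rfl, by omega, rfl⟩)]
      · right
        refine ⟨u, w, huw, ?_, hD i u w h2, hD i w u h3⟩
        intro r hr hr'
        exact h1 _ ((mem_win1 σ hn κ i _).mpr ⟨r, hr, hr', rfl⟩)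
    · intro v w p1 p2 p3 p4 h1 h2 h3 h4 c1 c2 c3 c4 a1 a2 a3 a4
      have hne : ∀ p q, p < q → q < p + n → ((vt σ hn p : Fin n) : ℕ) ≠ (vt σ hn q : Fin n) :=
        fun p q hp hq h => vt_ne σ hn hp hq (Fin.ext h)
      exact door_four a1 a2 a3 a4 c1 c2 c3 c4 (hne _ _ h1 (by omega)) (hne _ _ (by omega) (by omega))
        (hne _ _ (by omega) (by omega)) (hne _ _ h2 (by omega)) (hne _ _ (by omega) (by omega))
        (hne _ _ h3 (by omega))
    · intro p w w' h h'
      exact door_dis (by omega) h h'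
    · intro u hu i
      have hlt : u * K + 10 < n := by
        have h1 : (u + 1) * K ≤ 4 * t * K := Nat.mul_le_mul_right K hu
        have h2 : (u + 1) * K = u * K + K := by ring
        omega
      obtain ⟨x, hx1, hx2, hx3⟩ := vt_surj σ hn ⟨u * K + 10, hlt⟩ i
      refine ⟨x, hx1, hx2, ?_, ?_⟩
      · show blob K t (vt σ hn x) = u
        rw [hx3]
        exact blob_core (by omega) hu
      · intro w
        show ¬ door K t (vt σ hn x) w
        rw [hx3]
        exact not_door_core (by omega) (by omega)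
  exact T.contra hNW hκ h7 hnk

end

end Pool.Agent.KS6_67.Sat
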