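import Pool.Agent.KS6_67.Sat.Win

set_option autoImplicit false

namespace Pool.Agent.KS6_67.Sat

open Finset

/-- indices of the classes hit by `e` -/
def hitSet {n : ℕ} (N : ℕ) (Q : ℕ → Finset (Fin n)) (e : Finset (Fin n)) : Finset ℕ :=
  (Finset.range N).filter (fun i => (e ∩ Q i).Nonempty)

/-- the `k`-sets hitting at most `l` classes -/
def bad {n : ℕ} (k l N : ℕ) (Q : ℕ → Finset (Fin n)) : Finset (Finset (Fin n)) :=
  ((Finset.univ : Finset (Fin n)).powersetCard k).filter (fun e => (hitSet N Q e).card ≤ l)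

lemma mem_hitSet {n N : ℕ} {Q : ℕ → Finset (Fin n)} {e : Finset (Fin n)} {i : ℕ} :
    i ∈ hitSet N Q e ↔ i < N ∧ (e ∩ Q i).Nonempty := by
  simp [hitSet]

lemma mem_bad {n k l N : ℕ} {Q : ℕ → Finset (Fin n)} {e : Finset (Fin n)} :
    e ∈ bad k l N Q ↔ e.card = k ∧ (hitSet N Q e).card ≤ l := by
  simp [bad, Finset.mem_powersetCard]

theorem bad_card {n k l N s z : ℕ} (Q : ℕ → Finset (Fin n)) (Z : Finset (Fin n))
    (hcov : ∀ v, v ∈ Z ∨ ∃ i < N, v ∈ Q i) (hs : ∀ i < N, (Q i).card ≤ s)
    (hz : Z.card ≤ z) (hlN : l ≤ N) :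
    (bad k l N Q).card ≤ N ^ l * 2 ^ (l * s + z) := by
  classical
  have hsub : bad k l N Q ⊆ ((Finset.range N).powersetCard l).biUnion
      (fun J => (J.biUnion Q ∪ Z).powerset) := by
    intro e he
    rw [mem_bad] at he
    have h1 : hitSet N Q e ⊆ Finset.range N := Finset.filter_subset _ _
    obtain ⟨J, hJ1, hJ2, hJ3⟩ := Finset.exists_subsuperset_card_eq h1 he.2 (by simpa using hlN)
    rw [Finset.mem_biUnion]
    refine ⟨J, Finset.mem_powersetCard.mpr ⟨hJ2, hJ3⟩, ?_⟩
    rw [Finset.mem_powerset]
    intro v hv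
    rw [Finset.mem_union, Finset.mem_biUnion]
    rcases hcov v with h | ⟨i, hi, hvi⟩
    · exact Or.inr h
    · refine Or.inl ⟨i, hJ1 ?_, hvi⟩
      rw [mem_hitSet]
      exact ⟨hi, ⟨v, Finset.mem_inter.mpr ⟨hv, hvi⟩⟩⟩
  calc (bad k l N Q).card ≤ _ := Finset.card_le_card hsub
    _ ≤ ((Finset.range N).powersetCard l).card * 2 ^ (l * s + z) := by
        refine Finset.card_biUnion_le_card_mul _ _ _ ?_
        intro J hJ
        rw [Finset.mem_powersetCard] at hJ
        rw [Finset.card_powerset]
        refine Nat.pow_le_pow_right (by norm_num) ?_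
        refine (Finset.card_union_le _ _).trans ?_
        refine Nat.add_le_add ?_ hz
        rw [← hJ.2]
        refine Finset.card_biUnion_le_card_mul _ _ _ ?_
        intro i hi
        exact hs i (by simpa using hJ.1 hi)
    _ ≤ N ^ l * 2 ^ (l * s + z) := by
        refine Nat.mul_le_mul_right _ ?_
        rw [Finset.card_powersetCard, Finset.card_range]
        exact Nat.choose_le_pow N l

lemma sum_inter_le {n : ℕ} (J : Finset ℕ) (Q : ℕ → Finset (Fin n)) (e : Finset (Fin n))
    (hQ : ∀ i ∈ J, ∀ j ∈ J, i ≠ j → Disjoint (Q i) (Q j)) :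
    ∑ i ∈ J, (e ∩ Q i).card ≤ e.card := by
  classical
  rw [← Finset.card_biUnion]
  · refine Finset.card_le_card ?_
    intro v hv
    rw [Finset.mem_biUnion] at hv
    obtain ⟨i, _, hi⟩ := hv
    exact (Finset.mem_inter.mp hi).1
  · intro i hi j hj hij
    exact (hQ i hi j hj hij).mono Finset.inter_subset_right Finset.inter_subset_right

/-- A `k`-set with many points in one class hits few classes. -/
lemma hit_le {n k d l N : ℕ} (hk : k = d + l) (Q : ℕ → Finset (Fin n))
    (hQ : ∀ i j, i ≠ j → Disjoint (Q i) (Q j)) (e : Finset (Fin n)) (he : e.card = k)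
    (i : ℕ) (hi : d + 1 ≤ (e ∩ Q i).card) : (hitSet N Q e).card ≤ l := by
  classical
  have h1 := sum_inter_le (insert i (hitSet N Q e)) Q e (fun a _ b _ hab => hQ a b hab)
  have h2 : ∑ j ∈ insert i (hitSet N Q e), (e ∩ Q j).card ≥
      (insert i (hitSet N Q e)).card + d := by
    rw [← Finset.insert_erase (Finset.mem_insert_self i (hitSet N Q e))]
    rw [Finset.sum_insert (Finset.notMem_erase _ _), Finset.card_insert_of_notMem
      (Finset.notMem_erase _ _)]
    have h3 : ∑ j ∈ (insert i (hitSet N Q e)).erase i, (e ∩ Q j).card ≥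
        ∑ j ∈ (insert i (hitSet N Q e)).erase i, 1 := by
      refine Finset.sum_le_sum ?_
      intro j hj
      rw [Finset.mem_erase, Finset.mem_insert] at hj
      rcases hj.2 with h | h
      · exact absurd h hj.1
      · exact Finset.card_pos.mpr (mem_hitSet.mp h).2
    rw [Finset.sum_const, smul_eq_mul, mul_one] at h3
    omega
  have h4 : (hitSet N Q e).card ≤ (insert i (hitSet N Q e)).card :=
    Finset.card_le_card (Finset.subset_insert _ _)
  omega

/-! ### Linear capacity lemma -/

lemma lin_cap {α : Type*} [DecidableEq α] (d l μ : ℕ) (hl : l ≤ d + 1)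
    (hμ : μ = max (d + 1) (2 * (d + 1 - l)))
    (A : ℕ → Finset α) :
    ∀ (T : Finset ℕ), (∀ t ∈ T, d + 1 ≤ (A t).card) →
      (∀ t ∈ T, ∀ t' ∈ T, t + 2 ≤ t' → Disjoint (A t) (A t')) →
      (∀ t ∈ T, t + 1 ∈ T → (A t ∩ A (t + 1)).card ≤ l) →
      ∀ j, (T.card = 2 * j + 1 → j * μ + (d + 1) ≤ (T.biUnion A).card) ∧
        (T.card = 2 * j + 2 → j * μ + (2 * (d + 1) - l) ≤ (T.biUnion A).card) := by
  -- removing the maximum
  have step1 : ∀ (T : Finset ℕ) (t1 : ℕ), t1 ∈ T → (∀ t ∈ T, t ≤ t1) →
      (∀ t ∈ T, d + 1 ≤ (A t).card) →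
      (∀ t ∈ T, ∀ t' ∈ T, t + 2 ≤ t' → Disjoint (A t) (A t')) →
      (∀ t ∈ T, t + 1 ∈ T → (A t ∩ A (t + 1)).card ≤ l) →
      ((T.erase t1).biUnion A).card + (d + 1 - l) ≤ (T.biUnion A).card := by
    intro T t1 ht1 hmax hc hdis hint
    have hT : T = insert t1 (T.erase t1) := (Finset.insert_erase ht1).symm
    have h1 : (T.biUnion A) = A t1 ∪ (T.erase t1).biUnion A := by
      conv_lhs => rw [hT]
      rw [Finset.biUnion_insert]
    have h2 : (A t1 ∩ (T.erase t1).biUnion A).card ≤ l := by
      by_cases h : t1 - 1 ∈ T ∧ 1 ≤ t1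
      · have h3 : A t1 ∩ (T.erase t1).biUnion A ⊆ A (t1 - 1) ∩ A (t1 - 1 + 1) := by
          intro v hv
          rw [Finset.mem_inter, Finset.mem_biUnion] at hv
          obtain ⟨hv1, t, ht, hvt⟩ := hv
          rw [Finset.mem_erase] at ht
          have hle := hmax t ht.2
          rw [Nat.sub_add_cancel h.2, Finset.mem_inter]
          refine ⟨?_, hv1⟩
          by_cases h4 : t = t1 - 1
          · rwa [h4] at hvt
          · have h5 := hdis t ht.2 t1 ht1 (by omega)
            exact absurd hv1 (Finset.disjoint_left.mp h5 hvt)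
        refine (Finset.card_le_card h3).trans (hint _ h.1 ?_)
        rw [Nat.sub_add_cancel h.2]
        exact ht1
      · have h3 : A t1 ∩ (T.erase t1).biUnion A = ∅ := by
          rw [Finset.eq_empty_iff_forall_notMem]
          intro v hv
          rw [Finset.mem_inter, Finset.mem_biUnion] at hv
          obtain ⟨hv1, t, ht, hvt⟩ := hv
          rw [Finset.mem_erase] at ht
          have hle := hmax t ht.2
          by_cases h4 : t + 1 = t1
          · exact h ⟨by rw [← h4]; simpa using ht.2, by omega⟩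
          · have h5 := hdis t ht.2 t1 ht1 (by omega)
            exact Finset.disjoint_left.mp h5 hvt hv1
        rw [h3]
        simp
    have h6 := Finset.card_union_add_card_inter (A t1) ((T.erase t1).biUnion A)
    rw [h1]
    have h7 := hc t1 ht1
    omega
  intro T
  induction T using Finset.strongInduction with
  | _ T ih =>
    intro hc hdis hint j
    rcases Nat.lt_or_ge T.card 3 with hT3 | hT3
    · constructor
      · intro hT
        have hj : j = 0 := by omega
        subst hj
        have h1 : T.card = 1 := by omega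
        rw [Finset.card_eq_one] at h1
        obtain ⟨a, rfl⟩ := h1
        simpa using hc a (Finset.mem_singleton_self a)
      · intro hT
        have hj : j = 0 := by omega
        subst hj
        have hne : T.Nonempty := Finset.card_pos.mp (by omega)
        have h1 := step1 T (T.max' hne) (Finset.max'_mem T hne) (fun t ht => Finset.le_max' T t ht)
          hc hdis hint
        have h2 : (T.erase (T.max' hne)).card = 1 := by
          rw [Finset.card_erase_of_mem (Finset.max'_mem T hne)]
          omega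
        rw [Finset.card_eq_one] at h2
        obtain ⟨a, ha⟩ := h2
        rw [ha, Finset.singleton_biUnion] at h1
        have h3 : a ∈ T := by
          have : a ∈ T.erase (T.max' hne) := by rw [ha]; exact Finset.mem_singleton_self a
          exact (Finset.mem_erase.mp this).2
        have h4 := hc a h3
        omega
    · -- remove the two largest
      have hne : T.Nonempty := Finset.card_pos.mp (by omega)
      set t1 := T.max' hne with ht1
      have ht1m : t1 ∈ T := Finset.max'_mem T hne
      have ht1x : ∀ t ∈ T, t ≤ t1 := fun t ht => Finset.le_max' T t ht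
      set T1 := T.erase t1 with hT1
      have hT1c : T1.card = T.card - 1 := Finset.card_erase_of_mem ht1m
      have hne1 : T1.Nonempty := Finset.card_pos.mp (by omega)
      set t2 := T1.max' hne1 with ht2
      have ht2m : t2 ∈ T1 := Finset.max'_mem T1 hne1
      have ht2x : ∀ t ∈ T1, t ≤ t2 := fun t ht => Finset.le_max' T1 t ht
      set T0 := T1.erase t2 with hT0
      have hT0c : T0.card = T1.card - 1 := Finset.card_erase_of_mem ht2m
      have hT1T : T1 ⊆ T := Finset.erase_subset _ _
      have hT0T1 : T0 ⊆ T1 := Finset.erase_subset _ _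
      have h1 := step1 T t1 ht1m ht1x hc hdis hint
      have h2 := step1 T1 t2 ht2m ht2x (fun t ht => hc t (hT1T ht))
        (fun t ht t' ht' => hdis t (hT1T ht) t' (hT1T ht'))
        (fun t ht ht' => hint t (hT1T ht) (hT1T ht'))
      rw [← hT1] at h1
      rw [← hT0] at h2
      have h3 : (T0.biUnion A).card + (d + 1) ≤ (T.biUnion A).card := by
        have h4 : Disjoint (A t1) (T0.biUnion A) := by
          rw [Finset.disjoint_right]
          intro v hv hv1
          rw [Finset.mem_biUnion] at hv
          obtain ⟨t, ht, hvt⟩ := hv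
          have ht' : t ∈ T1 := hT0T1 ht
          have h5 : t ≠ t2 := (Finset.mem_erase.mp ht).1
          have h6 : t ≤ t2 := ht2x t ht'
          have h7 : t2 ≠ t1 := (Finset.mem_erase.mp ht2m).1
          have h8 : t2 ≤ t1 := ht1x t2 (hT1T ht2m)
          have h9 := hdis t (hT1T ht') t1 ht1m (by omega)
          exact Finset.disjoint_left.mp h9 hvt hv1
        have h5 : A t1 ∪ T0.biUnion A ⊆ T.biUnion A := by
          refine Finset.union_subset (Finset.subset_biUnion_of_mem A ht1m) ?_
          exact Finset.biUnion_subset_biUnion_of_subset_left A (hT0T1.trans hT1T)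
        have h6 := Finset.card_le_card h5
        rw [Finset.card_union_of_disjoint h4] at h6
        have h7 := hc t1 ht1m
        omega
      have h4 : (T0.biUnion A).card + μ ≤ (T.biUnion A).card := by
        rw [hμ]
        rcases max_cases (d + 1) (2 * (d + 1 - l)) with h | h
        · rw [h.1]; exact h3
        · rw [h.1]; omega
      have hlt : T0 ⊂ T := by
        refine Finset.ssubset_iff_subset_ne.mpr ⟨hT0T1.trans hT1T, ?_⟩
        intro h
        rw [h] at hT0c
        omega
      have h5 := ih T0 hlt (fun t ht => hc t (hT1T (hT0T1 ht)))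
        (fun t ht t' ht' => hdis t (hT1T (hT0T1 ht)) t' (hT1T (hT0T1 ht')))
        (fun t ht ht' => hint t (hT1T (hT0T1 ht)) (hT1T (hT0T1 ht')))
      constructor
      · intro hT
        obtain ⟨j', rfl⟩ : ∃ j', j = j' + 1 := ⟨j - 1, by omega⟩
        have h6 := (h5 j').1 (by omega)
        have h7 : (j' + 1) * μ = j' * μ + μ := by ring
        omega
      · intro hT
        obtain ⟨j', rfl⟩ : ∃ j', j = j' + 1 := ⟨j - 1, by omega⟩
        have h6 := (h5 j').2 (by omega)
        have h7 : (j' + 1) * μ = j' * μ + μ := by ring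
        omega

/-! ### Cyclic capacity -/

/-- the windows that are good for the class `Q` -/
def goodW (n k d m a : ℕ) (σ : Equiv.Perm (Fin n)) (Q : Finset (Fin n)) : Finset ℕ :=
  (Finset.range m).filter (fun w => a ≤ (win n k d σ w ∩ Q).card)

theorem cyc_cap {n k d l m : ℕ} (hk : k = d + l) (hld : l ≤ d) (hd : 0 < d) (hn : n = m * d)
    (μ : ℕ) (hμ : μ = max (d + 1) (2 * (d + 1 - l)))
    (σ : Equiv.Perm (Fin n)) (Q : Finset (Fin n)) (T : Finset ℕ)
    (hT : T ⊆ goodW n k d m (d + 1) σ Q) (hTm : T.card < m) (j : ℕ) :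
    (T.card = 2 * j + 1 → j * μ + (d + 1) ≤ Q.card) ∧
      (T.card = 2 * j + 2 → j * μ + (2 * (d + 1) - l) ≤ Q.card) := by
  classical
  -- a missing index
  have hex : ∃ g ∈ Finset.range m, g ∉ T := by
    by_contra hcon
    push Not at hcon
    have : (Finset.range m).card ≤ T.card := Finset.card_le_card hcon
    rw [Finset.card_range] at this
    omega
  obtain ⟨g, hgm, hgT⟩ := hex
  rw [Finset.mem_range] at hgm
  let φ : ℕ → ℕ := fun w => if g < w then w - g else w + m - g
  let A : ℕ → Finset (Fin n) := fun t => win n k d σ (g + t) ∩ Q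
  have hTr : ∀ w ∈ T, w < m ∧ d + 1 ≤ (win n k d σ w ∩ Q).card ∧ w ≠ g := by
    intro w hw
    have h1 := hT hw
    rw [goodW, Finset.mem_filter, Finset.mem_range] at h1
    exact ⟨h1.1, h1.2, fun h => hgT (h ▸ hw)⟩
  have hφ1 : ∀ w ∈ T, 1 ≤ φ w ∧ φ w < m := by
    intro w hw
    have h1 := hTr w hw
    simp only [φ]
    split_ifs with h
    · omega
    · omega
  have hφA : ∀ w ∈ T, A (φ w) = win n k d σ w ∩ Q := by
    intro w hw
    have h1 := hTr w hw
    simp only [A, φ]
    split_ifs with h
    · rw [Nat.add_sub_cancel' h.le]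
    · have : g + (w + m - g) = w + m := by omega
      rw [this, win_add_period hn]
  have hinj : Set.InjOn φ T := by
    intro a ha b hb hab
    have h1 := hTr a ha
    have h2 := hTr b hb
    simp only [φ] at hab
    split_ifs at hab <;> omega
  have hcard : (T.image φ).card = T.card := Finset.card_image_of_injOn hinj
  have hspan : ∀ t t', 1 ≤ t → t < t' → t' < m → (A t ∩ A t').card ≤ k - (t' - t) * d := by
    intro t t' h1 h2 h3
    have hsp : (t' - t) * d + k ≤ n := by
      have h4 : t' - t + 2 ≤ m := by omega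
      have h5 : (t' - t + 2) * d ≤ m * d := Nat.mul_le_mul_right d h4
      rw [hn]
      have h6 : (t' - t + 2) * d = (t' - t) * d + 2 * d := by ring
      omega
    have hn0 : 0 < n := by omega
    have h4 := inter_le (n := n) (k := k) (d := d) σ (g + t) (t' - t) hn0 hsp
    have h5 : g + t + (t' - t) = g + t' := by omega
    rw [h5] at h4
    refine le_trans (Finset.card_le_card ?_) h4
    intro v hv
    simp only [A, Finset.mem_inter] at hv ⊢
    exact ⟨hv.1.1, hv.2.1⟩
  have hmem : ∀ t ∈ T.image φ, 1 ≤ t ∧ t < m ∧ d + 1 ≤ (A t).card := by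
    intro t ht
    rw [Finset.mem_image] at ht
    obtain ⟨w, hw, rfl⟩ := ht
    refine ⟨(hφ1 w hw).1, (hφ1 w hw).2, ?_⟩
    rw [hφA w hw]
    exact (hTr w hw).2.1
  have hlin := lin_cap d l μ (by omega) hμ A (T.image φ) (fun t ht => (hmem t ht).2.2)
    (by
      intro t ht t' ht' htt
      have h1 := hmem t ht
      have h2 := hmem t' ht'
      have h3 := hspan t t' h1.1 (by omega) h2.2.1
      have h4 : k - (t' - t) * d = 0 := by
        have : 2 * d ≤ (t' - t) * d := Nat.mul_le_mul_right d (by omega)
        omega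
      rw [h4, Nat.le_zero, Finset.card_eq_zero] at h3
      exact Finset.disjoint_iff_inter_eq_empty.mpr h3)
    (by
      intro t ht ht'
      have h1 := hmem t ht
      have h2 := hmem (t + 1) ht'
      have h3 := hspan t (t + 1) h1.1 (by omega) h2.2.1
      have h4 : k - (t + 1 - t) * d = l := by
        have : t + 1 - t = 1 := by omega
        rw [this]
        omega
      rwa [h4] at h3) j
  have hle : ((T.image φ).biUnion A).card ≤ Q.card := by
    refine Finset.card_le_card ?_
    intro v hv
    rw [Finset.mem_biUnion] at hv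
    obtain ⟨t, _, hvt⟩ := hv
    simp only [A, Finset.mem_inter] at hvt
    exact hvt.2
  rw [hcard] at hlin
  exact ⟨fun h => (hlin.1 h).trans hle, fun h => (hlin.2 h).trans hle⟩

/-- From class capacities to non-Hamiltonicity. -/
theorem not_ham {n k d m N : ℕ} (hd : 0 < d) (hn : n = m * d)
    (G : Finset (Finset (Fin n))) (Q : ℕ → Finset (Fin n)) (c a : ℕ → ℕ)
    (hG : ∀ W ∈ G, ∃ i < N, a i ≤ (W ∩ Q i).card)
    (hcap : ∀ i < N, ∀ σ : Equiv.Perm (Fin n), (goodW n k d m (a i) σ (Q i)).card ≤ c i)
    (hsum : ∑ i ∈ Finset.range N, c i < m) : ¬ Ham n k d G := by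
  classical
  rintro ⟨σ, hσ⟩
  have hm : n / d = m := by rw [hn]; exact Nat.mul_div_cancel m hd
  rw [hm] at hσ
  have hsub : Finset.range m ⊆ (Finset.range N).biUnion
      (fun i => goodW n k d m (a i) σ (Q i)) := by
    intro w hw
    rw [Finset.mem_range] at hw
    obtain ⟨i, hi, h⟩ := hG _ (hσ w hw)
    rw [Finset.mem_biUnion]
    refine ⟨i, Finset.mem_range.mpr hi, ?_⟩
    rw [goodW, Finset.mem_filter, Finset.mem_range]
    exact ⟨hw, h⟩
  have h1 := Finset.card_le_card hsub
  rw [Finset.card_range] at h1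
  have h2 : ((Finset.range N).biUnion (fun i => goodW n k d m (a i) σ (Q i))).card ≤
      ∑ i ∈ Finset.range N, c i := by
    refine Finset.card_biUnion_le.trans (Finset.sum_le_sum ?_)
    intro i hi
    exact hcap i (Finset.mem_range.mp hi) σ
  omega

end Pool.Agent.KS6_67.Sat
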