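import Pool.Agent.KS6_67.Sat.BlobE

set_option autoImplicit false

namespace Pool.Agent.KS6_67.Sat

open Finset

lemma card_interval {n : ℕ} (lo hi : ℕ) :
    ((Finset.univ : Finset (Fin n)).filter (fun y : Fin n => lo ≤ (y : ℕ) ∧ (y : ℕ) < hi)).card
      ≤ hi - lo := by
  rw [← Nat.card_Ico]
  refine Finset.card_le_card_of_injOn (fun y : Fin n => (y : ℕ)) ?_ ?_
  · intro y hy
    rw [Finset.mem_coe, Finset.mem_filter] at hy
    rw [Finset.mem_coe, Finset.mem_Ico]
    exact hy.2
  · intro y _ z _ h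
    exact Fin.ext h

/-- number of vertices in blobs which are not far from the one of `x` -/
lemma near_card {n K t : ℕ} (hK : 1 ≤ K) (h1 : 4 * t * K ≤ n) (h2 : n < 4 * (t + 2) * K)
    (ht : 7 ≤ t) (x : Fin n) :
    ((Finset.univ : Finset (Fin n)).filter
      (fun y : Fin n => ¬ far t (blob K t x) (blob K t y))).card ≤ 44 * K := by
  obtain ⟨b, hb⟩ : ∃ b, b = blob K t x / 4 := ⟨_, rfl⟩
  have hbt : b < t := by
    have := blob_lt (K := K) (v := (x : ℕ)) (show 1 ≤ t by omega)
    omega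
  have hsub : (Finset.univ : Finset (Fin n)).filter
      (fun y : Fin n => ¬ far t (blob K t x) (blob K t y)) ⊆
      ((Finset.univ : Finset (Fin n)).filter
        (fun y : Fin n => (4 * K) * (b - 2) ≤ (y : ℕ) ∧ (y : ℕ) < (4 * K) * (b + 3))) ∪
      (((Finset.univ : Finset (Fin n)).filter
        (fun y : Fin n => (4 * K) * (t - 2) ≤ (y : ℕ) ∧ (y : ℕ) < n)) ∪
      ((Finset.univ : Finset (Fin n)).filter
        (fun y : Fin n => 0 ≤ (y : ℕ) ∧ (y : ℕ) < 8 * K))) := by
    intro y hy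
    rw [Finset.mem_filter] at hy
    rw [Finset.mem_union, Finset.mem_union, Finset.mem_filter, Finset.mem_filter,
      Finset.mem_filter]
    have hnf := hy.2
    by_cases hy4 : (y : ℕ) / K < 4 * t
    · have hbl : blob K t y = (y : ℕ) / K := by unfold blob; rw [if_pos hy4]
      obtain ⟨b', hb'⟩ : ∃ b', b' = (y : ℕ) / (4 * K) := ⟨_, rfl⟩
      have hb2 : blob K t y / 4 = b' := by
        rw [hbl, Nat.div_div_eq_div_mul, Nat.mul_comm K 4, hb']
      have hy1 : (4 * K) * b' ≤ (y : ℕ) := by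
        rw [hb']; exact Nat.mul_div_le _ _
      have hy2 : (y : ℕ) < (4 * K) * (b' + 1) := by
        rw [hb']; exact Nat.lt_mul_div_succ _ (by omega)
      unfold far at hnf
      rw [← hb, hb2] at hnf
      have hcases : (b ≤ b' + 2 ∧ b' ≤ b + 2) ∨ t - 2 ≤ b' ∨ b' ≤ 1 := by omega
      rcases hcases with ⟨h3, h4⟩ | h3 | h3
      · left
        refine ⟨Finset.mem_univ _, ?_, ?_⟩
        · exact (Nat.mul_le_mul_left (4 * K) (show b - 2 ≤ b' by omega)).trans hy1
        · exact lt_of_lt_of_le hy2 (Nat.mul_le_mul_left (4 * K) (by omega))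
      · right; left
        refine ⟨Finset.mem_univ _, ?_, y.2⟩
        exact (Nat.mul_le_mul_left (4 * K) h3).trans hy1
      · right; right
        refine ⟨Finset.mem_univ _, Nat.zero_le _, ?_⟩
        have := Nat.mul_le_mul_left (4 * K) (show b' + 1 ≤ 2 by omega)
        omega
    · right; left
      refine ⟨Finset.mem_univ _, ?_, y.2⟩
      have h3 : K * (4 * t) ≤ (y : ℕ) := by
        have h4 : 4 * t ≤ (y : ℕ) / K := by omega
        exact (Nat.mul_le_mul_left K h4).trans (Nat.mul_div_le _ _)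
      have h5 : (4 * K) * (t - 2) ≤ (4 * K) * t := Nat.mul_le_mul_left _ (by omega)
      have h6 : (4 * K) * t = K * (4 * t) := by ring
      omega
  refine (Finset.card_le_card hsub).trans ?_
  refine (Finset.card_union_le _ _).trans ?_
  have e1 := card_interval (n := n) ((4 * K) * (b - 2)) ((4 * K) * (b + 3))
  have e2 := card_interval (n := n) ((4 * K) * (t - 2)) n
  have e3 := card_interval (n := n) 0 (8 * K)
  have e4 := Finset.card_union_le ((Finset.univ : Finset (Fin n)).filter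
        (fun y : Fin n => (4 * K) * (t - 2) ≤ (y : ℕ) ∧ (y : ℕ) < n))
      ((Finset.univ : Finset (Fin n)).filter
        (fun y : Fin n => 0 ≤ (y : ℕ) ∧ (y : ℕ) < 8 * K))
  have f1 : (4 * K) * (b + 3) ≤ (4 * K) * (b - 2) + 20 * K := by
    have : (4 * K) * (b + 3) ≤ (4 * K) * ((b - 2) + 5) := Nat.mul_le_mul_left _ (by omega)
    have h : (4 * K) * ((b - 2) + 5) = (4 * K) * (b - 2) + 20 * K := by ring
    omega
  have f2 : n ≤ (4 * K) * (t - 2) + 16 * K := by
    have h : 4 * (t + 2) * K = (4 * K) * (t - 2) + 16 * K := by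
      obtain ⟨s, rfl⟩ : ∃ s, t = s + 2 := ⟨t - 2, by omega⟩
      simp only [Nat.add_sub_cancel]
      ring
    omega
  omega

open Classical in
/-- the `k`-sets with two vertices in blobs that are not far -/
noncomputable def nearSets (n K t k : ℕ) : Finset (Finset (Fin n)) :=
  (Finset.univ.powersetCard k).filter
    (fun e => ∃ x ∈ e, ∃ y ∈ e, x ≠ y ∧ ¬ far t (blob K t x) (blob K t y))

lemma mem_nearSets {n K t k : ℕ} {e : Finset (Fin n)} :
    e ∈ nearSets n K t k ↔ e.card = k ∧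
      ∃ x ∈ e, ∃ y ∈ e, x ≠ y ∧ ¬ far t (blob K t x) (blob K t y) := by
  classical
  unfold nearSets
  rw [Finset.mem_filter, Finset.mem_powersetCard]
  constructor
  · rintro ⟨⟨_, h1⟩, h2⟩; exact ⟨h1, h2⟩
  · rintro ⟨h1, h2⟩; exact ⟨⟨Finset.subset_univ _, h1⟩, h2⟩

lemma nearSets_card {n K t k : ℕ} (hK : 1 ≤ K) (h1 : 4 * t * K ≤ n) (h2 : n < 4 * (t + 2) * K)
    (ht : 7 ≤ t) (hk : 2 ≤ k) : (nearSets n K t k).card ≤ 44 * K * n ^ (k - 1) := by
  classical
  have hsub : nearSets n K t k ⊆ (Finset.univ : Finset (Fin n)).biUnion (fun x =>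
      ((Finset.univ : Finset (Fin n)).filter
        (fun y : Fin n => ¬ far t (blob K t x) (blob K t y))).biUnion (fun y =>
          ((Finset.univ : Finset (Fin n)).powersetCard (k - 2)).image
            (fun T => insert x (insert y T)))) := by
    intro e he
    rw [mem_nearSets] at he
    obtain ⟨hek, x, hx, y, hy, hxy, hf⟩ := he
    rw [Finset.mem_biUnion]
    refine ⟨x, Finset.mem_univ _, ?_⟩
    rw [Finset.mem_biUnion]
    refine ⟨y, Finset.mem_filter.mpr ⟨Finset.mem_univ _, hf⟩, ?_⟩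
    rw [Finset.mem_image]
    refine ⟨(e.erase x).erase y, ?_, ?_⟩
    · rw [Finset.mem_powersetCard]
      refine ⟨Finset.subset_univ _, ?_⟩
      rw [Finset.card_erase_of_mem (Finset.mem_erase.mpr ⟨hxy.symm, hy⟩),
        Finset.card_erase_of_mem hx, hek]
      omega
    · rw [Finset.insert_erase (Finset.mem_erase.mpr ⟨hxy.symm, hy⟩), Finset.insert_erase hx]
  have hin : ∀ x : Fin n, (((Finset.univ : Finset (Fin n)).filter
        (fun y : Fin n => ¬ far t (blob K t x) (blob K t y))).biUnion (fun y =>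
          ((Finset.univ : Finset (Fin n)).powersetCard (k - 2)).image
            (fun T => insert x (insert y T)))).card ≤ 44 * K * n ^ (k - 2) := by
    intro x
    refine (Finset.card_biUnion_le_card_mul _ _ (n ^ (k - 2)) ?_).trans ?_
    · intro y _
      refine Finset.card_image_le.trans ?_
      rw [Finset.card_powersetCard, Finset.card_univ, Fintype.card_fin]
      exact Nat.choose_le_pow n (k - 2)
    · exact Nat.mul_le_mul_right _ (near_card hK h1 h2 ht x)
  refine (Finset.card_le_card hsub).trans ?_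
  refine (Finset.card_biUnion_le_card_mul _ _ _ (fun x _ => hin x)).trans ?_
  rw [Finset.card_univ, Fintype.card_fin]
  have : k - 1 = (k - 2) + 1 := by omega
  rw [this, pow_succ]
  exact le_of_eq (by ring)

/-- `GE` consists of near sets -/
lemma GE_sub {n K t k : ℕ} (hk : 3 ≤ k) : GE (n := n) K t k ⊆ nearSets n K t k := by
  classical
  intro W hW
  rw [mem_GE] at hW
  rw [mem_nearSets]
  refine ⟨hW.1, ?_⟩
  have hself : ∀ u, ¬ far t u u := fun u h => far_ne h rfl
  rcases hW.2 with ⟨u, h⟩ | ⟨u, w, _, h, _, _⟩ | ⟨u, h, _⟩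
  · obtain ⟨x, hx, y, hy, hxy⟩ := Finset.one_lt_card.mp (show 1 < W.card by omega)
    refine ⟨x, hx, y, hy, hxy, ?_⟩
    rw [h x hx, h y hy]
    exact hself u
  · -- pigeonhole
    obtain ⟨x, hx, y, hy, z, hz, hxy, hxz, hyz⟩ := Finset.two_lt_card.mp
      (show 2 < W.card by omega)
    rcases h x hx with e1 | e1 <;> rcases h y hy with e2 | e2 <;> rcases h z hz with e3 | e3
    · exact ⟨x, hx, y, hy, hxy, by rw [e1, e2]; exact hself _⟩
    · exact ⟨x, hx, y, hy, hxy, by rw [e1, e2]; exact hself _⟩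
    · exact ⟨x, hx, z, hz, hxz, by rw [e1, e3]; exact hself _⟩
    · exact ⟨y, hy, z, hz, hyz, by rw [e2, e3]; exact hself _⟩
    · exact ⟨y, hy, z, hz, hyz, by rw [e2, e3]; exact hself _⟩
    · exact ⟨x, hx, z, hz, hxz, by rw [e1, e3]; exact hself _⟩
    · exact ⟨x, hx, y, hy, hxy, by rw [e1, e2]; exact hself _⟩
    · exact ⟨x, hx, y, hy, hxy, by rw [e1, e2]; exact hself _⟩
  · obtain ⟨x, hx, y, hy, hxy⟩ := Finset.one_lt_card.mp h
    rw [Finset.mem_filter] at hx hy
    exact ⟨x, hx.1, y, hy.1, hxy, by rw [hx.2, hy.2]; exact hself u⟩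

end Pool.Agent.KS6_67.Sat
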