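import Pool.Agent.KS6_67.Sat.GoodB

set_option autoImplicit false

namespace Pool.Agent.KS6_67.Sat

open Finset

/-! ### slices of lists -/

/-- the elements of `ℓ` with index in `[a,b)` -/
def sl {α : Type*} [DecidableEq α] (ℓ : List α) (a b : ℕ) : Finset α := ((ℓ.take b).drop a).toFinset

lemma sl_mem {α : Type*} [DecidableEq α] {ℓ : List α} {a b : ℕ} {v : α} (h : v ∈ sl ℓ a b) :
    ∃ j, ℓ[j]? = some v ∧ a ≤ j ∧ j < b := by
  unfold sl at h
  rw [List.mem_toFinset, List.mem_iff_getElem?] at h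
  obtain ⟨j, hj⟩ := h
  rw [List.getElem?_drop, List.getElem?_take] at hj
  split_ifs at hj with h1
  exact ⟨a + j, hj, by omega, h1⟩

lemma sl_sub {α : Type*} [DecidableEq α] {ℓ : List α} {a b : ℕ} {v : α} (h : v ∈ sl ℓ a b) :
    v ∈ ℓ := by
  obtain ⟨j, hj, _⟩ := sl_mem h
  exact List.mem_of_getElem? hj

lemma sl_card {α : Type*} [DecidableEq α] {ℓ : List α} {a b : ℕ} (hn : ℓ.Nodup)
    (hb : b ≤ ℓ.length) : (sl ℓ a b).card = b - a := by
  unfold sl
  rw [List.toFinset_card_of_nodup ((hn.sublist (List.take_sublist _ _)).sublist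
    (List.drop_sublist _ _)), List.length_drop, List.length_take]
  omega

lemma mem_sl {α : Type*} [DecidableEq α] {ℓ : List α} {a b j : ℕ} {v : α} (h : ℓ[j]? = some v)
    (h1 : a ≤ j) (h2 : j < b) : v ∈ sl ℓ a b := by
  unfold sl
  rw [List.mem_toFinset, List.mem_iff_getElem?]
  refine ⟨j - a, ?_⟩
  rw [List.getElem?_drop, List.getElem?_take, Nat.add_sub_cancel' h1, if_pos h2]
  exact h

lemma sl_mono {α : Type*} [DecidableEq α] {ℓ : List α} {a b a' b' : ℕ} (h1 : a ≤ a')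
    (h2 : b' ≤ b) : sl ℓ a' b' ⊆ sl ℓ a b := by
  intro v hv
  obtain ⟨j, hj, h3, h4⟩ := sl_mem hv
  exact mem_sl hj (by omega) (by omega)

lemma sl_left {α : Type*} [DecidableEq α] {L1 L2 : List α} {a b : ℕ} (hb : b ≤ L1.length) {v : α}
    (h : v ∈ sl (L1 ++ L2) a b) : v ∈ L1 := by
  obtain ⟨j, hj, h3, h4⟩ := sl_mem h
  rw [List.getElem?_append_left (by omega)] at hj
  exact List.mem_of_getElem? hj

lemma sl_right {α : Type*} [DecidableEq α] {L1 L2 : List α} {a b : ℕ} (ha : L1.length ≤ a) {v : α}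
    (h : v ∈ sl (L1 ++ L2) a b) : v ∈ L2 := by
  obtain ⟨j, hj, h3, h4⟩ := sl_mem h
  rw [List.getElem?_append_right (by omega)] at hj
  exact List.mem_of_getElem? hj

lemma exists_list {α : Type*} [DecidableEq α] (P : Finset α) (a : ℕ) (ha : a ≤ P.card) :
    ∃ ℓ : List α, ℓ.Nodup ∧ (∀ v ∈ ℓ, v ∈ P) ∧ ℓ.length = a := by
  obtain ⟨T, hT1, hT2⟩ := Finset.exists_subset_card_eq ha
  refine ⟨T.toList, Finset.nodup_toList _, ?_, ?_⟩
  · intro v hv
    exact hT1 (Finset.mem_toList.mp hv)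
  · rw [Finset.length_toList, hT2]

lemma card_sdiff_inter {α : Type*} [DecidableEq α] (Q e : Finset α) :
    (Q \ e).card + (e ∩ Q).card = Q.card := by
  rw [Finset.inter_comm]
  exact Finset.card_sdiff_add_card_inter Q e

/-! ### the special classes -/

theorem specT {k d c q r : ℕ} (hk : k = q * d + r) (hc : 2 ≤ c) (hcq : c ≤ q) (n : ℕ)
    (Q : Finset (Fin n)) (hQ : Q.card = k - (c - 1) * d + d - 1) (hd : 1 ≤ d) (L : ℕ) :
    ∃ A, ClsOK k d c d ((c - 1) * d) k L (d - 1) 0 Q A := by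
  classical
  have h1 : c * d ≤ q * d := Nat.mul_le_mul_right d hcq
  have h2 : (c - 1) * d + d = c * d := by
    obtain ⟨c', rfl⟩ : ∃ c', c = c' + 1 := ⟨c - 1, by omega⟩
    simp only [Nat.add_sub_cancel]
    ring
  refine ⟨fun S => k - (c - 1) * d ≤ (S ∩ Q).card, ?_, ?_, ?_, ?_, ?_⟩
  · intro S T hS hST
    exact hS.trans (Finset.card_le_card (Finset.inter_subset_inter_right hST))
  · intro S hS
    omega
  · intro S T hS hT
    have h3 := Finset.card_union_add_card_inter (S ∩ Q) (T ∩ Q)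
    have h4 : ((S ∩ Q) ∪ (T ∩ Q)).card ≤ Q.card :=
      Finset.card_le_card (Finset.union_subset Finset.inter_subset_right Finset.inter_subset_right)
    have h5 : ((S ∩ Q) ∩ (T ∩ Q)).card ≤ (S ∩ T).card :=
      Finset.card_le_card (Finset.inter_subset_inter Finset.inter_subset_left
        Finset.inter_subset_left)
    omega
  · intro e he
    have h3 := card_sdiff_inter Q e
    obtain ⟨ℓ, hℓ1, hℓ2, hℓ3⟩ := exists_list (Q \ e) (k - (c - 1) * d) (by omega)
    refine ⟨(c - 1) * d, ℓ, hℓ1, fun v hv => Finset.mem_sdiff.mp (hℓ2 v hv), le_rfl, by omega, ?_⟩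
    intro t ht
    refine ⟨sl ℓ 0 (k - (c - 1) * d), ?_, ?_⟩
    · have h4 : sl ℓ 0 (k - (c - 1) * d) ∩ Q = sl ℓ 0 (k - (c - 1) * d) := by
        rw [Finset.inter_eq_left]
        intro v hv
        exact (Finset.mem_sdiff.mp (hℓ2 v (sl_sub hv))).1
      show k - (c - 1) * d ≤ (sl ℓ 0 (k - (c - 1) * d) ∩ Q).card
      rw [h4, sl_card hℓ1 (by omega)]
      omega
    · intro v hv
      obtain ⟨j, hj, _, hj2⟩ := sl_mem hv
      have h5 : t * d ≤ (c - 1) * d := Nat.mul_le_mul_right d (by omega)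
      exact ⟨j, hj, by omega, by omega⟩
  · intro e h3 h4
    omega

theorem specT3 {k d r : ℕ} (hk : k = 2 * d + r) (hr : 1 ≤ r) (hrd : r < d) (n : ℕ)
    (Q : Finset (Fin n)) (hQ : Q.card = 2 * d - 1) :
    ∃ A, ClsOK k d 3 d (d + r) (3 * d) (3 * d - r) (r - 1) (d - 1) Q A := by
  classical
  refine ⟨fun S => d ≤ (S ∩ Q).card, ?_, ?_, ?_, ?_, ?_⟩
  · intro S T hS hST
    exact hS.trans (Finset.card_le_card (Finset.inter_subset_inter_right hST))
  · intro S hS
    exact hS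
  · intro S T hS hT
    have h3 := Finset.card_union_add_card_inter (S ∩ Q) (T ∩ Q)
    have h4 : ((S ∩ Q) ∪ (T ∩ Q)).card ≤ Q.card :=
      Finset.card_le_card (Finset.union_subset Finset.inter_subset_right Finset.inter_subset_right)
    have h5 : ((S ∩ Q) ∩ (T ∩ Q)).card ≤ (S ∩ T).card :=
      Finset.card_le_card (Finset.inter_subset_inter Finset.inter_subset_left
        Finset.inter_subset_left)
    omega
  · intro e he
    have h3 := card_sdiff_inter Q e
    obtain ⟨ℓ, hℓ1, hℓ2, hℓ3⟩ := exists_list (Q \ e) (2 * d - r) (by omega)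
    have hsl : ∀ a b, b ≤ 2 * d - r → b - a = (sl ℓ a b ∩ Q).card := by
      intro a b hb
      have h4 : sl ℓ a b ∩ Q = sl ℓ a b := by
        rw [Finset.inter_eq_left]
        intro v hv
        exact (Finset.mem_sdiff.mp (hℓ2 v (sl_sub hv))).1
      rw [h4, sl_card hℓ1 (by omega)]
    refine ⟨d + r, ℓ, hℓ1, fun v hv => Finset.mem_sdiff.mp (hℓ2 v hv), le_rfl, by omega, ?_⟩
    intro t ht
    have ht3 : t = 0 ∨ t = 1 ∨ t = 2 := by omega
    rcases ht3 with rfl | rfl | rfl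
    · refine ⟨sl ℓ 0 d, ?_, ?_⟩
      · show d ≤ (sl ℓ 0 d ∩ Q).card
        have := hsl 0 d (by omega)
        omega
      · intro v hv
        obtain ⟨j, hj, _, hj2⟩ := sl_mem hv
        exact ⟨j, hj, by omega, by omega⟩
    · refine ⟨sl ℓ 0 d, ?_, ?_⟩
      · show d ≤ (sl ℓ 0 d ∩ Q).card
        have := hsl 0 d (by omega)
        omega
      · intro v hv
        obtain ⟨j, hj, _, hj2⟩ := sl_mem hv
        exact ⟨j, hj, by omega, by omega⟩
    · refine ⟨sl ℓ (d - r) (2 * d - r), ?_, ?_⟩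
      · show d ≤ (sl ℓ (d - r) (2 * d - r) ∩ Q).card
        have := hsl (d - r) (2 * d - r) (by omega)
        omega
      · intro v hv
        obtain ⟨j, hj, hj1, hj2⟩ := sl_mem hv
        exact ⟨j, hj, by omega, by omega⟩
  · intro e h1 h2
    obtain ⟨z, hz⟩ : ∃ z, z = d - (e ∩ Q).card - r := ⟨_, rfl⟩
    have h3 := card_sdiff_inter Q e
    obtain ⟨ℓ, hℓ1, hℓ2, hℓ3⟩ := exists_list (Q \ e) (d + z) (by omega)
    have hsl : ∀ a b, b ≤ d + z → b - a = (sl ℓ a b ∩ Q).card := by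
      intro a b hb
      have h4 : sl ℓ a b ∩ Q = sl ℓ a b := by
        rw [Finset.inter_eq_left]
        intro v hv
        exact (Finset.mem_sdiff.mp (hℓ2 v (sl_sub hv))).1
      rw [h4, sl_card hℓ1 (by omega)]
    refine ⟨(e ∩ Q).toList, d - r - z, ℓ, Finset.nodup_toList _,
      fun v hv => Finset.mem_toList.mp hv, Finset.length_toList _, hℓ1,
      fun v hv => Finset.mem_sdiff.mp (hℓ2 v hv), by omega, ?_⟩
    intro t ht
    have ht3 : t = 0 ∨ t = 1 ∨ t = 2 := by omega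
    rcases ht3 with rfl | rfl | rfl
    · refine ⟨(e ∩ Q) ∪ sl ℓ 0 (r + z), ?_, ?_⟩
      · show d ≤ (((e ∩ Q) ∪ sl ℓ 0 (r + z)) ∩ Q).card
        have h4 : ((e ∩ Q) ∪ sl ℓ 0 (r + z)) ∩ Q = (e ∩ Q) ∪ (sl ℓ 0 (r + z) ∩ Q) := by
          ext v
          simp only [Finset.mem_inter, Finset.mem_union]
          tauto
        rw [h4, Finset.card_union_of_disjoint]
        · have := hsl 0 (r + z) (by omega)
          omega
        · rw [Finset.disjoint_left]
          intro v hv hv'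
          exact (Finset.mem_sdiff.mp (hℓ2 v (sl_sub (Finset.mem_inter.mp hv').1))).2
            (Finset.mem_inter.mp hv).1
      · intro v hv
        rw [Finset.mem_union] at hv
        rcases hv with hv | hv
        · left
          have h5 : v ∈ (e ∩ Q).toList := Finset.mem_toList.mpr hv
          obtain ⟨j, hj⟩ := List.mem_iff_getElem?.mp h5
          exact ⟨j, hj, by omega⟩
        · right
          obtain ⟨j, hj, _, hj2⟩ := sl_mem hv
          exact ⟨j, hj, by omega, by omega⟩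
    · refine ⟨sl ℓ 0 (d + z), ?_, ?_⟩
      · show d ≤ (sl ℓ 0 (d + z) ∩ Q).card
        have := hsl 0 (d + z) (by omega)
        omega
      · intro v hv
        right
        obtain ⟨j, hj, _, hj2⟩ := sl_mem hv
        exact ⟨j, hj, by omega, by omega⟩
    · refine ⟨sl ℓ z (d + z), ?_, ?_⟩
      · show d ≤ (sl ℓ z (d + z) ∩ Q).card
        have := hsl z (d + z) (by omega)
        omega
      · intro v hv
        right
        obtain ⟨j, hj, hj1, hj2⟩ := sl_mem hv
        exact ⟨j, hj, by omega, by omega⟩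

/-! ### the threshold family with roots -/

/-- the family with root set `R` -/
def fam {n : ℕ} (d : ℕ) (Q R : Finset (Fin n)) (S : Finset (Fin n)) : Prop :=
  d + 1 ≤ (S ∩ Q).card ∧ (d ≤ (S ∩ R).card ∨ (d ≤ (S ∩ R).card + 1 ∧ Q \ R ⊆ S))

lemma fam_mono {n d : ℕ} {Q R : Finset (Fin n)} (S T : Finset (Fin n)) (hS : fam d Q R S)
    (hST : S ⊆ T) : fam d Q R T := by
  have h1 : (S ∩ Q).card ≤ (T ∩ Q).card :=
    Finset.card_le_card (Finset.inter_subset_inter_right hST)
  have h2 : (S ∩ R).card ≤ (T ∩ R).card :=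
    Finset.card_le_card (Finset.inter_subset_inter_right hST)
  refine ⟨hS.1.trans h1, ?_⟩
  rcases hS.2 with h | ⟨h, h'⟩
  · exact Or.inl (h.trans h2)
  · exact Or.inr ⟨by omega, h'.trans hST⟩

lemma fam_share {n d a : ℕ} {Q R : Finset (Fin n)} (hR : R ⊆ Q) (hRc : R.card + a = 2 * d - 1)
    (hd : 1 ≤ d) (hF : 2 ≤ (Q \ R).card) (S T : Finset (Fin n)) (hS : fam d Q R S)
    (hT : fam d Q R T) : a + 1 ≤ (S ∩ T).card := by
  classical
  have h1 := Finset.card_union_add_card_inter (S ∩ R) (T ∩ R)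
  have h2 : ((S ∩ R) ∪ (T ∩ R)).card ≤ R.card :=
    Finset.card_le_card (Finset.union_subset Finset.inter_subset_right Finset.inter_subset_right)
  have h3 : ((S ∩ R) ∩ (T ∩ R)).card + ((S ∩ T) ∩ (Q \ R)).card ≤ (S ∩ T).card := by
    rw [← Finset.card_union_of_disjoint]
    · refine Finset.card_le_card ?_
      intro v hv
      simp only [Finset.mem_union, Finset.mem_inter] at hv ⊢
      tauto
    · rw [Finset.disjoint_left]
      intro v hv hv'
      simp only [Finset.mem_inter, Finset.mem_sdiff] at hv hv'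
      exact hv'.2.2 hv.1.2
  have hQs : ∀ W : Finset (Fin n), (W ∩ Q).card = (W ∩ R).card + (W ∩ (Q \ R)).card := by
    intro W
    rw [← Finset.card_union_of_disjoint]
    · congr 1
      ext v
      simp only [Finset.mem_union, Finset.mem_inter, Finset.mem_sdiff]
      constructor
      · rintro ⟨h4, h5⟩
        by_cases h6 : v ∈ R
        · exact Or.inl ⟨h4, h6⟩
        · exact Or.inr ⟨h4, h5, h6⟩
      · rintro (⟨h4, h5⟩ | ⟨h4, h5, _⟩)
        · exact ⟨h4, hR h5⟩
        · exact ⟨h4, h5⟩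
    · rw [Finset.disjoint_left]
      intro v hv hv'
      simp only [Finset.mem_inter, Finset.mem_sdiff] at hv hv'
      exact hv'.2.2 hv.2
  have hS1 := hQs S
  have hT1 := hQs T
  obtain ⟨hS0, hS2⟩ := hS
  obtain ⟨hT0, hT2⟩ := hT
  rcases hS2 with hS2 | ⟨hS2, hS3⟩
  · rcases hT2 with hT2 | ⟨hT2, hT3⟩
    · omega
    · have h4 : (S ∩ T) ∩ (Q \ R) = S ∩ (Q \ R) := by
        ext v
        simp only [Finset.mem_inter]
        constructor
        · rintro ⟨⟨h4, _⟩, h5⟩; exact ⟨h4, h5⟩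
        · rintro ⟨h4, h5⟩; exact ⟨⟨h4, hT3 h5⟩, h5⟩
      rw [h4] at h3
      omega
  · rcases hT2 with hT2 | ⟨hT2, hT3⟩
    · have h4 : (S ∩ T) ∩ (Q \ R) = T ∩ (Q \ R) := by
        ext v
        simp only [Finset.mem_inter]
        constructor
        · rintro ⟨⟨_, h4⟩, h5⟩; exact ⟨h4, h5⟩
        · rintro ⟨h4, h5⟩; exact ⟨⟨hS3 h5, h4⟩, h5⟩
      rw [h4] at h3
      omega
    · have h4 : (S ∩ T) ∩ (Q \ R) = Q \ R := by
        ext v
        simp only [Finset.mem_inter]
        constructor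
        · rintro ⟨_, h5⟩; exact h5
        · intro h5; exact ⟨⟨hS3 h5, hT3 h5⟩, h5⟩
      rw [h4] at h3
      omega

end Pool.Agent.KS6_67.Sat
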