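import Pool.Agent.KS6_67.Sat.RegB

set_option autoImplicit false

namespace Pool.Agent.KS6_67.Sat

open Finset

/-! ### two general placement lemmas for `c = q + 1` -/

lemma listX {n : ℕ} (X : Finset (Fin n)) : ∃ lX : List (Fin n), lX = X.toList ∧ lX.Nodup ∧
    (∀ v, v ∈ lX ↔ v ∈ X) ∧ lX.length = X.card :=
  ⟨X.toList, rfl, Finset.nodup_toList _, fun _ => Finset.mem_toList, Finset.length_toList _⟩

/-- concatenation of `A \ B`, `A ∩ B`, `B \ A` -/
lemma list3 {n : ℕ} (A B : Finset (Fin n)) : ∃ ℓ : List (Fin n), ℓ.Nodup ∧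
    (∀ v, v ∈ ℓ ↔ v ∈ A ∪ B) ∧ ℓ.length = (A \ B).card + B.card ∧
    (∀ v ∈ A, ∃ j, ℓ[j]? = some v ∧ j < (A \ B).card + (A ∩ B).card) ∧
    (∀ v ∈ B, ∃ j, ℓ[j]? = some v ∧ (A \ B).card ≤ j ∧ j < (A \ B).card + B.card) := by
  classical
  have hc : (B \ A).card + (A ∩ B).card = B.card := by
    rw [Finset.inter_comm]
    exact Finset.card_sdiff_add_card_inter B A
  refine ⟨(A \ B).toList ++ ((A ∩ B).toList ++ (B \ A).toList), ?_, ?_, ?_, ?_, ?_⟩
  · rw [List.nodup_append, List.nodup_append]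
    refine ⟨Finset.nodup_toList _, ⟨Finset.nodup_toList _, Finset.nodup_toList _, ?_⟩, ?_⟩
    · intro a ha b hb
      rw [Finset.mem_toList, Finset.mem_inter] at ha
      rw [Finset.mem_toList, Finset.mem_sdiff] at hb
      rintro rfl
      exact hb.2 ha.1
    · intro a ha b hb
      rw [Finset.mem_toList, Finset.mem_sdiff] at ha
      rw [List.mem_append, Finset.mem_toList, Finset.mem_toList, Finset.mem_inter,
        Finset.mem_sdiff] at hb
      rintro rfl
      tauto
  · intro v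
    simp only [List.mem_append, Finset.mem_toList, Finset.mem_sdiff, Finset.mem_inter,
      Finset.mem_union]
    tauto
  · rw [List.length_append, List.length_append, Finset.length_toList, Finset.length_toList,
      Finset.length_toList]
    omega
  · intro v hv
    by_cases hB : v ∈ B
    · obtain ⟨j, hj, hj2⟩ := idx_of_mem_toList (Finset.mem_inter.mpr ⟨hv, hB⟩)
      refine ⟨(A \ B).card + j, ?_, by omega⟩
      rw [List.getElem?_append_right (by rw [Finset.length_toList]; omega), Finset.length_toList,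
        Nat.add_sub_cancel_left, List.getElem?_append_left (by rw [Finset.length_toList]; omega)]
      exact hj
    · obtain ⟨j, hj, hj2⟩ := idx_of_mem_toList (Finset.mem_sdiff.mpr ⟨hv, hB⟩)
      refine ⟨j, ?_, by omega⟩
      rw [List.getElem?_append_left (by rw [Finset.length_toList]; omega)]
      exact hj
  · intro v hv
    by_cases hA : v ∈ A
    · obtain ⟨j, hj, hj2⟩ := idx_of_mem_toList (Finset.mem_inter.mpr ⟨hA, hv⟩)
      refine ⟨(A \ B).card + j, ?_, by omega, by omega⟩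
      rw [List.getElem?_append_right (by rw [Finset.length_toList]; omega), Finset.length_toList,
        Nat.add_sub_cancel_left, List.getElem?_append_left (by rw [Finset.length_toList]; omega)]
      exact hj
    · obtain ⟨j, hj, hj2⟩ := idx_of_mem_toList (Finset.mem_sdiff.mpr ⟨hv, hA⟩)
      refine ⟨(A \ B).card + ((A ∩ B).card + j), ?_, by omega, by omega⟩
      rw [List.getElem?_append_right (by rw [Finset.length_toList]; omega), Finset.length_toList,
        Nat.add_sub_cancel_left, List.getElem?_append_right (by rw [Finset.length_toList]; omega),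
        Finset.length_toList, Nat.add_sub_cancel_left]
      exact hj

lemma nonPlace {n k d q r : ℕ} (hk : k = q * d + r) (hq : 2 ≤ q) (hd : 1 ≤ d)
    {Q e : Finset (Fin n)} {P : Finset (Fin n) → Prop} {A B : Finset (Fin n)} (hA : P A) (hB : P B)
    (hAQ : A ⊆ Q \ e) (hBQ : B ⊆ Q \ e) (h1 : (A \ B).card ≤ d) (h2 : (A ∩ B).card ≤ r)
    (h3 : B.card ≤ d + 1) :
    ∃ x0 ℓ, Place k d (q + 1) ((q - 1) * d) ((q + 1) * d + 1) Q e P x0 ℓ := by
  obtain ⟨D, hD⟩ : ∃ D, D = (q - 1) * d := ⟨_, rfl⟩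
  have hD1 : D + d = q * d := by
    obtain ⟨q', rfl⟩ : ∃ q', q = q' + 1 := ⟨q - 1, by omega⟩
    rw [hD]
    simp only [Nat.add_sub_cancel]
    ring
  have hq1 : (q + 1) * d = q * d + d := by ring
  have hD2 : d ≤ D := by
    rw [hD]
    exact Nat.le_mul_of_pos_left d (by omega)
  obtain ⟨ℓ, hℓn, hℓm, hℓl, hℓA, hℓB⟩ := list3 A B
  rw [← hD, hq1]
  refine ⟨q * d - (A \ B).card, ℓ, hℓn, ?_, by omega, by omega, ?_⟩
  · intro v hv
    rw [hℓm, Finset.mem_union] at hv
    rcases hv with hv | hv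
    · exact Finset.mem_sdiff.mp (hAQ hv)
    · exact Finset.mem_sdiff.mp (hBQ hv)
  · intro t ht
    rcases Nat.lt_or_ge t q with htq | htq
    · have h9 : t * d ≤ D := by
        rw [hD]
        exact Nat.mul_le_mul_right d (by omega)
      refine ⟨A, hA, ?_⟩
      intro v hv
      obtain ⟨j, hj, hj2⟩ := hℓA v hv
      exact ⟨j, hj, by omega, by omega⟩
    · have htq' : t * d = q * d := by rw [show t = q by omega]
      rw [htq']
      refine ⟨B, hB, ?_⟩
      intro v hv
      obtain ⟨j, hj, hj1, hj2⟩ := hℓB v hv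
      refine ⟨j, hj, by omega, ?_⟩
      omega

lemma adjPlace {n k d q r : ℕ} (hk : k = q * d + r) (hq : 2 ≤ q) (hd : 1 ≤ d) (hr : r < d)
    {Q e : Finset (Fin n)} {P : Finset (Fin n) → Prop} {A B : Finset (Fin n)} (hA : P A) (hB : P B)
    (he : (e ∩ Q).card ≤ d)
    (hAQ : A ⊆ Q) (hBQ : B ⊆ Q \ e) (h1 : ((A \ e) \ B).card + r ≤ d) (h2 : (A ∩ B).card ≤ r)
    (h3 : d + B.card ≤ q * d + r) :
    ∃ lX xs ℓ, PlaceAdj k d (q + 1) ((q + 1) * d - r) Q e P lX xs ℓ := by
  classical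
  obtain ⟨D, hD⟩ : ∃ D, D = (q - 1) * d := ⟨_, rfl⟩
  have hD1 : D + d = q * d := by
    obtain ⟨q', rfl⟩ : ∃ q', q = q' + 1 := ⟨q - 1, by omega⟩
    rw [hD]
    simp only [Nat.add_sub_cancel]
    ring
  have hq1 : (q + 1) * d = q * d + d := by ring
  obtain ⟨ℓ, hℓn, hℓm, hℓl, hℓA, hℓB⟩ := list3 (A \ e) B
  have hint : ((A \ e) ∩ B).card ≤ r := le_trans (Finset.card_le_card
    (Finset.inter_subset_inter_right Finset.sdiff_subset)) h2
  rw [hq1]
  refine ⟨(e ∩ Q).toList, d - r - ((A \ e) \ B).card, ℓ, Finset.nodup_toList _,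
    fun v hv => Finset.mem_toList.mp hv, Finset.length_toList _, hℓn, ?_, by omega, ?_⟩
  · intro v hv
    rw [hℓm, Finset.mem_union] at hv
    rcases hv with hv | hv
    · rw [Finset.mem_sdiff] at hv
      exact ⟨hAQ hv.1, hv.2⟩
    · exact Finset.mem_sdiff.mp (hBQ hv)
  · intro t ht
    rcases Nat.lt_or_ge (t + 1) q with htq | htq
    · have h9 : (t + 1) * d ≤ D := by
        rw [hD]
        exact Nat.mul_le_mul_right d (by omega)
      have h10 : d ≤ (t + 1) * d := Nat.le_mul_of_pos_left d (by omega)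
      refine ⟨A, hA, ?_⟩
      intro v hv
      by_cases hve : v ∈ e
      · left
        obtain ⟨j, hj, hj2⟩ := idx_of_mem_toList (Finset.mem_inter.mpr ⟨hve, hAQ hv⟩)
        exact ⟨j, hj, by omega⟩
      · right
        obtain ⟨j, hj, hj2⟩ := hℓA v (Finset.mem_sdiff.mpr ⟨hv, hve⟩)
        exact ⟨j, hj, by omega, by omega⟩
    · have htq' : (t + 1) * d = q * d ∨ (t + 1) * d = q * d + d := by
        rcases Nat.lt_or_ge t q with h | h
        · left; rw [show t + 1 = q by omega]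
        · right; rw [show t = q by omega]; ring
      refine ⟨B, hB, ?_⟩
      intro v hv
      right
      obtain ⟨j, hj, hj1, hj2⟩ := hℓB v hv
      refine ⟨j, hj, ?_, ?_⟩
      · omega
      · omega

/-! ### `d = 2`, `r = 1` : the Fano type family -/

/-- lines avoiding the blown up point -/
def fL0 : Finset (Finset (Fin 6)) := {{0, 2, 4}, {0, 3, 5}, {1, 2, 3}, {1, 4, 5}}
/-- the two big lines -/
def fL2 : Finset (Finset (Fin 6)) := {{2, 5}, {3, 4}}

def fano {n : ℕ} (Q : Finset (Fin n)) (p : Fin 6 → Fin n) (S : Finset (Fin n)) : Prop :=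
  (∃ T ∈ fL0, T.image p ⊆ S) ∨ (∃ x ∈ Q \ Finset.univ.image p, p 0 ∈ S ∧ p 1 ∈ S ∧ x ∈ S) ∨
    (∃ T ∈ fL2, T.image p ⊆ S ∧ Q \ Finset.univ.image p ⊆ S)

lemma fano_non : ∀ Y : Finset (Fin 6), Y.card ≤ 1 → ∃ A ∈ fL0, ∃ B ∈ fL0,
    Disjoint A Y ∧ Disjoint B Y ∧ (A \ B).card = 2 ∧ (A ∩ B).card = 1 ∧ B.card = 3 := by
  decide +kernel

lemma fano_adj : ∀ Y : Finset (Fin 6), 1 ≤ Y.card → Y.card ≤ 1 → ∃ A ∈ fL0, ∃ B ∈ fL0,
    ¬ Disjoint A Y ∧ Disjoint B Y ∧ (A ∩ B).card = 1 := by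
  decide +kernel

lemma fano_adj2 : ∀ Y : Finset (Fin 6), Y.card = 2 → ∃ A ∈ fL0, ¬ Disjoint A Y ∧
    ((∃ B ∈ fL0, Disjoint B Y ∧ (A ∩ B).card = 1) ∨
     (Disjoint ({0, 1} : Finset (Fin 6)) Y ∧ (A ∩ {0, 1}).card = 1) ∨
     (∃ B ∈ fL2, Disjoint B Y ∧ (A ∩ B).card = 1)) := by
  decide +kernel

lemma fL0_card : ∀ T ∈ fL0, T.card = 3 := by
  decide +kernel
lemma fL2_card : ∀ T ∈ fL2, T.card = 2 := by
  decide +kernel
lemma fL00 : ∀ T ∈ fL0, ∀ T' ∈ fL0, (T ∩ T').Nonempty := by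
  decide +kernel
lemma fL01 : ∀ T ∈ fL0, 0 ∈ T ∨ 1 ∈ T := by
  decide +kernel
lemma fL02 : ∀ T ∈ fL0, ∀ T' ∈ fL2, (T ∩ T').Nonempty := by
  decide +kernel

lemma fanoAdj {n k q : ℕ} (hk : k = q * 2 + 1) (hq : 3 ≤ q)
    {Q e : Finset (Fin n)} {P : Finset (Fin n) → Prop} {A B : Finset (Fin n)} (hA : P A) (hB : P B)
    (he : (e ∩ Q).card ≤ 2)
    (hAQ : A ⊆ Q) (hBQ : B ⊆ Q \ e) (hAc : A.card = 3) (hAe : (A ∩ e).Nonempty)
    (h2 : (A ∩ B).card = 1) (h3 : B.card + 1 ≤ q * 2) :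
    ∃ lX xs ℓ, PlaceAdj k 2 (q + 1) ((q + 1) * 2 - 1) Q e P lX xs ℓ := by
  refine adjPlace hk (by omega) (by omega) (by omega) hA hB he hAQ hBQ ?_ (by omega) (by omega)
  have h4 := Finset.card_sdiff_add_card_inter A e
  have h5 := Finset.card_sdiff_add_card_inter (A \ e) B
  have h6 : (A \ e) ∩ B = A ∩ B := by
    ext v
    simp only [Finset.mem_inter, Finset.mem_sdiff]
    constructor
    · rintro ⟨⟨h, _⟩, h'⟩; exact ⟨h, h'⟩
    · rintro ⟨h, h'⟩; exact ⟨⟨h, (Finset.mem_sdiff.mp (hBQ h')).2⟩, h'⟩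
  rw [h6] at h5
  have h7 := Finset.card_pos.mpr hAe
  omega

theorem gadFano {k q : ℕ} (hk : k = q * 2 + 1) (hq : 3 ≤ q) (n : ℕ) (Q : Finset (Fin n))
    (hQ : Q.card = (q + 1) * 2 ∨ Q.card + 1 = (q + 1) * 2) :
    ∃ A, ClsOK k 2 (q + 1) (2 + 1) ((q - 1) * 2) ((q + 1) * 2 + 1) ((q + 1) * 2 - 1) 1 2 Q A := by
  classical
  obtain ⟨p, hp, hpQ⟩ : ∃ p : Fin 6 → Fin n, Function.Injective p ∧ ∀ i, p i ∈ Q := by
    obtain ⟨T, hT1, hT2⟩ := Finset.exists_subset_card_eq (show 6 ≤ Q.card by omega)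
    refine ⟨fun i => T.orderEmbOfFin hT2 i, ?_, ?_⟩
    · intro i j hij
      exact (T.orderEmbOfFin hT2).injective hij
    · intro i
      exact hT1 (Finset.orderEmbOfFin_mem T hT2 i)
  obtain ⟨C, hC⟩ : ∃ C : Finset (Fin n), C = Finset.univ.image p := ⟨_, rfl⟩
  have hCc : C.card = 6 := by
    rw [hC, Finset.card_image_of_injective _ hp]
    rfl
  have hCQ : C ⊆ Q := by
    rw [hC]
    intro v hv
    obtain ⟨i, _, rfl⟩ := Finset.mem_image.mp hv
    exact hpQ i
  have hpC : ∀ i, p i ∈ C := fun i => by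
    rw [hC]; exact Finset.mem_image_of_mem p (Finset.mem_univ i)
  have hF : (Q \ C).card + 6 = Q.card := by
    have := Finset.card_sdiff_add_card_inter Q C
    rwa [Finset.inter_eq_right.mpr hCQ, hCc] at this
  have hTQ : ∀ T : Finset (Fin 6), T.image p ⊆ Q := by
    intro T v hv
    obtain ⟨i, _, rfl⟩ := Finset.mem_image.mp hv
    exact hpQ i
  have hTc : ∀ T : Finset (Fin 6), (T.image p).card = T.card := fun T =>
    Finset.card_image_of_injective _ hp
  have hPdef : ∀ S, fano Q p S ↔ ((∃ T ∈ fL0, T.image p ⊆ S) ∨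
      (∃ x ∈ Q \ C, p 0 ∈ S ∧ p 1 ∈ S ∧ x ∈ S) ∨
      (∃ T ∈ fL2, T.image p ⊆ S ∧ Q \ C ⊆ S)) := by
    intro S
    rw [hC]
    rfl
  have hne : ∀ (T T' : Finset (Fin 6)) (S S' : Finset (Fin n)), (T ∩ T').Nonempty →
      T.image p ⊆ S → T'.image p ⊆ S' → (S ∩ S').Nonempty := by
    rintro T T' S S' ⟨i, hi⟩ h1 h2
    rw [Finset.mem_inter] at hi
    exact ⟨p i, Finset.mem_inter.mpr ⟨h1 (Finset.mem_image_of_mem p hi.1),
      h2 (Finset.mem_image_of_mem p hi.2)⟩⟩
  have hshare : ∀ S T, fano Q p S → fano Q p T → (S ∩ T).Nonempty := by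
    intro S S' h h'
    rw [hPdef] at h h'
    have hFne : (Q \ C).Nonempty := by
      rw [← Finset.card_pos]
      omega
    rcases h with ⟨T, hT, hTS⟩ | ⟨x, hx, hx0, hx1, hxS⟩ | ⟨T, hT, hTS, hTF⟩
    · rcases h' with ⟨T', hT', hTS'⟩ | ⟨x', hx', hx0', hx1', hxS'⟩ | ⟨T', hT', hTS', hTF'⟩
      · exact hne T T' S S' (fL00 T hT T' hT') hTS hTS'
      · rcases fL01 T hT with h0 | h0
        · exact ⟨p 0, Finset.mem_inter.mpr ⟨hTS (Finset.mem_image_of_mem p h0), hx0'⟩⟩
        · exact ⟨p 1, Finset.mem_inter.mpr ⟨hTS (Finset.mem_image_of_mem p h0), hx1'⟩⟩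
      · exact hne T T' S S' (fL02 T hT T' hT') hTS hTS'
    · rcases h' with ⟨T', hT', hTS'⟩ | ⟨x', hx', hx0', hx1', hxS'⟩ | ⟨T', hT', hTS', hTF'⟩
      · rcases fL01 T' hT' with h0 | h0
        · exact ⟨p 0, Finset.mem_inter.mpr ⟨hx0, hTS' (Finset.mem_image_of_mem p h0)⟩⟩
        · exact ⟨p 1, Finset.mem_inter.mpr ⟨hx1, hTS' (Finset.mem_image_of_mem p h0)⟩⟩
      · exact ⟨p 0, Finset.mem_inter.mpr ⟨hx0, hx0'⟩⟩
      · exact ⟨x, Finset.mem_inter.mpr ⟨hxS, hTF' hx⟩⟩
    · rcases h' with ⟨T', hT', hTS'⟩ | ⟨x', hx', hx0', hx1', hxS'⟩ | ⟨T', hT', hTS', hTF'⟩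
      · rw [Finset.inter_comm]
        exact hne T' T S' S (fL02 T' hT' T hT) hTS' hTS
      · exact ⟨x', Finset.mem_inter.mpr ⟨hTF hx', hxS'⟩⟩
      · obtain ⟨x, hx⟩ := hFne
        exact ⟨x, Finset.mem_inter.mpr ⟨hTF hx, hTF' hx⟩⟩
  have h01 : ({0, 1} : Finset (Fin 6)).image p = {p 0, p 1} := by
    rw [Finset.image_insert, Finset.image_singleton]
  have hxc : ∀ x ∈ Q \ C, ∀ T : Finset (Fin 6), x ∉ T.image p := by
    intro x hx T hxT
    obtain ⟨i, _, rfl⟩ := Finset.mem_image.mp hxT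
    exact (Finset.mem_sdiff.mp hx).2 (hpC i)
  refine ⟨fano Q p, ?_, ?_, ?_, ?_, ?_⟩
  · intro S T hS hST
    rw [hPdef] at hS ⊢
    rcases hS with ⟨U, hU, h⟩ | ⟨x, hx, h0, h1, h2⟩ | ⟨U, hU, h, h'⟩
    · exact Or.inl ⟨U, hU, h.trans hST⟩
    · exact Or.inr (Or.inl ⟨x, hx, hST h0, hST h1, hST h2⟩)
    · exact Or.inr (Or.inr ⟨U, hU, h.trans hST, h'.trans hST⟩)
  · intro S hS
    rw [hPdef] at hS
    rcases hS with ⟨U, hU, h⟩ | ⟨x, hx, h0, h1, h2⟩ | ⟨U, hU, h, h'⟩
    · have := Finset.card_le_card (Finset.subset_inter h (hTQ U))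
      rw [hTc, fL0_card U hU] at this
      exact this
    · have h3 : insert x (({0, 1} : Finset (Fin 6)).image p) ⊆ S ∩ Q := by
        intro v hv
        rw [h01, Finset.mem_insert, Finset.mem_insert, Finset.mem_singleton] at hv
        rcases hv with rfl | rfl | rfl
        · exact Finset.mem_inter.mpr ⟨h2, (Finset.mem_sdiff.mp hx).1⟩
        · exact Finset.mem_inter.mpr ⟨h0, hpQ 0⟩
        · exact Finset.mem_inter.mpr ⟨h1, hpQ 1⟩
      have := Finset.card_le_card h3
      rw [Finset.card_insert_of_notMem (hxc x hx _), hTc] at this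
      simpa using this
    · have h3 : U.image p ∪ (Q \ C) ⊆ S ∩ Q := by
        intro v hv
        rcases Finset.mem_union.mp hv with hv | hv
        · exact Finset.mem_inter.mpr ⟨h hv, hTQ U hv⟩
        · exact Finset.mem_inter.mpr ⟨h' hv, (Finset.mem_sdiff.mp hv).1⟩
      have := Finset.card_le_card h3
      rw [Finset.card_union_of_disjoint, hTc, fL2_card U hU] at this
      · omega
      · rw [Finset.disjoint_left]
        intro v hv hv'
        exact hxc v hv' U hv
  · intro S T hS hT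
    have := Finset.card_pos.mpr (hshare S T hS hT)
    omega
  · intro e he
    obtain ⟨Y, hY⟩ : ∃ Y : Finset (Fin 6), Y = Finset.univ.filter (fun i => p i ∈ e) := ⟨_, rfl⟩
    have hYm : ∀ i, i ∈ Y ↔ p i ∈ e := by
      intro i; rw [hY]; simp
    have hYc : Y.card ≤ (e ∩ Q).card := by
      rw [← hTc Y]
      refine Finset.card_le_card ?_
      intro v hv
      obtain ⟨i, hi, rfl⟩ := Finset.mem_image.mp hv
      exact Finset.mem_inter.mpr ⟨(hYm i).mp hi, hpQ i⟩
    have hdis : ∀ T : Finset (Fin 6), Disjoint T Y → T.image p ⊆ Q \ e := by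
      intro T hT v hv
      obtain ⟨i, hi, rfl⟩ := Finset.mem_image.mp hv
      exact Finset.mem_sdiff.mpr ⟨hpQ i, fun h => Finset.disjoint_left.mp hT hi ((hYm i).mpr h)⟩
    obtain ⟨A, hA, B, hB, hAY, hBY, hAB, hAB2, hBc⟩ := fano_non Y (by omega)
    refine nonPlace hk (by omega) (by omega) (P := fano Q p) (A := A.image p) (B := B.image p)
      ((hPdef _).mpr (Or.inl ⟨A, hA, Finset.Subset.refl _⟩))
      ((hPdef _).mpr (Or.inl ⟨B, hB, Finset.Subset.refl _⟩)) (hdis A hAY) (hdis B hBY) ?_ ?_ ?_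
    · rw [← Finset.image_sdiff _ _ hp, hTc]
      omega
    · rw [← Finset.image_inter _ _ hp, hTc]
      omega
    · rw [hTc]
      omega
  · intro e he1 he2
    obtain ⟨Y, hY⟩ : ∃ Y : Finset (Fin 6), Y = Finset.univ.filter (fun i => p i ∈ e) := ⟨_, rfl⟩
    have hYm : ∀ i, i ∈ Y ↔ p i ∈ e := by
      intro i; rw [hY]; simp
    have hYC : Y.image p = e ∩ C := by
      ext v
      rw [Finset.mem_image, Finset.mem_inter]
      constructor
      · rintro ⟨i, hi, rfl⟩
        exact ⟨(hYm i).mp hi, hpC i⟩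
      · rintro ⟨h1, h2⟩
        rw [hC] at h2
        obtain ⟨i, _, rfl⟩ := Finset.mem_image.mp h2
        exact ⟨i, (hYm i).mpr h1, rfl⟩
    have hYc : Y.card + (e ∩ (Q \ C)).card = (e ∩ Q).card := by
      rw [← hTc Y, hYC, ← Finset.card_union_of_disjoint]
      · congr 1
        ext v
        simp only [Finset.mem_union, Finset.mem_inter, Finset.mem_sdiff]
        constructor
        · rintro (⟨h, h'⟩ | ⟨h, h', _⟩)
          · exact ⟨h, hCQ h'⟩
          · exact ⟨h, h'⟩
        · rintro ⟨h, h'⟩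
          by_cases hv : v ∈ C
          · exact Or.inl ⟨h, hv⟩
          · exact Or.inr ⟨h, h', hv⟩
      · rw [Finset.disjoint_left]
        intro v hv hv'
        simp only [Finset.mem_inter, Finset.mem_sdiff] at hv hv'
        exact hv'.2.2 hv.2
    have hdis : ∀ T : Finset (Fin 6), Disjoint T Y → T.image p ⊆ Q \ e := by
      intro T hT v hv
      obtain ⟨i, hi, rfl⟩ := Finset.mem_image.mp hv
      exact Finset.mem_sdiff.mpr ⟨hpQ i, fun h => Finset.disjoint_left.mp hT hi ((hYm i).mpr h)⟩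
    have hmeet : ∀ T : Finset (Fin 6), ¬ Disjoint T Y → (T.image p ∩ e).Nonempty := by
      intro T hT
      rw [Finset.not_disjoint_iff] at hT
      obtain ⟨i, hi, hi'⟩ := hT
      exact ⟨p i, Finset.mem_inter.mpr ⟨Finset.mem_image_of_mem p hi, (hYm i).mp hi'⟩⟩
    have hP0 : ∀ T ∈ fL0, fano Q p (T.image p) := fun T hT =>
      (hPdef _).mpr (Or.inl ⟨T, hT, Finset.Subset.refl _⟩)
    have hY3 : Y.card = 0 ∨ Y.card = 1 ∨ Y.card = 2 := by omega
    rcases hY3 with hY0 | hY1 | hY2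
    · -- X ⊆ F
      have hYe : Y = ∅ := Finset.card_eq_zero.mp hY0
      obtain ⟨x, hx⟩ : (e ∩ (Q \ C)).Nonempty := by
        rw [← Finset.card_pos]; omega
      rw [Finset.mem_inter] at hx
      have h024 : ({0, 2, 4} : Finset (Fin 6)) ∈ fL0 := by decide
      have hd024 : ({0, 2, 4} : Finset (Fin 6)).image p = {p 0, p 2, p 4} := by
        rw [Finset.image_insert, Finset.image_insert, Finset.image_singleton]
      have hdj : Disjoint ({0, 2, 4} : Finset (Fin 6)) Y := by rw [hYe]; exact Finset.disjoint_empty_right _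
      refine fanoAdj hk hq (P := fano Q p) (A := insert x (({0, 1} : Finset (Fin 6)).image p))
        (B := ({0, 2, 4} : Finset (Fin 6)).image p) ?_ (hP0 _ h024) he2 ?_ (hdis _ hdj) ?_ ?_ ?_ ?_
      · rw [hPdef]
        refine Or.inr (Or.inl ⟨x, hx.2, ?_, ?_, Finset.mem_insert_self _ _⟩)
        · exact Finset.mem_insert_of_mem (Finset.mem_image_of_mem p (by decide))
        · exact Finset.mem_insert_of_mem (Finset.mem_image_of_mem p (by decide))
      · intro v hv
        rcases Finset.mem_insert.mp hv with rfl | hv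
        · exact (Finset.mem_sdiff.mp hx.2).1
        · exact hTQ _ hv
      · rw [Finset.card_insert_of_notMem (hxc x hx.2 _), hTc]
        rfl
      · exact ⟨x, Finset.mem_inter.mpr ⟨Finset.mem_insert_self _ _, hx.1⟩⟩
      · rw [Finset.insert_inter_of_notMem (hxc x hx.2 _), ← Finset.image_inter _ _ hp, hTc]
        decide
      · rw [hTc]
        have : ({0, 2, 4} : Finset (Fin 6)).card = 3 := by decide
        omega
    · obtain ⟨A, hA, B, hB, hAY, hBY, hAB⟩ := fano_adj Y (by omega) (by omega)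
      refine fanoAdj hk hq (P := fano Q p) (A := A.image p) (B := B.image p) (hP0 A hA) (hP0 B hB)
        he2 (hTQ A) (hdis B hBY) ?_ (hmeet A hAY) ?_ ?_
      · rw [hTc]; exact fL0_card A hA
      · rw [← Finset.image_inter _ _ hp, hTc]; exact hAB
      · rw [hTc, fL0_card B hB]; omega
    · have hFe : Q \ C ⊆ Q \ e := by
        intro v hv
        rw [Finset.mem_sdiff] at hv ⊢
        refine ⟨hv.1, fun h => ?_⟩
        have h1 : 0 < (e ∩ (Q \ C)).card :=
          Finset.card_pos.mpr ⟨v, Finset.mem_inter.mpr ⟨h, Finset.mem_sdiff.mpr hv⟩⟩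
        omega
      obtain ⟨A, hA, hAY, h⟩ := fano_adj2 Y hY2
      rcases h with ⟨B, hB, hBY, hAB⟩ | ⟨hBY, hAB⟩ | ⟨B, hB, hBY, hAB⟩
      · refine fanoAdj hk hq (P := fano Q p) (A := A.image p) (B := B.image p) (hP0 A hA) (hP0 B hB)
          he2 (hTQ A) (hdis B hBY) ?_ (hmeet A hAY) ?_ ?_
        · rw [hTc]; exact fL0_card A hA
        · rw [← Finset.image_inter _ _ hp, hTc]; exact hAB
        · rw [hTc, fL0_card B hB]; omega
      · obtain ⟨x, hx⟩ : (Q \ C).Nonempty := by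
          rw [← Finset.card_pos]; omega
        refine fanoAdj hk hq (P := fano Q p) (A := A.image p)
          (B := insert x (({0, 1} : Finset (Fin 6)).image p)) (hP0 A hA) ?_
          he2 (hTQ A) ?_ ?_ (hmeet A hAY) ?_ ?_
        · rw [hPdef]
          refine Or.inr (Or.inl ⟨x, hx, ?_, ?_, Finset.mem_insert_self _ _⟩)
          · exact Finset.mem_insert_of_mem (Finset.mem_image_of_mem p (by decide))
          · exact Finset.mem_insert_of_mem (Finset.mem_image_of_mem p (by decide))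
        · intro v hv
          rcases Finset.mem_insert.mp hv with rfl | hv
          · exact hFe hx
          · exact hdis _ hBY hv
        · rw [hTc]; exact fL0_card A hA
        · rw [Finset.inter_insert_of_notMem (hxc x hx _), ← Finset.image_inter _ _ hp, hTc]
          exact hAB
        · rw [Finset.card_insert_of_notMem (hxc x hx _), hTc]
          have : ({0, 1} : Finset (Fin 6)).card = 2 := by decide
          omega
      · refine fanoAdj hk hq (P := fano Q p) (A := A.image p)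
          (B := B.image p ∪ (Q \ C)) (hP0 A hA) ?_
          he2 (hTQ A) ?_ ?_ (hmeet A hAY) ?_ ?_
        · rw [hPdef]
          exact Or.inr (Or.inr ⟨B, hB, Finset.subset_union_left, Finset.subset_union_right⟩)
        · exact Finset.union_subset (hdis B hBY) hFe
        · rw [hTc]; exact fL0_card A hA
        · have h1 : A.image p ∩ (B.image p ∪ (Q \ C)) = A.image p ∩ B.image p := by
            ext v
            simp only [Finset.mem_inter, Finset.mem_union]
            constructor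
            · rintro ⟨h1, h2 | h2⟩
              · exact ⟨h1, h2⟩
              · exact absurd h1 (hxc v h2 A)
            · rintro ⟨h1, h2⟩
              exact ⟨h1, Or.inl h2⟩
          rw [h1, ← Finset.image_inter _ _ hp, hTc]
          exact hAB
        · rw [Finset.card_union_of_disjoint, hTc, fL2_card B hB]
          · omega
          · rw [Finset.disjoint_left]
            intro v hv hv'
            exact hxc v hv' B hv

end Pool.Agent.KS6_67.Sat
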