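import Pool.Agent.KS6_67.Sat.GadB

set_option autoImplicit false

namespace Pool.Agent.KS6_67.Sat

open Finset

lemma idx_of_mem {α : Type*} {ℓ : List α} {v : α} (h : v ∈ ℓ) :
    ∃ j, ℓ[j]? = some v ∧ j < ℓ.length := by
  obtain ⟨j, hj⟩ := List.mem_iff_getElem?.mp h
  exact ⟨j, hj, (List.getElem?_eq_some_iff.mp hj).1⟩

lemma idx_of_mem_toList {n : ℕ} {T : Finset (Fin n)} {v : Fin n} (h : v ∈ T) :
    ∃ j, T.toList[j]? = some v ∧ j < T.card := by
  obtain ⟨j, hj, hj2⟩ := idx_of_mem (Finset.mem_toList.mpr h)
  exact ⟨j, hj, by rwa [Finset.length_toList] at hj2⟩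

lemma fam_of {n d : ℕ} {Q R S T U : Finset (Fin n)} (hTS : T ⊆ S) (hTR : T ⊆ R) (hT : d ≤ T.card)
    (hUS : U ⊆ S) (hUQ : U ⊆ Q) (hU : d + 1 ≤ U.card) : fam d Q R S :=
  ⟨hU.trans (Finset.card_le_card (Finset.subset_inter hUS hUQ)),
    Or.inl (hT.trans (Finset.card_le_card (Finset.subset_inter hTS hTR)))⟩

lemma fam_of' {n d : ℕ} {Q R S T U : Finset (Fin n)} (hTS : T ⊆ S) (hTR : T ⊆ R)
    (hT : d ≤ T.card + 1) (hF : Q \ R ⊆ S)
    (hUS : U ⊆ S) (hUQ : U ⊆ Q) (hU : d + 1 ≤ U.card) : fam d Q R S := by
  refine ⟨hU.trans (Finset.card_le_card (Finset.subset_inter hUS hUQ)), Or.inr ⟨?_, hF⟩⟩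
  have := Finset.card_le_card (Finset.subset_inter hTS hTR)
  omega

theorem gadG1 {k d q r τ xlo xhi L1 : ℕ} (hk : k = q * d + r) (hd : 2 ≤ d) (hr : r < d)
    (hq : 2 ≤ q)
    (hlo : (r = 0 ∧ xlo = (q - 1) * d - 1) ∨ (1 ≤ r ∧ xlo = (q - 1) * d))
    (hhi : (r = 0 ∧ xhi = q * d + 1) ∨ (1 ≤ r ∧ xhi = q * d + r))
    (hL : (r = 0 ∧ L1 = q * d - 1) ∨ (1 ≤ r ∧ L1 = q * d - r))
    (n : ℕ) (Q : Finset (Fin n))
    (hQ : (3 ≤ q ∧ τ + r + 1 = d ∧ (Q.card = q * d ∨ Q.card + 1 = q * d)) ∨
      (q = 2 ∧ 1 ≤ r ∧ Q.card = 2 * d ∧ τ + r = d)) :
    ∃ A, ClsOK k d q (d + 1) xlo xhi L1 τ d Q A := by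
  classical
  obtain ⟨D, hD⟩ : ∃ D, D = (q - 1) * d := ⟨_, rfl⟩
  have hD1 : D + d = q * d := by
    obtain ⟨q', rfl⟩ : ∃ q', q = q' + 1 := ⟨q - 1, by omega⟩
    rw [hD]
    simp only [Nat.add_sub_cancel]
    ring
  have hD2 : d ≤ D := by
    rw [hD]
    exact Nat.le_mul_of_pos_left d (by omega)
  have hD3 : 3 ≤ q → 2 * d ≤ D := by
    intro h
    rw [hD]
    exact Nat.mul_le_mul_right d (by omega)
  have hD4 : q = 2 → D = d := by
    intro h
    rw [hD, h]
    simp
  have hDt : ∀ t, t < q → t * d ≤ D := by
    intro t ht
    rw [hD]
    exact Nat.mul_le_mul_right d (by omega)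
  have hDt' : ∀ t, t + 1 < q → (t + 1) * d ≤ D := fun t ht => hDt (t + 1) ht
  have hdt : ∀ t, d ≤ (t + 1) * d := fun t => Nat.le_mul_of_pos_left d (by omega)
  rw [← hD] at hlo
  -- the root set
  obtain ⟨R, hRQ, hRc⟩ : ∃ R ⊆ Q, R.card = 2 * d - 1 - r := by
    refine Finset.exists_subset_card_eq ?_
    rcases hQ with ⟨h1, _, h2 | h2⟩ | ⟨h1, h2, h3, _⟩
    · have := hD3 h1; omega
    · have := hD3 h1; omega
    · omega
  have hQR : (Q \ R).card + R.card = Q.card := by
    have := Finset.card_sdiff_add_card_inter Q R
    rwa [Finset.inter_eq_right.mpr hRQ] at this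
  have hF : 2 ≤ (Q \ R).card := by
    rcases hQ with ⟨h1, _, h2 | h2⟩ | ⟨h1, h2, h3, _⟩
    · have := hD3 h1; omega
    · have := hD3 h1; omega
    · omega
  refine ⟨fam d Q R, fam_mono, fun S hS => hS.1, ?_, ?_, ?_⟩
  · intro S T hS hT
    have := fam_share (a := r) hRQ (by omega) (by omega) hF S T hS hT
    omega
  · -- interior placement
    intro e he
    have h3 := card_sdiff_inter Q e
    have h4 := card_sdiff_inter R e
    have h5 : (e ∩ R).card ≤ (e ∩ Q).card :=
      Finset.card_le_card (Finset.inter_subset_inter_left hRQ)
    by_cases hcase : d ≤ (R \ e).card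
    · obtain ⟨T, hT1, hT2⟩ := Finset.exists_subset_card_eq hcase
      have hTR : T ⊆ R := fun v hv => (Finset.mem_sdiff.mp (hT1 hv)).1
      have hTe : ∀ v ∈ T, v ∉ e := fun v hv => (Finset.mem_sdiff.mp (hT1 hv)).2
      have hTQ : T ⊆ Q \ e := fun v hv => Finset.mem_sdiff.mpr ⟨hRQ (hTR hv), hTe v hv⟩
      have h6 : ((Q \ e) \ T).card + d = (Q \ e).card := by
        have := Finset.card_sdiff_add_card_inter (Q \ e) T
        rwa [Finset.inter_eq_right.mpr hTQ, hT2] at this
      rcases Nat.eq_zero_or_pos r with hr0 | hr1
      · -- r = 0
        have hq3 : 3 ≤ q := by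
          rcases hQ with ⟨h1, _⟩ | ⟨_, h1, _⟩
          · exact h1
          · omega
        have h7 := hD3 hq3
        have h8 : 2 ≤ ((Q \ e) \ T).card := by
          rcases hQ with ⟨_, h1, h2 | h2⟩ | ⟨h1, h2, _⟩
          · omega
          · omega
          · omega
        obtain ⟨y, hy, y', hy', hyy⟩ := Finset.one_lt_card.mp h8
        rw [Finset.mem_sdiff] at hy hy'
        have hyQ := Finset.mem_sdiff.mp hy.1
        have hyQ' := Finset.mem_sdiff.mp hy'.1
        have hidx : ∀ v ∈ T, ∃ j, (y :: (T.toList ++ [y']))[j + 1]? = some v ∧ j < d := by
          intro v hv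
          obtain ⟨j, hj, hj2⟩ := idx_of_mem_toList hv
          refine ⟨j, ?_, by omega⟩
          rw [List.getElem?_cons_succ, List.getElem?_append_left (by
            rw [Finset.length_toList]; omega)]
          exact hj
        refine ⟨D - 1, y :: (T.toList ++ [y']), ?_, ?_, by omega, ?_, ?_⟩
        · rw [List.nodup_cons, List.nodup_append]
          refine ⟨?_, Finset.nodup_toList _, List.nodup_singleton _, ?_⟩
          · rw [List.mem_append, Finset.mem_toList, List.mem_singleton]
            rintro (h | h)
            · exact hy.2 h
            · exact hyy h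
          · intro a ha b hb
            rw [Finset.mem_toList] at ha
            rw [List.mem_singleton] at hb
            rintro rfl
            rw [hb] at ha
            exact hy'.2 ha
        · intro v hv
          rw [List.mem_cons, List.mem_append, Finset.mem_toList, List.mem_singleton] at hv
          rcases hv with rfl | hv | rfl
          · exact hyQ
          · exact Finset.mem_sdiff.mp (hTQ hv)
          · exact hyQ'
        · simp only [List.length_cons, List.length_append, Finset.length_toList, List.length_nil]
          omega
        · intro t ht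
          have h9 := hDt t ht
          rcases Nat.eq_zero_or_pos t with ht0 | ht1
          · subst ht0
            refine ⟨insert y T, ?_, ?_⟩
            · refine fam_of (T := T) (U := insert y T) (Finset.subset_insert _ _) hTR (by omega)
                (Finset.Subset.refl _) ?_ ?_
              · intro v hv
                rcases Finset.mem_insert.mp hv with rfl | hv
                · exact hyQ.1
                · exact hRQ (hTR hv)
              · rw [Finset.card_insert_of_notMem hy.2]
                omega
            · intro v hv
              rcases Finset.mem_insert.mp hv with rfl | hv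
              · exact ⟨0, by simp, by omega, by omega⟩
              · obtain ⟨j, hj, hj2⟩ := hidx v hv
                exact ⟨j + 1, hj, by omega, by omega⟩
          · refine ⟨insert y' T, ?_, ?_⟩
            · refine fam_of (T := T) (U := insert y' T) (Finset.subset_insert _ _) hTR (by omega)
                (Finset.Subset.refl _) ?_ ?_
              · intro v hv
                rcases Finset.mem_insert.mp hv with rfl | hv
                · exact hyQ'.1
                · exact hRQ (hTR hv)
              · rw [Finset.card_insert_of_notMem hy'.2]
                omega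
            · have htd : d ≤ t * d := Nat.le_mul_of_pos_left d ht1
              intro v hv
              rcases Finset.mem_insert.mp hv with rfl | hv
              · refine ⟨d + 1, ?_, by omega, by omega⟩
                rw [List.getElem?_cons_succ, List.getElem?_append_right (by
                  rw [Finset.length_toList]; omega), Finset.length_toList, hT2]
                simp
              · obtain ⟨j, hj, hj2⟩ := hidx v hv
                exact ⟨j + 1, hj, by omega, by omega⟩
      · -- r ≥ 1
        have h8 : 1 ≤ ((Q \ e) \ T).card := by
          rcases hQ with ⟨h0, h1, h2 | h2⟩ | ⟨h1, h2, h3, _⟩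
          · have := hD3 h0; omega
          · have := hD3 h0; omega
          · omega
        obtain ⟨y, hy⟩ := Finset.card_pos.mp h8
        rw [Finset.mem_sdiff] at hy
        have hyQ := Finset.mem_sdiff.mp hy.1
        refine ⟨D, (insert y T).toList, Finset.nodup_toList _, ?_, by omega, ?_, ?_⟩
        · intro v hv
          rw [Finset.mem_toList, Finset.mem_insert] at hv
          rcases hv with rfl | hv
          · exact hyQ
          · exact Finset.mem_sdiff.mp (hTQ hv)
        · rw [Finset.length_toList, Finset.card_insert_of_notMem hy.2]
          omega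
        · intro t ht
          have h9 := hDt t ht
          refine ⟨insert y T, ?_, ?_⟩
          · refine fam_of (T := T) (U := insert y T) (Finset.subset_insert _ _) hTR (by omega)
              (Finset.Subset.refl _) ?_ ?_
            · intro v hv
              rcases Finset.mem_insert.mp hv with rfl | hv
              · exact hyQ.1
              · exact hRQ (hTR hv)
            · rw [Finset.card_insert_of_notMem hy.2]
              omega
          · intro v hv
            obtain ⟨j, hj, hj2⟩ := idx_of_mem_toList hv
            rw [Finset.card_insert_of_notMem hy.2] at hj2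
            exact ⟨j, hj, by omega, by omega⟩
    · -- q = 2 and X ⊆ R
      have hq2 : q = 2 ∧ 1 ≤ r ∧ Q.card = 2 * d ∧ τ + r = d := by
        rcases hQ with ⟨h1, h2, _⟩ | h
        · omega
        · exact h
      obtain ⟨hq2, hr1, hQc, hτ⟩ := hq2
      have h6 := hD4 hq2
      have h7 : e ∩ R = e ∩ Q := by
        refine Finset.eq_of_subset_of_card_le (Finset.inter_subset_inter_left hRQ) ?_
        omega
      have h8 : Q \ R ⊆ Q \ e := by
        intro v hv
        rw [Finset.mem_sdiff] at hv ⊢
        refine ⟨hv.1, fun h => hv.2 ?_⟩
        have : v ∈ e ∩ R := by rw [h7]; exact Finset.mem_inter.mpr ⟨h, hv.1⟩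
        exact (Finset.mem_inter.mp this).2
      refine ⟨D, (Q \ e).toList, Finset.nodup_toList _, ?_, by omega, ?_, ?_⟩
      · intro v hv
        rw [Finset.mem_toList] at hv
        exact Finset.mem_sdiff.mp hv
      · rw [Finset.length_toList]
        omega
      · intro t ht
        have h9 := hDt t ht
        refine ⟨Q \ e, ?_, ?_⟩
        · refine fam_of' (T := R \ e) (U := Q \ e) (Finset.sdiff_subset_sdiff hRQ
            (Finset.Subset.refl _)) Finset.sdiff_subset (by omega) h8 (Finset.Subset.refl _)
            Finset.sdiff_subset (by omega)
        · intro v hv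
          obtain ⟨j, hj, hj2⟩ := idx_of_mem_toList hv
          exact ⟨j, hj, by omega, by omega⟩
  · -- adjacent placement
    intro e he1 he2
    have h3 := card_sdiff_inter Q e
    have h4 := card_sdiff_inter R e
    have h5 : (e ∩ R).card ≤ (e ∩ Q).card :=
      Finset.card_le_card (Finset.inter_subset_inter_left hRQ)
    -- the list of X
    obtain ⟨X, hX⟩ : ∃ X, X = e ∩ Q := ⟨_, rfl⟩
    have hXR : X ∩ R = e ∩ R := by
      rw [hX, Finset.inter_assoc, Finset.inter_eq_right.mpr hRQ]
    have hXs : (X \ R).card + (X ∩ R).card = X.card := Finset.card_sdiff_add_card_inter X R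
    rw [hXR] at hXs
    obtain ⟨lX, hlX⟩ : ∃ lX : List (Fin n), lX = (X \ R).toList ++ (X ∩ R).toList := ⟨_, rfl⟩
    have hlXn : lX.Nodup := by
      rw [hlX, List.nodup_append]
      refine ⟨Finset.nodup_toList _, Finset.nodup_toList _, ?_⟩
      intro a ha b hb
      rw [Finset.mem_toList, Finset.mem_sdiff] at ha
      rw [Finset.mem_toList, Finset.mem_inter] at hb
      rintro rfl
      exact ha.2 hb.2
    have hlXm : ∀ v, v ∈ lX ↔ v ∈ X := by
      intro v
      rw [hlX, List.mem_append, Finset.mem_toList, Finset.mem_toList, Finset.mem_sdiff,
        Finset.mem_inter]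
      tauto
    have hlXl : lX.length = X.card := by
      rw [hlX, List.length_append, Finset.length_toList, Finset.length_toList, hXR]
      omega
    rw [← hX] at he1 he2 h3 h5
    have hlast : ∀ v ∈ sl lX (X.card - r) X.card, v ∈ X ∧
        ∃ j, lX[j]? = some v ∧ q * d ≤ k - X.card + j := by
      intro v hv
      obtain ⟨j, hj, hj1, hj2⟩ := sl_mem hv
      exact ⟨(hlXm v).mp (sl_sub hv), j, hj, by omega⟩
    have hlastc : (sl lX (X.card - r) X.card).card = X.card - (X.card - r) :=
      sl_card hlXn (by omega)
    have hXall : ∀ t, t + 1 < q → ∀ v ∈ X,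
        ∃ j, lX[j]? = some v ∧ (t + 1) * d ≤ k - X.card + j := by
      intro t ht v hv
      obtain ⟨j, hj, hj2⟩ := idx_of_mem ((hlXm v).mpr hv)
      have := hDt' t ht
      exact ⟨j, hj, by omega⟩
    have hXQ : X ⊆ Q := by rw [hX]; exact Finset.inter_subset_right
    have hXe : X ⊆ e := by rw [hX]; exact Finset.inter_subset_left
    by_cases hρ : (e ∩ R).card + 1 ≤ d
    · -- few roots in X
      obtain ⟨tg, htg⟩ : ∃ tg, (r = 0 ∧ tg = d + 1) ∨ (1 ≤ r ∧ tg = d) := by
        rcases Nat.eq_zero_or_pos r with h | h
        · exact ⟨d + 1, Or.inl ⟨h, rfl⟩⟩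
        · exact ⟨d, Or.inr ⟨h, rfl⟩⟩
      have hQe : tg ≤ (Q \ e).card := by
        rcases hQ with ⟨h0, h1, h2 | h2⟩ | ⟨h1, h2, h6, _⟩
        · have := hD3 h0; omega
        · have := hD3 h0; omega
        · omega
      have h6 : ((Q \ e) \ R).card + (R \ e).card = (Q \ e).card := by
        have := Finset.card_sdiff_add_card_inter (Q \ e) R
        have h7 : (Q \ e) ∩ R = R \ e := by
          ext v
          simp only [Finset.mem_inter, Finset.mem_sdiff]
          constructor
          · rintro ⟨⟨_, h⟩, h'⟩; exact ⟨h', h⟩
          · rintro ⟨h, h'⟩; exact ⟨⟨hRQ h, h'⟩, h⟩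
        rwa [h7] at this
      obtain ⟨pad, hp1, hp2, hp3⟩ := exists_list ((Q \ e) \ R) (tg - (R \ e).card) (by omega)
      obtain ⟨ℓ, hℓ⟩ : ∃ ℓ : List (Fin n), ℓ = (R \ e).toList ++ pad := ⟨_, rfl⟩
      have hℓn : ℓ.Nodup := by
        rw [hℓ, List.nodup_append]
        refine ⟨Finset.nodup_toList _, hp1, ?_⟩
        intro a ha b hb
        rw [Finset.mem_toList, Finset.mem_sdiff] at ha
        have := Finset.mem_sdiff.mp (hp2 b hb)
        rintro rfl
        exact this.2 ha.1
      have hℓm : ∀ v ∈ ℓ, v ∈ Q ∧ v ∉ e := by
        intro v hv
        rw [hℓ, List.mem_append, Finset.mem_toList, Finset.mem_sdiff] at hv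
        rcases hv with hv | hv
        · exact ⟨hRQ hv.1, hv.2⟩
        · exact Finset.mem_sdiff.mp (Finset.mem_sdiff.mp (hp2 v hv)).1
      have hℓR : ∀ v ∈ R \ e, v ∈ ℓ := by
        intro v hv
        rw [hℓ, List.mem_append, Finset.mem_toList]
        exact Or.inl hv
      have hℓl : ℓ.length = (R \ e).card + (tg - (R \ e).card) := by
        rw [hℓ, List.length_append, Finset.length_toList, hp3]
      refine ⟨lX, 0, ℓ, hlXn, fun v hv => (by rw [← hX]; exact (hlXm v).mp hv),
        by rw [hlXl, hX], hℓn, hℓm, ?_, ?_⟩
      · have := hD2
        omega
      · intro t ht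
        rw [← hX]
        rcases Nat.lt_or_ge (t + 1) q with htq | htq
        · refine ⟨X ∪ sl ℓ 0 d, ?_, ?_⟩
          · have hc : (X ∪ sl ℓ 0 d).card = X.card + d := by
              rw [Finset.card_union_of_disjoint, sl_card hℓn (by omega)]
              · omega
              · rw [Finset.disjoint_left]
                intro v hv hv'
                exact (hℓm v (sl_sub hv')).2 (hXe hv)
            have hUQ : X ∪ sl ℓ 0 d ⊆ Q := by
              intro v hv
              rcases Finset.mem_union.mp hv with hv | hv
              · exact hXQ hv
              · exact (hℓm v (sl_sub hv)).1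
            by_cases h7 : d ≤ (R \ e).card
            · refine fam_of (T := sl ℓ 0 d) (U := X ∪ sl ℓ 0 d) Finset.subset_union_right ?_ ?_
                (Finset.Subset.refl _) hUQ (by omega)
              · intro v hv
                rw [hℓ] at hv
                have := sl_left (by rw [Finset.length_toList]; exact h7) hv
                rw [Finset.mem_toList, Finset.mem_sdiff] at this
                exact this.1
              · rw [sl_card hℓn (by omega)]
                omega
            · refine fam_of (T := R) (U := X ∪ sl ℓ 0 d) ?_ (Finset.Subset.refl _) (by omega)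
                (Finset.Subset.refl _) hUQ (by omega)
              intro v hv
              rw [Finset.mem_union]
              by_cases hve : v ∈ e
              · left
                rw [hX]
                exact Finset.mem_inter.mpr ⟨hve, hRQ hv⟩
              · right
                obtain ⟨j, hj, hj2⟩ := idx_of_mem_toList (Finset.mem_sdiff.mpr ⟨hv, hve⟩)
                refine mem_sl (j := j) ?_ (by omega) (by omega)
                rw [hℓ, List.getElem?_append_left (by rw [Finset.length_toList]; exact hj2)]
                exact hj
          · intro v hv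
            rcases Finset.mem_union.mp hv with hv | hv
            · left
              exact hXall t htq v hv
            · right
              obtain ⟨j, hj, _, hj2⟩ := sl_mem hv
              have h7 := hdt t
              have h8 := hDt' t htq
              exact ⟨j, hj, by omega, by omega⟩
        · have htq' : (t + 1) * d = q * d := by
            rw [show t + 1 = q by omega]
          rw [htq']
          refine ⟨sl lX (X.card - r) X.card ∪ ℓ.toFinset, ?_, ?_⟩
          · have hc : (sl lX (X.card - r) X.card ∪ ℓ.toFinset).card
                = X.card - (X.card - r) + ℓ.length := by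
              rw [Finset.card_union_of_disjoint, hlastc, List.toFinset_card_of_nodup hℓn]
              rw [Finset.disjoint_left]
              intro v hv hv'
              exact (hℓm v (List.mem_toFinset.mp hv')).2 (hXe (hlast v hv).1)
            have hUQ : sl lX (X.card - r) X.card ∪ ℓ.toFinset ⊆ Q := by
              intro v hv
              rcases Finset.mem_union.mp hv with hv | hv
              · exact hXQ (hlast v hv).1
              · exact (hℓm v (List.mem_toFinset.mp hv)).1
            have hUc : d + 1 ≤ (sl lX (X.card - r) X.card ∪ ℓ.toFinset).card := by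
              rw [hc, hℓl]
              omega
            by_cases h7 : (e ∩ R).card ≤ r
            · refine fam_of (T := R) (U := sl lX (X.card - r) X.card ∪ ℓ.toFinset) ?_
                (Finset.Subset.refl _) (by omega) (Finset.Subset.refl _) hUQ hUc
              intro v hv
              rw [Finset.mem_union]
              by_cases hve : v ∈ e
              · left
                have hv2 : v ∈ X ∩ R := by
                  rw [hX]
                  exact Finset.mem_inter.mpr ⟨Finset.mem_inter.mpr ⟨hve, hRQ hv⟩, hv⟩
                obtain ⟨j, hj, hj2⟩ := idx_of_mem_toList hv2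
                rw [hXR] at hj2
                refine mem_sl (j := (X \ R).card + j) ?_ (by omega) (by omega)
                rw [hlX, List.getElem?_append_right (by rw [Finset.length_toList]; omega),
                  Finset.length_toList, Nat.add_sub_cancel_left]
                exact hj
              · right
                exact List.mem_toFinset.mpr (hℓR v (Finset.mem_sdiff.mpr ⟨hv, hve⟩))
            · refine fam_of (T := sl lX (X.card - r) X.card ∪ (R \ e))
                (U := sl lX (X.card - r) X.card ∪ ℓ.toFinset) ?_ ?_ ?_
                (Finset.Subset.refl _) hUQ hUc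
              · refine Finset.union_subset_union_right ?_
                intro v hv
                exact List.mem_toFinset.mpr (hℓR v hv)
              · intro v hv
                rcases Finset.mem_union.mp hv with hv | hv
                · rw [hlX] at hv
                  have := sl_right (by rw [Finset.length_toList]; omega) hv
                  rw [Finset.mem_toList, Finset.mem_inter] at this
                  exact this.2
                · exact (Finset.mem_sdiff.mp hv).1
              · rw [Finset.card_union_of_disjoint, hlastc]
                · omega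
                · rw [Finset.disjoint_left]
                  intro v hv hv'
                  exact (Finset.mem_sdiff.mp hv').2 (hXe (hlast v hv).1)
          · intro v hv
            rcases Finset.mem_union.mp hv with hv | hv
            · left
              exact (hlast v hv).2
            · right
              obtain ⟨j, hj, hj2⟩ := idx_of_mem (List.mem_toFinset.mp hv)
              have := hD2
              exact ⟨j, hj, by omega, by omega⟩
    · -- X consists of d roots
      have hXc : X.card = d := by omega
      have hXRs : X ⊆ R := by
        have h6 : X ∩ R = X := by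
          refine Finset.eq_of_subset_of_card_le Finset.inter_subset_left ?_
          rw [hXR]
          omega
        rw [← h6]
        exact Finset.inter_subset_right
      have hFs : Q \ R ⊆ Q \ e := by
        intro v hv
        rw [Finset.mem_sdiff] at hv ⊢
        refine ⟨hv.1, fun h => hv.2 (hXRs ?_)⟩
        rw [hX]
        exact Finset.mem_inter.mpr ⟨h, hv.1⟩
      have hQe : 1 ≤ (Q \ e).card ∧ d + 1 ≤ r + (Q \ e).card := by
        rcases hQ with ⟨h0, h1, h2 | h2⟩ | ⟨h1, h2, h6, _⟩
        · have := hD3 h0; omega
        · have := hD3 h0; omega
        · omega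
      refine ⟨lX, 0, (Q \ e).toList, hlXn, fun v hv => (by rw [← hX]; exact (hlXm v).mp hv),
        by rw [hlXl, hX], Finset.nodup_toList _,
        fun v hv => Finset.mem_sdiff.mp (Finset.mem_toList.mp hv), ?_, ?_⟩
      · rw [Finset.length_toList]
        have hQcd : Q.card ≤ q * d := by
          rcases hQ with ⟨h0, h1, h2 | h2⟩ | ⟨h1, h2, h6, _⟩
          · omega
          · omega
          · rw [h6, h1]
        omega
      · intro t ht
        rw [← hX]
        rcases Nat.lt_or_ge (t + 1) q with htq | htq
        · have h7 := hdt t
          have h8 := hDt' t htq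
          have h9 : (Q \ e).toList ≠ [] := by
            intro h
            rw [Finset.toList_eq_nil] at h
            rw [h, Finset.card_empty] at hQe
            omega
          obtain ⟨y, hy⟩ : ∃ y, (Q \ e).toList[0]? = some y := by
            cases hL : (Q \ e).toList with
            | nil => exact absurd hL h9
            | cons a l => exact ⟨a, by simp⟩
          have hyQ : y ∈ Q \ e := Finset.mem_toList.mp (List.mem_of_getElem? hy)
          rw [Finset.mem_sdiff] at hyQ
          refine ⟨insert y X, ?_, ?_⟩
          · refine fam_of (T := X) (U := insert y X) (Finset.subset_insert _ _) hXRs (by omega)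
              (Finset.Subset.refl _) ?_ ?_
            · intro v hv
              rcases Finset.mem_insert.mp hv with rfl | hv
              · exact hyQ.1
              · exact hXQ hv
            · rw [Finset.card_insert_of_notMem (fun h => hyQ.2 (hXe h))]
              omega
          · intro v hv
            rcases Finset.mem_insert.mp hv with rfl | hv
            · right
              exact ⟨0, hy, by omega, by omega⟩
            · left
              exact hXall t htq v hv
        · have htq' : (t + 1) * d = q * d := by
            rw [show t + 1 = q by omega]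
          rw [htq']
          refine ⟨sl lX (X.card - r) X.card ∪ (Q \ e), ?_, ?_⟩
          · refine fam_of' (T := sl lX (X.card - r) X.card ∪ (R \ e))
              (U := sl lX (X.card - r) X.card ∪ (Q \ e)) ?_ ?_ ?_ ?_ (Finset.Subset.refl _) ?_ ?_
            · exact Finset.union_subset_union_right (Finset.sdiff_subset_sdiff hRQ
                (Finset.Subset.refl _))
            · intro v hv
              rcases Finset.mem_union.mp hv with hv | hv
              · exact hXRs (hlast v hv).1
              · exact (Finset.mem_sdiff.mp hv).1
            · rw [Finset.card_union_of_disjoint, hlastc]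
              · omega
              · rw [Finset.disjoint_left]
                intro v hv hv'
                exact (Finset.mem_sdiff.mp hv').2 (hXe (hlast v hv).1)
            · exact hFs.trans Finset.subset_union_right
            · intro v hv
              rcases Finset.mem_union.mp hv with hv | hv
              · exact hXQ (hlast v hv).1
              · exact (Finset.mem_sdiff.mp hv).1
            · rw [Finset.card_union_of_disjoint, hlastc]
              · omega
              · rw [Finset.disjoint_left]
                intro v hv hv'
                exact (Finset.mem_sdiff.mp hv').2 (hXe (hlast v hv).1)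
          · intro v hv
            rcases Finset.mem_union.mp hv with hv | hv
            · left
              exact (hlast v hv).2
            · right
              obtain ⟨j, hj, hj2⟩ := idx_of_mem_toList hv
              have hQcd : Q.card ≤ q * d := by
                rcases hQ with ⟨h0, h1, h2 | h2⟩ | ⟨h1, h2, h6, _⟩
                · omega
                · omega
                · rw [h6, h1]
              exact ⟨j, hj, by omega, by omega⟩

end Pool.Agent.KS6_67.Sat
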