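import Pool.Agent.KS6_67.Sat.GadG1

set_option autoImplicit false

namespace Pool.Agent.KS6_67.Sat

open Finset

theorem gadG2 {k d q r : ℕ} (hk : k = q * d + r) (hd : 2 ≤ d) (hr : r < d) (hr2 : 2 ≤ r)
    (hq : 2 ≤ q) (n : ℕ) (Q : Finset (Fin n))
    (hQ : Q.card = (q + 1) * d ∨ Q.card + 1 = (q + 1) * d) :
    ∃ A, ClsOK k d (q + 1) (d + 1) ((q - 1) * d) ((q + 1) * d + 1) ((q + 1) * d - r) (r - 1) d
      Q A := by
  classical
  obtain ⟨D, hD⟩ : ∃ D, D = (q - 1) * d := ⟨_, rfl⟩
  have hD1 : D + d = q * d := by
    obtain ⟨q', rfl⟩ : ∃ q', q = q' + 1 := ⟨q - 1, by omega⟩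
    rw [hD]
    simp only [Nat.add_sub_cancel]
    ring
  have hq1 : (q + 1) * d = q * d + d := by ring
  have hD2 : d ≤ D := by
    rw [hD]
    exact Nat.le_mul_of_pos_left d (by omega)
  have hDt : ∀ t, t < q → t * d ≤ D := by
    intro t ht
    rw [hD]
    exact Nat.mul_le_mul_right d (by omega)
  have hDt' : ∀ t, t + 1 < q → (t + 1) * d ≤ D := fun t ht => hDt (t + 1) ht
  have hdt : ∀ t, d ≤ (t + 1) * d := fun t => Nat.le_mul_of_pos_left d (by omega)
  rw [← hD]
  rw [hq1] at hQ ⊢
  have hkc : k - (q + 1) * d = 0 := by omega
  -- the root set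
  obtain ⟨R, hRQ, hRc⟩ : ∃ R ⊆ Q, R.card = 2 * d - 1 := by
    refine Finset.exists_subset_card_eq ?_
    omega
  have hQR : (Q \ R).card + R.card = Q.card := by
    have := Finset.card_sdiff_add_card_inter Q R
    rwa [Finset.inter_eq_right.mpr hRQ] at this
  have hF : 2 ≤ (Q \ R).card := by omega
  refine ⟨fam d Q R, fam_mono, fun S hS => hS.1, ?_, ?_, ?_⟩
  · intro S T hS hT
    have := fam_share (a := 0) hRQ (by omega) (by omega) hF S T hS hT
    omega
  · -- interior placement
    intro e he
    have h3 := card_sdiff_inter Q e
    have h4 := card_sdiff_inter R e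
    have h5 : (e ∩ R).card ≤ (e ∩ Q).card :=
      Finset.card_le_card (Finset.inter_subset_inter_left hRQ)
    obtain ⟨P, hP1, hP2⟩ : ∃ P ⊆ R \ e, P.card = 2 * d - r :=
      Finset.exists_subset_card_eq (by omega)
    have hPR : P ⊆ R := fun v hv => (Finset.mem_sdiff.mp (hP1 hv)).1
    have hPe : ∀ v ∈ P, v ∉ e := fun v hv => (Finset.mem_sdiff.mp (hP1 hv)).2
    have hPQ : P ⊆ Q \ e := fun v hv => Finset.mem_sdiff.mpr ⟨hRQ (hPR hv), hPe v hv⟩
    have h6 : ((Q \ e) \ P).card + (2 * d - r) = (Q \ e).card := by
      have := Finset.card_sdiff_add_card_inter (Q \ e) P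
      rwa [Finset.inter_eq_right.mpr hPQ, hP2] at this
    obtain ⟨y, hy, y', hy', hyy⟩ := Finset.one_lt_card.mp
      (show 1 < ((Q \ e) \ P).card by omega)
    rw [Finset.mem_sdiff] at hy hy'
    have hyQ := Finset.mem_sdiff.mp hy.1
    have hyQ' := Finset.mem_sdiff.mp hy'.1
    obtain ⟨ℓ, hℓ⟩ : ∃ ℓ : List (Fin n), ℓ = y :: (P.toList ++ [y']) := ⟨_, rfl⟩
    have hℓn : ℓ.Nodup := by
      rw [hℓ, List.nodup_cons, List.nodup_append]
      refine ⟨?_, Finset.nodup_toList _, List.nodup_singleton _, ?_⟩
      · rw [List.mem_append, Finset.mem_toList, List.mem_singleton]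
        rintro (h | h)
        · exact hy.2 h
        · exact hyy h
      · intro a ha b hb
        rw [Finset.mem_toList] at ha
        rw [List.mem_singleton] at hb
        rintro rfl
        rw [hb] at ha
        exact hy'.2 ha
    have hℓm : ∀ v ∈ ℓ, v ∈ Q ∧ v ∉ e := by
      intro v hv
      rw [hℓ, List.mem_cons, List.mem_append, Finset.mem_toList, List.mem_singleton] at hv
      rcases hv with rfl | hv | rfl
      · exact hyQ
      · exact Finset.mem_sdiff.mp (hPQ hv)
      · exact hyQ'
    have hℓl : ℓ.length = 2 * d - r + 2 := by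
      rw [hℓ]
      simp only [List.length_cons, List.length_append, Finset.length_toList, List.length_nil]
      omega
    have hPl : P.toList.length = 2 * d - r := by rw [Finset.length_toList, hP2]
    -- index in the middle
    have hmid : ∀ j v, P.toList[j]? = some v → ℓ[j + 1]? = some v := by
      intro j v hj
      have hj2 : j < P.toList.length := (List.getElem?_eq_some_iff.mp hj).1
      rw [hℓ, List.getElem?_cons_succ, List.getElem?_append_left hj2]
      exact hj
    have hslQ : ∀ a b, sl ℓ a b ⊆ Q := fun a b v hv => (hℓm v (sl_sub hv)).1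
    refine ⟨D + r - 1, ℓ, hℓn, hℓm, by omega, by omega, ?_⟩
    intro t ht
    rcases Nat.lt_or_ge t q with htq | htq
    · have h9 := hDt t htq
      refine ⟨sl ℓ 0 (d + 1), ?_, ?_⟩
      · refine fam_of (T := sl P.toList 0 d) (U := sl ℓ 0 (d + 1)) ?_ ?_ ?_
          (Finset.Subset.refl _) (hslQ _ _) ?_
        · intro v hv
          obtain ⟨j, hj, _, hj2⟩ := sl_mem hv
          exact mem_sl (hmid j v hj) (by omega) (by omega)
        · intro v hv
          exact hPR (Finset.mem_toList.mp (sl_sub hv))
        · rw [sl_card (Finset.nodup_toList _) (by omega)]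
          omega
        · rw [sl_card hℓn (by omega)]
          omega
      · intro v hv
        obtain ⟨j, hj, _, hj2⟩ := sl_mem hv
        exact ⟨j, hj, by omega, by omega⟩
    · have htq' : t * d = q * d := by rw [show t = q by omega]
      rw [htq']
      refine ⟨sl ℓ (d - r + 1) (2 * d - r + 2), ?_, ?_⟩
      · refine fam_of (T := sl P.toList (d - r) (2 * d - r)) (U := sl ℓ (d - r + 1) (2 * d - r + 2))
          ?_ ?_ ?_ (Finset.Subset.refl _) (hslQ _ _) ?_
        · intro v hv
          obtain ⟨j, hj, hj1, hj2⟩ := sl_mem hv
          exact mem_sl (hmid j v hj) (by omega) (by omega)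
        · intro v hv
          exact hPR (Finset.mem_toList.mp (sl_sub hv))
        · rw [sl_card (Finset.nodup_toList _) (by omega)]
          omega
        · rw [sl_card hℓn (by omega)]
          omega
      · intro v hv
        obtain ⟨j, hj, hj1, hj2⟩ := sl_mem hv
        exact ⟨j, hj, by omega, by omega⟩
  · -- adjacent placement
    intro e he1 he2
    have h3 := card_sdiff_inter Q e
    have h4 := card_sdiff_inter R e
    have h5 : (e ∩ R).card ≤ (e ∩ Q).card :=
      Finset.card_le_card (Finset.inter_subset_inter_left hRQ)
    -- the list of X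
    obtain ⟨X, hX⟩ : ∃ X, X = e ∩ Q := ⟨_, rfl⟩
    have hXR : X ∩ R = e ∩ R := by
      rw [hX, Finset.inter_assoc, Finset.inter_eq_right.mpr hRQ]
    have hXs : (X \ R).card + (X ∩ R).card = X.card := Finset.card_sdiff_add_card_inter X R
    rw [hXR] at hXs
    obtain ⟨lX, hlX⟩ : ∃ lX : List (Fin n), lX = (X \ R).toList ++ (X ∩ R).toList := ⟨_, rfl⟩
    have hlXn : lX.Nodup := by
      rw [hlX, List.nodup_append]
      refine ⟨Finset.nodup_toList _, Finset.nodup_toList _, ?_⟩
      intro a ha b hb
      rw [Finset.mem_toList, Finset.mem_sdiff] at ha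
      rw [Finset.mem_toList, Finset.mem_inter] at hb
      rintro rfl
      exact ha.2 hb.2
    have hlXm : ∀ v, v ∈ lX ↔ v ∈ X := by
      intro v
      rw [hlX, List.mem_append, Finset.mem_toList, Finset.mem_toList, Finset.mem_sdiff,
        Finset.mem_inter]
      tauto
    have hlXl : lX.length = X.card := by
      rw [hlX, List.length_append, Finset.length_toList, Finset.length_toList, hXR]
      omega
    rw [← hX] at he1 he2 h3 h5
    have hlast : ∀ v ∈ sl lX (X.card - r) X.card, v ∈ X ∧
        ∃ j, lX[j]? = some v ∧ q * d ≤ k - X.card + j := by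
      intro v hv
      obtain ⟨j, hj, hj1, hj2⟩ := sl_mem hv
      exact ⟨(hlXm v).mp (sl_sub hv), j, hj, by omega⟩
    have hlastc : (sl lX (X.card - r) X.card).card = X.card - (X.card - r) :=
      sl_card hlXn (by omega)
    have hXall : ∀ t, t + 1 < q → ∀ v ∈ X,
        ∃ j, lX[j]? = some v ∧ (t + 1) * d ≤ k - X.card + j := by
      intro t ht v hv
      obtain ⟨j, hj, hj2⟩ := idx_of_mem ((hlXm v).mpr hv)
      have := hDt' t ht
      exact ⟨j, hj, by omega⟩
    have hXQ : X ⊆ Q := by rw [hX]; exact Finset.inter_subset_right
    have hXe : X ⊆ e := by rw [hX]; exact Finset.inter_subset_left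
    have h6 : ((Q \ e) \ R).card + (R \ e).card = (Q \ e).card := by
      have := Finset.card_sdiff_add_card_inter (Q \ e) R
      have h7 : (Q \ e) ∩ R = R \ e := by
        ext v
        simp only [Finset.mem_inter, Finset.mem_sdiff]
        constructor
        · rintro ⟨⟨_, h⟩, h'⟩; exact ⟨h', h⟩
        · rintro ⟨h, h'⟩; exact ⟨⟨hRQ h, h'⟩, h⟩
      rwa [h7] at this
    by_cases hρ : (e ∩ R).card + 1 ≤ d
    · -- few roots in X
      obtain ⟨z, hz⟩ : ∃ z, z = d - (e ∩ R).card - r := ⟨_, rfl⟩
      obtain ⟨f1, hf1⟩ : ∃ f1, f1 = d - r - z := ⟨_, rfl⟩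
      obtain ⟨f2, hf2⟩ : ∃ f2, ((e ∩ R).card + 1 = d ∧ f2 = 1) ∨
          ((e ∩ R).card + 1 < d ∧ f2 = 0) := by
        rcases Nat.lt_or_ge ((e ∩ R).card + 1) d with h | h
        · exact ⟨0, Or.inr ⟨h, rfl⟩⟩
        · exact ⟨1, Or.inl ⟨by omega, rfl⟩⟩
      obtain ⟨pad, hp1, hp2, hp3⟩ := exists_list ((Q \ e) \ R) (f1 + f2) (by omega)
      obtain ⟨ℓ, hℓ⟩ : ∃ ℓ : List (Fin n), ℓ = pad.take f1 ++ ((R \ e).toList ++ pad.drop f1) :=
        ⟨_, rfl⟩
      have hpl1 : (pad.take f1).length = f1 := by rw [List.length_take]; omega
      have hpl2 : (pad.drop f1).length = f2 := by rw [List.length_drop]; omega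
      have hpn : (pad.take f1 ++ pad.drop f1).Nodup := by rw [List.take_append_drop]; exact hp1
      rw [List.nodup_append] at hpn
      have hpm1 : ∀ v ∈ pad.take f1, v ∈ (Q \ e) \ R := fun v hv =>
        hp2 v (List.mem_of_mem_take hv)
      have hpm2 : ∀ v ∈ pad.drop f1, v ∈ (Q \ e) \ R := fun v hv =>
        hp2 v (List.mem_of_mem_drop hv)
      have hℓn : ℓ.Nodup := by
        rw [hℓ, List.nodup_append, List.nodup_append]
        refine ⟨hpn.1, ⟨Finset.nodup_toList _, hpn.2.1, ?_⟩, ?_⟩
        · intro a ha b hb
          rw [Finset.mem_toList, Finset.mem_sdiff] at ha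
          have := Finset.mem_sdiff.mp (hpm2 b hb)
          rintro rfl
          exact this.2 ha.1
        · intro a ha b hb
          rw [List.mem_append, Finset.mem_toList, Finset.mem_sdiff] at hb
          have := Finset.mem_sdiff.mp (hpm1 a ha)
          rcases hb with hb | hb
          · rintro rfl
            exact this.2 hb.1
          · exact hpn.2.2 a ha b hb
      have hℓm : ∀ v ∈ ℓ, v ∈ Q ∧ v ∉ e := by
        intro v hv
        rw [hℓ, List.mem_append, List.mem_append, Finset.mem_toList, Finset.mem_sdiff] at hv
        rcases hv with hv | hv | hv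
        · exact Finset.mem_sdiff.mp (Finset.mem_sdiff.mp (hpm1 v hv)).1
        · exact ⟨hRQ hv.1, hv.2⟩
        · exact Finset.mem_sdiff.mp (Finset.mem_sdiff.mp (hpm2 v hv)).1
      have hℓl : ℓ.length = f1 + ((R \ e).card + f2) := by
        rw [hℓ, List.length_append, List.length_append, Finset.length_toList, hpl1, hpl2]
      have hmid : ∀ j v, (R \ e).toList[j]? = some v → ℓ[f1 + j]? = some v := by
        intro j v hj
        have hj2 : j < (R \ e).toList.length := (List.getElem?_eq_some_iff.mp hj).1
        rw [hℓ, List.getElem?_append_right (by omega), hpl1, Nat.add_sub_cancel_left,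
          List.getElem?_append_left hj2]
        exact hj
      have hslQ : ∀ a b, sl ℓ a b ⊆ Q := fun a b v hv => (hℓm v (sl_sub hv)).1
      have hslR : ∀ a b, sl (R \ e).toList a b ⊆ R := fun a b v hv =>
        (Finset.mem_sdiff.mp (Finset.mem_toList.mp (sl_sub hv))).1
      have hRl : (R \ e).toList.length = (R \ e).card := Finset.length_toList _
      refine ⟨lX, 0, ℓ, hlXn, fun v hv => (by rw [← hX]; exact (hlXm v).mp hv),
        by rw [hlXl, hX], hℓn, hℓm, by omega, ?_⟩
      intro t ht
      rw [← hX]
      rcases Nat.lt_or_ge (t + 1) q with htq | htq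
      · refine ⟨X ∪ sl ℓ 0 d, ?_, ?_⟩
        · refine fam_of (T := (X ∩ R) ∪ sl (R \ e).toList 0 (d - f1)) (U := X ∪ sl ℓ 0 d)
            ?_ ?_ ?_ (Finset.Subset.refl _) ?_ ?_
          · refine Finset.union_subset_union Finset.inter_subset_left ?_
            intro v hv
            obtain ⟨j, hj, _, hj2⟩ := sl_mem hv
            exact mem_sl (hmid j v hj) (by omega) (by omega)
          · exact Finset.union_subset Finset.inter_subset_right (hslR _ _)
          · rw [Finset.card_union_of_disjoint, hXR, sl_card (Finset.nodup_toList _) (by omega)]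
            · omega
            · rw [Finset.disjoint_left]
              intro v hv hv'
              exact (Finset.mem_sdiff.mp (Finset.mem_toList.mp (sl_sub hv'))).2
                (hXe (Finset.mem_inter.mp hv).1)
          · exact Finset.union_subset hXQ (hslQ _ _)
          · rw [Finset.card_union_of_disjoint, sl_card hℓn (by omega)]
            · omega
            · rw [Finset.disjoint_left]
              intro v hv hv'
              exact (hℓm v (sl_sub hv')).2 (hXe hv)
        · intro v hv
          rcases Finset.mem_union.mp hv with hv | hv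
          · left
            exact hXall t htq v hv
          · right
            obtain ⟨j, hj, _, hj2⟩ := sl_mem hv
            have h7 := hdt t
            have h8 := hDt' t htq
            exact ⟨j, hj, by omega, by omega⟩
      · rcases Nat.lt_or_ge t q with htq2 | htq2
        · have htq' : (t + 1) * d = q * d := by
            rw [show t + 1 = q by omega]
          rw [htq']
          refine ⟨ℓ.toFinset, ?_, ?_⟩
          · refine fam_of (T := R \ e) (U := ℓ.toFinset) ?_ Finset.sdiff_subset (by omega)
              (Finset.Subset.refl _) ?_ ?_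
            · intro v hv
              rw [List.mem_toFinset, hℓ, List.mem_append, List.mem_append, Finset.mem_toList]
              exact Or.inr (Or.inl hv)
            · intro v hv
              exact (hℓm v (List.mem_toFinset.mp hv)).1
            · rw [List.toFinset_card_of_nodup hℓn]
              omega
          · intro v hv
            right
            obtain ⟨j, hj, hj2⟩ := idx_of_mem (List.mem_toFinset.mp hv)
            exact ⟨j, hj, by omega, by omega⟩
        · have htq' : (t + 1) * d = q * d + d := by
            rw [show t = q by omega]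
            ring
          rw [htq']
          refine ⟨sl ℓ (d - r) ℓ.length, ?_, ?_⟩
          · refine fam_of (T := sl (R \ e).toList (d - r - f1) (R \ e).card)
              (U := sl ℓ (d - r) ℓ.length) ?_ (hslR _ _) ?_ (Finset.Subset.refl _) (hslQ _ _) ?_
            · intro v hv
              obtain ⟨j, hj, hj1, hj2⟩ := sl_mem hv
              exact mem_sl (hmid j v hj) (by omega) (by omega)
            · rw [sl_card (Finset.nodup_toList _) (by omega)]
              omega
            · rw [sl_card hℓn (by omega)]
              omega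
          · intro v hv
            right
            obtain ⟨j, hj, hj1, hj2⟩ := sl_mem hv
            exact ⟨j, hj, by omega, by omega⟩
    · -- X consists of d roots
      have hXc : X.card = d := by omega
      have hXRs : X ⊆ R := by
        have h6 : X ∩ R = X := by
          refine Finset.eq_of_subset_of_card_le Finset.inter_subset_left ?_
          rw [hXR]
          omega
        rw [← h6]
        exact Finset.inter_subset_right
      obtain ⟨ℓ, hℓ⟩ : ∃ ℓ : List (Fin n), ℓ = (R \ e).toList ++ ((Q \ e) \ R).toList := ⟨_, rfl⟩
      have hℓn : ℓ.Nodup := by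
        rw [hℓ, List.nodup_append]
        refine ⟨Finset.nodup_toList _, Finset.nodup_toList _, ?_⟩
        intro a ha b hb
        rw [Finset.mem_toList, Finset.mem_sdiff] at ha
        rw [Finset.mem_toList, Finset.mem_sdiff] at hb
        rintro rfl
        exact hb.2 ha.1
      have hℓm' : ∀ v, v ∈ ℓ ↔ v ∈ Q \ e := by
        intro v
        rw [hℓ, List.mem_append, Finset.mem_toList, Finset.mem_toList, Finset.mem_sdiff,
          Finset.mem_sdiff, Finset.mem_sdiff]
        constructor
        · rintro (⟨h, h'⟩ | ⟨h, _⟩)
          · exact ⟨hRQ h, h'⟩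
          · exact h
        · intro h
          by_cases hvR : v ∈ R
          · exact Or.inl ⟨hvR, h.2⟩
          · exact Or.inr ⟨h, hvR⟩
      have hℓm : ∀ v ∈ ℓ, v ∈ Q ∧ v ∉ e := fun v hv => Finset.mem_sdiff.mp ((hℓm' v).mp hv)
      have hℓl : ℓ.length = (Q \ e).card := by
        rw [hℓ, List.length_append, Finset.length_toList, Finset.length_toList]
        omega
      have hslQ : ∀ a b, sl ℓ a b ⊆ Q := fun a b v hv => (hℓm v (sl_sub hv)).1
      have hRl : (R \ e).toList.length = (R \ e).card := Finset.length_toList _
      have hmid : ∀ (j : ℕ) (v : Fin n), (R \ e).toList[j]? = some v → ℓ[j]? = some v := by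
        intro j v hj
        have hj2 : j < (R \ e).toList.length := (List.getElem?_eq_some_iff.mp hj).1
        rw [hℓ, List.getElem?_append_left hj2]
        exact hj
      refine ⟨lX, d - r, ℓ, hlXn, fun v hv => (by rw [← hX]; exact (hlXm v).mp hv),
        by rw [hlXl, hX], hℓn, hℓm, by omega, ?_⟩
      intro t ht
      rw [← hX]
      rcases Nat.lt_or_ge (t + 1) q with htq | htq
      · have h7 := hdt t
        have h8 := hDt' t htq
        obtain ⟨y, hy⟩ : ∃ y, ℓ[0]? = some y := by
          cases hL : ℓ with
          | nil =>
            rw [hL] at hℓl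
            simp only [List.length_nil] at hℓl
            omega
          | cons a l => exact ⟨a, by simp⟩
        have hyQ := hℓm y (List.mem_of_getElem? hy)
        refine ⟨insert y X, ?_, ?_⟩
        · refine fam_of (T := X) (U := insert y X) (Finset.subset_insert _ _) hXRs (by omega)
            (Finset.Subset.refl _) ?_ ?_
          · intro v hv
            rcases Finset.mem_insert.mp hv with rfl | hv
            · exact hyQ.1
            · exact hXQ hv
          · rw [Finset.card_insert_of_notMem (fun h => hyQ.2 (hXe h))]
            omega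
        · intro v hv
          rcases Finset.mem_insert.mp hv with rfl | hv
          · right
            exact ⟨0, hy, by omega, by omega⟩
          · left
            exact hXall t htq v hv
      · rcases Nat.lt_or_ge t q with htq2 | htq2
        · have htq' : (t + 1) * d = q * d := by
            rw [show t + 1 = q by omega]
          rw [htq']
          refine ⟨sl lX (X.card - r) X.card ∪ sl ℓ 0 (D + r), ?_, ?_⟩
          · refine fam_of (T := sl lX (X.card - r) X.card ∪ sl (R \ e).toList 0 (R \ e).card)
              (U := sl lX (X.card - r) X.card ∪ sl ℓ 0 (D + r)) ?_ ?_ ?_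
              (Finset.Subset.refl _) ?_ ?_
            · refine Finset.union_subset_union_right ?_
              intro v hv
              obtain ⟨j, hj, hj1, hj2⟩ := sl_mem hv
              exact mem_sl (hmid j v hj) (by omega) (by omega)
            · intro v hv
              rcases Finset.mem_union.mp hv with hv | hv
              · exact hXRs (hlast v hv).1
              · exact (Finset.mem_sdiff.mp (Finset.mem_toList.mp (sl_sub hv))).1
            · rw [Finset.card_union_of_disjoint, hlastc,
                sl_card (Finset.nodup_toList _) (by omega)]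
              · omega
              · rw [Finset.disjoint_left]
                intro v hv hv'
                exact (Finset.mem_sdiff.mp (Finset.mem_toList.mp (sl_sub hv'))).2
                  (hXe (hlast v hv).1)
            · intro v hv
              rcases Finset.mem_union.mp hv with hv | hv
              · exact hXQ (hlast v hv).1
              · exact hslQ _ _ hv
            · rw [Finset.card_union_of_disjoint, hlastc, sl_card hℓn (by omega)]
              · omega
              · rw [Finset.disjoint_left]
                intro v hv hv'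
                exact (hℓm v (sl_sub hv')).2 (hXe (hlast v hv).1)
          · intro v hv
            rcases Finset.mem_union.mp hv with hv | hv
            · left
              exact (hlast v hv).2
            · right
              obtain ⟨j, hj, hj1, hj2⟩ := sl_mem hv
              exact ⟨j, hj, by omega, by omega⟩
        · have htq' : (t + 1) * d = q * d + d := by
            rw [show t = q by omega]
            ring
          rw [htq']
          refine ⟨ℓ.toFinset, ?_, ?_⟩
          · refine fam_of' (T := R \ e) (U := ℓ.toFinset) ?_ Finset.sdiff_subset (by omega) ?_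
              (Finset.Subset.refl _) ?_ ?_
            · intro v hv
              rw [List.mem_toFinset, hℓm', Finset.mem_sdiff]
              rw [Finset.mem_sdiff] at hv
              exact ⟨hRQ hv.1, hv.2⟩
            · intro v hv
              rw [List.mem_toFinset, hℓm', Finset.mem_sdiff]
              rw [Finset.mem_sdiff] at hv
              refine ⟨hv.1, fun h => hv.2 (hXRs ?_)⟩
              rw [hX]
              exact Finset.mem_inter.mpr ⟨h, hv.1⟩
            · intro v hv
              exact (hℓm v (List.mem_toFinset.mp hv)).1
            · rw [List.toFinset_card_of_nodup hℓn]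
              omega
          · intro v hv
            right
            obtain ⟨j, hj, hj2⟩ := idx_of_mem (List.mem_toFinset.mp hv)
            exact ⟨j, hj, by omega, by omega⟩

end Pool.Agent.KS6_67.Sat
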