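import Pool.Agent.KS6_67.Sat.GadE

set_option autoImplicit false

namespace Pool.Agent.KS6_67.Sat

open Finset

/-! ### `d = 4`, `r = 2` : iterated majority -/

def wins {n : ℕ} (g : Fin 3 → Finset (Fin n)) (S : Finset (Fin n)) : Prop :=
  ∃ i j, i ≠ j ∧ 2 ≤ (S ∩ g i).card ∧ 2 ≤ (S ∩ g j).card

def maj {n : ℕ} (Q : Finset (Fin n)) (g : Fin 3 → Finset (Fin n)) (S : Finset (Fin n)) : Prop :=
  (5 ≤ (S ∩ Q).card ∧ wins g S) ∨ (∃ D ⊆ Q, D.card = 4 ∧ wins g D ∧ Q \ D ⊆ S)

lemma third : ∀ i : Fin 3, ∃ j k : Fin 3, i ≠ j ∧ i ≠ k ∧ j ≠ k ∧ ∀ m, m = i ∨ m = j ∨ m = k := by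
  decide
lemma third2 : ∀ i j : Fin 3, i ≠ j → ∃ k : Fin 3, i ≠ k ∧ j ≠ k ∧ ∀ m, m = i ∨ m = j ∨ m = k := by
  decide
lemma common3 : ∀ i j i' j' : Fin 3, i ≠ j → i' ≠ j' → i = i' ∨ i = j' ∨ j = i' ∨ j = j' := by
  decide

lemma wins_mono {n : ℕ} {g : Fin 3 → Finset (Fin n)} {S T : Finset (Fin n)} (h : wins g S)
    (hST : S ⊆ T) : wins g T := by
  obtain ⟨i, j, hij, h1, h2⟩ := h
  exact ⟨i, j, hij, h1.trans (Finset.card_le_card (Finset.inter_subset_inter_right hST)),
    h2.trans (Finset.card_le_card (Finset.inter_subset_inter_right hST))⟩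

lemma meet3 {n : ℕ} {G S T : Finset (Fin n)} (hG : G.card = 3) (hS : 2 ≤ (S ∩ G).card)
    (hT : 2 ≤ (T ∩ G).card) : (S ∩ T).Nonempty := by
  have h1 := Finset.card_union_add_card_inter (S ∩ G) (T ∩ G)
  have h2 : ((S ∩ G) ∪ (T ∩ G)).card ≤ G.card :=
    Finset.card_le_card (Finset.union_subset Finset.inter_subset_right Finset.inter_subset_right)
  have h3 : 0 < ((S ∩ G) ∩ (T ∩ G)).card := by omega
  obtain ⟨v, hv⟩ := Finset.card_pos.mp h3
  simp only [Finset.mem_inter] at hv
  exact ⟨v, Finset.mem_inter.mpr ⟨hv.1.1, hv.2.1⟩⟩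

lemma wins_meet {n : ℕ} {g : Fin 3 → Finset (Fin n)} (hg : ∀ i, (g i).card = 3)
    {S T : Finset (Fin n)} (hS : wins g S) (hT : wins g T) : (S ∩ T).Nonempty := by
  obtain ⟨i, j, hij, h1, h2⟩ := hS
  obtain ⟨i', j', hij', h1', h2'⟩ := hT
  rcases common3 i j i' j' hij hij' with h | h | h | h
  · subst h; exact meet3 (hg _) h1 h1'
  · subst h; exact meet3 (hg _) h1 h2'
  · subst h; exact meet3 (hg _) h2 h1'
  · subst h; exact meet3 (hg _) h2 h2'

/-- adding two private points to winning 4-sets -/
lemma majNon {n k q : ℕ} (hk : k = q * 4 + 2) (hq : 3 ≤ q) {Q e : Finset (Fin n)}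
    {g : Fin 3 → Finset (Fin n)} (hg : ∀ i, (g i).card = 3) (hQe : 13 ≤ (Q \ e).card)
    {A B : Finset (Fin n)} (hA : wins g A) (hB : wins g B) (hAQ : A ⊆ Q \ e) (hBQ : B ⊆ Q \ e)
    (hAc : A.card = 4) (hBc : B.card = 4) (hAB : (A ∩ B).card ≤ 2) :
    ∃ x0 ℓ, Place k 4 (q + 1) ((q - 1) * 4) ((q + 1) * 4 + 1) Q e (maj Q g) x0 ℓ := by
  classical
  have h1 : 2 ≤ ((Q \ e) \ (A ∪ B)).card := by
    have h2 := Finset.card_sdiff_add_card_inter (Q \ e) (A ∪ B)
    have h3 : ((Q \ e) ∩ (A ∪ B)).card ≤ A.card + B.card :=
      (Finset.card_le_card Finset.inter_subset_right).trans (Finset.card_union_le A B)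
    omega
  obtain ⟨y, hy, y', hy', hyy⟩ := Finset.one_lt_card.mp h1
  simp only [Finset.mem_sdiff, Finset.mem_union, not_or] at hy hy'
  have hiA : insert y A ∩ Q = insert y A := by
    rw [Finset.inter_eq_left]
    intro v hv
    rcases Finset.mem_insert.mp hv with rfl | hv
    · exact hy.1.1
    · exact (Finset.mem_sdiff.mp (hAQ hv)).1
  have hiB : insert y' B ∩ Q = insert y' B := by
    rw [Finset.inter_eq_left]
    intro v hv
    rcases Finset.mem_insert.mp hv with rfl | hv
    · exact hy'.1.1
    · exact (Finset.mem_sdiff.mp (hBQ hv)).1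
  have hAB' : insert y A ∩ insert y' B = A ∩ B := by
    ext v
    simp only [Finset.mem_inter, Finset.mem_insert]
    constructor
    · rintro ⟨rfl | h, h' | h'⟩
      · exact absurd h' hyy
      · exact absurd h' hy.2.2
      · rw [h'] at h; exact absurd h hy'.2.1
      · exact ⟨h, h'⟩
    · rintro ⟨h, h'⟩
      exact ⟨Or.inr h, Or.inr h'⟩
  have hAc' : (insert y A).card = 5 := by rw [Finset.card_insert_of_notMem hy.2.1, hAc]
  have hBc' : (insert y' B).card = 5 := by rw [Finset.card_insert_of_notMem hy'.2.2, hBc]
  refine nonPlace hk (by omega) (by omega) (P := maj Q g) (A := insert y A) (B := insert y' B)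
    (Or.inl ⟨by rw [hiA]; omega, wins_mono hA (Finset.subset_insert _ _)⟩)
    (Or.inl ⟨by rw [hiB]; omega, wins_mono hB (Finset.subset_insert _ _)⟩) ?_ ?_ ?_ ?_ ?_
  · intro v hv
    rcases Finset.mem_insert.mp hv with rfl | hv
    · exact Finset.mem_sdiff.mpr hy.1
    · exact hAQ hv
  · intro v hv
    rcases Finset.mem_insert.mp hv with rfl | hv
    · exact Finset.mem_sdiff.mpr hy'.1
    · exact hBQ hv
  · -- |A \ B| ≤ 4 : the union has y' ...
    have h2 := Finset.card_sdiff_add_card_inter (insert y A) (insert y' B)
    by_contra hcon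
    have h3 : (insert y A ∩ insert y' B).card = 0 := by omega
    rw [hAB'] at h3
    obtain ⟨v, hv⟩ := wins_meet hg hA hB
    exact absurd hv (by rw [Finset.card_eq_zero.mp h3]; exact Finset.notMem_empty v)
  · rw [hAB']; exact hAB
  · omega

lemma two_sub {n : ℕ} {G e : Finset (Fin n)} (h : 2 ≤ (G \ e).card) :
    ∃ P ⊆ G \ e, P.card = 2 := Finset.exists_subset_card_eq h

theorem gadMaj {k q : ℕ} (hk : k = q * 4 + 2) (hq : 3 ≤ q) (n : ℕ) (Q : Finset (Fin n))
    (hQ : Q.card = (q + 1) * 4 ∨ Q.card + 1 = (q + 1) * 4) :
    ∃ A, ClsOK k 4 (q + 1) (4 + 1) ((q - 1) * 4) ((q + 1) * 4 + 1) ((q + 1) * 4 - 2) 2 4 Q A := by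
  classical
  -- the three groups
  obtain ⟨g, hg, hgQ, hgd⟩ : ∃ g : Fin 3 → Finset (Fin n), (∀ i, (g i).card = 3) ∧
      (∀ i, g i ⊆ Q) ∧ ∀ i j, i ≠ j → Disjoint (g i) (g j) := by
    obtain ⟨a, ha, hac⟩ := Finset.exists_subset_card_eq (show 3 ≤ Q.card by omega)
    have h1 := Finset.card_sdiff_add_card_inter Q a
    rw [Finset.inter_eq_right.mpr ha] at h1
    obtain ⟨b, hb, hbc⟩ := Finset.exists_subset_card_eq (show 3 ≤ (Q \ a).card by omega)
    have h2 := Finset.card_sdiff_add_card_inter (Q \ a) b
    rw [Finset.inter_eq_right.mpr hb] at h2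
    obtain ⟨c, hc, hcc⟩ := Finset.exists_subset_card_eq (show 3 ≤ ((Q \ a) \ b).card by omega)
    have hab : Disjoint a b := by
      rw [Finset.disjoint_left]
      intro v hv hv'
      exact (Finset.mem_sdiff.mp (hb hv')).2 hv
    have hac' : Disjoint a c := by
      rw [Finset.disjoint_left]
      intro v hv hv'
      exact (Finset.mem_sdiff.mp (Finset.mem_sdiff.mp (hc hv')).1).2 hv
    have hbc' : Disjoint b c := by
      rw [Finset.disjoint_left]
      intro v hv hv'
      exact (Finset.mem_sdiff.mp (hc hv')).2 hv
    refine ⟨![a, b, c], ?_, ?_, ?_⟩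
    · intro i
      fin_cases i
      · exact hac
      · exact hbc
      · exact hcc
    · intro i
      fin_cases i
      · exact ha
      · exact hb.trans Finset.sdiff_subset
      · exact (hc.trans Finset.sdiff_subset).trans Finset.sdiff_subset
    · intro i j hij
      fin_cases i <;> fin_cases j
      · exact absurd rfl hij
      · exact hab
      · exact hac'
      · exact hab.symm
      · exact absurd rfl hij
      · exact hbc'
      · exact hac'.symm
      · exact hbc'.symm
      · exact absurd rfl hij
  have hge : ∀ (i : Fin 3) (e : Finset (Fin n)), (g i \ e).card + (g i ∩ e).card = 3 := by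
    intro i e
    rw [Finset.card_sdiff_add_card_inter, hg]
  have hex : ∀ e : Finset (Fin n), ∀ i j, i ≠ j →
      (g i ∩ e).card + (g j ∩ e).card ≤ (e ∩ Q).card := by
    intro e i j hij
    rw [← Finset.card_union_of_disjoint ((hgd i j hij).mono Finset.inter_subset_left
      Finset.inter_subset_left)]
    refine Finset.card_le_card ?_
    intro v hv
    simp only [Finset.mem_union, Finset.mem_inter] at hv ⊢
    rcases hv with ⟨h, h'⟩ | ⟨h, h'⟩
    · exact ⟨h', hgQ _ h⟩
    · exact ⟨h', hgQ _ h⟩
  have hsub2 : ∀ (P e S : Finset (Fin n)) (i : Fin 3), P ⊆ g i \ e → P.card = 2 → P ⊆ S →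
      2 ≤ (S ∩ g i).card := by
    intro P e S i hP hPc hPS
    rw [← hPc]
    refine Finset.card_le_card (Finset.subset_inter hPS ?_)
    exact hP.trans Finset.sdiff_subset
  refine ⟨maj Q g, ?_, ?_, ?_, ?_, ?_⟩
  · intro S T hS hST
    rcases hS with ⟨h1, h2⟩ | ⟨D, hD, hDc, hDw, hDS⟩
    · exact Or.inl ⟨h1.trans (Finset.card_le_card (Finset.inter_subset_inter_right hST)),
        wins_mono h2 hST⟩
    · exact Or.inr ⟨D, hD, hDc, hDw, hDS.trans hST⟩
  · intro S hS
    rcases hS with ⟨h1, h2⟩ | ⟨D, hD, hDc, hDw, hDS⟩
    · exact h1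
    · have h1 := Finset.card_sdiff_add_card_inter Q D
      rw [Finset.inter_eq_right.mpr hD] at h1
      have h2 : (Q \ D).card ≤ (S ∩ Q).card :=
        Finset.card_le_card (Finset.subset_inter hDS Finset.sdiff_subset)
      omega
  · intro S T hS hT
    have hkey : (S ∩ T).Nonempty := by
      have hD1 : ∀ D ⊆ Q, D.card = 4 → (Q \ D).card + 4 = Q.card := by
        intro D hD hDc
        have h1 := Finset.card_sdiff_add_card_inter Q D
        rwa [Finset.inter_eq_right.mpr hD, hDc] at h1
      have hSD : ∀ (S' D : Finset (Fin n)), 5 ≤ (S' ∩ Q).card → D.card = 4 →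
          ∃ v ∈ S', v ∈ Q \ D := by
        intro S' D h5 hDc
        by_contra hcon
        have h1 : S' ∩ Q ⊆ D := by
          intro v hv
          by_contra hvD
          rw [Finset.mem_inter] at hv
          exact hcon ⟨v, hv.1, Finset.mem_sdiff.mpr ⟨hv.2, hvD⟩⟩
        have := Finset.card_le_card h1
        omega
      rcases hS with ⟨h1, h2⟩ | ⟨D, hD, hDc, hDw, hDS⟩
      · rcases hT with ⟨h1', h2'⟩ | ⟨D', hD', hDc', hDw', hDS'⟩
        · exact wins_meet hg h2 h2'
        · obtain ⟨v, hv, hv'⟩ := hSD S D' h1 hDc'
          exact ⟨v, Finset.mem_inter.mpr ⟨hv, hDS' hv'⟩⟩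
      · rcases hT with ⟨h1', h2'⟩ | ⟨D', hD', hDc', hDw', hDS'⟩
        · obtain ⟨v, hv, hv'⟩ := hSD T D h1' hDc
          exact ⟨v, Finset.mem_inter.mpr ⟨hDS hv', hv⟩⟩
        · have h3 := hD1 D hD hDc
          obtain ⟨v, hv, hv'⟩ := hSD (Q \ D) D' (by
            rw [Finset.inter_eq_left.mpr Finset.sdiff_subset]; omega) hDc'
          exact ⟨v, Finset.mem_inter.mpr ⟨hDS hv, hDS' hv'⟩⟩
    have := Finset.card_pos.mpr hkey
    omega
  · -- interior
    intro e he
    have h3 := card_sdiff_inter Q e
    by_cases hbig : ∃ i, 2 ≤ (g i ∩ e).card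
    · obtain ⟨i, hi⟩ := hbig
      obtain ⟨j, m, hij, him, hjm, _⟩ := third i
      have hj := hex e i j hij
      have hm := hex e i m him
      have hge' : ∀ j', (g j' ∩ e).card = 0 → g j' ⊆ Q \ e := by
        intro j' hj' v hv
        refine Finset.mem_sdiff.mpr ⟨hgQ _ hv, fun h => ?_⟩
        have := Finset.card_eq_zero.mp hj'
        have h2 : v ∈ g j' ∩ e := Finset.mem_inter.mpr ⟨hv, h⟩
        rw [this] at h2
        exact absurd h2 (Finset.notMem_empty v)
      have hgj := hge' j (by omega)
      have hgm := hge' m (by omega)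
      obtain ⟨b1, b2, b3, hb12, hb13, hb23, hb⟩ := Finset.card_eq_three.mp (hg j)
      obtain ⟨c1, c2, c3, hc12, hc13, hc23, hc⟩ := Finset.card_eq_three.mp (hg m)
      have hbc : ∀ x ∈ g j, ∀ y ∈ g m, x ≠ y := by
        rintro x hx y hy rfl
        exact Finset.disjoint_left.mp (hgd j m hjm) hx hy
      have hbm : ∀ x, x ∈ g j ↔ x = b1 ∨ x = b2 ∨ x = b3 := by
        intro x; rw [hb]; simp
      have hcm : ∀ x, x ∈ g m ↔ x = c1 ∨ x = c2 ∨ x = c3 := by
        intro x; rw [hc]; simp
      have hpair : ∀ (b b' c c' : Fin n), b ∈ g j → b' ∈ g j → c ∈ g m → c' ∈ g m → b ≠ b' →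
          c ≠ c' → wins g {b, b', c, c'} ∧ ({b, b', c, c'} : Finset (Fin n)) ⊆ Q \ e ∧
          ({b, b', c, c'} : Finset (Fin n)).card = 4 := by
        intro b b' c c' hb' hb'' hc' hc'' hbb hcc
        refine ⟨⟨j, m, hjm, ?_, ?_⟩, ?_, ?_⟩
        · have h5 : ({b, b'} : Finset (Fin n)) ⊆ {b, b', c, c'} ∩ g j := by
            intro v hv
            simp only [Finset.mem_insert, Finset.mem_singleton] at hv
            rcases hv with rfl | rfl
            · simp [hb']
            · simp [hb'']
          have := Finset.card_le_card h5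
          rwa [Finset.card_pair hbb] at this
        · have h5 : ({c, c'} : Finset (Fin n)) ⊆ {b, b', c, c'} ∩ g m := by
            intro v hv
            simp only [Finset.mem_insert, Finset.mem_singleton] at hv
            rcases hv with rfl | rfl
            · simp [hc']
            · simp [hc'']
          have := Finset.card_le_card h5
          rwa [Finset.card_pair hcc] at this
        · intro v hv
          simp only [Finset.mem_insert, Finset.mem_singleton] at hv
          rcases hv with rfl | rfl | rfl | rfl
          · exact hgj hb'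
          · exact hgj hb''
          · exact hgm hc'
          · exact hgm hc''
        · rw [Finset.card_insert_of_notMem, Finset.card_insert_of_notMem, Finset.card_pair hcc]
          · simp only [Finset.mem_insert, Finset.mem_singleton, not_or]
            exact ⟨hbc _ hb'' _ hc', hbc _ hb'' _ hc''⟩
          · simp only [Finset.mem_insert, Finset.mem_singleton, not_or]
            exact ⟨hbb, hbc _ hb' _ hc', hbc _ hb' _ hc''⟩
      obtain ⟨hA1, hA2, hA3⟩ := hpair b1 b2 c1 c2 ((hbm _).mpr (Or.inl rfl))
        ((hbm _).mpr (Or.inr (Or.inl rfl))) ((hcm _).mpr (Or.inl rfl))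
        ((hcm _).mpr (Or.inr (Or.inl rfl))) hb12 hc12
      obtain ⟨hB1, hB2, hB3⟩ := hpair b2 b3 c2 c3 ((hbm _).mpr (Or.inr (Or.inl rfl)))
        ((hbm _).mpr (Or.inr (Or.inr rfl))) ((hcm _).mpr (Or.inr (Or.inl rfl)))
        ((hcm _).mpr (Or.inr (Or.inr rfl))) hb23 hc23
      refine majNon hk hq hg (by omega) hA1 hB1 hA2 hB2 hA3 hB3 ?_
      have h6 : ({b1, b2, c1, c2} ∩ {b2, b3, c2, c3} : Finset (Fin n)) ⊆ {b2, c2} := by
        intro v hv
        simp only [Finset.mem_inter, Finset.mem_insert, Finset.mem_singleton] at hv ⊢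
        have h7 := hbc b1 ((hbm _).mpr (Or.inl rfl)) c2 ((hcm _).mpr (Or.inr (Or.inl rfl)))
        have h8 := hbc b1 ((hbm _).mpr (Or.inl rfl)) c3 ((hcm _).mpr (Or.inr (Or.inr rfl)))
        have h9 := hbc b2 ((hbm _).mpr (Or.inr (Or.inl rfl))) c1 ((hcm _).mpr (Or.inl rfl))
        have h10 := hbc b3 ((hbm _).mpr (Or.inr (Or.inr rfl))) c1 ((hcm _).mpr (Or.inl rfl))
        rcases hv with ⟨rfl | rfl | rfl | rfl, hv⟩
        · rcases hv with h | h | h | h
          · exact absurd h hb12
          · exact absurd h hb13
          · exact absurd h h7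
          · exact absurd h h8
        · exact Or.inl rfl
        · rcases hv with h | h | h | h
          · exact absurd h.symm h9
          · exact absurd h.symm h10
          · exact absurd h hc12
          · exact absurd h hc13
        · exact Or.inr rfl
      have := Finset.card_le_card h6
      have h7 : ({b2, c2} : Finset (Fin n)).card ≤ 2 := Finset.card_le_two
      omega
    · have hsm : ∀ i, (g i ∩ e).card ≤ 1 := by
        intro i
        by_contra h
        exact hbig ⟨i, by omega⟩
      have hP : ∀ i, ∃ P ⊆ g i \ e, P.card = 2 := by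
        intro i
        have h1 := hge i e
        have h2 := hsm i
        exact two_sub (by omega)
      choose P hP1 hP2 using hP
      have hPd : ∀ i j, i ≠ j → Disjoint (P i) (P j) := fun i j hij =>
        (hgd i j hij).mono ((hP1 i).trans Finset.sdiff_subset) ((hP1 j).trans Finset.sdiff_subset)
      have hPQ : ∀ i, P i ⊆ Q \ e := fun i =>
        (hP1 i).trans (Finset.sdiff_subset_sdiff (hgQ i) (Finset.Subset.refl _))
      have hw : ∀ i j, i ≠ j → wins g (P i ∪ P j) := fun i j hij =>
        ⟨i, j, hij, hsub2 (P i) e _ i (hP1 i) (hP2 i) Finset.subset_union_left,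
          hsub2 (P j) e _ j (hP1 j) (hP2 j) Finset.subset_union_right⟩
      refine majNon hk hq hg (by omega) (hw 1 0 (by decide)) (hw 0 2 (by decide))
        (Finset.union_subset (hPQ 1) (hPQ 0)) (Finset.union_subset (hPQ 0) (hPQ 2)) ?_ ?_ ?_
      · rw [Finset.card_union_of_disjoint (hPd 1 0 (by decide)), hP2, hP2]
      · rw [Finset.card_union_of_disjoint (hPd 0 2 (by decide)), hP2, hP2]
      · refine le_trans (Finset.card_le_card ?_) (hP2 0).le
        intro v hv
        simp only [Finset.mem_inter, Finset.mem_union] at hv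
        rcases hv with ⟨h1 | h1, h2 | h2⟩
        · exact h2
        · exact absurd h2 (Finset.disjoint_left.mp (hPd 1 2 (by decide)) h1)
        · exact h1
        · exact h1
  · -- adjacent
    intro e he1 he2
    have h3 := card_sdiff_inter Q e
    obtain ⟨X, hX⟩ : ∃ X, X = e ∩ Q := ⟨_, rfl⟩
    have hXQ : X ⊆ Q := by rw [hX]; exact Finset.inter_subset_right
    have hXe : X ⊆ e := by rw [hX]; exact Finset.inter_subset_left
    have hXg : ∀ i, X ∩ g i = g i ∩ e := by
      intro i
      rw [hX]
      ext v
      simp only [Finset.mem_inter]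
      constructor
      · rintro ⟨⟨h, _⟩, h'⟩; exact ⟨h', h⟩
      · rintro ⟨h, h'⟩; exact ⟨⟨h', hgQ _ h⟩, h⟩
    by_cases hwX : wins g X
    · -- X is a winning 4-set
      obtain ⟨i, j, hij, h1, h2⟩ := hwX
      have h4 := hex e i j hij
      rw [hXg] at h1 h2
      have hX4 : (e ∩ Q).card = 4 := by omega
      obtain ⟨m, him, hjm, hall⟩ := third2 i j hij
      have hgu : (g i ∩ e) ∪ (g j ∩ e) = X := by
        refine Finset.eq_of_subset_of_card_le ?_ ?_
        · rw [← hXg, ← hXg]
          exact Finset.union_subset Finset.inter_subset_left Finset.inter_subset_left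
        · rw [Finset.card_union_of_disjoint ((hgd i j hij).mono Finset.inter_subset_left
            Finset.inter_subset_left), hX]
          omega
      have hgm0 : (g m ∩ e).card = 0 := by
        rw [Finset.card_eq_zero, Finset.eq_empty_iff_forall_notMem]
        intro v hv
        rw [← hXg, ← hgu] at hv
        simp only [Finset.mem_inter, Finset.mem_union] at hv
        rcases hv with ⟨⟨h, _⟩ | ⟨h, _⟩, h'⟩
        · exact Finset.disjoint_left.mp (hgd i m him) h h'
        · exact Finset.disjoint_left.mp (hgd j m hjm) h h'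
      have hgei := hge i e
      have hgej := hge j e
      have hgem := hge m e
      -- roots outside X
      obtain ⟨Y, hY⟩ : ∃ Y, Y = (g i \ e) ∪ ((g j \ e) ∪ (g m \ e)) := ⟨_, rfl⟩
      have hYc : Y.card = 5 := by
        rw [hY, Finset.card_union_of_disjoint, Finset.card_union_of_disjoint]
        · omega
        · exact (hgd j m hjm).mono Finset.sdiff_subset Finset.sdiff_subset
        · rw [Finset.disjoint_union_right]
          exact ⟨(hgd i j hij).mono Finset.sdiff_subset Finset.sdiff_subset,
            (hgd i m him).mono Finset.sdiff_subset Finset.sdiff_subset⟩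
      have hYQ : Y ⊆ Q \ e := by
        rw [hY]
        exact Finset.union_subset (Finset.sdiff_subset_sdiff (hgQ i) (Finset.Subset.refl _))
          (Finset.union_subset (Finset.sdiff_subset_sdiff (hgQ j) (Finset.Subset.refl _))
            (Finset.sdiff_subset_sdiff (hgQ m) (Finset.Subset.refl _)))
      obtain ⟨ℓ, hℓ⟩ : ∃ ℓ : List (Fin n), ℓ = Y.toList ++ ((Q \ e) \ Y).toList := ⟨_, rfl⟩
      have hℓn : ℓ.Nodup := by
        rw [hℓ, List.nodup_append]
        refine ⟨Finset.nodup_toList _, Finset.nodup_toList _, ?_⟩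
        intro a ha b hb
        rw [Finset.mem_toList] at ha
        rw [Finset.mem_toList, Finset.mem_sdiff] at hb
        rintro rfl
        exact hb.2 ha
      have hℓm : ∀ v, v ∈ ℓ ↔ v ∈ Q \ e := by
        intro v
        rw [hℓ, List.mem_append, Finset.mem_toList, Finset.mem_toList, Finset.mem_sdiff (s := Q \ e)]
        constructor
        · rintro (h | h)
          · exact hYQ h
          · exact h.1
        · intro h
          by_cases hv : v ∈ Y
          · exact Or.inl hv
          · exact Or.inr ⟨h, hv⟩
      have hℓl : ℓ.length = (Q \ e).card := by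
        rw [hℓ, List.length_append, Finset.length_toList, Finset.length_toList]
        have := Finset.card_sdiff_add_card_inter (Q \ e) Y
        rw [Finset.inter_eq_right.mpr hYQ] at this
        omega
      have hq4 : (q - 1) * 4 + 4 = q * 4 := by omega
      refine ⟨X.toList, 2, ℓ, Finset.nodup_toList _,
        fun v hv => by rw [← hX]; exact Finset.mem_toList.mp hv,
        by rw [Finset.length_toList, hX], hℓn,
        fun v hv => Finset.mem_sdiff.mp ((hℓm v).mp hv), by omega, ?_⟩
      intro t ht
      rw [hX4]
      have hXc : X.card = 4 := by rw [hX]; exact hX4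
      rcases Nat.lt_or_ge (t + 1) q with htq | htq
      · obtain ⟨y, hy⟩ : ∃ y, ℓ[0]? = some y := by
          cases hL : ℓ with
          | nil =>
            rw [hL] at hℓl
            simp only [List.length_nil] at hℓl
            omega
          | cons a l => exact ⟨a, by simp⟩
        have hyQ := Finset.mem_sdiff.mp ((hℓm y).mp (List.mem_of_getElem? hy))
        refine ⟨insert y X, Or.inl ⟨?_, ?_⟩, ?_⟩
        · have h5 : insert y X ∩ Q = insert y X := by
            rw [Finset.inter_eq_left]
            intro v hv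
            rcases Finset.mem_insert.mp hv with rfl | hv
            · exact hyQ.1
            · exact hXQ hv
          rw [h5, Finset.card_insert_of_notMem (fun h => hyQ.2 (hXe h))]
          omega
        · refine wins_mono ⟨i, j, hij, ?_, ?_⟩ (Finset.subset_insert _ _)
          · rw [hXg]; exact h1
          · rw [hXg]; exact h2
        · intro v hv
          rcases Finset.mem_insert.mp hv with rfl | hv
          · right
            exact ⟨0, hy, by omega, by omega⟩
          · left
            obtain ⟨j', hj', hj2⟩ := idx_of_mem_toList hv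
            exact ⟨j', hj', by omega⟩
      · rcases Nat.lt_or_ge t q with htq2 | htq2
        · obtain ⟨u, hu⟩ : ∃ u, X.toList[3]? = some u := by
            have h5 : 3 < X.toList.length := by rw [Finset.length_toList]; omega
            exact ⟨X.toList[3], List.getElem?_eq_getElem h5⟩
          have huX : u ∈ X := Finset.mem_toList.mp (List.mem_of_getElem? hu)
          have huY : u ∉ Y := fun h => (Finset.mem_sdiff.mp (hYQ h)).2 (hXe huX)
          refine ⟨insert u Y, Or.inl ⟨?_, ?_⟩, ?_⟩
          · have h5 : insert u Y ∩ Q = insert u Y := by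
              rw [Finset.inter_eq_left]
              intro v hv
              rcases Finset.mem_insert.mp hv with rfl | hv
              · exact hXQ huX
              · exact (Finset.mem_sdiff.mp (hYQ hv)).1
            rw [h5, Finset.card_insert_of_notMem huY]
            omega
          · have hgm : 2 ≤ (insert u Y ∩ g m).card := by
              have h5 : g m \ e ⊆ insert u Y ∩ g m := by
                intro v hv
                refine Finset.mem_inter.mpr ⟨Finset.mem_insert_of_mem ?_,
                  (Finset.mem_sdiff.mp hv).1⟩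
                rw [hY]
                exact Finset.mem_union_right _ (Finset.mem_union_right _ hv)
              have := Finset.card_le_card h5
              omega
            rw [← hgu] at huX
            rcases Finset.mem_union.mp huX with hu' | hu'
            · refine ⟨i, m, him, ?_, hgm⟩
              have h5 : insert u (g i \ e) ⊆ insert u Y ∩ g i := by
                intro v hv
                rcases Finset.mem_insert.mp hv with rfl | hv
                · exact Finset.mem_inter.mpr ⟨Finset.mem_insert_self _ _,
                    (Finset.mem_inter.mp hu').1⟩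
                · refine Finset.mem_inter.mpr ⟨Finset.mem_insert_of_mem ?_,
                    (Finset.mem_sdiff.mp hv).1⟩
                  rw [hY]
                  exact Finset.mem_union_left _ hv
              have h6 := Finset.card_le_card h5
              rw [Finset.card_insert_of_notMem (fun h => (Finset.mem_sdiff.mp h).2
                (Finset.mem_inter.mp hu').2)] at h6
              omega
            · refine ⟨j, m, hjm, ?_, hgm⟩
              have h5 : insert u (g j \ e) ⊆ insert u Y ∩ g j := by
                intro v hv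
                rcases Finset.mem_insert.mp hv with rfl | hv
                · exact Finset.mem_inter.mpr ⟨Finset.mem_insert_self _ _,
                    (Finset.mem_inter.mp hu').1⟩
                · refine Finset.mem_inter.mpr ⟨Finset.mem_insert_of_mem ?_,
                    (Finset.mem_sdiff.mp hv).1⟩
                  rw [hY]
                  exact Finset.mem_union_right _ (Finset.mem_union_left _ hv)
              have h6 := Finset.card_le_card h5
              rw [Finset.card_insert_of_notMem (fun h => (Finset.mem_sdiff.mp h).2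
                (Finset.mem_inter.mp hu').2)] at h6
              omega
          · intro v hv
            rcases Finset.mem_insert.mp hv with rfl | hv
            · left
              exact ⟨3, hu, by omega⟩
            · right
              obtain ⟨j', hj', hj2⟩ := idx_of_mem_toList hv
              refine ⟨j', ?_, by omega, by omega⟩
              rw [hℓ, List.getElem?_append_left (by rw [Finset.length_toList]; exact hj2)]
              exact hj'
        · refine ⟨Q \ e, Or.inr ⟨X, hXQ, hXc, ⟨i, j, hij, ?_, ?_⟩, ?_⟩, ?_⟩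
          · rw [hXg]; exact h1
          · rw [hXg]; exact h2
          · intro v hv
            rw [Finset.mem_sdiff] at hv ⊢
            refine ⟨hv.1, fun h => hv.2 ?_⟩
            rw [hX]
            exact Finset.mem_inter.mpr ⟨h, hv.1⟩
          · intro v hv
            right
            obtain ⟨j', hj', hj2⟩ := idx_of_mem ((hℓm v).mpr hv)
            exact ⟨j', hj', by omega, by omega⟩
    · -- X does not win
      obtain ⟨i, hi⟩ : ∃ i, ∀ j, i ≠ j → (g j ∩ e).card ≤ 1 := by
        by_cases hbig : ∃ i, 2 ≤ (g i ∩ e).card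
        · obtain ⟨i, hi⟩ := hbig
          refine ⟨i, fun j hij => ?_⟩
          by_contra hcon
          refine hwX ⟨i, j, hij, ?_, ?_⟩
          · rw [hXg]; exact hi
          · rw [hXg]; omega
        · refine ⟨0, fun j _ => ?_⟩
          by_contra hcon
          exact hbig ⟨j, by omega⟩
      obtain ⟨j, m, hij, him, hjm, hall⟩ := third i
      have hj := hi j hij
      have hm := hi m him
      have hgei := hge i e
      have hgej := hge j e
      have hgem := hge m e
      obtain ⟨Gj, hGj1, hGj2⟩ := two_sub (show 2 ≤ (g j \ e).card by omega)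
      obtain ⟨Gm, hGm1, hGm2⟩ := two_sub (show 2 ≤ (g m \ e).card by omega)
      have hGjQ : Gj ⊆ Q \ e :=
        hGj1.trans (Finset.sdiff_subset_sdiff (hgQ j) (Finset.Subset.refl _))
      have hGmQ : Gm ⊆ Q \ e :=
        hGm1.trans (Finset.sdiff_subset_sdiff (hgQ m) (Finset.Subset.refl _))
      have hGjm : Disjoint Gj Gm := (hgd j m hjm).mono (hGj1.trans Finset.sdiff_subset)
        (hGm1.trans Finset.sdiff_subset)
      have hXc : X.card = (e ∩ Q).card := by rw [hX]
      -- G1
      obtain ⟨G1, hG1Q, hG1c, hG1j, hG1m, hG1w, hG1t⟩ : ∃ G1 ⊆ Q \ e, G1.card ≤ 2 ∧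
          Disjoint G1 Gj ∧ Disjoint G1 Gm ∧ 2 ≤ ((X ∪ G1) ∩ g i).card ∧
          3 ≤ X.card + G1.card := by
        by_cases hxi : 2 ≤ (g i ∩ e).card
        · have h5 : 1 ≤ ((Q \ e) \ (Gj ∪ Gm)).card := by
            have h2 := Finset.card_sdiff_add_card_inter (Q \ e) (Gj ∪ Gm)
            have h3 : ((Q \ e) ∩ (Gj ∪ Gm)).card ≤ Gj.card + Gm.card :=
              (Finset.card_le_card Finset.inter_subset_right).trans (Finset.card_union_le Gj Gm)
            omega
          obtain ⟨y, hy⟩ := Finset.card_pos.mp h5
          rw [Finset.mem_sdiff, Finset.mem_union, not_or] at hy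
          refine ⟨{y}, Finset.singleton_subset_iff.mpr hy.1, by simp, ?_, ?_, ?_, ?_⟩
          · rw [Finset.disjoint_singleton_left]; exact hy.2.1
          · rw [Finset.disjoint_singleton_left]; exact hy.2.2
          · refine hxi.trans (Finset.card_le_card ?_)
            rw [← hXg]
            exact Finset.inter_subset_inter_right Finset.subset_union_left
          · have h6 : (g i ∩ e).card ≤ X.card := by
              rw [← hXg]
              exact Finset.card_le_card Finset.inter_subset_left
            rw [Finset.card_singleton]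
            omega
        · obtain ⟨G1, hG11, hG12⟩ := two_sub (show 2 ≤ (g i \ e).card by omega)
          refine ⟨G1, hG11.trans (Finset.sdiff_subset_sdiff (hgQ i) (Finset.Subset.refl _)),
            by omega, ?_, ?_, ?_, by omega⟩
          · exact (hgd i j hij).mono (hG11.trans Finset.sdiff_subset)
              (hGj1.trans Finset.sdiff_subset)
          · exact (hgd i m him).mono (hG11.trans Finset.sdiff_subset)
              (hGm1.trans Finset.sdiff_subset)
          · exact hsub2 G1 e _ i hG11 hG12 Finset.subset_union_right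
      -- the extra element of B
      obtain ⟨y, hy⟩ : ((Q \ e) \ (Gj ∪ Gm ∪ G1)).Nonempty := by
        rw [← Finset.card_pos]
        have h2 := Finset.card_sdiff_add_card_inter (Q \ e) (Gj ∪ Gm ∪ G1)
        have h3 : ((Q \ e) ∩ (Gj ∪ Gm ∪ G1)).card ≤ (Gj ∪ Gm).card + G1.card :=
          (Finset.card_le_card Finset.inter_subset_right).trans (Finset.card_union_le _ _)
        have h4 := Finset.card_union_le Gj Gm
        omega
      rw [Finset.mem_sdiff, Finset.mem_union, Finset.mem_union, not_or, not_or] at hy
      have hyQ := Finset.mem_sdiff.mp hy.1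
      have hBQ : insert y (Gj ∪ Gm) ⊆ Q \ e := by
        intro v hv
        rcases Finset.mem_insert.mp hv with rfl | hv
        · exact hy.1
        · exact Finset.union_subset hGjQ hGmQ hv
      have hBc : (insert y (Gj ∪ Gm)).card = 5 := by
        rw [Finset.card_insert_of_notMem, Finset.card_union_of_disjoint hGjm]
        · omega
        · rw [Finset.mem_union, not_or]
          exact hy.2.1
      have hAQ : (X ∪ G1) ∪ Gj ⊆ Q := by
        refine Finset.union_subset (Finset.union_subset hXQ ?_) ?_
        · exact hG1Q.trans Finset.sdiff_subset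
        · exact hGjQ.trans Finset.sdiff_subset
      have hXout : ∀ P ⊆ Q \ e, Disjoint X P := by
        intro P hP
        rw [Finset.disjoint_left]
        intro v hv hv'
        exact (Finset.mem_sdiff.mp (hP hv')).2 (hXe hv)
      have hAc : ((X ∪ G1) ∪ Gj).card = X.card + G1.card + 2 := by
        rw [Finset.card_union_of_disjoint, Finset.card_union_of_disjoint (hXout G1 hG1Q), hGj2]
        rw [Finset.disjoint_union_left]
        exact ⟨hXout Gj hGjQ, hG1j⟩
      refine adjPlace hk (by omega) (by omega) (by omega) (P := maj Q g) (A := (X ∪ G1) ∪ Gj)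
        (B := insert y (Gj ∪ Gm)) ?_ ?_ he2 hAQ hBQ ?_ ?_ (by omega)
      · refine Or.inl ⟨?_, ⟨i, j, hij, ?_, ?_⟩⟩
        · rw [Finset.inter_eq_left.mpr hAQ, hAc]
          omega
        · exact hG1w.trans (Finset.card_le_card
            (Finset.inter_subset_inter_right Finset.subset_union_left))
        · exact hsub2 Gj e _ j hGj1 hGj2 Finset.subset_union_right
      · refine Or.inl ⟨?_, ⟨j, m, hjm, ?_, ?_⟩⟩
        · rw [Finset.inter_eq_left.mpr (hBQ.trans Finset.sdiff_subset), hBc]
        · refine hsub2 Gj e _ j hGj1 hGj2 ?_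
          exact Finset.subset_union_left.trans (Finset.subset_insert _ _)
        · refine hsub2 Gm e _ m hGm1 hGm2 ?_
          exact Finset.subset_union_right.trans (Finset.subset_insert _ _)
      · have h5 : (((X ∪ G1) ∪ Gj) \ e) \ insert y (Gj ∪ Gm) ⊆ G1 := by
          intro v hv
          simp only [Finset.mem_sdiff, Finset.mem_union, Finset.mem_insert, not_or] at hv
          obtain ⟨⟨(h | h) | h, hve⟩, hv2⟩ := hv
          · exact absurd (hXe h) hve
          · exact h
          · exact absurd h hv2.2.1
        have := Finset.card_le_card h5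
        omega
      · have h5 : ((X ∪ G1) ∪ Gj) ∩ insert y (Gj ∪ Gm) ⊆ Gj := by
          intro v hv
          simp only [Finset.mem_inter, Finset.mem_union, Finset.mem_insert] at hv
          obtain ⟨hv1, hv2⟩ := hv
          rcases hv2 with rfl | h2 | h2
          · rcases hv1 with (h | h) | h
            · exact absurd (hXe h) hyQ.2
            · exact absurd h hy.2.2
            · exact h
          · exact h2
          · rcases hv1 with (h | h) | h
            · exact absurd (hXe h) (Finset.mem_sdiff.mp (hGmQ h2)).2
            · exact absurd h2 (Finset.disjoint_left.mp hG1m h)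
            · exact h
        have := Finset.card_le_card h5
        omega

end Pool.Agent.KS6_67.Sat
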