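import Pool.Agent.KS6_67.Sat.ArrB2

set_option autoImplicit false

namespace Pool.Agent.KS6_67.Sat

open Finset

lemma cap_share {n k d c m : ℕ} (hn : n = m * d) (hk : 0 < k) (A : Finset (Fin n) → Prop)
    (hsh : ∀ S T, A S → A T → k - c * d + 1 ≤ (S ∩ T).card) (hm : 3 * c ≤ m) (h2k : 2 * k ≤ n)
    (σ : Equiv.Perm (Fin n)) (T : Finset ℕ) (hT : T ⊆ Finset.range m)
    (hTA : ∀ w ∈ T, A (win n k d σ w)) : T.card ≤ c := by
  classical
  have hn0 : 0 < n := by omega
  have hpair : ∀ w ∈ T, ∀ w' ∈ T, w < w' → w' - w < c ∨ m - (w' - w) < c := by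
    intro w hw w' hw' hlt
    have hw'm := Finset.mem_range.mp (hT hw')
    by_contra hcon
    push Not at hcon
    obtain ⟨h1, h2⟩ := hcon
    by_cases h3 : (w' - w) * d + k ≤ n
    · have h4 := inter_le (n := n) (k := k) (d := d) σ w (w' - w) hn0 h3
      rw [Nat.add_sub_cancel' hlt.le] at h4
      have h5 := hsh _ _ (hTA w hw) (hTA w' hw')
      have h6 : c * d ≤ (w' - w) * d := Nat.mul_le_mul_right d h1
      omega
    · have h3' : (m - (w' - w)) * d + (w' - w) * d = n := by
        rw [← Nat.add_mul, Nat.sub_add_cancel (by omega), hn]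
      have h4 := inter_le (n := n) (k := k) (d := d) σ w' (m - (w' - w)) hn0 (by omega)
      have h7 : w' + (m - (w' - w)) = w + m := by omega
      rw [h7, win_add_period hn] at h4
      have h5 := hsh _ _ (hTA w' hw') (hTA w hw)
      have h6 : c * d ≤ (m - (w' - w)) * d := Nat.mul_le_mul_right d h2
      omega
  rcases Finset.eq_empty_or_nonempty T with hE | hne
  · rw [hE]; simp
  obtain ⟨w0, hw0⟩ : ∃ w0, w0 = T.min' hne := ⟨_, rfl⟩
  have hw0T : w0 ∈ T := by rw [hw0]; exact Finset.min'_mem T hne
  have hmin : ∀ w ∈ T, w0 ≤ w := fun w hw => by rw [hw0]; exact Finset.min'_le T w hw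
  have hc0 : 0 < c := by
    by_contra hcon
    have h0 : c = 0 := by omega
    subst h0
    have := hsh _ _ (hTA w0 hw0T) (hTA w0 hw0T)
    rw [Finset.inter_self] at this
    have h1 := card_win_le (k := k) (d := d) σ w0 hn0
    omega
  let φ : ℕ → ℕ := fun w => if w - w0 < c then w + m else w
  have hφ : ∀ w ∈ T, ∀ w' ∈ T, φ w ≤ φ w' → φ w' < φ w + c := by
    intro w hw w' hw' hle
    have h1 := hmin w hw
    have h2 := hmin w' hw'
    have h3 := Finset.mem_range.mp (hT hw)
    have h4 := Finset.mem_range.mp (hT hw')
    have far : ∀ u ∈ T, ¬ (u - w0 < c) → m - (u - w0) < c := by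
      intro u hu h5
      have h6 := hmin u hu
      rcases Nat.eq_or_lt_of_le h6 with h7 | h7
      · omega
      · rcases hpair w0 hw0T u hu h7 with h8 | h8
        · exact absurd h8 h5
        · exact h8
    simp only [φ] at hle ⊢
    by_cases a1 : w - w0 < c
    · rw [if_pos a1] at hle ⊢
      by_cases a2 : w' - w0 < c
      · rw [if_pos a2] at hle ⊢
        omega
      · rw [if_neg a2] at hle
        omega
    · rw [if_neg a1] at hle ⊢
      have h5 := far w hw a1
      by_cases a2 : w' - w0 < c
      · rw [if_pos a2] at hle ⊢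
        have h6 : w' < w := by omega
        rcases hpair w' hw' w hw h6 with h8 | h8
        · omega
        · omega
      · rw [if_neg a2] at hle ⊢
        have h6 := far w' hw' a2
        omega
  have hinj : Set.InjOn φ T := by
    intro a ha b hb hab
    have h1 := Finset.mem_range.mp (hT ha)
    have h2 := Finset.mem_range.mp (hT hb)
    simp only [φ] at hab
    split_ifs at hab <;> omega
  have hcard : (T.image φ).card = T.card := Finset.card_image_of_injOn hinj
  have hne' : (T.image φ).Nonempty := hne.image φ
  have hsub : T.image φ ⊆ Finset.Ico ((T.image φ).min' hne') ((T.image φ).min' hne' + c) := by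
    intro y hy
    have h1 := Finset.min'_le (T.image φ) y hy
    rw [Finset.mem_Ico]
    refine ⟨h1, ?_⟩
    obtain ⟨w', hw', rfl⟩ := Finset.mem_image.mp hy
    obtain ⟨w, hw, hwe⟩ := Finset.mem_image.mp (Finset.min'_mem (T.image φ) hne')
    rw [← hwe] at h1 ⊢
    exact hφ w hw w' hw' h1
  have := Finset.card_le_card hsub
  rw [Nat.card_Ico] at this
  omega

theorem not_hamB {n k d m N : ℕ} (hd : 0 < d) (hn : n = m * d)
    (G : Finset (Finset (Fin n))) (A : ℕ → Finset (Fin n) → Prop) (c : ℕ → ℕ)
    (hG : ∀ W ∈ G, ∃ i < N, A i W)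
    (hcap : ∀ i < N, ∀ σ : Equiv.Perm (Fin n), ∀ T : Finset ℕ, T ⊆ Finset.range m →
      (∀ w ∈ T, A i (win n k d σ w)) → T.card ≤ c i)
    (hsum : ∑ i ∈ Finset.range N, c i < m) : ¬ Ham n k d G := by
  classical
  rintro ⟨σ, hσ⟩
  have hm : n / d = m := by rw [hn]; exact Nat.mul_div_cancel m hd
  rw [hm] at hσ
  have hsub : Finset.range m ⊆ (Finset.range N).biUnion
      (fun i => (Finset.range m).filter (fun w => A i (win n k d σ w))) := by
    intro w hw
    rw [Finset.mem_range] at hw
    obtain ⟨i, hi, h⟩ := hG _ (hσ w hw)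
    rw [Finset.mem_biUnion]
    exact ⟨i, Finset.mem_range.mpr hi, Finset.mem_filter.mpr ⟨Finset.mem_range.mpr hw, h⟩⟩
  have h1 := Finset.card_le_card hsub
  rw [Finset.card_range] at h1
  have h2 : ((Finset.range N).biUnion
      (fun i => (Finset.range m).filter (fun w => A i (win n k d σ w)))).card ≤
      ∑ i ∈ Finset.range N, c i := by
    refine Finset.card_biUnion_le.trans (Finset.sum_le_sum ?_)
    intro i hi
    exact hcap i (Finset.mem_range.mp hi) σ _ (Finset.filter_subset _ _)
      (fun w hw => (Finset.mem_filter.mp hw).2)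
  omega

lemma exists_order (M : ℕ) : ∀ (l : List (ℕ × ℕ)), (l.map Prod.fst).Nodup →
    (l.map Prod.snd).Nodup → (∀ p ∈ l, p.1 < M ∧ p.2 < M) →
    ∃ π : Equiv.Perm ℕ, (∀ p ∈ l, π p.1 = p.2) ∧ ∀ i, i < M ↔ π i < M := by
  have key : ∀ a b : ℕ, a < M → b < M → ∀ i, i < M ↔ Equiv.swap a b i < M := by
    intro a b ha hb i
    by_cases h1 : i = a
    · subst h1; rw [Equiv.swap_apply_left]; exact ⟨fun _ => hb, fun _ => ha⟩
    · by_cases h2 : i = b
      · subst h2; rw [Equiv.swap_apply_right]; exact ⟨fun _ => ha, fun _ => hb⟩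
      · rw [Equiv.swap_apply_of_ne_of_ne h1 h2]
  intro l
  induction l with
  | nil =>
    intro _ _ _
    exact ⟨Equiv.refl ℕ, by simp, by simp⟩
  | cons p l ih =>
    intro h1 h2 h3
    rw [List.map_cons, List.nodup_cons] at h1 h2
    obtain ⟨π, hπ1, hπ2⟩ := ih h1.2 h2.2 (fun q hq => h3 q (List.mem_cons_of_mem _ hq))
    have hp := h3 p List.mem_cons_self
    have hpa : π p.1 < M := (hπ2 p.1).mp hp.1
    refine ⟨π.trans (Equiv.swap (π p.1) p.2), ?_, ?_⟩
    · intro q hq
      rw [Equiv.trans_apply]
      rcases List.mem_cons.mp hq with rfl | hq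
      · rw [Equiv.swap_apply_left]
      · rw [hπ1 q hq]
        refine Equiv.swap_apply_of_ne_of_ne ?_ ?_
        · rw [← hπ1 q hq]
          intro h
          have h4 := π.injective h
          exact h1.1 (List.mem_map.mpr ⟨q, hq, h4⟩)
        · intro h
          exact h2.1 (List.mem_map.mpr ⟨q, hq, h⟩)
    · intro i
      rw [Equiv.trans_apply]
      exact (hπ2 i).trans (key _ _ hpa hp.2 (π i))

/-- what is needed from one class -/
structure ClsOK {n : ℕ} (k d c a lo hi L τ hm : ℕ) (Q : Finset (Fin n))
    (A : Finset (Fin n) → Prop) : Prop where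
  mono : ∀ S T, A S → S ⊆ T → A T
  size : ∀ S, A S → a ≤ (S ∩ Q).card
  share : ∀ S T, A S → A T → k - c * d + 1 ≤ (S ∩ T).card
  non : ∀ e : Finset (Fin n), (e ∩ Q).card ≤ τ → ∃ x0 ℓ, Place k d c lo hi Q e A x0 ℓ
  adj : ∀ e : Finset (Fin n), 1 ≤ (e ∩ Q).card → (e ∩ Q).card ≤ hm →
    ∃ lX xs ℓ, PlaceAdj k d c L Q e A lX xs ℓ

/-- The general capacity construction. -/
theorem goodB {k d l c cs τ τs xlo xhi slo shi L1 Ls ss flex ymax hms M0 : ℕ}
    (hk : k = d + l) (hd : 2 ≤ d) (hl : 1 ≤ l) (hc : 2 ≤ c) (hcs : 2 ≤ cs)
    (hmain : ∀ (n : ℕ) (Q : Finset (Fin n)),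
      (Q.card = c * d ∨ (flex = 1 ∧ Q.card + 1 = c * d)) →
      ∃ A, ClsOK k d c (d + 1) xlo xhi L1 τ d Q A)
    (hspec : ∀ (n : ℕ) (Q : Finset (Fin n)), Q.card = ss →
      ∃ A, ClsOK k d cs d slo shi Ls τs hms Q A)
    (hres : ∀ m, M0 ≤ m → ∃ y N, y ≤ ymax ∧ m = N * c + y * cs + 1)
    (hflex : ∀ y ≤ ymax, y * ss ≤ (y * cs + 1) * d ∨ flex = 1)
    (n1 : k + L1 ≤ (c + 1) * d + xlo) (n2 : xhi ≤ c * d + xlo) (n3 : xhi + L1 ≤ (c + c) * d)
    (n4 : xhi ≤ c * d + slo) (n5 : shi ≤ cs * d + xlo) (n6 : k + Ls ≤ (cs + 1) * d + xlo)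
    (hτ : d ≤ 3 * τ)
    (hτs : d ≤ τs + 1 ∨ (ymax ≤ 1 ∧ d ≤ 2 * τ + τs + 1 ∧ hms = d - 1)) :
    Good k l := by
  classical
  have hkl : k - l = d := by omega
  obtain ⟨N0, hN0⟩ : ∃ N0, N0 = ymax * ss + l + 2 * ymax + 10 := ⟨_, rfl⟩
  refine ⟨2 ^ (l * (c * d) + ((ymax * cs + 1) * d + ymax * ss)),
    (M0 + c * N0 + ymax * cs + 1 + 3 * c + 3 * cs + 2 * k) * d, ?_⟩
  intro n hn hdvd
  rw [hkl] at hdvd ⊢
  obtain ⟨m, hm⟩ := hdvd
  have hnm : n = m * d := by rw [hm]; ring
  have hd0 : 0 < d := by omega
  have hmlow : M0 + c * N0 + ymax * cs + 1 + 3 * c + 3 * cs + 2 * k ≤ m := by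
    rw [hnm] at hn
    exact Nat.le_of_mul_le_mul_right hn hd0
  have hnm' : m ≤ n := by rw [hnm]; exact Nat.le_mul_of_pos_right m hd0
  obtain ⟨y, N, hy, hmN⟩ := hres m (by omega)
  have hycs : y * cs ≤ ymax * cs := Nat.mul_le_mul_right cs hy
  have hyss : y * ss ≤ ymax * ss := Nat.mul_le_mul_right ss hy
  have hNN : N0 ≤ N := by
    have h1 : c * N0 ≤ N * c := by omega
    rw [Nat.mul_comm c N0] at h1
    exact Nat.le_of_mul_le_mul_right h1 (by omega)
  -- sizes
  obtain ⟨Δ, hΔ⟩ : ∃ Δ, Δ = y * ss - (y * cs + 1) * d := ⟨_, rfl⟩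
  have hΔN : Δ ≤ N := by omega
  have hΔflex : Δ = 0 ∨ flex = 1 := by
    rcases hflex y hy with h | h
    · left; omega
    · right; exact h
  obtain ⟨s, hs⟩ : ∃ s : ℕ → ℕ, s = fun j =>
    if j < y then ss else if j < y + Δ then c * d - 1 else c * d := ⟨_, rfl⟩
  obtain ⟨cl, hcl⟩ : ∃ cl : ℕ → ℕ, cl = fun j => if j < y then cs else c := ⟨_, rfl⟩
  have hcd : 4 ≤ c * d := by
    calc 4 = 2 * 2 := by norm_num
      _ ≤ c * d := Nat.mul_le_mul hc hd
  have hspre : pre s (y + N) + Δ = y * ss + N * (c * d) := by
    have h1 : ∀ a ≤ y, pre s a = a * ss := by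
      intro a
      induction a with
      | zero => intro _; rw [pre_zero]; simp
      | succ a ih =>
        intro ha
        rw [pre_succ, ih (by omega), hs]
        simp only
        rw [if_pos (by omega)]
        ring
    have h2 : ∀ a, pre s (y + a) + min a Δ = y * ss + a * (c * d) := by
      intro a
      induction a with
      | zero => rw [add_zero, h1 y le_rfl]; simp
      | succ a ih =>
        rw [← Nat.add_assoc, pre_succ]
        have h3 : s (y + a) + (if a < Δ then 1 else 0) = c * d := by
          rw [hs]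
          simp only
          rw [if_neg (by omega)]
          by_cases h4 : a < Δ
          · rw [if_pos (by omega), if_pos h4]; omega
          · rw [if_neg (by omega), if_neg h4]; omega
        have h5 : (a + 1) * (c * d) = a * (c * d) + c * d := by ring
        rw [h5]
        split_ifs at h3 <;> omega
    have h3 := h2 N
    rw [Nat.min_eq_right hΔN] at h3
    exact h3
  have hnval : n = N * (c * d) + (y * cs + 1) * d := by rw [hnm, hmN]; ring
  have hsn : pre s (y + N) ≤ n := by omega
  have hclpre : pre cl (y + N) + 1 = m := by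
    have h1 : ∀ a ≤ y, pre cl a = a * cs := by
      intro a
      induction a with
      | zero => intro _; rw [pre_zero]; simp
      | succ a ih =>
        intro ha
        rw [pre_succ, ih (by omega), hcl]
        simp only
        rw [if_pos (by omega)]
        ring
    have h2 : ∀ a, pre cl (y + a) = y * cs + a * c := by
      intro a
      induction a with
      | zero => rw [add_zero, h1 y le_rfl]; simp
      | succ a ih =>
        rw [← Nat.add_assoc, pre_succ, ih, hcl]
        simp only
        rw [if_neg (by omega)]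
        ring
    rw [h2, hmN]
    ring
  obtain ⟨M, hM⟩ : ∃ M, M = y + N := ⟨_, rfl⟩
  rw [← hM] at hspre hsn hclpre
  obtain ⟨Q, hQdef⟩ : ∃ Q : ℕ → Finset (Fin n), Q = mkQ n M s hsn := ⟨_, rfl⟩
  have hQdis : ∀ a b, a ≠ b → Disjoint (Q a) (Q b) := by
    intro a b hab
    rw [hQdef]
    exact disj_mkQ a b hab
  have hQcard : ∀ i < M, (Q i).card = s i := by
    intro i hi
    rw [hQdef]
    exact card_mkQ hi
  have hQspec : ∀ i < y, (Q i).card = ss := by
    intro i hi
    rw [hQcard i (by omega), hs]
    simp only
    rw [if_pos hi]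
  have hQmain : ∀ i, y ≤ i → i < M → (Q i).card = c * d ∨ (flex = 1 ∧ (Q i).card + 1 = c * d) := by
    intro i hi hiM
    rw [hQcard i hiM, hs]
    simp only
    rw [if_neg (by omega)]
    by_cases h1 : i < y + Δ
    · rw [if_pos h1]
      right
      rcases hΔflex with h2 | h2
      · omega
      · exact ⟨h2, by omega⟩
    · rw [if_neg h1]
      exact Or.inl rfl
  -- the families
  have hAex : ∀ i, ∃ A : Finset (Fin n) → Prop,
      (i < y → ClsOK k d cs d slo shi Ls τs hms (Q i) A) ∧
      (y ≤ i → i < M → ClsOK k d c (d + 1) xlo xhi L1 τ d (Q i) A) := by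
    intro i
    by_cases h1 : i < y
    · obtain ⟨A, hA⟩ := hspec n (Q i) (hQspec i h1)
      exact ⟨A, fun _ => hA, fun h2 => absurd h1 (by omega)⟩
    · by_cases h2 : i < M
      · obtain ⟨A, hA⟩ := hmain n (Q i) (hQmain i (by omega) h2)
        exact ⟨A, fun h3 => absurd h3 h1, fun _ _ => hA⟩
      · exact ⟨fun _ => True, fun h3 => absurd h3 h1, fun _ h3 => absurd h3 h2⟩
  choose A hA using hAex
  have hmono : ∀ i < M, ∀ S T, A i S → S ⊆ T → A i T := by
    intro i hi
    by_cases h1 : i < y
    · exact ((hA i).1 h1).mono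
    · exact ((hA i).2 (by omega) hi).mono
  obtain ⟨G, hG⟩ : ∃ G : Finset (Finset (Fin n)),
      G = ((Finset.univ : Finset (Fin n)).powersetCard k).filter
        (fun W => ∃ i, i < M ∧ A i W) := ⟨_, rfl⟩
  have hGmem : ∀ W, W ∈ G ↔ W.card = k ∧ ∃ i, i < M ∧ A i W := by
    intro W
    rw [hG, Finset.mem_filter, Finset.mem_powersetCard]
    simp
  have hGB : G ⊆ bad k l N (fun j => Q (y + j)) := by
    intro W hW
    rw [hGmem] at hW
    obtain ⟨h1, i, hi, h2⟩ := hW
    rw [mem_bad]
    refine ⟨h1, ?_⟩
    by_cases h3 : i < y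
    · have h4 := ((hA i).1 h3).size W h2
      have h5 := sum_inter_le (insert i ((hitSet N (fun j => Q (y + j)) W).image (fun j => y + j)))
        Q W (fun a _ b _ hab => hQdis a b hab)
      rw [Finset.sum_insert, Finset.sum_image] at h5
      · have h6 : ∑ j ∈ hitSet N (fun j => Q (y + j)) W, 1 ≤
            ∑ j ∈ hitSet N (fun j => Q (y + j)) W, (W ∩ Q (y + j)).card := by
          refine Finset.sum_le_sum ?_
          intro j hj
          exact Finset.card_pos.mpr (mem_hitSet.mp hj).2
        rw [Finset.sum_const, smul_eq_mul, mul_one] at h6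
        omega
      · intro a _ b _ hab
        simpa using hab
      · rw [Finset.mem_image]
        rintro ⟨j, _, hj⟩
        omega
    · have h4 := ((hA i).2 (by omega) hi).size W h2
      refine hit_le (d := d) hk (fun j => Q (y + j)) (fun a b hab => hQdis _ _ (by omega)) W h1
        (i - y) ?_
      have h5 : y + (i - y) = i := by omega
      simp only [h5]
      exact h4
  have hBcard : (bad k l N (fun j => Q (y + j))).card ≤
      2 ^ (l * (c * d) + ((ymax * cs + 1) * d + ymax * ss)) * n ^ l := by
    have h1 := bad_card (k := k) (l := l) (N := N) (s := c * d)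
      (z := (ymax * cs + 1) * d + ymax * ss)
      (fun j => Q (y + j)) (Finset.univ \ ((Finset.range N).biUnion (fun j => Q (y + j)))) ?_ ?_
      ?_ (by omega)
    · refine h1.trans ?_
      rw [mul_comm]
      refine Nat.mul_le_mul_left _ (Nat.pow_le_pow_left ?_ l)
      have h2 : N ≤ N * c := Nat.le_mul_of_pos_right N (by omega)
      omega
    · intro v
      by_cases hv : v ∈ (Finset.range N).biUnion (fun j => Q (y + j))
      · right
        rw [Finset.mem_biUnion] at hv
        obtain ⟨i, hi, hvi⟩ := hv
        exact ⟨i, Finset.mem_range.mp hi, hvi⟩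
      · left
        rw [Finset.mem_sdiff]
        exact ⟨Finset.mem_univ v, hv⟩
    · intro i hi
      rcases hQmain (y + i) (by omega) (by omega) with h2 | h2
      · exact h2.le
      · omega
    · have h2 : ((Finset.range N).biUnion (fun j => Q (y + j))).card + Δ = N * (c * d) := by
        rw [Finset.card_biUnion (fun a _ b _ hab => hQdis _ _ (by omega))]
        have h3 : ∀ a ≤ N, ∑ j ∈ Finset.range a, (Q (y + j)).card + pre s y = pre s (y + a) := by
          intro a
          induction a with
          | zero => intro _; simp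
          | succ a ih =>
            intro ha
            rw [Finset.sum_range_succ, ← Nat.add_assoc, pre_succ, ← ih (by omega),
              hQcard (y + a) (by omega)]
            ring
        have h4 := h3 N le_rfl
        have h5 : pre s y = y * ss := by
          have h6 : ∀ a ≤ y, pre s a = a * ss := by
            intro a
            induction a with
            | zero => intro _; rw [pre_zero]; simp
            | succ a ih =>
              intro ha
              rw [pre_succ, ih (by omega), hs]
              simp only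
              rw [if_pos (by omega)]
              ring
          exact h6 y le_rfl
        rw [← hM] at h4
        omega
      rw [Finset.card_sdiff_of_subset (Finset.subset_univ _), Finset.card_univ, Fintype.card_fin]
      have h7 : (y * cs + 1) * d ≤ (ymax * cs + 1) * d := Nat.mul_le_mul_right d (by omega)
      omega
  refine ⟨G, bad k l N (fun j => Q (y + j)), fun e he => ((hGmem e).mp he).1, ?_,
    (Finset.card_le_card hGB).trans hBcard, hBcard, ?_⟩
  · -- not Hamiltonian
    refine not_hamB (N := M) hd0 hnm G A cl (fun W hW => ((hGmem W).mp hW).2) ?_ ?_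
    · intro i hi σ T hT hTA
      rw [hcl]
      simp only
      by_cases h1 : i < y
      · rw [if_pos h1]
        exact cap_share hnm (by omega) (A i) ((hA i).1 h1).share (by omega) (by omega) σ T hT hTA
      · rw [if_neg h1]
        exact cap_share hnm (by omega) (A i) ((hA i).2 (by omega) hi).share (by omega) (by omega)
          σ T hT hTA
    · have : ∑ i ∈ Finset.range M, cl i = pre cl M := rfl
      rw [this]
      omega
  · intro e hek heG heB
    have hmany : l + 1 ≤ (hitSet N (fun j => Q (y + j)) e).card := by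
      by_contra hcon
      exact heB (mem_bad.mpr ⟨hek, by omega⟩)
    obtain ⟨H, hHdef⟩ : ∃ H : Finset ℕ, H = (Finset.range M).filter
        (fun i => y ≤ i ∧ 1 ≤ (e ∩ Q i).card) := ⟨_, rfl⟩
    have hHmem : ∀ i, i ∈ H ↔ y ≤ i ∧ i < M ∧ 1 ≤ (e ∩ Q i).card := by
      intro i
      rw [hHdef, Finset.mem_filter, Finset.mem_range]
      tauto
    have hHc : l + 1 ≤ H.card := by
      refine hmany.trans ?_
      refine Finset.card_le_card_of_injOn (fun j => y + j) ?_ ?_
      · intro i hi
        rw [Finset.mem_coe, mem_hitSet] at hi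
        rw [Finset.mem_coe, hHmem]
        exact ⟨show y ≤ y + i by omega, show y + i < M by omega, Finset.card_pos.mpr hi.2⟩
      · intro a _ b _ hab
        simpa using hab
    have hsumH : ∀ i < y, ∑ j ∈ H, (e ∩ Q j).card + (e ∩ Q i).card ≤ k := by
      intro i hi
      have h1 := sum_inter_le (insert i H) Q e (fun a _ b _ hab => hQdis a b hab)
      have h0H : i ∉ H := by
        rw [hHmem]
        omega
      rw [Finset.sum_insert h0H, hek] at h1
      omega
    have hsumH' : ∑ j ∈ H, (e ∩ Q j).card ≤ k := by
      have h1 := sum_inter_le H Q e (fun a _ b _ hab => hQdis a b hab)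
      rw [hek] at h1
      exact h1
    have hsumV : ∀ V ⊆ H, (∀ j ∈ V, τ + 1 ≤ (e ∩ Q j).card) →
        H.card + V.card * τ ≤ ∑ j ∈ H, (e ∩ Q j).card := by
      intro V hV hVτ
      have h1 : ∑ j ∈ H, (1 + if j ∈ V then τ else 0) ≤ ∑ j ∈ H, (e ∩ Q j).card := by
        refine Finset.sum_le_sum ?_
        intro j hj
        have h2 := ((hHmem j).mp hj).2.2
        split_ifs with h3
        · have := hVτ j h3
          omega
        · omega
      rw [Finset.sum_add_distrib, Finset.sum_const, smul_eq_mul, mul_one, ← Finset.sum_filter,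
        Finset.sum_const, smul_eq_mul] at h1
      have h4 : H.filter (fun j => j ∈ V) = V := by
        ext j
        rw [Finset.mem_filter]
        exact ⟨fun h => h.2, fun h => ⟨hV h, h⟩⟩
      rw [h4] at h1
      exact h1
    have hmaind : ∀ i, y ≤ i → i < M → (e ∩ Q i).card ≤ d := by
      intro i hi hiM
      rcases Nat.eq_zero_or_pos (e ∩ Q i).card with h0 | h0
      · omega
      have h1 : i ∈ H := (hHmem i).mpr ⟨hi, hiM, h0⟩
      have h2 : ∑ j ∈ H.erase i, 1 ≤ ∑ j ∈ H.erase i, (e ∩ Q j).card := by
        refine Finset.sum_le_sum ?_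
        intro j hj
        exact ((hHmem j).mp (Finset.mem_of_mem_erase hj)).2.2
      rw [Finset.sum_const, smul_eq_mul, mul_one, Finset.card_erase_of_mem h1] at h2
      have h3 := Finset.add_sum_erase H (fun j => (e ∩ Q j).card) h1
      omega
    obtain ⟨V, hVdef⟩ : ∃ V : Finset ℕ, V = H.filter (fun i => τ + 1 ≤ (e ∩ Q i).card) := ⟨_, rfl⟩
    have hVH : V ⊆ H := by rw [hVdef]; exact Finset.filter_subset _ _
    have hVs := hsumV V hVH (by
      intro j hj
      rw [hVdef, Finset.mem_filter] at hj
      exact hj.2)
    have hout : ∀ i, i < M → y ≤ i → i ∉ V → (e ∩ Q i).card ≤ τ := by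
      intro i hi1 hi2 hi3
      by_contra hcon
      apply hi3
      rw [hVdef, Finset.mem_filter]
      exact ⟨(hHmem i).mpr ⟨hi2, hi1, by omega⟩, by omega⟩
    have hτ1 : 1 ≤ τ := by omega
    -- the order of the classes
    obtain ⟨π, x, x', hπ0, hπM, hπr, hxx', hx'm, hx'1, hx1, hsp0, hsp, hothers, hothers'⟩ :
        ∃ (π : Equiv.Perm ℕ) (x x' : ℕ), π 0 = x ∧ π (M - 1) = x' ∧ (∀ i, i < M ↔ π i < M) ∧
          x ≠ x' ∧ y ≤ x' ∧ 1 ≤ (e ∩ Q x').card ∧ 1 ≤ (e ∩ Q x).card ∧
          (x < y → hms = d - 1) ∧
          (∀ i, π i < y → i % 2 = 0 ∧ i + 2 < M ∧ (i = 0 → x < y)) ∧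
          (∀ i, i < M → y ≤ i → i ≠ x → i ≠ x' → (e ∩ Q i).card ≤ τ) ∧
          (∀ i, i < y → i ≠ x → (e ∩ Q i).card ≤ τs) := by
      -- two kinds
      by_cases hviol : ∃ i0 < y, τs + 1 ≤ (e ∩ Q i0).card
      · obtain ⟨i0, hi0, hi0τ⟩ := hviol
        have h1 := hsumH i0 hi0
        rcases hτs with h2 | ⟨h2, h3, h4⟩
        · omega
        · have hy1 : y = 1 := by omega
          have hi00 : i0 = 0 := by omega
          subst hi00
          have hV1 : V.card ≤ 1 := by
            by_contra hcon
            have h5 : 2 * τ ≤ V.card * τ := Nat.mul_le_mul_right τ (by omega)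
            omega
          obtain ⟨S, hS1, hS2, hS3⟩ := Finset.exists_subsuperset_card_eq hVH hV1 (by omega)
          rw [Finset.card_eq_one] at hS3
          obtain ⟨z, rfl⟩ := hS3
          have hz := (hHmem z).mp (hS2 (Finset.mem_singleton_self z))
          obtain ⟨π, hπ1, hπ2⟩ := exists_order M [(0, 0), (M - 1, z)]
            (by simp; omega) (by simp; omega) (by
              intro p hp
              simp only [List.mem_cons, List.not_mem_nil, or_false] at hp
              rcases hp with rfl | rfl
              · exact ⟨show 0 < M by omega, show 0 < M by omega⟩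
              · exact ⟨show M - 1 < M by omega, show z < M by omega⟩)
          have e0 : π 0 = 0 := hπ1 (0, 0) (by simp)
          have e1 : π (M - 1) = z := hπ1 (M - 1, z) (by simp)
          refine ⟨π, 0, z, e0, e1, hπ2, by omega, hz.1, hz.2.2, by omega, fun _ => h4, ?_, ?_, ?_⟩
          · intro i hi
            have h5 : i = 0 := by
              apply π.injective
              rw [e0]
              omega
            subst h5
            exact ⟨rfl, by omega, fun _ => hi0⟩
          · intro i hi1 hi2 hi3 hi4
            exact hout i hi1 hi2 (fun h5 => hi4 (Finset.mem_singleton.mp (hS1 h5)))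
          · intro i hi1 hi2
            omega
      · push Not at hviol
        have hV2 : V.card ≤ 2 := by
          by_contra hcon
          have h5 : 3 * τ ≤ V.card * τ := Nat.mul_le_mul_right τ (by omega)
          omega
        obtain ⟨S, hS1, hS2, hS3⟩ := Finset.exists_subsuperset_card_eq hVH hV2 (by omega)
        rw [Finset.card_eq_two] at hS3
        obtain ⟨x, x', hxx', rfl⟩ := hS3
        have hx := (hHmem x).mp (hS2 (by simp))
        have hx' := (hHmem x').mp (hS2 (by simp))
        obtain ⟨π, hπ1, hπ2⟩ := exists_order M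
          ((0, x) :: (M - 1, x') :: (List.range y).map (fun i => (2 * i + 2, i)))
          (by
            rw [List.map_cons, List.map_cons, List.map_map, List.nodup_cons, List.nodup_cons]
            refine ⟨?_, ?_, ?_⟩
            · simp only [List.mem_cons, List.mem_map, Function.comp_apply, List.mem_range, not_or]
              refine ⟨by omega, ?_⟩
              rintro ⟨i, _, hi⟩
              omega
            · simp only [List.mem_map, Function.comp_apply, List.mem_range]
              rintro ⟨i, hi1, hi2⟩
              omega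
            · refine List.Nodup.map ?_ List.nodup_range
              intro a b hab
              simp only [Function.comp_apply] at hab
              omega)
          (by
            rw [List.map_cons, List.map_cons, List.map_map, List.nodup_cons, List.nodup_cons]
            refine ⟨?_, ?_, ?_⟩
            · simp only [List.mem_cons, List.mem_map, Function.comp_apply, List.mem_range, not_or]
              refine ⟨hxx', ?_⟩
              rintro ⟨i, hi1, hi2⟩
              omega
            · simp only [List.mem_map, Function.comp_apply, List.mem_range]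
              rintro ⟨i, hi1, hi2⟩
              omega
            · refine List.Nodup.map ?_ List.nodup_range
              intro a b hab
              simpa using hab)
          (by
            intro p hp
            simp only [List.mem_cons, List.mem_map, List.mem_range] at hp
            rcases hp with rfl | rfl | ⟨i, hi, rfl⟩
            · exact ⟨show 0 < M by omega, show x < M by omega⟩
            · exact ⟨show M - 1 < M by omega, show x' < M by omega⟩
            · exact ⟨show 2 * i + 2 < M by omega, show i < M by omega⟩)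
        have e0 : π 0 = x := hπ1 (0, x) (by simp)
        have e1 : π (M - 1) = x' := hπ1 (M - 1, x') (by simp)
        have e2 : ∀ i < y, π (2 * i + 2) = i := by
          intro i hi
          refine hπ1 (2 * i + 2, i) ?_
          simp only [List.mem_cons, List.mem_map, List.mem_range]
          exact Or.inr (Or.inr ⟨i, hi, rfl⟩)
        refine ⟨π, x, x', e0, e1, hπ2, hxx', hx'.1, hx'.2.2, hx.2.2, by omega, ?_, ?_, ?_⟩
        · intro i hi
          have h5 : i = 2 * (π i) + 2 := by
            apply π.injective
            rw [e2 (π i) hi]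
          refine ⟨by omega, by omega, by omega⟩
        · intro i hi1 hi2 hi3 hi4
          refine hout i hi1 hi2 (fun h5 => ?_)
          have h6 := hS1 h5
          rw [Finset.mem_insert, Finset.mem_singleton] at h6
          rcases h6 with h6 | h6
          · exact hi3 h6
          · exact hi4 h6
        · intro i hi1 hi2
          have := hviol i hi1
          omega
    -- placements
    have hπi : ∀ i, i ≠ 0 → π i ≠ x := by
      intro i h1 h2
      rw [← hπ0] at h2
      exact h1 (π.injective h2)
    have hπi' : ∀ i, i ≠ M - 1 → π i ≠ x' := by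
      intro i h1 h2
      rw [← hπM] at h2
      exact h1 (π.injective h2)
    have hspc : ∀ i, (if π i < y then cs else c) = cl (π i) := by
      intro i
      rw [hcl]
    have hprec : pre (fun i => cl (π i)) M + 1 = m := by
      rw [pre_comp cl M π hπr]
      exact hclpre
    have hM3 : 3 ≤ M := by omega
    have hn2k : 2 * k ≤ n := by omega
    obtain ⟨σ, hσ0, hσw⟩ := arrB2 (M := M) hd0 hnm (by omega) (fun i => cl (π i)) hM3 hprec
      (fun i => Q (π i)) (fun a b hab => hQdis _ _ (fun h => hab (π.injective h)))
      (fun i => if i < M then A (π i) else fun _ => True)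
      (by
        intro i S T
        split_ifs with h1
        · exact hmono (π i) ((hπr i).mp h1) S T
        · intro _ _; trivial)
      e hek (fun i => if π i < y then slo else xlo) (fun i => if π i < y then shi else xhi)
      (if x < y then Ls else L1) L1
      (by
        intro i hi1 hi2
        have hiM : i < M := by omega
        have hpM := (hπr i).mp hiM
        rw [if_pos hiM]
        by_cases h1 : π i < y
        · rw [if_pos h1, if_pos h1, ← hspc, if_pos h1]
          exact ((hA (π i)).1 h1).non e (hothers' (π i) h1 (hπi i (by omega)))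
        · rw [if_neg h1, if_neg h1, ← hspc, if_neg h1]
          exact ((hA (π i)).2 (by omega) hpM).non e
            (hothers (π i) hpM (by omega) (hπi i (by omega)) (hπi' i (by omega))))
      (by
        have hpM := (hπr 0).mp (by omega)
        rw [if_pos (show 0 < M by omega)]
        rw [hπ0] at hpM ⊢
        by_cases h1 : x < y
        · have h2 : cl x = cs := by rw [hcl]; simp [h1]
          rw [if_pos h1, h2]
          refine ((hA x).1 h1).adj e hx1 ?_
          have h3 := hsumH x h1
          have h4 := hsp0 h1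
          have h5 : H.card ≤ ∑ j ∈ H, (e ∩ Q j).card := by omega
          omega
        · have h2 : cl x = c := by rw [hcl]; simp [h1]
          rw [if_neg h1, h2]
          exact ((hA x).2 (by omega) hpM).adj e hx1 (hmaind x (by omega) hpM))
      (by
        have hpM := (hπr (M - 1)).mp (by omega)
        rw [if_pos (show M - 1 < M by omega)]
        rw [hπM] at hpM ⊢
        have h2 : cl x' = c := by rw [hcl]; simp only; rw [if_neg (by omega)]
        rw [h2]
        exact ((hA x').2 hx'm hpM).adj e hx'1 (hmaind x' hx'm hpM))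
      (by
        have h1 : ¬ π 1 < y := by
          intro h
          have := (hsp 1 h).1
          omega
        rw [if_neg h1, hπ0]
        by_cases h2 : x < y
        · have h3 : cl x = cs := by rw [hcl]; simp [h2]
          rw [if_pos h2, h3]
          exact n6
        · have h3 : cl x = c := by rw [hcl]; simp [h2]
          rw [if_neg h2, h3]
          exact n1)
      (by
        intro i hi1 hi2
        rw [← hspc]
        by_cases h1 : π i < y
        · have h2 : ¬ π (i + 1) < y := by
            intro h
            have h3 := (hsp _ h).1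
            have h4 := (hsp _ h1).1
            omega
          rw [if_pos h1, if_pos h1, if_neg h2]
          exact n5
        · rw [if_neg h1, if_neg h1]
          by_cases h2 : π (i + 1) < y
          · rw [if_pos h2]; exact n4
          · rw [if_neg h2]; exact n2)
      (by
        rw [← hspc, ← hspc]
        have h1 : ¬ π (M - 2) < y := by
          intro h
          have := (hsp _ h).2.1
          omega
        have h2 : ¬ π (M - 1) < y := by
          intro h
          have := (hsp _ h).2.1
          omega
        rw [if_neg h1, if_neg h1, if_neg h2]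
        exact n3)
    refine ⟨σ, ?_⟩
    intro w hw
    have hnd : n / d = m := by rw [hnm]; exact Nat.mul_div_cancel m hd0
    rw [hnd] at hw
    rcases Nat.eq_zero_or_pos w with h0 | h0
    · rw [h0, hσ0]
      exact Finset.mem_insert_self _ _
    · obtain ⟨i, hi, h1⟩ := hσw w h0 hw
      rw [if_pos hi] at h1
      exact Finset.mem_insert_of_mem ((hGmem _).mpr
        ⟨card_win σ w (by omega), π i, (hπr i).mp hi, h1⟩)

end Pool.Agent.KS6_67.Sat
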