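import Pool.Agent.KS6_67.Sat.ArrA

set_option autoImplicit false

namespace Pool.Agent.KS6_67.Sat

open Finset

lemma exists_parts (B : ℕ) (hB : 1 ≤ B) :
    ∀ (N J : ℕ), N ≤ J → J ≤ N * B →
      ∃ j : ℕ → ℕ, (∀ i < N, 1 ≤ j i ∧ j i ≤ B) ∧ ∑ i ∈ Finset.range N, j i = J := by
  intro N
  induction N with
  | zero =>
    intro J h1 h2
    exact ⟨fun _ => 0, fun i hi => absurd hi (by omega), by simp; omega⟩
  | succ N ih =>
    intro J h1 h2
    have h3 : (N + 1) * B = N * B + B := by ring
    have h4 : N ≤ N * B := Nat.le_mul_of_pos_right N (by omega)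
    obtain ⟨j, hj1, hj2⟩ := ih (J - min B (J - N)) (by omega) (by omega)
    refine ⟨fun i => if i = N then min B (J - N) else j i, ?_, ?_⟩
    · intro i hi
      by_cases h : i = N
      · simp only [h, if_true]
        omega
      · simp only [h, if_false]
        exact hj1 i (by omega)
    · rw [Finset.sum_range_succ]
      simp only [if_true]
      have h5 : ∑ i ∈ Finset.range N, (if i = N then min B (J - N) else j i) =
          ∑ i ∈ Finset.range N, j i := by
        refine Finset.sum_congr rfl ?_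
        intro i hi
        rw [Finset.mem_range] at hi
        rw [if_neg (by omega)]
      rw [h5, hj2]
      omega

/-- classes with prescribed sizes -/
def mkQ (n N : ℕ) (s : ℕ → ℕ) (h : pre s N ≤ n) (i : ℕ) : Finset (Fin n) :=
  if hi : i < N then
    (Finset.Ico (pre s i) (pre s (i + 1))).attachFin (by
      intro p hp
      rw [Finset.mem_Ico] at hp
      have := pre_mono s (show i + 1 ≤ N from hi)
      omega)
  else ∅

lemma mem_mkQ {n N : ℕ} {s : ℕ → ℕ} {h : pre s N ≤ n} {i : ℕ} {v : Fin n} :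
    v ∈ mkQ n N s h i ↔ i < N ∧ pre s i ≤ (v : ℕ) ∧ (v : ℕ) < pre s (i + 1) := by
  unfold mkQ
  split_ifs with hi
  · rw [Finset.mem_attachFin, Finset.mem_Ico]
    exact ⟨fun h => ⟨hi, h⟩, fun h => h.2⟩
  · simp [hi]

lemma card_mkQ {n N : ℕ} {s : ℕ → ℕ} {h : pre s N ≤ n} {i : ℕ} (hi : i < N) :
    (mkQ n N s h i).card = s i := by
  unfold mkQ
  rw [dif_pos hi, Finset.card_attachFin, Nat.card_Ico, pre_succ]
  omega

lemma disj_mkQ {n N : ℕ} {s : ℕ → ℕ} {h : pre s N ≤ n} (i j : ℕ) (hij : i ≠ j) :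
    Disjoint (mkQ n N s h i) (mkQ n N s h j) := by
  rw [Finset.disjoint_left]
  intro v hv hv'
  rw [mem_mkQ] at hv hv'
  rcases Nat.lt_or_gt_of_ne hij with h1 | h1
  · have := pre_mono s (show i + 1 ≤ j from h1)
    omega
  · have := pre_mono s (show j + 1 ≤ i from h1)
    omega

lemma exists_mkQ {n N : ℕ} {s : ℕ → ℕ} {h : pre s N ≤ n} {v : Fin n} (hv : (v : ℕ) < pre s N) :
    ∃ i < N, v ∈ mkQ n N s h i := by
  obtain ⟨i, hi, h1, h2⟩ := exists_class s N (v + 1) (by omega) (by omega)
  exact ⟨i, hi, mem_mkQ.mpr ⟨hi, by omega, by omega⟩⟩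

/-- a permutation of the classes with prescribed ends -/
lemma exists_ends (N x y : ℕ) (hN : 1 ≤ N) (hx : x < N + 1) (hy : y < N + 1) (hxy : x ≠ y) :
    ∃ π : Equiv.Perm ℕ, π 0 = x ∧ π N = y ∧ (∀ i, i < N + 1 ↔ π i < N + 1) := by
  have key : ∀ a b : ℕ, a < N + 1 → b < N + 1 → ∀ i, i < N + 1 ↔ Equiv.swap a b i < N + 1 := by
    intro a b ha hb i
    by_cases h1 : i = a
    · subst h1; rw [Equiv.swap_apply_left]; exact ⟨fun _ => hb, fun _ => ha⟩
    · by_cases h2 : i = b
      · subst h2; rw [Equiv.swap_apply_right]; exact ⟨fun _ => ha, fun _ => hb⟩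
      · rw [Equiv.swap_apply_of_ne_of_ne h1 h2]
  have hy' : Equiv.swap 0 x y ≠ 0 := by
    intro h
    have h2 := congrArg (Equiv.swap 0 x) h
    rw [Equiv.swap_apply_self, Equiv.swap_apply_left] at h2
    exact hxy h2.symm
  refine ⟨(Equiv.swap N (Equiv.swap 0 x y)).trans (Equiv.swap 0 x), ?_, ?_, ?_⟩
  · rw [Equiv.trans_apply, Equiv.swap_apply_of_ne_of_ne (by omega) (Ne.symm hy'),
      Equiv.swap_apply_left]
  · rw [Equiv.trans_apply, Equiv.swap_apply_left, Equiv.swap_apply_self]
  · intro i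
    rw [Equiv.trans_apply]
    have h1 := key 0 x (by omega) hx y
    have h2 := key N (Equiv.swap 0 x y) (by omega) (h1.mp hy) i
    have h3 := key 0 x (by omega) hx (Equiv.swap N (Equiv.swap 0 x y) i)
    exact h2.trans h3

/-- choice of the two end classes -/
lemma choose_ends {d l k N τ h0thr : ℕ} (hk : k = d + l) (hl : 2 ≤ l) (hld : l ≤ d)
    (hτ : τ = max (l - 1) (d - l)) (h0 : 1 ≤ h0thr) (h : ℕ → ℕ) (H : Finset ℕ)
    (hH : ∀ i, i ∈ H ↔ 1 ≤ i ∧ i < N + 1 ∧ 1 ≤ h i) (hHc : l + 1 ≤ H.card)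
    (hsum : ∑ i ∈ H, h i + h 0 ≤ k) :
    ∃ x y, x ≠ y ∧ x < N + 1 ∧ y < N + 1 ∧ 1 ≤ y ∧ 1 ≤ h x ∧ 1 ≤ h y ∧ h 0 ≤ d - 1 ∧
      ∀ i, i < N + 1 → i ≠ x → i ≠ y → (1 ≤ i → h i ≤ τ) ∧ (i = 0 → h i < h0thr) := by
  classical
  set V := H.filter (fun i => τ + 1 ≤ h i) with hV
  have hτ1 : 1 ≤ τ := by omega
  have hτ2 : d ≤ 2 * τ + 1 := by omega
  have hVH : V ⊆ H := Finset.filter_subset _ _
  have hs : H.card + V.card * τ ≤ ∑ i ∈ H, h i := by
    have h1 : ∑ i ∈ H, (1 + if τ + 1 ≤ h i then τ else 0) ≤ ∑ i ∈ H, h i := by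
      refine Finset.sum_le_sum ?_
      intro i hi
      have := ((hH i).mp hi).2.2
      split_ifs <;> omega
    rw [Finset.sum_add_distrib, Finset.sum_const, smul_eq_mul, mul_one, ← Finset.sum_filter,
      Finset.sum_const, smul_eq_mul] at h1
    exact h1
  have hbud : V.card * τ + h 0 ≤ d - 1 := by omega
  have hout : ∀ i, i < N + 1 → 1 ≤ i → i ∉ V → h i ≤ τ := by
    intro i hi1 hi2 hi3
    by_contra hcon
    exact hi3 (Finset.mem_filter.mpr ⟨(hH i).mpr ⟨hi2, hi1, by omega⟩, by omega⟩)
  by_cases hv0 : h0thr ≤ h 0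
  · -- the special class is a violator
    have hV1 : V.card ≤ 1 := by
      by_contra hcon
      have : 2 * τ ≤ V.card * τ := Nat.mul_le_mul_right τ (by omega)
      omega
    obtain ⟨S, hS1, hS2, hS3⟩ := Finset.exists_subsuperset_card_eq hVH hV1 (by omega)
    rw [Finset.card_eq_one] at hS3
    obtain ⟨y, rfl⟩ := hS3
    have hy := (hH y).mp (hS2 (Finset.mem_singleton_self y))
    refine ⟨0, y, by omega, by omega, hy.2.1, hy.1, by omega, hy.2.2, by omega, ?_⟩
    intro i hi h1 h2
    refine ⟨fun h3 => hout i hi h3 (fun h4 => h2 (Finset.mem_singleton.mp (hS1 h4))), ?_⟩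
    intro h3
    exact absurd h3 h1
  · have hV2 : V.card ≤ 2 := by
      by_contra hcon
      have : 3 * τ ≤ V.card * τ := Nat.mul_le_mul_right τ (by omega)
      omega
    obtain ⟨S, hS1, hS2, hS3⟩ := Finset.exists_subsuperset_card_eq hVH hV2 (by omega)
    rw [Finset.card_eq_two] at hS3
    obtain ⟨x, y, hxy, rfl⟩ := hS3
    have hx := (hH x).mp (hS2 (by simp))
    have hy := (hH y).mp (hS2 (by simp))
    refine ⟨x, y, hxy, hx.2.1, hy.2.1, hy.1, hx.2.2, hy.2.2, by omega, ?_⟩
    intro i hi h1 h2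
    refine ⟨fun h3 => hout i hi h3 (fun h4 => ?_), ?_⟩
    · have := hS1 h4
      rw [Finset.mem_insert, Finset.mem_singleton] at this
      rcases this with h5 | h5
      · exact h1 h5
      · exact h2 h5
    · intro h3
      rw [h3]
      omega

/-- size conditions for the arrangement -/
lemma demand_ok {d l α β N μ : ℕ} (hl : 2 ≤ l) (hld : l ≤ d)
    (hμ : μ = max (d + 1) (2 * (d + 1 - l))) (hN : 2 ≤ N) (i c s h : ℕ)
    (hα : i = 0 → α = min h l ∧ 1 ≤ α) (hβ : i + 1 = N → β = min h l ∧ 1 ≤ β)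
    (hh : h ≤ d)
    (htype : (∃ j, c = 2 * (j + 1) ∧ s = (j + 1) * μ + d ∧
        (i ≠ 0 → i + 1 ≠ N → h ≤ max (l - 1) (d - l))) ∨
      (c = 3 ∧ s = μ + 2 * d + 1 - l ∧ i + 1 ≠ N ∧ h ≤ d - 1 ∧ (i ≠ 0 → h ≤ d - l))) :
    ∑ t ∈ Finset.range (c + 1), (hi d l α β N c i t - lo l i t) + h ≤ s := by
  rcases htype with ⟨j, rfl, rfl, hint⟩ | ⟨rfl, rfl, hiN, hd1, hint⟩
  · rw [sum_even hld hμ]
    have h1 : (j + 1) * μ = j * μ + μ := by ring
    rw [h1]
    by_cases h0 : i = 0
    · have h2 := hα h0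
      rw [if_pos h0, if_neg (by omega), if_neg (by omega)]
      omega
    · by_cases hN1 : i + 1 = N
      · have h2 := hβ hN1
        rw [if_neg h0, if_pos hN1, if_pos hN1]
        omega
      · have h2 := hint h0 hN1
        rw [if_neg h0, if_neg hN1, if_neg hN1]
        omega
  · rw [sum_three hiN]
    by_cases h0 : i = 0
    · have h2 := hα h0
      rw [if_pos h0, if_pos h0]
      omega
    · have h2 := hint h0
      rw [if_neg h0, if_neg h0]
      omega

lemma pre_comp (c : ℕ → ℕ) (M : ℕ) (π : Equiv.Perm ℕ) (hπ : ∀ i, i < M ↔ π i < M) :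
    pre (fun i => c (π i)) M = pre c M := by
  unfold pre
  refine Finset.sum_nbij' (fun i => π i) (fun i => π.symm i) ?_ ?_ ?_ ?_ ?_
  · intro i hi
    rw [Finset.mem_range] at *
    exact (hπ i).mp hi
  · intro i hi
    rw [Finset.mem_range] at *
    rw [hπ, Equiv.apply_symm_apply]
    exact hi
  · intro i _
    simp
  · intro i _
    simp
  · intro i _
    rfl

/-- The regime `2 ≤ l ≤ d` (that is `2 ≤ l ≤ k/2`). -/
theorem goodA (d l : ℕ) (hl : 2 ≤ l) (hld : l ≤ d) : Good (d + l) l := by
  classical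
  obtain ⟨μ, hμ⟩ : ∃ μ, μ = max (d + 1) (2 * (d + 1 - l)) := ⟨_, rfl⟩
  have hμ2 : μ ≤ 2 * d - 1 := by omega
  have hμ1 : d + 1 ≤ μ := by omega
  obtain ⟨J0, hJ0⟩ : ∃ J0, J0 = 4 * d + 2 * (μ + 2 * d + 1) + 2 * d * l + 4 := ⟨_, rfl⟩
  refine ⟨2 ^ (l * (2 * d * μ + d) + (μ + 3 * d + 1)), (2 * J0 + 10) * d, ?_⟩
  intro n hn hdvd
  have hkl : d + l - l = d := by omega
  rw [hkl] at hdvd ⊢
  obtain ⟨m, hm⟩ := hdvd
  have hnm : n = m * d := by rw [hm]; ring
  have hmJ : 2 * J0 + 10 ≤ m := by
    rw [hnm] at hn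
    exact Nat.le_of_mul_le_mul_right hn (by omega)
  -- number of even pairs and special capacity
  obtain ⟨c0, J, hc0, hJ⟩ : ∃ c0 J, (c0 = 2 ∨ c0 = 3) ∧ m = c0 + 2 * J + 1 := by
    rcases Nat.even_or_odd' m with ⟨r, hr | hr⟩
    · exact ⟨3, r - 2, Or.inr rfl, by omega⟩
    · exact ⟨2, r - 1, Or.inl rfl, by omega⟩
  have hJJ : J0 ≤ J := by omega
  obtain ⟨s0, hs0⟩ : ∃ s0, s0 = if c0 = 2 then μ + d else μ + 2 * d + 1 - l := ⟨_, rfl⟩
  have hs0le : s0 ≤ μ + 2 * d + 1 := by rw [hs0]; split_ifs <;> omega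
  have hnJ : n = (c0 + 1) * d + 2 * (J * d) := by rw [hnm, hJ]; ring
  have hc0d : 3 * d ≤ (c0 + 1) * d ∧ (c0 + 1) * d ≤ 4 * d := by
    rcases hc0 with rfl | rfl
    · constructor <;> omega
    · constructor <;> omega
  have hμJ1 : J * μ + J ≤ 2 * (J * d) := by
    have : J * (μ + 1) ≤ J * (2 * d) := Nat.mul_le_mul_left J (by omega)
    have h2 : J * (μ + 1) = J * μ + J := by ring
    have h3 : J * (2 * d) = 2 * (J * d) := by ring
    omega
  have hμJ2 : J * d + J ≤ J * μ := by
    have : J * (d + 1) ≤ J * μ := Nat.mul_le_mul_left J hμ1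
    have h2 : J * (d + 1) = J * d + J := by ring
    omega
  obtain ⟨N, hN⟩ : ∃ N, N = (n - s0 - J * μ) / d := ⟨_, rfl⟩
  have hd0 : 0 < d := by omega
  have hN1 : N * d ≤ n - s0 - J * μ := by rw [hN]; exact Nat.div_mul_le_self _ _
  have hN2 : n - s0 - J * μ < N * d + d := by
    have := Nat.lt_div_mul_add (a := n - s0 - J * μ) hd0
    rw [← hN] at this
    exact this
  have hNJ : N ≤ J := by
    have : N * d ≤ J * d := by omega
    exact Nat.le_of_mul_le_mul_right this hd0
  have hJN : J ≤ N * (2 * d) := by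
    have : N * (2 * d) = 2 * (N * d) := by ring
    omega
  have hNl : l + 2 ≤ N := by
    have h1 : 2 * d * l + 4 * d ≤ N * (2 * d) := by omega
    have h2 : (l + 2) * (2 * d) = 2 * d * l + 4 * d := by ring
    rw [← h2] at h1
    exact Nat.le_of_mul_le_mul_right h1 (by omega)
  obtain ⟨j, hj1, hj2⟩ := exists_parts (2 * d) (by omega) N J hNJ hJN
  -- capacities and sizes of the classes `0, …, N`
  obtain ⟨c, hc⟩ : ∃ c : ℕ → ℕ, c = fun i => if i = 0 then c0 else 2 * j (i - 1) := ⟨_, rfl⟩
  obtain ⟨s, hs⟩ : ∃ s : ℕ → ℕ, s = fun i => if i = 0 then s0 else j (i - 1) * μ + d := ⟨_, rfl⟩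
  have hcpre : pre c (N + 1) + 1 = m := by
    unfold pre
    rw [Finset.sum_range_succ', hc]
    simp only [Nat.add_eq_zero_iff, one_ne_zero, and_false, if_false, if_true,
      Nat.add_sub_cancel]
    rw [← Finset.mul_sum, hj2]
    omega
  have hspre : pre s (N + 1) = s0 + J * μ + N * d := by
    unfold pre
    rw [Finset.sum_range_succ', hs]
    simp only [Nat.add_eq_zero_iff, one_ne_zero, and_false, if_false, if_true,
      Nat.add_sub_cancel]
    rw [Finset.sum_add_distrib, ← Finset.sum_mul, hj2, Finset.sum_const, Finset.card_range,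
      smul_eq_mul]
    ring
  have hsn : pre s (N + 1) ≤ n := by omega
  obtain ⟨Q, hQdef⟩ : ∃ Q : ℕ → Finset (Fin n), Q = mkQ n (N + 1) s hsn := ⟨_, rfl⟩
  have hQdis : ∀ a b, a ≠ b → Disjoint (Q a) (Q b) := by
    intro a b hab
    rw [hQdef]
    exact disj_mkQ a b hab
  have hQcard : ∀ i < N + 1, (Q i).card = s i := by
    intro i hi
    rw [hQdef]
    exact card_mkQ hi
  have htype : ∀ i < N + 1, (∃ a, c i = 2 * (a + 1) ∧ s i = (a + 1) * μ + d ∧ a + 1 ≤ 2 * d) ∨
      (c i = 3 ∧ s i = μ + 2 * d + 1 - l ∧ i = 0) := by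
    intro i hi
    by_cases h0 : i = 0
    · subst h0
      rcases hc0 with h1 | h1
      · left
        refine ⟨0, ?_, ?_, by omega⟩
        · rw [hc]; simp [h1]
        · rw [hs]; simp [hs0, h1]
      · right
        refine ⟨?_, ?_, rfl⟩
        · rw [hc]; simp [h1]
        · rw [hs]; simp [hs0, h1]
    · left
      have h1 := hj1 (i - 1) (by omega)
      refine ⟨j (i - 1) - 1, ?_, ?_, by omega⟩
      · rw [hc]; simp only [h0, if_false]; omega
      · rw [hs]; simp only [h0, if_false]
        rw [Nat.sub_add_cancel h1.1]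
  have hcge : ∀ i < N + 1, 2 ≤ c i := by
    intro i hi
    rcases htype i hi with ⟨a, h1, _, _⟩ | ⟨h1, _, _⟩ <;> omega
  -- the hypergraph
  obtain ⟨G, hG⟩ : ∃ G : Finset (Finset (Fin n)),
      G = ((Finset.univ : Finset (Fin n)).powersetCard (d + l)).filter
        (fun W => ∃ i, i < N + 1 ∧ d + 1 ≤ (W ∩ Q i).card) := ⟨_, rfl⟩
  have hGmem : ∀ W, W ∈ G ↔ W.card = d + l ∧ ∃ i, i < N + 1 ∧ d + 1 ≤ (W ∩ Q i).card := by
    intro W
    rw [hG, Finset.mem_filter, Finset.mem_powersetCard]
    simp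
  have hhit : ∀ W : Finset (Fin n), (hitSet N (fun i => Q (i + 1)) W).card ≤
      (hitSet (N + 1) Q W).card := by
    intro W
    refine Finset.card_le_card_of_injOn (fun i => i + 1) ?_ ?_
    · intro i hi
      rw [Finset.mem_coe, mem_hitSet] at *
      exact ⟨show i + 1 < N + 1 by omega, hi.2⟩
    · intro a _ b _ hab
      simpa using hab
  have hGB : G ⊆ bad (d + l) l N (fun i => Q (i + 1)) := by
    intro W hW
    rw [hGmem] at hW
    obtain ⟨h1, i, hi, h2⟩ := hW
    rw [mem_bad]
    exact ⟨h1, (hhit W).trans (hit_le (N := N + 1) rfl Q hQdis W h1 i h2)⟩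
  have hBcard : (bad (d + l) l N (fun i => Q (i + 1))).card ≤
      2 ^ (l * (2 * d * μ + d) + (μ + 3 * d + 1)) * n ^ l := by
    have h1 := bad_card (k := d + l) (l := l) (N := N) (s := 2 * d * μ + d) (z := μ + 3 * d + 1)
      (fun i => Q (i + 1)) (Finset.univ \ ((Finset.range N).biUnion (fun i => Q (i + 1)))) ?_ ?_
      ?_ (by omega)
    · refine h1.trans ?_
      rw [mul_comm]
      refine Nat.mul_le_mul_left _ (Nat.pow_le_pow_left ?_ l)
      have h2 : m ≤ m * d := Nat.le_mul_of_pos_right m hd0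
      omega
    · intro v
      by_cases hv : v ∈ (Finset.range N).biUnion (fun i => Q (i + 1))
      · right
        rw [Finset.mem_biUnion] at hv
        obtain ⟨i, hi, hvi⟩ := hv
        exact ⟨i, Finset.mem_range.mp hi, hvi⟩
      · left
        rw [Finset.mem_sdiff]
        exact ⟨Finset.mem_univ v, hv⟩
    · intro i hi
      rw [hQcard (i + 1) (by omega), hs]
      simp only [Nat.add_eq_zero_iff, one_ne_zero, and_false, if_false, Nat.add_sub_cancel]
      have h2 := (hj1 i hi).2
      have h3 : j i * μ ≤ 2 * d * μ := Nat.mul_le_mul_right μ h2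
      omega
    · have h2 : ((Finset.range N).biUnion (fun i => Q (i + 1))).card = J * μ + N * d := by
        rw [Finset.card_biUnion (fun a _ b _ hab => hQdis (a + 1) (b + 1) (by omega))]
        have h3 : ∑ i ∈ Finset.range N, (Q (i + 1)).card =
            ∑ i ∈ Finset.range N, (j i * μ + d) := by
          refine Finset.sum_congr rfl ?_
          intro i hi
          rw [Finset.mem_range] at hi
          rw [hQcard (i + 1) (by omega), hs]
          simp
        rw [h3, Finset.sum_add_distrib, ← Finset.sum_mul, hj2, Finset.sum_const,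
          Finset.card_range, smul_eq_mul]
      rw [Finset.card_sdiff_of_subset (Finset.subset_univ _), h2, Finset.card_univ,
        Fintype.card_fin]
      omega
  refine ⟨G, bad (d + l) l N (fun i => Q (i + 1)), fun e he => ((hGmem e).mp he).1, ?_,
    (Finset.card_le_card hGB).trans hBcard, hBcard, ?_⟩
  · -- not Hamiltonian
    refine not_ham (N := N + 1) hd0 hnm G Q c (fun _ => d + 1)
      (fun W hW => ((hGmem W).mp hW).2) ?_ ?_
    · intro i hi σ
      by_contra hcon
      push Not at hcon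
      obtain ⟨T, hT1, hT2⟩ := Finset.exists_subset_card_eq hcon
      rcases htype i hi with ⟨a, h1, h2, h3⟩ | ⟨h1, h2, h3⟩
      · have h4 := (cyc_cap (l := l) rfl hld hd0 hnm μ hμ σ (Q i) T hT1 (by omega) (a + 1)).1
          (by omega)
        rw [hQcard i hi, h2] at h4
        omega
      · have h4 := (cyc_cap (l := l) rfl hld hd0 hnm μ hμ σ (Q i) T hT1 (by omega) 1).2
          (by omega)
        rw [hQcard i hi, h2] at h4
        omega
    · have : ∑ i ∈ Finset.range (N + 1), c i = pre c (N + 1) := rfl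
      rw [this]
      omega
  · intro e hek heG heB
    have hle : ∀ i < N + 1, (e ∩ Q i).card ≤ d := by
      intro i hi
      by_contra hcon
      exact heG ((hGmem e).mpr ⟨hek, i, hi, by omega⟩)
    have hmany : l + 1 ≤ (hitSet N (fun i => Q (i + 1)) e).card := by
      by_contra hcon
      exact heB (mem_bad.mpr ⟨hek, by omega⟩)
    obtain ⟨H, hHdef⟩ : ∃ H : Finset ℕ, H = (Finset.range (N + 1)).filter
        (fun i => 1 ≤ i ∧ 1 ≤ (e ∩ Q i).card) := ⟨_, rfl⟩
    have hHmem : ∀ i, i ∈ H ↔ 1 ≤ i ∧ i < N + 1 ∧ 1 ≤ (e ∩ Q i).card := by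
      intro i
      rw [hHdef, Finset.mem_filter, Finset.mem_range]
      tauto
    have hHc : l + 1 ≤ H.card := by
      refine hmany.trans ?_
      refine Finset.card_le_card_of_injOn (fun i => i + 1) ?_ ?_
      · intro i hi
        rw [Finset.mem_coe, mem_hitSet] at hi
        rw [Finset.mem_coe, hHmem]
        exact ⟨show 1 ≤ i + 1 by omega, show i + 1 < N + 1 by omega, Finset.card_pos.mpr hi.2⟩
      · intro a _ b _ hab
        simpa using hab
    have hsum : ∑ i ∈ H, (e ∩ Q i).card + (e ∩ Q 0).card ≤ d + l := by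
      have h1 := sum_inter_le (insert 0 H) Q e (fun a _ b _ hab => hQdis a b hab)
      have h0H : 0 ∉ H := by
        rw [hHmem]
        omega
      rw [Finset.sum_insert h0H, hek] at h1
      omega
    obtain ⟨x, y, hxy, hx, hy, hy1, hhx, hhy, hh0, hother⟩ :=
      choose_ends (N := N) (τ := max (l - 1) (d - l))
        (h0thr := if c0 = 2 then max (l - 1) (d - l) + 1 else d - l + 1)
        rfl hl hld rfl (by split_ifs <;> omega) (fun i => (e ∩ Q i).card) H hHmem hHc hsum
    obtain ⟨π, hπ0, hπN, hπr⟩ := exists_ends N x y (by omega) hx hy hxy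
    obtain ⟨σ, hσ0, hσw⟩ := arrA (N := N + 1) (k := d + l) rfl hl hld hnm (by omega)
      (fun i => c (π i)) (fun i hi => hcge _ ((hπr i).mp hi))
      (by rw [pre_comp c (N + 1) π hπr]; exact hcpre)
      (fun i => Q (π i)) (fun a b hab => hQdis _ _ (fun h => hab (π.injective h)))
      e hek (min (e ∩ Q (π 0)).card l) (min (e ∩ Q (π (N + 1 - 1))).card l) rfl rfl
      (by rw [hπ0]; omega) (by rw [Nat.add_sub_cancel, hπN]; omega) (by
        intro i hi
        have hπi := (hπr i).mp hi
        have hdem := demand_ok (d := d) (l := l) (α := min (e ∩ Q (π 0)).card l)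
          (β := min (e ∩ Q (π (N + 1 - 1))).card l) (N := N + 1) (μ := μ) hl hld hμ (by omega)
          i (c (π i)) (s (π i)) (e ∩ Q (π i)).card
          (by intro h; subst h; exact ⟨rfl, by rw [hπ0]; omega⟩)
          (by
            intro h
            have : i = N + 1 - 1 := by omega
            rw [this]
            exact ⟨rfl, by rw [Nat.add_sub_cancel, hπN]; omega⟩)
          (hle _ hπi)
          (by
            have hne : i ≠ 0 → π i ≠ x := by
              intro h1 h2
              rw [← hπ0] at h2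
              exact h1 (π.injective h2)
            have hne' : i + 1 ≠ N + 1 → π i ≠ y := by
              intro h1 h2
              rw [← hπN] at h2
              have := π.injective h2
              omega
            rcases htype (π i) hπi with ⟨a, h1, h2, h3⟩ | ⟨h1, h2, h3⟩
            · left
              refine ⟨a, h1, h2, ?_⟩
              intro h4 h5
              have h6 := hother (π i) hπi (hne h4) (hne' h5)
              rcases Nat.eq_zero_or_pos (π i) with h7 | h7
              · have h8 := h6.2 h7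
                have h9 : c0 = 2 := by
                  have : c (π i) = c0 := by rw [hc, h7]; simp
                  rcases hc0 with h | h
                  · exact h
                  · omega
                rw [if_pos h9] at h8
                exact Nat.lt_succ_iff.mp h8
              · exact h6.1 h7
            · right
              have h9 : ¬ c0 = 2 := by
                have : c (π i) = c0 := by rw [hc, h3]; simp
                omega
              have h10 : i + 1 ≠ N + 1 := by
                intro h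
                have : i = N := by omega
                rw [this, hπN] at h3
                omega
              refine ⟨h1, h2, h10, ?_, ?_⟩
              · rw [h3]
                exact hh0
              · intro h4
                have h6 := (hother (π i) hπi (hne h4) (hne' h10)).2 h3
                rw [if_neg h9] at h6
                exact Nat.lt_succ_iff.mp h6)
        have h3 : (Q (π i) \ e).card + (e ∩ Q (π i)).card = (Q (π i)).card := by
          rw [Finset.inter_comm]
          exact Finset.card_sdiff_add_card_inter (Q (π i)) e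
        rw [hQcard _ hπi] at h3
        omega)
    refine ⟨σ, ?_⟩
    intro w hw
    have hnd : n / d = m := by rw [hnm]; exact Nat.mul_div_cancel m hd0
    rw [hnd] at hw
    rcases Nat.eq_zero_or_pos w with h0 | h0
    · rw [h0, hσ0]
      exact Finset.mem_insert_self _ _
    · obtain ⟨i, hi, h1⟩ := hσw w h0 hw
      refine Finset.mem_insert_of_mem ((hGmem _).mpr ⟨?_, π i, (hπr i).mp hi, h1⟩)
      refine card_win σ w ?_
      have : 3 * d ≤ n := by omega
      omega

end Pool.Agent.KS6_67.Sat
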