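import Pool.Agent.KS6_67.Sat.GadG2

set_option autoImplicit false

namespace Pool.Agent.KS6_67.Sat

open Finset

/-- residues: every `m ≥ M0` is `N c + y cs + 1` with `y ≤ c - 1`, if `cs ≡ -1 (mod c)`. -/
lemma res_neg {c : ℕ} (hc : 2 ≤ c) (m : ℕ) (hm : c * c + 1 ≤ m) :
    ∃ y N, y ≤ c - 1 ∧ m = N * c + y * (c - 1) + 1 := by
  -- m - 1 ≡ - y (mod c)
  obtain ⟨a, ha⟩ : ∃ a, a = m - 1 := ⟨_, rfl⟩
  obtain ⟨y, hy⟩ : ∃ y, y = (c - a % c) % c := ⟨_, rfl⟩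
  have hylt : y < c := by rw [hy]; exact Nat.mod_lt _ (by omega)
  have h1 : (a + y) % c = 0 := by
    rw [hy, Nat.add_mod, Nat.mod_mod]
    rcases Nat.eq_zero_or_pos (a % c) with h | h
    · rw [h]; simp
    · have h2 : a % c < c := Nat.mod_lt _ (by omega)
      rw [Nat.mod_eq_of_lt (show c - a % c < c by omega)]
      rw [show a % c + (c - a % c) = c by omega]
      exact Nat.mod_self c
  obtain ⟨b, hb⟩ := Nat.dvd_of_mod_eq_zero h1
  have hyc : y ≤ b := by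
    by_contra hcon
    have h3 : c * b ≤ c * c := Nat.mul_le_mul_left c (by omega)
    omega
  refine ⟨y, b - y, by omega, ?_⟩
  have h4 : (b - y) * c + y * c = b * c := by
    rw [← Nat.add_mul, Nat.sub_add_cancel hyc]
  have h5 : y * (c - 1) + y = y * c := by
    obtain ⟨c', rfl⟩ : ∃ c', c = c' + 1 := ⟨c - 1, by omega⟩
    simp only [Nat.add_sub_cancel]
    ring
  have h6 : b * c = c * b := Nat.mul_comm _ _
  omega

theorem goodB_i {k l d q r : ℕ} (hk : k = q * d + r) (hkl : k = d + l) (hd : 2 ≤ d) (hr : r < d)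
    (hq : 3 ≤ q) (h3r : 3 * r + 3 ≤ 2 * d) : Good k l := by
  obtain ⟨D, hD⟩ : ∃ D, D = (q - 1) * d := ⟨_, rfl⟩
  obtain ⟨E, hE⟩ : ∃ E, E = (q - 1 - 1) * d := ⟨_, rfl⟩
  have hD1 : D + d = q * d := by
    obtain ⟨q', rfl⟩ : ∃ q', q = q' + 1 := ⟨q - 1, by omega⟩
    rw [hD]
    simp only [Nat.add_sub_cancel]
    ring
  have hE1 : E + d = D := by
    obtain ⟨q', rfl⟩ : ∃ q', q = q' + 2 := ⟨q - 2, by omega⟩
    rw [hD, hE]
    simp only [show q' + 2 - 1 = q' + 1 by omega, show q' + 1 - 1 = q' by omega]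
    ring
  have hE2 : d ≤ E := by
    rw [hE]
    exact Nat.le_mul_of_pos_left d (by omega)
  have hq1 : (q + 1) * d = q * d + d := by ring
  have hqq : (q + q) * d = q * d + q * d := by ring
  have hq2 : (q - 1 + 1) * d = q * d := by rw [show q - 1 + 1 = q by omega]
  obtain ⟨xlo, hlo⟩ : ∃ xlo, (r = 0 ∧ xlo = (q - 1) * d - 1) ∨ (1 ≤ r ∧ xlo = (q - 1) * d) := by
    rcases Nat.eq_zero_or_pos r with h | h
    · exact ⟨_, Or.inl ⟨h, rfl⟩⟩
    · exact ⟨_, Or.inr ⟨h, rfl⟩⟩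
  obtain ⟨xhi, hhi⟩ : ∃ xhi, (r = 0 ∧ xhi = q * d + 1) ∨ (1 ≤ r ∧ xhi = q * d + r) := by
    rcases Nat.eq_zero_or_pos r with h | h
    · exact ⟨_, Or.inl ⟨h, rfl⟩⟩
    · exact ⟨_, Or.inr ⟨h, rfl⟩⟩
  obtain ⟨L1, hL⟩ : ∃ L1, (r = 0 ∧ L1 = q * d - 1) ∨ (1 ≤ r ∧ L1 = q * d - r) := by
    rcases Nat.eq_zero_or_pos r with h | h
    · exact ⟨_, Or.inl ⟨h, rfl⟩⟩
    · exact ⟨_, Or.inr ⟨h, rfl⟩⟩
  refine goodB (k := k) (d := d) (l := l) (c := q) (cs := q - 1) (τ := d - 1 - r) (τs := d - 1)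
    (xlo := xlo) (xhi := xhi) (slo := (q - 1 - 1) * d) (shi := k) (L1 := L1) (Ls := 0)
    (ss := k - (q - 1 - 1) * d + d - 1) (flex := 1) (ymax := q - 1) (hms := 0) (M0 := q * q + 1)
    hkl hd ?_ (by omega) (by omega) ?_ ?_ ?_ (fun y _ => Or.inr rfl) ?_ ?_ ?_ ?_ ?_ ?_ ?_ ?_
  · rw [← hD1] at hk; omega
  · intro n Q hQ
    refine gadG1 hk hd hr (by omega) hlo hhi hL n Q (Or.inl ⟨hq, by omega, ?_⟩)
    rcases hQ with h | ⟨_, h⟩
    · exact Or.inl h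
    · exact Or.inr h
  · intro n Q hQ
    exact specT hk (by omega) (by omega) n Q hQ (by omega) 0
  · intro m hm
    exact res_neg (by omega) m hm
  · rw [hq1]; rw [← hD] at hlo; omega
  · rw [← hD] at hlo; omega
  · rw [hqq]; omega
  · rw [← hE]; omega
  · rw [← hD] at hlo ⊢; omega
  · rw [hq2]; rw [← hD] at hlo; omega
  · omega
  · left; omega

theorem goodB_ii {k l d q r : ℕ} (hk : k = q * d + r) (hkl : k = d + l) (hd : 2 ≤ d) (hr : r < d)
    (hq : 2 ≤ q) (h3r : d + 3 ≤ 3 * r) : Good k l := by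
  obtain ⟨D, hD⟩ : ∃ D, D = (q - 1) * d := ⟨_, rfl⟩
  have hD1 : D + d = q * d := by
    obtain ⟨q', rfl⟩ : ∃ q', q = q' + 1 := ⟨q - 1, by omega⟩
    rw [hD]
    simp only [Nat.add_sub_cancel]
    ring
  have hD2 : d ≤ D := by
    rw [hD]
    exact Nat.le_mul_of_pos_left d (by omega)
  have hq1 : (q + 1) * d = q * d + d := by ring
  have hq2 : (q + 1 + 1) * d = q * d + d + d := by ring
  have hqq : (q + 1 + (q + 1)) * d = q * d + q * d + d + d := by ring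
  refine goodB (k := k) (d := d) (l := l) (c := q + 1) (cs := q) (τ := r - 1) (τs := d - 1)
    (xlo := (q - 1) * d) (xhi := (q + 1) * d + 1) (slo := (q - 1) * d) (shi := k)
    (L1 := (q + 1) * d - r) (Ls := 0)
    (ss := k - (q - 1) * d + d - 1) (flex := 1) (ymax := q) (hms := 0)
    (M0 := (q + 1) * (q + 1) + 1)
    hkl hd ?_ (by omega) (by omega) ?_ ?_ ?_ (fun y _ => Or.inr rfl) ?_ ?_ ?_ ?_ ?_ ?_ ?_ ?_
  · rw [← hD1] at hk; omega
  · intro n Q hQ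
    refine gadG2 hk hd hr (by omega) (by omega) n Q ?_
    rcases hQ with h | ⟨_, h⟩
    · exact Or.inl h
    · exact Or.inr h
  · intro n Q hQ
    exact specT hk (by omega) (by omega) n Q hQ (by omega) 0
  · intro m hm
    obtain ⟨y, N, h1, h2⟩ := res_neg (c := q + 1) (by omega) m hm
    exact ⟨y, N, by omega, by simpa using h2⟩
  · rw [hq1, hq2, ← hD]; omega
  · rw [hq1, ← hD]; omega
  · rw [hq1, hqq]; omega
  · rw [hq1, ← hD]; omega
  · rw [← hD]; omega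
  · rw [hq1, ← hD]; omega
  · omega
  · left; omega

theorem goodB_iii {k l d r : ℕ} (hk : k = 2 * d + r) (hkl : k = d + l) (hd : 2 ≤ d) (hr : r < d)
    (hr1 : 1 ≤ r) (h3r : 3 * r ≤ 2 * d) : Good k l := by
  refine goodB (k := k) (d := d) (l := l) (c := 2) (cs := 3) (τ := d - r) (τs := r - 1)
    (xlo := d) (xhi := 2 * d + r) (slo := d + r) (shi := 3 * d)
    (L1 := 2 * d - r) (Ls := 3 * d - r)
    (ss := 2 * d - 1) (flex := 0) (ymax := 1) (hms := d - 1)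
    (M0 := 10)
    hkl hd ?_ (by omega) (by omega) ?_ ?_ ?_ ?_ ?_ ?_ ?_ ?_ ?_ ?_ ?_ ?_
  · omega
  · intro n Q hQ
    refine gadG1 (q := 2) hk hd hr (by omega) ?_ ?_ ?_ n Q (Or.inr ⟨rfl, hr1, ?_, by omega⟩)
    · right; exact ⟨hr1, by omega⟩
    · right; exact ⟨hr1, by omega⟩
    · right; exact ⟨hr1, by omega⟩
    · rcases hQ with h | ⟨h, _⟩
      · exact h
      · omega
  · intro n Q hQ
    exact specT3 hk hr1 hr n Q hQ
  · intro m hm
    rcases Nat.even_or_odd m with ⟨a, ha⟩ | ⟨a, ha⟩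
    · exact ⟨1, a - 2, by omega, by omega⟩
    · exact ⟨0, a, by omega, by omega⟩
  · intro y hy
    left
    have hy2 : y = 0 ∨ y = 1 := by omega
    rcases hy2 with rfl | rfl
    · omega
    · omega
  · omega
  · omega
  · omega
  · omega
  · omega
  · omega
  · omega
  · right; exact ⟨by omega, by omega, rfl⟩

end Pool.Agent.KS6_67.Sat
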