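import Pool.Agent.KS6_67.Sat.GadM
import Pool.Agent.KS6_67.Sat.RegA

set_option autoImplicit false

namespace Pool.Agent.KS6_67.Sat

open Finset

theorem goodB_fano {k l q : ℕ} (hk : k = q * 2 + 1) (hkl : k = 2 + l) (hq : 3 ≤ q) :
    Good k l := by
  refine goodB (k := k) (d := 2) (l := l) (c := q + 1) (cs := q) (τ := 1) (τs := 1)
    (xlo := (q - 1) * 2) (xhi := (q + 1) * 2 + 1) (slo := (q - 1) * 2) (shi := k)
    (L1 := (q + 1) * 2 - 1) (Ls := 0)
    (ss := k - (q - 1) * 2 + 2 - 1) (flex := 1) (ymax := q) (hms := 0)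
    (M0 := (q + 1) * (q + 1) + 1)
    hkl le_rfl ?_ (by omega) (by omega) ?_ ?_ ?_ (fun y _ => Or.inr rfl) ?_ ?_ ?_ ?_ ?_ ?_ ?_ ?_
  · omega
  · intro n Q hQ
    refine gadFano hk hq n Q ?_
    rcases hQ with h | ⟨_, h⟩
    · exact Or.inl h
    · exact Or.inr h
  · intro n Q hQ
    exact specT (r := 1) hk (by omega) (by omega) n Q hQ (by omega) 0
  · intro m hm
    obtain ⟨y, N, h1, h2⟩ := res_neg (c := q + 1) (by omega) m hm
    exact ⟨y, N, by omega, by simpa using h2⟩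
  · omega
  · omega
  · omega
  · omega
  · omega
  · omega
  · omega
  · left; omega

theorem goodB_maj {k l q : ℕ} (hk : k = q * 4 + 2) (hkl : k = 4 + l) (hq : 3 ≤ q) :
    Good k l := by
  refine goodB (k := k) (d := 4) (l := l) (c := q + 1) (cs := q) (τ := 2) (τs := 3)
    (xlo := (q - 1) * 4) (xhi := (q + 1) * 4 + 1) (slo := (q - 1) * 4) (shi := k)
    (L1 := (q + 1) * 4 - 2) (Ls := 0)
    (ss := k - (q - 1) * 4 + 4 - 1) (flex := 1) (ymax := q) (hms := 0)
    (M0 := (q + 1) * (q + 1) + 1)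
    hkl (by omega) ?_ (by omega) (by omega) ?_ ?_ ?_ (fun y _ => Or.inr rfl) ?_ ?_ ?_ ?_ ?_ ?_ ?_ ?_
  · omega
  · intro n Q hQ
    refine gadMaj hk hq n Q ?_
    rcases hQ with h | ⟨_, h⟩
    · exact Or.inl h
    · exact Or.inr h
  · intro n Q hQ
    exact specT (r := 2) hk (by omega) (by omega) n Q hQ (by omega) 0
  · intro m hm
    obtain ⟨y, N, h1, h2⟩ := res_neg (c := q + 1) (by omega) m hm
    exact ⟨y, N, by omega, by simpa using h2⟩
  · omega
  · omega
  · omega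
  · omega
  · omega
  · omega
  · omega
  · left; omega

/-- all `l` with `2 ≤ l ≤ k - 2` -/
theorem good_mid {k l : ℕ} (hl : 2 ≤ l) (hlk : l + 2 ≤ k) : Good k l := by
  obtain ⟨d, hd⟩ : ∃ d, k = d + l := ⟨k - l, by omega⟩
  rcases Nat.lt_or_ge d l with hdl | hdl
  · -- k = q d + r
    obtain ⟨q, hq⟩ : ∃ q, q = k / d := ⟨_, rfl⟩
    obtain ⟨r, hr⟩ : ∃ r, r = k % d := ⟨_, rfl⟩
    have hk : k = q * d + r := by
      rw [hq, hr, Nat.mul_comm]
      exact (Nat.div_add_mod k d).symm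
    have hrd : r < d := by rw [hr]; exact Nat.mod_lt _ (by omega)
    have hq2 : 2 ≤ q := by
      rw [hq, Nat.le_div_iff_mul_le (by omega)]
      omega
    by_cases h1 : d + 3 ≤ 3 * r
    · exact goodB_ii hk hd (by omega) hrd hq2 h1
    · rcases Nat.lt_or_ge 2 q with hq3 | hq3
      · by_cases h2 : 3 * r + 3 ≤ 2 * d
        · exact goodB_i hk hd (by omega) hrd hq3 h2
        · have h3 : (d = 2 ∧ r = 1) ∨ (d = 4 ∧ r = 2) := by omega
          rcases h3 with ⟨rfl, rfl⟩ | ⟨rfl, rfl⟩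
          · exact goodB_fano hk hd hq3
          · exact goodB_maj hk hd hq3
      · have hq2' : q = 2 := by omega
        rw [hq2'] at hk
        exact goodB_iii hk hd (by omega) hrd (by omega) (by omega)
  · rw [hd]
    exact goodA d l hl hdl

end Pool.Agent.KS6_67.Sat
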