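import Pool.Agent.KS6_67.Sat.Port

set_option autoImplicit false

namespace Pool.Agent.KS6_67.Sat

/-- the statement that the core has no closed walk using each edge at most once and visiting all -/
def NoWalk (t : ℕ) : Prop :=
  ∀ (m : ℕ) (b : ℕ → ℕ), (∀ i ≤ m, b i < 4 * t) → b m = b 0 →
    (∀ i < m, b i = b (i + 1) ∨ fadj t (b i) (b (i + 1))) →
    (∀ i j, i < j → j < m → b i ≠ b (i + 1) →
      ¬ ((b i = b j ∧ b (i + 1) = b (j + 1)) ∨ (b i = b (j + 1) ∧ b (i + 1) = b j))) →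
    (∀ u < 4 * t, ∃ i < m, b i = u) → False

/-- door condition of a window for the colour `u` (neighbour `v`) -/
def Dr (κ : ℕ) (c : ℕ → ℕ) (a : ℕ → ℕ → Prop) (i u v : ℕ) : Prop :=
  ∀ p q, i ≤ p → p ≤ q → q ≤ i + κ → c p = u → c q = u →
    (∀ r, i ≤ r → r ≤ i + κ → c r = u → r = p ∨ r = q) → a p v ∧ a q v

structure Tight (t κ n : ℕ) (c : ℕ → ℕ) (a : ℕ → ℕ → Prop) : Prop where
  per : ∀ p, c (p + n) = c p
  aper : ∀ p w, a (p + n) w ↔ a p w
  lt : ∀ p, c p < 4 * t
  win : ∀ i, (∀ r, i ≤ r → r ≤ i + κ → c r = c i) ∨ ∃ u v, fadj t u v ∧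
    (∀ r, i ≤ r → r ≤ i + κ → c r = u ∨ c r = v) ∧ Dr κ c a i u v ∧ Dr κ c a i v u
  door : ∀ v w p1 p2 p3 p4, p1 < p2 → p2 < p3 → p3 < p4 → p4 < p1 + n → c p1 = v → c p2 = v →
    c p3 = v → c p4 = v → a p1 w → a p2 w → a p3 w → a p4 w → False
  dis : ∀ p w w', a p w → a p w' → w = w'
  core : ∀ u < 4 * t, ∀ i, ∃ x, i ≤ x ∧ x < i + n ∧ c x = u ∧ ∀ w, ¬ a x w

namespace Tight

variable {t κ n : ℕ} {c : ℕ → ℕ} {a : ℕ → ℕ → Prop}

lemma two (T : Tight t κ n c a) {i r1 r2 : ℕ} (h1 : i ≤ r1) (h1' : r1 ≤ i + κ) (h2 : i ≤ r2)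
    (h2' : r2 ≤ i + κ) (hne : c r1 ≠ c r2) :
    fadj t (c r1) (c r2) ∧ (∀ r, i ≤ r → r ≤ i + κ → c r = c r1 ∨ c r = c r2) ∧
      Dr κ c a i (c r1) (c r2) := by
  rcases T.win i with h | ⟨u, v, huv, hall, hd1, hd2⟩
  · exact absurd ((h r1 h1 h1').trans (h r2 h2 h2').symm) hne
  · rcases hall r1 h1 h1' with e1 | e1 <;> rcases hall r2 h2 h2' with e2 | e2
    · exact absurd (e1.trans e2.symm) hne
    · rw [e1, e2]
      exact ⟨huv, hall, hd1⟩
    · rw [e1, e2]
      exact ⟨huv.symm, fun r hr hr' => (hall r hr hr').symm, hd2⟩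
    · exact absurd (e1.trans e2.symm) hne

/-- right end of a segment -/
lemma right1 (T : Tight t κ n c a) {q w : ℕ} (hq : ∀ r, q < r → r ≤ q + κ → c r ≠ c q)
    (hw : ∃ r, q < r ∧ r ≤ q + κ ∧ c r = w) : a q w ∧ (∀ r, q < r → r ≤ q + κ → c r = w) ∧
      fadj t (c q) w := by
  obtain ⟨r0, hr1, hr2, hr3⟩ := hw
  have hne : c q ≠ c r0 := fun h => hq r0 hr1 hr2 h.symm
  obtain ⟨h1, h2, h3⟩ := T.two (i := q) le_rfl (by omega) hr1.le hr2 hne
  rw [hr3] at h1 h2 h3
  refine ⟨(h3 q q le_rfl le_rfl (by omega) rfl rfl ?_).1, ?_, h1⟩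
  · intro r hr hr' hc
    left
    by_contra hcon
    exact hq r (by omega) hr' hc
  · intro r hr hr'
    rcases h2 r (by omega) hr' with h | h
    · exact absurd h (hq r hr hr')
    · exact h

lemma right2 (T : Tight t κ n c a) (hκ : 2 ≤ κ) {p q w : ℕ} (hpq : p < q) (hpq' : q ≤ p + κ)
    (hcp : c p = c q)
    (hmid : ∀ r, p < r → r < q → c r ≠ c q) (hq : ∀ r, q < r → r ≤ q + κ → c r ≠ c q)
    (haq : a q w) : a p w := by
  -- a position of another colour
  obtain ⟨r0, hr1, hr2, hr3⟩ : ∃ r0, p ≤ r0 ∧ r0 ≤ p + κ ∧ c r0 ≠ c q := by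
    rcases Nat.lt_or_ge (p + 1) q with h | h
    · exact ⟨p + 1, by omega, by omega, hmid _ (by omega) h⟩
    · exact ⟨q + 1, by omega, by omega, hq _ (by omega) (by omega)⟩
  obtain ⟨h1, h2, h3⟩ := T.two (i := p) (r1 := q) hpq.le hpq' hr1 hr2 hr3.symm
  have h4 := h3 p q le_rfl hpq.le hpq' hcp rfl (by
    intro r hr hr' hc
    by_contra hcon
    rw [not_or] at hcon
    rcases Nat.lt_or_ge r q with h | h
    · exact hmid r (by omega) h hc
    · exact hq r (by omega) (by omega) hc)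
  have := T.dis q _ _ h4.2 haq
  rw [← this]
  exact h4.1

/-- left end of a segment -/
lemma left1 (T : Tight t κ n c a) {f w : ℕ} (hf : κ ≤ f) (hq : ∀ r, f ≤ r + κ → r < f → c r ≠ c f)
    (hw : ∃ r, f ≤ r + κ ∧ r < f ∧ c r = w) : a f w := by
  obtain ⟨r0, hr1, hr2, hr3⟩ := hw
  have hne : c f ≠ c r0 := fun h => hq r0 hr1 hr2 h.symm
  obtain ⟨h1, h2, h3⟩ := T.two (i := f - κ) (r1 := f) (r2 := r0) (by omega) (by omega) (by omega)
    (by omega) hne
  rw [hr3] at h3
  refine (h3 f f (by omega) le_rfl (by omega) rfl rfl ?_).1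
  intro r hr hr' hc
  left
  by_contra hcon
  exact hq r (by omega) (by omega) hc

lemma left2 (T : Tight t κ n c a) (hκ : 2 ≤ κ) {f g w : ℕ} (hf : κ ≤ f) (hfg : f < g)
    (hfg' : g ≤ f + κ) (hcg : c g = c f)
    (hmid : ∀ r, f < r → r < g → c r ≠ c f) (hq : ∀ r, f ≤ r + κ → r < f → c r ≠ c f)
    (haf : a f w) : a g w := by
  obtain ⟨r0, hr1, hr2, hr3⟩ : ∃ r0, g ≤ r0 + κ ∧ r0 ≤ g ∧ c r0 ≠ c f := by
    rcases Nat.lt_or_ge (f + 1) g with h | h
    · exact ⟨f + 1, by omega, by omega, hmid _ (by omega) h⟩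
    · exact ⟨f - 1, by omega, by omega, hq _ (by omega) (by omega)⟩
  obtain ⟨h1, h2, h3⟩ := T.two (i := g - κ) (r1 := f) (r2 := r0) (by omega) (by omega) (by omega)
    (by omega) hr3.symm
  have h4 := h3 f g (by omega) hfg.le (by omega) rfl hcg (by
    intro r hr hr' hc
    by_contra hcon
    rw [not_or] at hcon
    rcases Nat.lt_or_ge f r with h | h
    · exact hmid r h (by omega) hc
    · exact hq r (by omega) (by omega) hc)
  have := T.dis f _ _ h4.1 haf
  rw [← this]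
  exact h4.2

end Tight

/-- descent to the left end of a segment, with barrier `[e, e + κ)` -/
lemma descL {κ : ℕ} {c : ℕ → ℕ} {v e : ℕ} (hbar : ∀ r, e ≤ r → r < e + κ → c r ≠ v) :
    ∀ x, e + κ ≤ x → c x = v → ∃ f, e + κ ≤ f ∧ f ≤ x ∧ c f = v ∧
      (∀ r, f ≤ r + κ → r < f → c r ≠ v) ∧
      (f = x ∨ ∃ g, f < g ∧ g ≤ x ∧ g ≤ f + κ ∧ c g = v ∧ ∀ r, f < r → r < g → c r ≠ v) := by
  intro x
  induction x using Nat.strong_induction_on with
  | _ x ih =>
    intro hx hcx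
    by_cases hall : ∀ r, x ≤ r + κ → r < x → c r ≠ v
    · exact ⟨x, hx, le_rfl, hcx, hall, Or.inl rfl⟩
    · push Not at hall
      obtain ⟨r, hr1, hr2, hr3⟩ := hall
      -- the largest such r
      obtain ⟨s, hs1, hs2, hs3, hs4⟩ : ∃ s, x ≤ s + κ ∧ s < x ∧ c s = v ∧
          ∀ r, s < r → r < x → c r ≠ v := by
        classical
        have hP : ∃ m, m < x ∧ x ≤ (x - 1 - m) + κ ∧ x - 1 - m < x ∧ c (x - 1 - m) = v :=
          ⟨x - 1 - r, by omega, by omega, by omega, by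
            rw [show x - 1 - (x - 1 - r) = r by omega]; exact hr3⟩
        refine ⟨x - 1 - Nat.find hP, (Nat.find_spec hP).2.1, (Nat.find_spec hP).2.2.1,
          (Nat.find_spec hP).2.2.2, ?_⟩
        intro r' hr1' hr2' hr3'
        have h1 := (Nat.find_spec hP).1
        have h2 := (Nat.find_spec hP).2.1
        refine Nat.find_min hP (m := x - 1 - r') (by omega) ⟨by omega, by omega, by omega, ?_⟩
        rw [show x - 1 - (x - 1 - r') = r' by omega]
        exact hr3'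
      have hse : e + κ ≤ s := by
        by_contra hcon
        exact hbar s (by omega) (by omega) hs3
      obtain ⟨f, hf1, hf2, hf3, hf4, hf5⟩ := ih s hs2 hse hs3
      refine ⟨f, hf1, by omega, hf3, hf4, ?_⟩
      rcases hf5 with hf5 | ⟨g, hg1, hg2, hg3, hg4, hg5⟩
      · right
        exact ⟨x, by omega, le_rfl, by omega, hcx, fun r h1 h2 => hs4 r (by omega) h2⟩
      · right
        exact ⟨g, hg1, by omega, hg3, hg4, hg5⟩

/-- ascent to the right end of a segment, with barrier `(E, E + κ]` -/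
lemma ascR {κ : ℕ} {c : ℕ → ℕ} {v E : ℕ} (hbar : ∀ r, E < r → r ≤ E + κ → c r ≠ v) :
    ∀ y x, x + y = E → c x = v → ∃ q, x ≤ q ∧ q ≤ E ∧ c q = v ∧
      (∀ r, q < r → r ≤ q + κ → c r ≠ v) ∧
      (q = x ∨ ∃ p, x ≤ p ∧ p < q ∧ q ≤ p + κ ∧ c p = v ∧ ∀ r, p < r → r < q → c r ≠ v) := by
  intro y
  induction y using Nat.strong_induction_on with
  | _ y ih =>
    intro x hxy hcx
    by_cases hall : ∀ r, x < r → r ≤ x + κ → c r ≠ v
    · exact ⟨x, le_rfl, by omega, hcx, hall, Or.inl rfl⟩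
    · push Not at hall
      obtain ⟨r, hr1, hr2, hr3⟩ := hall
      obtain ⟨s, hs1, hs2, hs3, hs4⟩ : ∃ s, x < s ∧ s ≤ x + κ ∧ c s = v ∧
          ∀ r, x < r → r < s → c r ≠ v := by
        classical
        have hP : ∃ s, x < s ∧ s ≤ x + κ ∧ c s = v := ⟨r, hr1, hr2, hr3⟩
        refine ⟨Nat.find hP, (Nat.find_spec hP).1, (Nat.find_spec hP).2.1,
          (Nat.find_spec hP).2.2, ?_⟩
        intro r' hr1' hr2' hr3'
        have h2 := (Nat.find_spec hP).2.1
        exact Nat.find_min hP hr2' ⟨hr1', by omega, hr3'⟩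
      have hsE : s ≤ E := by
        by_contra hcon
        exact hbar s (by omega) (by omega) hs3
      obtain ⟨q, hq1, hq2, hq3, hq4, hq5⟩ := ih (E - s) (by omega) s (by omega) hs3
      refine ⟨q, by omega, hq2, hq3, hq4, ?_⟩
      rcases hq5 with hq5 | ⟨p, hp1, hp2, hp3, hp4, hp5⟩
      · right
        exact ⟨x, le_rfl, by omega, by omega, hcx, fun r h1 h2 => hs4 r h1 (by omega)⟩
      · right
        exact ⟨p, by omega, hp2, hp3, hp4, hp5⟩

/-! ### the state sequence -/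

open Classical in
/-- the hysteresis state -/
noncomputable def st (κ : ℕ) (c : ℕ → ℕ) : ℕ → ℕ
  | 0 => c 0
  | i + 1 => if ∃ j < κ, c (i + 1 + j) = st κ c i then st κ c i else c (i + 1)

lemma st_mem {κ : ℕ} (hκ : 1 ≤ κ) (c : ℕ → ℕ) : ∀ i, ∃ j < κ, c (i + j) = st κ c i
  | 0 => ⟨0, by omega, rfl⟩
  | i + 1 => by
    rw [st]
    split_ifs with h
    · exact h
    · exact ⟨0, by omega, rfl⟩

lemma st_pure {κ : ℕ} (hκ : 1 ≤ κ) (c : ℕ → ℕ) {i w : ℕ} (h : ∀ j < κ, c (i + j) = w) :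
    st κ c i = w := by
  obtain ⟨j, hj, hj2⟩ := st_mem hκ c i
  rw [← hj2]
  exact h j hj

lemma st_per {κ n : ℕ} (hκ : 1 ≤ κ) (c : ℕ → ℕ) (hper : ∀ p, c (p + n) = c p)
    (h0 : ∀ j < κ, c j = c 0) : ∀ i, st κ c (i + n) = st κ c i
  | 0 => by
    refine st_pure hκ c ?_
    intro j hj
    rw [show 0 + n + j = j + n by omega, hper, h0 j hj]
    rfl
  | i + 1 => by
    have ih := st_per hκ c hper h0 i
    rw [show i + 1 + n = (i + n) + 1 by omega, st, st, ih]
    have h1 : ∀ j, c (i + n + 1 + j) = c (i + 1 + j) := by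
      intro j
      rw [show i + n + 1 + j = (i + 1 + j) + n by omega, hper]
    simp only [h1]
    rw [show i + n + 1 = (i + 1) + n by omega, hper]

namespace Tight

variable {t κ n : ℕ} {c : ℕ → ℕ} {a : ℕ → ℕ → Prop}

/-- a change of the state -/
lemma change (T : Tight t κ n c a) (hκ : 2 ≤ κ) {i : ℕ} (h : st κ c i ≠ st κ c (i + 1)) :
    c i = st κ c i ∧ (∀ r, i < r → r ≤ i + κ → c r = st κ c (i + 1)) ∧
      fadj t (st κ c i) (st κ c (i + 1)) ∧ a i (st κ c (i + 1)) := by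
  have hno : ¬ ∃ j < κ, c (i + 1 + j) = st κ c i := by
    intro h1
    apply h
    rw [st, if_pos h1]
  have hs : st κ c (i + 1) = c (i + 1) := by rw [st, if_neg hno]
  obtain ⟨j, hj, hj2⟩ := st_mem (by omega : 1 ≤ κ) c i
  have hj0 : j = 0 := by
    by_contra hcon
    exact hno ⟨j - 1, by omega, by rw [show i + 1 + (j - 1) = i + j by omega]; exact hj2⟩
  rw [hj0, add_zero] at hj2
  have hq : ∀ r, i < r → r ≤ i + κ → c r ≠ c i := by
    intro r hr hr' hc
    exact hno ⟨r - (i + 1), by omega, by rw [show i + 1 + (r - (i + 1)) = r by omega, hc, hj2]⟩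
  obtain ⟨h1, h2, h3⟩ := T.right1 hq ⟨i + 1, by omega, by omega, rfl⟩
  rw [hs, ← hj2]
  exact ⟨rfl, h2, h3, h1⟩

/-- the current stay -/
lemma stay (T : Tight t κ n c a) (hκ : 2 ≤ κ) (h0 : ∀ j < κ, c j = c 0) :
    ∀ i, ∃ e ≤ i, (∀ r, e ≤ r → r < e + κ → c r = st κ c i) ∧
      (∀ i', e ≤ i' → i' ≤ i → st κ c i' = st κ c i)
  | 0 => ⟨0, le_rfl, fun r _ hr => h0 r (by omega), fun i' _ h => by
      rw [Nat.le_zero.mp h]⟩
  | i + 1 => by
    obtain ⟨e, he, h1, h2⟩ := stay T hκ h0 i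
    by_cases h : st κ c i = st κ c (i + 1)
    · refine ⟨e, by omega, ?_, ?_⟩
      · rw [← h]; exact h1
      · intro i' hi1 hi2
        rcases Nat.lt_or_ge i' (i + 1) with h3 | h3
        · rw [h2 i' hi1 (by omega), h]
        · rw [show i' = i + 1 by omega]
    · obtain ⟨h3, h4, h5, h6⟩ := T.change hκ h
      refine ⟨i + 1, le_rfl, fun r hr hr' => h4 r (by omega) (by omega), fun i' hi1 hi2 => ?_⟩
      rw [show i' = i + 1 by omega]

/-- an exit uses two door vertices -/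
lemma exit (T : Tight t κ n c a) (hκ : 2 ≤ κ) (h0 : ∀ j < κ, c j = c 0) {i : ℕ}
    (h : st κ c i ≠ st κ c (i + 1)) :
    ∃ p, p < i ∧ i ≤ p + κ ∧ c p = st κ c i ∧ a p (st κ c (i + 1)) ∧
      (∀ r, p < r → r < i → c r ≠ st κ c i) := by
  obtain ⟨h1, h2, h3, h4⟩ := T.change hκ h
  obtain ⟨e, he, h5, h6⟩ := T.stay hκ h0 i
  have hee : e + 1 ≤ i := by
    by_contra hcon
    have h7 := h5 (e + 1) (by omega) (by omega)
    have h8 := h2 (e + 1) (by omega) (by omega)
    exact h (h7.symm.trans h8)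
  obtain ⟨p, hp1, hp2, hp3, hp4⟩ : ∃ p, e ≤ p ∧ p < i ∧ c p = st κ c i ∧
      ∀ r, p < r → r < i → c r ≠ st κ c i := by
    have hP : ∃ m, m < i ∧ e ≤ i - 1 - m ∧ c (i - 1 - m) = st κ c i :=
      ⟨i - 1 - e, by omega, by omega, by
        rw [show i - 1 - (i - 1 - e) = e by omega]; exact h5 e le_rfl (by omega)⟩
    classical
    refine ⟨i - 1 - Nat.find hP, (Nat.find_spec hP).2.1, ?_, (Nat.find_spec hP).2.2, ?_⟩
    · have := (Nat.find_spec hP).1
      omega
    · intro r hr1 hr2 hr3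
      have h7 := (Nat.find_spec hP).1
      have h8 := (Nat.find_spec hP).2.1
      refine Nat.find_min hP (m := i - 1 - r) (by omega) ⟨by omega, by omega, ?_⟩
      rw [show i - 1 - (i - 1 - r) = r by omega]
      exact hr3
  have hip : i ≤ p + κ := by
    obtain ⟨j, hj, hj2⟩ := st_mem (by omega : 1 ≤ κ) c (p + 1)
    rw [h6 (p + 1) (by omega) (by omega)] at hj2
    by_contra hcon
    exact hp4 (p + 1 + j) (by omega) (by omega) hj2
  refine ⟨p, hp2, hip, hp3, ?_, hp4⟩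
  refine T.right2 hκ hp2 hip (hp3.trans h1.symm) ?_ ?_ h4
  · intro r hr hr'
    rw [h1]
    exact hp4 r hr hr'
  · intro r hr hr' hc
    rw [h1] at hc
    exact h (hc.symm.trans (h2 r hr hr'))

/-- an entry uses two door vertices -/
lemma entry (T : Tight t κ n c a) (hκ : 2 ≤ κ) (h0 : ∀ j < κ, c j = c 0) {j : ℕ}
    (h : st κ c j ≠ st κ c (j + 1)) :
    ∃ f g, f < g ∧ g ≤ j + 2 ∧ c f = st κ c (j + 1) ∧ c g = st κ c (j + 1) ∧
      a f (st κ c j) ∧ a g (st κ c j) ∧
      (∀ i, i < j → st κ c i ≠ st κ c j → i < f) := by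
  obtain ⟨h1, h2, h3, h4⟩ := T.change hκ h
  obtain ⟨e, he, h5, h6⟩ := T.stay hκ h0 j
  have hbar : ∀ r, e ≤ r → r < e + κ → c r ≠ st κ c (j + 1) := by
    intro r hr hr' hc
    exact h ((h5 r hr hr').symm.trans hc)
  have hje : e + κ ≤ j + 1 := by
    by_contra hcon
    exact hbar (j + 1) (by omega) (by omega) (h2 (j + 1) (by omega) (by omega))
  obtain ⟨f, hf1, hf2, hf3, hf4, hf5⟩ := descL hbar (j + 1) hje (h2 (j + 1) (by omega) (by omega))
  have haf : a f (st κ c j) := by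
    refine T.left1 (by omega) ?_ ?_
    · intro r hr hr'
      rw [hf3]
      exact hf4 r hr hr'
    · obtain ⟨y, hy, hy2⟩ := st_mem (by omega : 1 ≤ κ) c (f - κ)
      rw [h6 (f - κ) (by omega) (by omega)] at hy2
      exact ⟨f - κ + y, by omega, by omega, hy2⟩
  obtain ⟨g, hg1, hg2, hg3, hg4, hg5⟩ : ∃ g, f < g ∧ g ≤ j + 2 ∧ g ≤ f + κ ∧
      c g = st κ c (j + 1) ∧ ∀ r, f < r → r < g → c r ≠ st κ c (j + 1) := by
    rcases hf5 with hf5 | ⟨g, hg1, hg2, hg3, hg4, hg5⟩
    · exact ⟨j + 2, by omega, le_rfl, by omega, h2 (j + 2) (by omega) (by omega),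
        fun r hr hr' => by omega⟩
    · exact ⟨g, hg1, by omega, hg3, hg4, hg5⟩
  refine ⟨f, g, hg1, hg2, hf3, hg4, haf, ?_, ?_⟩
  · refine T.left2 hκ (by omega) hg1 hg3 (hg4.trans hf3.symm) ?_ ?_ haf
    · intro r hr hr'
      rw [hf3]
      exact hg5 r hr hr'
    · intro r hr hr'
      rw [hf3]
      exact hf4 r hr hr'
  · intro i hi hne
    by_contra hcon
    exact hne (h6 i (by omega) (by omega))

/-- blob far from a given one -/
lemma exists_far {t : ℕ} (h7 : 7 ≤ t) (u : ℕ) (hu : u < 4 * t) : ∃ v < 4 * t, far t u v := by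
  rcases Nat.lt_or_ge (u / 4) (t - 3) with h | h
  · exact ⟨u + 12, by omega, by unfold far; omega⟩
  · exact ⟨u - 12, by omega, by unfold far; omega⟩

/-- the state changes within any period -/
lemma leave (T : Tight t κ n c a) (hκ : 2 ≤ κ) (h7 : 7 ≤ t) (i : ℕ) :
    ∃ i', i ≤ i' ∧ i' < i + n ∧ st κ c i' ≠ st κ c i := by
  have hlt : st κ c i < 4 * t := by
    obtain ⟨j, _, hj⟩ := st_mem (by omega : 1 ≤ κ) c i
    rw [← hj]; exact T.lt _
  obtain ⟨v, hv, hfar⟩ := exists_far h7 _ hlt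
  obtain ⟨x, hx1, hx2, hx3, _⟩ := T.core v hv i
  refine ⟨x, hx1, hx2, fun hcon => ?_⟩
  obtain ⟨j, hj, hj2⟩ := st_mem (by omega : 1 ≤ κ) c x
  rw [hcon] at hj2
  have hne : c (x + j) ≠ c x := by
    rw [hj2, hx3]
    exact far_ne hfar
  have := (T.two (i := x) (r1 := x + j) (r2 := x) (by omega) (by omega) le_rfl (by omega) hne).1
  rw [hj2, hx3] at this
  exact far_not_adj hfar this

/-- every blob is a state -/
lemma visit (T : Tight t κ n c a) (hκ : 2 ≤ κ) (h7 : 7 ≤ t) (h0 : ∀ j < κ, c j = c 0)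
    (hn : 0 < n) (u : ℕ) (hu : u < 4 * t) : ∃ i < n, st κ c i = u := by
  by_contra hcon
  push Not at hcon
  have hper := st_per (by omega : 1 ≤ κ) c T.per h0
  have hnever : ∀ i, st κ c i ≠ u := by
    intro i
    have h1 : st κ c i = st κ c (i % n) := by
      have h2 : ∀ q r, st κ c (r + n * q) = st κ c r := by
        intro q
        induction q with
        | zero => intro r; simp
        | succ q ih =>
          intro r
          rw [show r + n * (q + 1) = (r + n * q) + n by ring, hper, ih]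
      have h3 := h2 (i / n) (i % n)
      rw [Nat.mod_add_div] at h3
      exact h3
    rw [h1]
    exact hcon _ (Nat.mod_lt _ hn)
  obtain ⟨x, hx1, hx2, hx3, hx4⟩ := T.core u hu 0
  obtain ⟨w, hw⟩ : ∃ w, w = st κ c x := ⟨_, rfl⟩
  have hwu : w ≠ u := by rw [hw]; exact hnever x
  obtain ⟨e, he, h5, h6⟩ := T.stay hκ h0 x
  rw [← hw] at h5 h6
  -- next exit
  obtain ⟨E, hE1, hE2, hE3⟩ : ∃ E, x ≤ E ∧ st κ c E ≠ st κ c (E + 1) ∧
      ∀ i, x ≤ i → i ≤ E → st κ c i = w := by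
    obtain ⟨i', hi1, hi2, hi3⟩ := T.leave hκ h7 x
    have hP : ∃ i, x ≤ i ∧ st κ c i ≠ w := ⟨i', hi1, by rw [hw]; exact hi3⟩
    classical
    have hf1 := Nat.find_spec hP
    have hf2 := fun m (hm : m < Nat.find hP) => Nat.find_min hP hm
    obtain ⟨F, hF⟩ : ∃ F, F = Nat.find hP := ⟨_, rfl⟩
    rw [← hF] at hf1 hf2
    have hFx : x < F := by
      rcases Nat.lt_or_ge x F with h | h
      · exact h
      · exfalso
        have : F = x := by omega
        rw [this] at hf1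
        exact hf1.2 hw.symm
    have hall : ∀ i, x ≤ i → i ≤ F - 1 → st κ c i = w := by
      intro i hi hi'
      by_contra h
      exact hf2 i (by omega) ⟨hi, h⟩
    refine ⟨F - 1, by omega, ?_, hall⟩
    rw [hall (F - 1) (by omega) le_rfl, Nat.sub_add_cancel (by omega)]
    exact fun h => hf1.2 h.symm
  have hwE : ∀ i, e ≤ i → i ≤ E → st κ c i = w := by
    intro i hi hi'
    rcases Nat.lt_or_ge i x with h | h
    · exact h6 i hi (by omega)
    · exact hE3 i h hi'
  have hEn : E < e + n := by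
    obtain ⟨i', hi1, hi2, hi3⟩ := T.leave hκ h7 e
    by_contra h
    exact hi3 ((hwE i' hi1 (by omega)).trans (hwE e le_rfl (by omega)).symm)
  obtain ⟨g1, g2, g3, g4⟩ := T.change hκ hE2
  rw [hwE E (by omega) le_rfl] at g1
  -- left end
  have hbarL : ∀ r, e ≤ r → r < e + κ → c r ≠ u := by
    intro r hr hr'
    rw [h5 r hr hr']
    exact hwu
  have hxe : e + κ ≤ x := by
    by_contra h
    exact hbarL x he (by omega) hx3
  obtain ⟨f, hf1, hf2, hf3, hf4, hf5⟩ := descL hbarL x hxe hx3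
  have haf : a f w := by
    refine T.left1 (by omega) ?_ ?_
    · intro r hr hr'
      rw [hf3]
      exact hf4 r hr hr'
    · obtain ⟨y, hy, hy2⟩ := st_mem (by omega : 1 ≤ κ) c (f - κ)
      rw [hwE (f - κ) (by omega) (by omega)] at hy2
      exact ⟨f - κ + y, by omega, by omega, hy2⟩
  obtain ⟨g, hg1, hg2, hg3, hg4, hg5⟩ : ∃ g, f < g ∧ g ≤ x ∧ g ≤ f + κ ∧ c g = u ∧
      ∀ r, f < r → r < g → c r ≠ u := by
    rcases hf5 with hf5 | hf5
    · rw [hf5] at haf
      exact absurd haf (hx4 w)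
    · exact hf5
  have hag : a g w := by
    refine T.left2 hκ (by omega) hg1 hg3 (hg4.trans hf3.symm) ?_ ?_ haf
    · intro r hr hr'
      rw [hf3]
      exact hg5 r hr hr'
    · intro r hr hr'
      rw [hf3]
      exact hf4 r hr hr'
  have hgx : g ≠ x := by
    rintro rfl
    exact hx4 w hag
  -- right end
  have hbarR : ∀ r, E < r → r ≤ E + κ → c r ≠ u := by
    intro r hr hr'
    rw [g2 r hr hr']
    exact hnever _
  obtain ⟨q, hq1, hq2, hq3, hq4, hq5⟩ := ascR hbarR (E - x) x (by omega) hx3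
  have hqE : q < E := by
    rcases Nat.lt_or_ge q E with h | h
    · exact h
    · exfalso
      have : q = E := by omega
      rw [this, g1] at hq3
      exact hwu hq3
  have haq : a q w := by
    refine (T.right1 (q := q) ?_ ?_).1
    · intro r hr hr'
      rw [hq3]
      exact hq4 r hr hr'
    · obtain ⟨y, hy, hy2⟩ := st_mem (by omega : 1 ≤ κ) c (q + 1)
      rw [hwE (q + 1) (by omega) (by omega)] at hy2
      exact ⟨q + 1 + y, by omega, by omega, hy2⟩
  obtain ⟨p, hp1, hp2, hp3, hp4, hp5⟩ : ∃ p, x ≤ p ∧ p < q ∧ q ≤ p + κ ∧ c p = u ∧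
      ∀ r, p < r → r < q → c r ≠ u := by
    rcases hq5 with hq5 | hq5
    · rw [hq5] at haq
      exact absurd haq (hx4 w)
    · exact hq5
  have hap : a p w := by
    refine T.right2 hκ hp2 hp3 (hp4.trans hq3.symm) ?_ ?_ haq
    · intro r hr hr'
      rw [hq3]
      exact hp5 r hr hr'
    · intro r hr hr'
      rw [hq3]
      exact hq4 r hr hr'
  have hpx : p ≠ x := by
    rintro rfl
    exact hx4 w hap
  exact T.door u w f g p q hg1 (by omega) hp2 (by omega) hf3 hg4 hp4 hq3 haf hag hap haq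

/-- main contradiction, when the start is pure -/
theorem contra0 (T : Tight t κ n c a) (hNW : NoWalk t) (hκ : 2 ≤ κ) (h7 : 7 ≤ t)
    (hn : 2 * κ + 6 ≤ n) (h0 : ∀ j < κ, c j = c 0) : False := by
  have hper := st_per (by omega : 1 ≤ κ) c T.per h0
  refine hNW n (st κ c) ?_ ?_ ?_ ?_ ?_
  · intro i _
    obtain ⟨j, _, hj⟩ := st_mem (by omega : 1 ≤ κ) c i
    rw [← hj]; exact T.lt _
  · have := hper 0
    rwa [Nat.zero_add] at this
  · intro i _
    by_cases h : st κ c i = st κ c (i + 1)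
    · exact Or.inl h
    · exact Or.inr (T.change hκ h).2.2.1
  · intro i j hij hj hne hor
    rcases hor with ⟨h1, h2⟩ | ⟨h1, h2⟩
    · -- same direction
      have hne' : st κ c j ≠ st κ c (j + 1) := by rw [← h1, ← h2]; exact hne
      obtain ⟨p, hp1, hp2, hp3, hp4, hp5⟩ := T.exit hκ h0 hne
      obtain ⟨p', hp1', hp2', hp3', hp4', hp5'⟩ := T.exit hκ h0 hne'
      obtain ⟨e1, e2, e3, e4⟩ := T.change hκ hne
      obtain ⟨e1', e2', e3', e4'⟩ := T.change hκ hne'
      rw [← h1] at e1' hp3' hp5'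
      rw [← h2] at e4' hp4'
      have hip : i < p' := by
        by_contra hcon
        rcases Nat.lt_or_ge p' i with h | h
        · exact hp5' i h hij e1
        · have hpi : p' = i := by omega
          rw [hpi] at hp2'
          exact hne (e1'.symm.trans (e2 j hij hp2'))
      exact T.door _ _ p i p' j hp1 hip hp1' (by omega) hp3 e1 hp3' e1' hp4 e4 hp4' e4'
    · -- opposite directions
      have hne' : st κ c j ≠ st κ c (j + 1) := by rw [← h1, ← h2]; exact hne.symm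
      obtain ⟨p, hp1, hp2, hp3, hp4, hp5⟩ := T.exit hκ h0 hne
      obtain ⟨f, g, hf1, hf2, hf3, hf4, hf5, hf6, hf7⟩ := T.entry hκ h0 hne'
      obtain ⟨e1, e2, e3, e4⟩ := T.change hκ hne
      have hif := hf7 i hij (by rw [← h2]; exact hne)
      rcases Nat.lt_or_ge g (p + n) with hg | hg
      · rw [← h1] at hf3 hf4
        rw [← h2] at hf5 hf6
        exact T.door _ _ p i f g hp1 hif hf1 hg hp3 e1 hf3 hf4 hp4 e4 hf5 hf6
      · -- use the other blob
        obtain ⟨p', hp1', hp2', hp3', hp4', hp5'⟩ := T.exit hκ h0 hne'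
        obtain ⟨f', g', hf1', hf2', hf3', hf4', hf5', hf6', hf7'⟩ := T.entry hκ h0 hne
        obtain ⟨e1', e2', e3', e4'⟩ := T.change hκ hne'
        rw [← h2] at e1' hp3'
        rw [← h1] at e4' hp4'
        exact T.door _ _ f' g' p' j hf1' (by omega) hp1' (by omega) hf3' hf4' hp3' e1' hf5' hf6'
          hp4' e4'
  · intro u hu
    exact T.visit hκ h7 h0 (by omega) u hu

/-- shifting -/
lemma shift (T : Tight t κ n c a) (s : ℕ) :
    Tight t κ n (fun p => c (p + s)) (fun p w => a (p + s) w) where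
  per := fun p => by
    show c (p + n + s) = c (p + s)
    rw [show p + n + s = (p + s) + n by omega]
    exact T.per _
  aper := fun p w => by
    show a (p + n + s) w ↔ a (p + s) w
    rw [show p + n + s = (p + s) + n by omega]
    exact T.aper _ _
  lt := fun p => T.lt _
  win := fun i => by
    have hD : ∀ u v, Dr κ c a (i + s) u v →
        Dr κ (fun p => c (p + s)) (fun p w => a (p + s) w) i u v := by
      intro u v h p q h1 h2 h3 h4 h5 h6
      refine h (p + s) (q + s) (by omega) (by omega) (by omega) h4 h5 ?_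
      intro r hr hr' hc
      have := h6 (r - s) (by omega) (by omega) (by
        show c (r - s + s) = u
        rw [Nat.sub_add_cancel (by omega)]; exact hc)
      omega
    rcases T.win (i + s) with h | ⟨u, v, huv, h1, h2, h3⟩
    · left
      intro r hr hr'
      exact h (r + s) (by omega) (by omega)
    · right
      exact ⟨u, v, huv, fun r hr hr' => h1 (r + s) (by omega) (by omega), hD _ _ h2, hD _ _ h3⟩
  door := fun v w p1 p2 p3 p4 h1 h2 h3 h4 c1 c2 c3 c4 a1 a2 a3 a4 =>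
    T.door v w (p1 + s) (p2 + s) (p3 + s) (p4 + s) (by omega) (by omega) (by omega) (by omega)
      c1 c2 c3 c4 a1 a2 a3 a4
  dis := fun p w w' h h' => T.dis _ _ _ h h'
  core := fun u hu i => by
    obtain ⟨x, hx1, hx2, hx3, hx4⟩ := T.core u hu (i + s)
    refine ⟨x - s, by omega, by omega, ?_, ?_⟩
    · show c (x - s + s) = u
      rw [Nat.sub_add_cancel (by omega)]; exact hx3
    · intro w
      show ¬ a (x - s + s) w
      rw [Nat.sub_add_cancel (by omega)]; exact hx4 w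

theorem contra (T : Tight t κ n c a) (hNW : NoWalk t) (hκ : 2 ≤ κ) (h7 : 7 ≤ t)
    (hn : 2 * κ + 6 ≤ n) : False := by
  -- a pure position
  obtain ⟨v, hv⟩ : ∃ v, v = c 0 := ⟨_, rfl⟩
  have hvlt : v < 4 * t := by rw [hv]; exact T.lt _
  obtain ⟨y, hy, hfar⟩ := exists_far h7 v hvlt
  obtain ⟨x, hx1, hx2, hx3, _⟩ := T.core y hy 1
  have hno : ∀ r, x ≤ r → r ≤ x + κ → c r ≠ v := by
    intro r hr hr' hc
    have hne : c r ≠ c x := by rw [hc, hx3]; exact far_ne hfar
    have := (T.two (i := x) hr hr' le_rfl (by omega) hne).1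
    rw [hc, hx3] at this
    exact far_not_adj hfar this
  -- the last v before x
  obtain ⟨q, hq1, hq2, hq3⟩ : ∃ q, q < x ∧ c q = v ∧ ∀ r, q < r → r < x → c r ≠ v := by
    have hP : ∃ m, m < x ∧ c (x - 1 - m) = v := ⟨x - 1, by omega, by
      rw [show x - 1 - (x - 1) = 0 by omega, hv]⟩
    classical
    refine ⟨x - 1 - Nat.find hP, ?_, (Nat.find_spec hP).2, ?_⟩
    · omega
    · intro r hr1 hr2 hr3
      have h7 := (Nat.find_spec hP).1
      refine Nat.find_min hP (m := x - 1 - r) (by omega) ⟨by omega, ?_⟩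
      rw [show x - 1 - (x - 1 - r) = r by omega]
      exact hr3
  have hq4 : ∀ r, q < r → r ≤ q + κ → c r ≠ c q := by
    intro r hr hr'
    rw [hq2]
    rcases Nat.lt_or_ge r x with h | h
    · exact hq3 r hr h
    · exact hno r h (by omega)
  obtain ⟨_, h2, _⟩ := T.right1 hq4 ⟨q + 1, by omega, by omega, rfl⟩
  refine (T.shift (q + 1)).contra0 hNW hκ h7 hn ?_
  intro j hj
  show c (j + (q + 1)) = c (0 + (q + 1))
  rw [h2 (j + (q + 1)) (by omega) (by omega), h2 (0 + (q + 1)) (by omega) (by omega)]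

end Tight

end Pool.Agent.KS6_67.Sat
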